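import Pool.Agent.H986R2.K4.Spec

set_option autoImplicit false

namespace Pool.Agent.H986R2.K4

namespace A1Aux

open Complex Filter Topology ArithmeticFunction

/-- Uniform bound for an L-series on a half plane of absolute convergence. -/
lemma bound (f : ℕ → ℂ) (σ : ℝ) (hf : LSeriesSummable f (σ : ℂ)) :
    ∃ C : ℝ, 1 ≤ C ∧ ∀ s : ℂ, σ ≤ s.re → ‖LSeries f s‖ ≤ C := by
  refine ⟨max 1 (∑' n, ‖LSeries.term f (σ : ℂ) n‖), le_max_left _ _, fun s hs => ?_⟩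
  refine le_trans ?_ (le_max_right _ _)
  have hle : ∀ n, ‖LSeries.term f s n‖ ≤ ‖LSeries.term f (σ : ℂ) n‖ := fun n =>
    LSeries.norm_term_le_of_re_le_re f (by simpa using hs) n
  have hs1 : Summable (fun n => ‖LSeries.term f (σ : ℂ) n‖) := hf.norm
  have hs2 : Summable (fun n => ‖LSeries.term f s n‖) :=
    Summable.of_nonneg_of_le (fun _ => norm_nonneg _) hle hs1
  calc ‖LSeries f s‖ ≤ ∑' n, ‖LSeries.term f s n‖ := norm_tsum_le_tsum_norm hs2
    _ ≤ ∑' n, ‖LSeries.term f (σ : ℂ) n‖ := hs2.tsum_le_tsum hle hs1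

end A1Aux

open A1Aux in
theorem a1 : S_A1 := by
  intro ε hε
  have h1σ : (1 : ℝ) < ((1 + ε : ℝ) : ℂ).re := by simp; linarith
  obtain ⟨C1, hC1, hb1⟩ := bound 1 (1 + ε) (LSeriesSummable_one_iff.mpr h1σ)
  obtain ⟨C2, hC2, hb2⟩ := bound (fun n => ((ArithmeticFunction.moebius n : ℤ) : ℂ)) (1 + ε)
    (ArithmeticFunction.LSeriesSummable_moebius_iff.mpr h1σ)
  obtain ⟨C3, hC3, hb3⟩ := bound (fun n => ((ArithmeticFunction.vonMangoldt n : ℝ) : ℂ)) (1 + ε)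
    (ArithmeticFunction.LSeriesSummable_vonMangoldt h1σ)
  -- choose t1
  obtain ⟨t0, ht0⟩ : ∃ t0 : ℝ, ∀ t : ℝ, t0 ≤ t → C3 ≤ ε * Real.log t ∧ C1 ≤ t ^ ε ∧ C2 ≤ t ^ ε := by
    have e1 : ∀ᶠ t : ℝ in Filter.atTop, C3 ≤ ε * Real.log t :=
      (Real.tendsto_log_atTop.const_mul_atTop hε).eventually_ge_atTop C3
    have e2 : ∀ᶠ t : ℝ in Filter.atTop, C1 ≤ t ^ ε :=
      (tendsto_rpow_atTop hε).eventually_ge_atTop C1
    have e3 : ∀ᶠ t : ℝ in Filter.atTop, C2 ≤ t ^ ε :=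
      (tendsto_rpow_atTop hε).eventually_ge_atTop C2
    obtain ⟨t0, h⟩ := Filter.eventually_atTop.mp (e1.and (e2.and e3))
    exact ⟨t0, fun t ht => h t ht⟩
  refine ⟨max 2 t0, le_max_left _ _, fun s hs ht => ?_⟩
  have hre : 1 + ε ≤ s.re := by linarith
  have hre1 : 1 < s.re := by linarith
  have ht2 : 2 ≤ s.im := le_trans (le_max_left _ _) ht
  have htpos : 0 < s.im := by linarith
  obtain ⟨g3, g1, g2⟩ := ht0 s.im (le_trans (le_max_right _ _) ht)
  have hz : riemannZeta s ≠ 0 := riemannZeta_ne_zero_of_one_lt_re hre1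
  have hb1' := hb1 s hre
  have hb2' := hb2 s hre
  have hb3' := hb3 s hre
  rw [LSeries_one_eq_riemannZeta hre1] at hb1'
  have hmul := ArithmeticFunction.LSeries_zeta_mul_Lseries_moebius hre1
  rw [ArithmeticFunction.LSeries_zeta_eq_riemannZeta hre1] at hmul
  rw [ArithmeticFunction.LSeries_vonMangoldt_eq_deriv_riemannZeta_div hre1] at hb3'
  refine ⟨hz, ?_, ?_, hb1'.trans g1⟩
  · refine le_trans ?_ g3
    rw [logDeriv_apply]
    calc ‖deriv riemannZeta s / riemannZeta s‖ = ‖-deriv riemannZeta s / riemannZeta s‖ := by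
          rw [neg_div, norm_neg]
      _ ≤ C3 := hb3'
  · have hn : ‖riemannZeta s‖ * ‖LSeries (fun n => ((ArithmeticFunction.moebius n : ℤ) : ℂ)) s‖ = 1 := by
      rw [← norm_mul, hmul, norm_one]
    have hzpos : 0 < ‖riemannZeta s‖ := norm_pos_iff.mpr hz
    have hT : 0 < s.im ^ ε := Real.rpow_pos_of_pos htpos _
    rw [Real.rpow_neg htpos.le, inv_le_comm₀ hT hzpos]
    have h2 : ‖riemannZeta s‖⁻¹ = ‖LSeries (fun n => ((ArithmeticFunction.moebius n : ℤ) : ℂ)) s‖ := by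
      exact (eq_inv_of_mul_eq_one_right hn).symm
    rw [h2]
    exact hb2'.trans g2

end Pool.Agent.H986R2.K4
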