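import Pool.Agent.H986R2.K4.Spec
import Pool.Agent.H24R2.JP.Zeta

set_option autoImplicit false

/-! Control of zeta to the right of `1/2 + y` from a zero-free half-plane. -/

namespace Pool.Agent.H986R2.K4

open Complex Filter Topology

namespace A2Aux

lemma exp_two_log (t : ℝ) (ht : 0 < t) : Real.exp (2 * Real.log t) = t * t := by
  rw [two_mul, Real.exp_add, Real.exp_log ht]

lemma exp_mul_log (t a : ℝ) (ht : 0 < t) : Real.exp (a * Real.log t) = t ^ a := by
  rw [Real.rpow_def_of_pos ht, mul_comm]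

lemma exp_neg_mul_log (t a : ℝ) (ht : 0 < t) : Real.exp (-(a * Real.log t)) = t ^ (-a) := by
  rw [Real.rpow_def_of_pos ht]
  congr 1
  ring

/-- upper bound for zeta -/
lemma zeta_up (K : ℝ) (hK1 : 1 ≤ K)
    (hK : ∀ (s : ℂ) (M : ℕ), 1 / 2 ≤ s.re → 1 ≤ s.im → 1 ≤ M →
      ‖riemannZeta s - ∑ m ∈ Finset.Icc 1 M, (m : ℂ) ^ (-s)‖ ≤ K * ‖s‖ * (M : ℝ) ^ (1 - s.re))
    (s : ℂ) (t : ℝ) (h1 : 1 / 2 ≤ s.re) (h2 : s.re ≤ 11) (h3 : |s.im - t| ≤ 10) (ht : 21 ≤ t)
    (htK : 3 * K ≤ t) : ‖riemannZeta s‖ ≤ t * t := by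
  have h4 := abs_le.mp h3
  have h5 := hK s 1 h1 (by linarith) le_rfl
  simp only [Finset.Icc_self, Finset.sum_singleton, Nat.cast_one, Complex.one_cpow,
    Real.one_rpow, mul_one] at h5
  have h6 : ‖s‖ ≤ t + 21 := by
    have := Complex.norm_le_abs_re_add_abs_im s
    rw [abs_of_nonneg (by linarith : (0 : ℝ) ≤ s.re),
      abs_of_nonneg (by linarith : (0 : ℝ) ≤ s.im)] at this
    linarith
  have h7 : ‖riemannZeta s‖ ≤ K * ‖s‖ + 1 := by
    calc ‖riemannZeta s‖ = ‖(riemannZeta s - 1) + 1‖ := by rw [sub_add_cancel]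
      _ ≤ ‖riemannZeta s - 1‖ + ‖(1 : ℂ)‖ := norm_add_le _ _
      _ ≤ K * ‖s‖ + 1 := by
        rw [norm_one]
        linarith
  have h8 : K * ‖s‖ ≤ K * (t + 21) := mul_le_mul_of_nonneg_left h6 (by linarith)
  nlinarith

end A2Aux

open A2Aux

theorem a2 (h : S_SAB) (h1 : S_A1) : S_A2 := by
  intro y hy0 hy1 hz ε hε
  obtain ⟨K, hK1, hK⟩ := Pool.Agent.H24R2.JP.zetaS.2
  obtain ⟨ε1, hε1, hS⟩ := h (min ε (1 / 4)) ε 2 (lt_min hε (by norm_num)) (min_le_right _ _) hε
    (by norm_num)
  obtain ⟨tA, htA2, hA⟩ := h1 (min (ε1 / 2) (1 / 2)) (lt_min (by linarith) (by norm_num))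
  obtain ⟨tB, htB2, hB⟩ := h1 (min ε 1) (lt_min hε (by norm_num))
  refine ⟨max (max (tA + 10) tB) (max 21 (3 * K)), ?_, ?_⟩
  · exact htB2.trans ((le_max_right _ _).trans (le_max_left _ _))
  intro s hs ht
  have ht21 : 21 ≤ s.im := (le_max_left _ _).trans ((le_max_right _ _).trans ht)
  have htK : 3 * K ≤ s.im := (le_max_right _ _).trans ((le_max_right _ _).trans ht)
  have htA : tA + 10 ≤ s.im := (le_max_left _ _).trans ((le_max_left _ _).trans ht)
  have htB : tB ≤ s.im := (le_max_right _ _).trans ((le_max_left _ _).trans ht)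
  have ht0 : 0 < s.im := by linarith
  by_cases hbig : s.re - (1 / 2 + y) ≤ 3
  · have hL : 1 ≤ Real.log s.im := by
      rw [Real.le_log_iff_exp_le ht0]
      have := Real.exp_one_lt_d9
      linarith
    set c : ℂ := ((1 / 2 + y : ℝ) : ℂ) + (s.im : ℂ) * I with hc
    have hcre : ∀ u : ℂ, (c + u).re = 1 / 2 + y + u.re := by
      intro u
      simp [hc]
    have hcim : ∀ u : ℂ, (c + u).im = s.im + u.im := by
      intro u
      simp [hc]
    have hsc : c + ((s.re - (1 / 2 + y) : ℝ) : ℂ) = s := by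
      apply Complex.ext
      · rw [hcre, Complex.ofReal_re]
        ring
      · rw [hcim, Complex.ofReal_im]
        ring
    have P1 : ∀ u : ℂ, 0 < u.re → u.re ≤ 10 → |u.im| ≤ 10 →
        DifferentiableAt ℂ (fun u => riemannZeta (c + u)) u ∧ riemannZeta (c + u) ≠ 0 ∧
          ‖riemannZeta (c + u)‖ ≤ Real.exp (2 * Real.log s.im) := by
      intro u hu1 hu2 hu3
      have hu4 := abs_le.mp hu3
      refine ⟨?_, ?_, ?_⟩
      · have hne : c + u ≠ 1 := by
          intro he
          have := congrArg Complex.im he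
          rw [hcim, Complex.one_im] at this
          linarith
        have hd := differentiableAt_riemannZeta hne
        exact hd.comp u ((differentiableAt_const c).add differentiableAt_id)
      · apply hz
        rw [hcre]
        linarith
      · rw [exp_two_log _ ht0]
        apply zeta_up K hK1 hK
        · rw [hcre]; linarith
        · rw [hcre]; linarith
        · rw [hcim, add_sub_cancel_left]; exact hu3
        · exact ht21
        · exact htK
    have P2 : ∀ u : ℂ, 3 / 2 ≤ u.re → u.re ≤ 10 → |u.im| ≤ 10 →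
        Real.exp (-(ε1 * Real.log s.im)) ≤ ‖riemannZeta (c + u)‖ ∧
          ‖riemannZeta (c + u)‖ ≤ Real.exp (ε1 * Real.log s.im) := by
      intro u hu1 hu2 hu3
      have hu4 := abs_le.mp hu3
      obtain ⟨-, -, h3, h4⟩ := hA (c + u)
        (by rw [hcre]; have := min_le_right (ε1 / 2) (1 / 2 : ℝ); linarith)
        (by rw [hcim]; linarith)
      rw [hcim] at h3 h4
      rw [exp_mul_log _ _ ht0, exp_neg_mul_log _ _ ht0]
      have hv1 : 1 ≤ s.im + u.im := by linarith
      have hv2 : s.im + u.im ≤ s.im ^ (2 : ℝ) := by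
        rw [Real.rpow_two]
        nlinarith
      have hmin := min_le_left (ε1 / 2) (1 / 2 : ℝ)
      have hpow : (s.im + u.im) ^ (ε1 / 2) ≤ s.im ^ ε1 := by
        calc (s.im + u.im) ^ (ε1 / 2) ≤ (s.im ^ (2 : ℝ)) ^ (ε1 / 2) :=
              Real.rpow_le_rpow (by linarith) hv2 (by linarith)
          _ = s.im ^ ε1 := by
              rw [← Real.rpow_mul ht0.le]
              congr 1
              ring
      constructor
      · refine le_trans ?_ h3
        calc s.im ^ (-ε1) = (s.im ^ ε1)⁻¹ := Real.rpow_neg ht0.le _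
          _ ≤ ((s.im + u.im) ^ (ε1 / 2))⁻¹ :=
              inv_anti₀ (Real.rpow_pos_of_pos (by linarith) _) hpow
          _ = (s.im + u.im) ^ (-(ε1 / 2)) := (Real.rpow_neg (by linarith) _).symm
          _ ≤ (s.im + u.im) ^ (-(min (ε1 / 2) (1 / 2))) :=
              Real.rpow_le_rpow_of_exponent_le hv1 (by linarith)
      · refine h4.trans (le_trans ?_ hpow)
        exact Real.rpow_le_rpow_of_exponent_le hv1 hmin
    have key := hS (Real.log s.im) (fun u => riemannZeta (c + u)) hL P1 P2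
      ((s.re - (1 / 2 + y) : ℝ) : ℂ)
      (by
        rw [Complex.ofReal_re]
        have := min_le_left ε (1 / 4 : ℝ)
        linarith)
      (by rw [Complex.ofReal_re]; exact hbig)
      (by rw [Complex.ofReal_im, abs_zero]; norm_num)
    have hlog : logDeriv (fun u => riemannZeta (c + u)) ((s.re - (1 / 2 + y) : ℝ) : ℂ) =
        logDeriv riemannZeta s := by
      rw [logDeriv_apply, logDeriv_apply, deriv_comp_const_add, hsc]
    rw [hlog, exp_mul_log _ _ ht0, exp_neg_mul_log _ _ ht0] at key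
    simp only [hsc] at key
    refine ⟨hz s (by linarith), key.1, key.2.1, key.2.2⟩
  · have hre : 1 / 2 + 1 / 2 + min ε 1 ≤ s.re := by
      have := min_le_right ε (1 : ℝ)
      push Not at hbig
      linarith
    obtain ⟨k1, k2, k3, k4⟩ := hB s hre htB
    have hmin := min_le_left ε (1 : ℝ)
    have hlog0 : 0 ≤ Real.log s.im := Real.log_nonneg (by linarith)
    refine ⟨k1, k2.trans (mul_le_mul_of_nonneg_right hmin hlog0), ?_, ?_⟩
    · exact (Real.rpow_le_rpow_of_exponent_le (by linarith) (by linarith)).trans k3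
    · exact k4.trans (Real.rpow_le_rpow_of_exponent_le (by linarith) hmin)

end Pool.Agent.H986R2.K4
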