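import Pool.Agent.H986R2.K4.Spec
import Pool.Agent.H156R2.DZArc

set_option autoImplicit false

namespace Pool.Agent.H986R2.K4

namespace AWAux

open Complex Filter Topology MeasureTheory Set
open Pool.Agent.H156R2.DZArc (growth growF hasDeriv_Q gg gg_norm gg_cont cauchy_gg)

lemma symm_deriv {F : ℂ → ℂ} {ε : ℂ} (hε : (starRingEnd ℂ) ε = ε) (hd : Differentiable ℂ F)
    (hs : ∀ z : ℂ, F (-((starRingEnd ℂ) z)) = ε * (starRingEnd ℂ) (F z)) (z : ℂ) :
    deriv F (-((starRingEnd ℂ) z)) = (-ε) * (starRingEnd ℂ) (deriv F z) := by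
  -- `F w = ε conj (F (- conj w))`
  have h0 : ∀ w : ℂ, F w = ε * (starRingEnd ℂ) (F (-((starRingEnd ℂ) w))) := by
    intro w
    have := hs (-((starRingEnd ℂ) w))
    simpa using this
  have h1 : HasDerivAt (fun w => F (-w)) (-(deriv F z)) (-z) := by
    have h2 : HasDerivAt F (deriv F z) (-(-z)) := by rw [neg_neg]; exact (hd z).hasDerivAt
    have := HasDerivAt.comp (-z) h2 (hasDerivAt_neg (-z))
    simpa [Function.comp_def] using this
  have h3 := h1.conj_conj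
  have h4 : HasDerivAt (fun w => F w) (ε * (starRingEnd ℂ) (-(deriv F z))) (-((starRingEnd ℂ) z)) := by
    have h5 : (fun w => F w) = fun w => ε * ((⇑(starRingEnd ℂ) ∘ (fun w => F (-w)) ∘ ⇑(starRingEnd ℂ)) w) := by
      funext w
      exact h0 w
    rw [h5]
    have h6 : (starRingEnd ℂ) (-z) = -((starRingEnd ℂ) z) := by simp
    rw [h6] at h3
    exact h3.const_mul ε
  rw [h4.deriv, map_neg]
  ring

lemma symm_iter {F : ℂ → ℂ} (hd : Differentiable ℂ F)
    (hs : ∀ z : ℂ, F (-((starRingEnd ℂ) z)) = (starRingEnd ℂ) (F z)) (n : ℕ) :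
    Differentiable ℂ (iteratedDeriv n F) ∧ ∀ z : ℂ, iteratedDeriv n F (-((starRingEnd ℂ) z)) =
      (-1) ^ n * (starRingEnd ℂ) (iteratedDeriv n F z) := by
  induction n with
  | zero => simpa using ⟨hd, hs⟩
  | succ n ih =>
    rw [iteratedDeriv_succ]
    refine ⟨fun w => (ih.1.analyticAt w).deriv.differentiableAt, fun z => ?_⟩
    rw [symm_deriv (by simp) ih.1 ih.2 z, pow_succ]
    ring

lemma convex_far (κ R : ℝ) : Convex ℝ ({w : ℂ | 1 - κ ≤ w.re} ∩ Metric.closedBall 0 R) :=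
  (convex_halfSpace_re_ge (1 - κ)).inter (convex_closedBall _ _)

lemma exp_I_re (φ : ℝ) : (cexp (φ * I)).re = Real.cos φ := by
  rw [Complex.exp_ofReal_mul_I_re]

lemma cos_arc {φ s : ℝ} (hs : 0 ≤ s) (h1 : s ≤ |φ|) (h2 : |φ| ≤ Real.pi) :
    Real.cos φ - 1 ≤ -(s ^ 2 / 5) := by
  have h3 := Real.cos_le_one_sub_mul_cos_sq h2
  have h4 : s ^ 2 ≤ φ ^ 2 := by
    rw [← sq_abs φ]; exact pow_le_pow_left₀ hs h1 2
  have hpi : Real.pi ^ 2 ≤ 10 := by
    have := Real.pi_lt_d2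
    have := Real.pi_pos
    nlinarith
  have hpi0 : 0 < Real.pi ^ 2 := by have := Real.pi_pos; positivity
  have h5 : 1 / 5 ≤ 2 / Real.pi ^ 2 := by
    rw [div_le_div_iff₀ (by norm_num) hpi0]; linarith
  have h6 : 1 / 5 * s ^ 2 ≤ 2 / Real.pi ^ 2 * φ ^ 2 :=
    mul_le_mul h5 h4 (sq_nonneg _) (by positivity)
  linarith

/-- size of the logarithmic derivative of the integrand near the saddle -/
lemma logQ_le {n : ℕ} {η s : ℝ} {p w : ℂ} {F : ℂ → ℂ} (hs : 0 < s) (hs1 : s ≤ 1 / 10)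
    (hη1 : η ≤ s / 100) (hn : 100 / s ≤ n)
    (hw : ‖w - (p + 1)‖ ≤ 1001 / 1000 * s) (h3 : ‖logDeriv F w - n‖ ≤ η * n) :
    ‖logDeriv F w - (n + 1) / (w - p)‖ ≤ 5 / 4 * s * n := by
  have hn' : (100 : ℝ) ≤ s * n := by
    rw [div_le_iff₀ hs] at hn; linarith
  have hn0 : (0 : ℝ) ≤ n := Nat.cast_nonneg _
  obtain ⟨ζ, hζ⟩ : ∃ ζ, ζ = w - (p + 1) := ⟨_, rfl⟩
  rw [← hζ] at hw
  have e1 : w - p = 1 + ζ := by rw [hζ]; ring
  have h4 : 8999 / 10000 ≤ ‖1 + ζ‖ := by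
    have := norm_sub_norm_le (1 : ℂ) (-ζ)
    rw [norm_one, norm_neg, sub_neg_eq_add] at this
    linarith
  have h5 : (1 + ζ) ≠ 0 := by
    intro h; rw [h, norm_zero] at h4; linarith
  have e2 : logDeriv F w - (n + 1) / (w - p) = (logDeriv F w - n) + (n * ζ - 1) / (1 + ζ) := by
    rw [e1]; field_simp; ring
  have h6 : ‖((n : ℂ) * ζ - 1) / (1 + ζ)‖ ≤ (n * (1001 / 1000 * s) + 1) / (8999 / 10000) := by
    rw [norm_div]
    refine div_le_div₀ (by positivity) ?_ (by norm_num) h4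
    calc ‖(n : ℂ) * ζ - 1‖ ≤ ‖(n : ℂ) * ζ‖ + ‖(1 : ℂ)‖ := norm_sub_le _ _
      _ ≤ n * (1001 / 1000 * s) + 1 := by
        rw [norm_mul, norm_one, Complex.norm_natCast]
        gcongr
  rw [e2]
  refine (norm_add_le _ _).trans ?_
  have h7 : η * n ≤ s / 100 * n := by gcongr
  have h8 : ((n : ℝ) * (1001 / 1000 * s) + 1) / (8999 / 10000) =
      (s * n) * (10010 / 8999) + 10000 / 8999 := by ring
  rw [h8] at h6
  nlinarith

/-- the value of the primitive changes little along a short segment -/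
lemma seg_le {n : ℕ} {η s ρ A : ℝ} {p a b : ℂ} {F G : ℂ → ℂ} (hs : 0 < s) (hs1 : s ≤ 1 / 10)
    (hρ : 2 * s ≤ ρ) (hρ1 : ρ ≤ 1 / 2) (hη1 : η ≤ s / 100) (hn : 100 / s ≤ n)
    (hF : ∀ w ∈ Metric.ball (p + 1) ρ, DifferentiableAt ℂ F w ∧ F w ≠ 0 ∧
      ‖logDeriv F w - n‖ ≤ η * n)
    (hG : ∀ w ∈ Metric.ball (p + 1) ρ, HasDerivAt G (F w / (w - p) ^ (n + 1)) w)
    (ha : ‖a - (p + 1)‖ ≤ 1001 / 1000 * s) (hb : ‖b - (p + 1)‖ ≤ 1001 / 1000 * s)
    (hab : ‖a - b‖ ≤ 101 / 100 * s ^ 2)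
    (hA : ‖F b / (b - p) ^ (n + 1)‖ ≤ Real.exp (-(n * s ^ 2 / 4)) * A) :
    ‖G a - G b‖ ≤ 1 / 50 * (Real.exp (-(s ^ 2 / 10 * n)) * A) := by
  have hn0 : (0 : ℝ) ≤ n := Nat.cast_nonneg _
  have hS : Convex ℝ (Metric.closedBall (p + 1) (1001 / 1000 * s)) := convex_closedBall _ _
  have hsub : ∀ w ∈ Metric.closedBall (p + 1) (1001 / 1000 * s), w ∈ Metric.ball (p + 1) ρ := by
    intro w hw
    rw [Metric.mem_closedBall] at hw
    rw [Metric.mem_ball]
    linarith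
  have hne : ∀ w ∈ Metric.closedBall (p + 1) (1001 / 1000 * s), w - p ≠ 0 := by
    intro w hw h
    rw [Metric.mem_closedBall, dist_eq_norm, show w - (p + 1) = (w - p) - 1 by ring, h, zero_sub,
      norm_neg, norm_one] at hw
    linarith
  have hA0 : 0 ≤ A := by
    by_contra h
    have := (norm_nonneg _).trans hA
    have h2 : Real.exp (-(n * s ^ 2 / 4)) * A < 0 := mul_neg_of_pos_of_neg (Real.exp_pos _) (not_le.1 h)
    linarith
  have ha' : a ∈ Metric.closedBall (p + 1) (1001 / 1000 * s) := by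
    rw [Metric.mem_closedBall, dist_eq_norm]; exact ha
  have hb' : b ∈ Metric.closedBall (p + 1) (1001 / 1000 * s) := by
    rw [Metric.mem_closedBall, dist_eq_norm]; exact hb
  have hseg : segment ℝ b a ⊆ Metric.closedBall (p + 1) (1001 / 1000 * s) :=
    hS.segment_subset hb' ha'
  have hs2 : 0 < s ^ 2 := by positivity
  have hs3 : s * s ^ 2 ≤ 1 / 10 * s ^ 2 := mul_le_mul_of_nonneg_right hs1 hs2.le
  have hs4 : n * (s * s ^ 2) ≤ n * (1 / 10 * s ^ 2) := mul_le_mul_of_nonneg_left hs3 hn0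
  have hbound : ∀ x ∈ segment ℝ b a, ‖F x / (x - p) ^ (n + 1)‖ ≤ Real.exp (-(s ^ 2 / 10 * n)) * A := by
    intro x hx
    have hx' := hseg hx
    have h1 := growth hS (Q := fun w => F w / (w - p) ^ (n + 1)) (K := 5 / 4 * s * n)
      (fun w hw => (hasDeriv_Q (hF w (hsub w hw)).1 (hF w (hsub w hw)).2.1 (hne w hw)).differentiableAt)
      (fun w hw => by
        rw [(hasDeriv_Q (hF w (hsub w hw)).1 (hF w (hsub w hw)).2.1 (hne w hw)).deriv, norm_mul]
        refine mul_le_mul_of_nonneg_right (logQ_le hs hs1 hη1 hn ?_ (hF w (hsub w hw)).2.2)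
          (norm_nonneg _)
        rw [Metric.mem_closedBall, dist_eq_norm] at hw
        exact hw) hb' hx'
    have h2 : ‖x - b‖ ≤ 101 / 100 * s ^ 2 := by
      refine le_trans ?_ hab
      have := norm_sub_le_of_mem_segment hx
      rwa [norm_sub_rev] at this ⊢
    calc ‖F x / (x - p) ^ (n + 1)‖
        ≤ ‖F b / (b - p) ^ (n + 1)‖ * Real.exp (5 / 4 * s * n * ‖x - b‖) := h1
      _ ≤ (Real.exp (-(n * s ^ 2 / 4)) * A) * Real.exp (5 / 4 * s * n * (101 / 100 * s ^ 2)) := by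
        gcongr
      _ = Real.exp (-(n * s ^ 2 / 4) + 5 / 4 * s * n * (101 / 100 * s ^ 2)) * A := by
        rw [Real.exp_add]; ring
      _ ≤ Real.exp (-(s ^ 2 / 10 * n)) * A := by
        refine mul_le_mul_of_nonneg_right (Real.exp_le_exp.2 ?_) hA0
        have : 0 ≤ n * s ^ 2 := by positivity
        nlinarith
  have h3 := (convex_segment b a).norm_image_sub_le_of_norm_hasDerivWithin_le (f := G)
    (f' := fun x => F x / (x - p) ^ (n + 1))
    (fun x hx => (hG x (hsub x (hseg hx))).hasDerivWithinAt) hbound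
    (left_mem_segment ℝ b a) (right_mem_segment ℝ b a)
  refine h3.trans ?_
  have h4 : 0 ≤ Real.exp (-(s ^ 2 / 10 * n)) * A := mul_nonneg (Real.exp_pos _).le hA0
  have h5 : ‖a - b‖ ≤ 1 / 50 := by
    refine hab.trans ?_
    nlinarith
  calc Real.exp (-(s ^ 2 / 10 * n)) * A * ‖a - b‖ ≤ Real.exp (-(s ^ 2 / 10 * n)) * A * (1 / 50) := by
        gcongr
    _ = 1 / 50 * (Real.exp (-(s ^ 2 / 10 * n)) * A) := by ring

/-- Cauchy's formula with the saddle point estimate -/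
lemma core (h : S_LAP) (ρ δ : ℝ) (hρ : 0 < ρ) (hρ1 : ρ ≤ 1 / 2) (hδ : 0 < δ) :
    ∃ η : ℝ, ∃ n1 : ℕ, 0 < η ∧ 1 ≤ n1 ∧
    ∀ (n : ℕ) (p : ℂ) (F : ℂ → ℂ), n1 ≤ n →
    (∀ w ∈ Metric.ball (p + 1) ρ, DifferentiableAt ℂ F w ∧ F w ≠ 0 ∧
      ‖logDeriv F w - n‖ ≤ η * n) →
    (∀ w ∈ Metric.closedBall p 1, DifferentiableAt ℂ F w) →
    (∀ φ : ℝ, ρ / 5 ≤ |φ| → |φ| ≤ Real.pi →
      ‖F (p + cexp (φ * I))‖ ≤ Real.exp (-(δ * n)) * ‖F (p + 1)‖) →
    iteratedDeriv n F p ≠ 0 := by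
  obtain ⟨s, hs⟩ : ∃ s, s = ρ / 5 := ⟨_, rfl⟩
  have hs0 : 0 < s := by rw [hs]; positivity
  have hs1 : s ≤ 1 / 10 := by rw [hs]; linarith
  have hs2 : 0 < s ^ 2 := by positivity
  obtain ⟨κ', hκ⟩ : ∃ κ', κ' = min (s ^ 2 / 100) (δ / 2) := ⟨_, rfl⟩
  have hκ0 : 0 < κ' := by rw [hκ]; exact lt_min (by positivity) (by positivity)
  have hκ1 : κ' ≤ s ^ 2 / 100 := by rw [hκ]; exact min_le_left _ _
  have hκ2 : κ' ≤ δ / 2 := by rw [hκ]; exact min_le_right _ _
  have hκ3 : κ' ≤ s / 1000 := by nlinarith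
  obtain ⟨η0, c, C, n0, hη0, hc, hC, hn0, H⟩ := h ρ κ' hρ hρ1 hκ0 (by linarith)
  obtain ⟨δ1, hδ1⟩ : ∃ δ1, δ1 = min (s ^ 2 / 10) (δ / 2) := ⟨_, rfl⟩
  have hδ0 : 0 < δ1 := by rw [hδ1]; exact lt_min (by positivity) (by positivity)
  have hδ2 : δ1 ≤ s ^ 2 / 10 := by rw [hδ1]; exact min_le_left _ _
  have hδ3 : δ1 ≤ δ / 2 := by rw [hδ1]; exact min_le_right _ _
  refine ⟨min η0 (s / 100), max n0 (max ⌈100 / s⌉₊ (⌈(16 / (c * δ1)) ^ 2⌉₊)),
    lt_min hη0 (by positivity), le_max_of_le_left hn0, ?_⟩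
  intro n p F hn hF hd hrest hzero
  rw [← hs] at hrest
  have hn0' : n0 ≤ n := (le_max_left _ _).trans hn
  have hn100 : 100 / s ≤ (n : ℝ) := by
    have h1 : ⌈100 / s⌉₊ ≤ n := (le_max_left _ _).trans ((le_max_right _ _).trans hn)
    exact (Nat.le_ceil _).trans (by exact_mod_cast h1)
  have hnc : (16 / (c * δ1)) ^ 2 ≤ (n : ℝ) := by
    have h1 : ⌈(16 / (c * δ1)) ^ 2⌉₊ ≤ n := (le_max_right _ _).trans ((le_max_right _ _).trans hn)
    exact (Nat.le_ceil _).trans (by exact_mod_cast h1)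
  have hnpos : (0 : ℝ) < n := by
    have : 0 < n := by omega
    exact_mod_cast this
  have hη1 : min η0 (s / 100) ≤ s / 100 := min_le_right _ _
  obtain ⟨w0, hw0, -, hlow, hdec, hmain, -⟩ := H n hn0' p F (fun w hw =>
    ⟨(hF w hw).1, (hF w hw).2.1, (hF w hw).2.2.trans
      (mul_le_mul_of_nonneg_right (min_le_left _ _) hnpos.le)⟩)
  rw [← hs] at hdec hmain
  obtain ⟨A, hA⟩ : ∃ A, A = ‖F w0 / (w0 - p) ^ (n + 1)‖ := ⟨_, rfl⟩
  simp only [← hA] at hlow hdec hmain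
  have hF1 : 0 < ‖F (p + 1)‖ := norm_pos_iff.2 (hF _ (Metric.mem_ball_self hρ)).2.1
  have hA0 : 0 < A := lt_of_lt_of_le (by positivity) hlow
  obtain ⟨E, hE⟩ : ∃ E, E = Real.exp (-(δ1 * n)) * A := ⟨_, rfl⟩
  have hE0 : 0 ≤ E := by rw [hE]; exact mul_nonneg (Real.exp_pos _).le hA0.le
  have hne : ∀ w ∈ Metric.ball (p + 1) ρ, w - p ≠ 0 := by
    intro w hw h
    rw [Metric.mem_ball, dist_eq_norm, show w - (p + 1) = (w - p) - 1 by ring, h, zero_sub,
      norm_neg, norm_one] at hw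
    linarith
  have hQ : DifferentiableOn ℂ (fun w => F w / (w - p) ^ (n + 1)) (Metric.ball (p + 1) ρ) :=
    fun w hw => (hasDeriv_Q (hF w hw).1 (hF w hw).2.1 (hne w hw)).differentiableAt.differentiableWithinAt
  obtain ⟨G, hG⟩ := hQ.isExactOn_ball
  -- points near `p + 1`
  have hexp1 : ∀ φ : ℝ, ‖cexp (φ * I) - 1‖ ≤ |φ| := by
    intro φ
    have := Real.norm_exp_I_mul_ofReal_sub_one_le (x := φ)
    rwa [mul_comm I, Real.norm_eq_abs] at this
  have harc : ∀ φ : ℝ, |φ| ≤ s → p + cexp (φ * I) ∈ Metric.ball (p + 1) ρ := by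
    intro φ hφ
    rw [Metric.mem_ball, dist_eq_norm, show p + cexp (φ * I) - (p + 1) = cexp (φ * I) - 1 by ring]
    have := hexp1 φ
    linarith
  have hver : ∀ y : ℝ, |y| ≤ s → ‖w0 + I * y - (p + 1)‖ ≤ 1001 / 1000 * s := by
    intro y hy
    rw [show w0 + I * y - (p + 1) = (w0 - (p + 1)) + I * y by ring]
    refine (norm_add_le _ _).trans ?_
    rw [norm_mul, Complex.norm_I, one_mul, Complex.norm_real, Real.norm_eq_abs]
    linarith
  have hver' : ∀ y : ℝ, |y| ≤ s → w0 + I * y ∈ Metric.ball (p + 1) ρ := by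
    intro y hy
    rw [Metric.mem_ball, dist_eq_norm]
    have := hver y hy
    linarith
  -- the arc
  have I1 : ∫ φ in (-s : ℝ)..s, gg F n p φ =
      G (p + cexp (((s : ℝ) : ℂ) * I)) - G (p + cexp (((-s : ℝ) : ℂ) * I)) := by
    refine intervalIntegral.integral_eq_sub_of_hasDerivAt (f := fun φ : ℝ => G (p + cexp (φ * I)))
      ?_ ((gg_cont hd).intervalIntegrable _ _)
    intro φ hφ
    rw [Set.uIcc_of_le (by linarith)] at hφ
    have h1 := hG _ (harc φ (abs_le.2 ⟨hφ.1, hφ.2⟩))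
    have h2 : HasDerivAt (fun φ : ℝ => p + cexp (φ * I)) (cexp (φ * I) * I) φ := by
      have h3 : HasDerivAt (fun φ : ℝ => (φ : ℂ) * I) (1 * I) φ :=
        (Complex.ofRealCLM.hasDerivAt (x := φ)).mul_const I
      have := h3.cexp.const_add p
      simpa using this
    have := HasDerivAt.scomp φ h1 h2
    refine this.congr_deriv ?_
    rw [smul_eq_mul]
    unfold gg
    ring
  have I2 : ∫ y in (-s : ℝ)..s, I * (F (w0 + I * y) / (w0 + I * y - p) ^ (n + 1)) =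
      G (w0 + I * ((s : ℝ) : ℂ)) - G (w0 + I * ((-s : ℝ) : ℂ)) := by
    refine intervalIntegral.integral_eq_sub_of_hasDerivAt (f := fun y : ℝ => G (w0 + I * y)) ?_ ?_
    · intro y hy
      rw [Set.uIcc_of_le (by linarith)] at hy
      have h1 := hG _ (hver' y (abs_le.2 ⟨hy.1, hy.2⟩))
      have h2 : HasDerivAt (fun y : ℝ => w0 + I * y) I y := by
        have h3 : HasDerivAt (fun y : ℝ => I * (y : ℂ)) (I * 1) y :=
          (Complex.ofRealCLM.hasDerivAt (x := y)).const_mul I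
        simpa using h3.const_add w0
      have := HasDerivAt.scomp y h1 h2
      exact this.congr_deriv (by rw [smul_eq_mul])
    · refine ContinuousOn.intervalIntegrable ?_
      rw [Set.uIcc_of_le (by linarith)]
      intro y hy
      have h1 := (hQ _ (hver' y (abs_le.2 ⟨hy.1, hy.2⟩))).differentiableAt
        (Metric.isOpen_ball.mem_nhds (hver' y (abs_le.2 ⟨hy.1, hy.2⟩)))
      have h2 : ContinuousAt (fun y : ℝ => w0 + I * (y : ℂ)) y := by fun_prop
      exact ((h1.continuousAt.comp_of_eq h2 rfl).const_mul I |>.continuousWithinAt)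
  have I3 : c / Real.sqrt n * A ≤
      ‖G (w0 + I * ((s : ℝ) : ℂ)) - G (w0 + I * ((-s : ℝ) : ℂ))‖ := by
    rw [← I2, intervalIntegral.integral_const_mul, norm_mul, Complex.norm_I, one_mul]
    exact hmain
  have hconn : ∀ y : ℝ, |y| = s →
      ‖G (p + cexp ((y : ℂ) * I)) - G (w0 + I * (y : ℂ))‖ ≤ 1 / 50 * E := by
    intro y hy
    have h0 : ‖G (p + cexp ((y : ℂ) * I)) - G (w0 + I * (y : ℂ))‖ ≤
        1 / 50 * (Real.exp (-(s ^ 2 / 10 * n)) * A) := by
      refine seg_le hs0 hs1 (by linarith) hρ1 hη1 hn100 hF hG ?_ (hver y hy.le) ?_ ?_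
      · rw [show p + cexp ((y : ℂ) * I) - (p + 1) = cexp ((y : ℂ) * I) - 1 by ring]
        have := hexp1 y
        linarith
      · rw [show p + cexp ((y : ℂ) * I) - (w0 + I * (y : ℂ)) =
          (cexp ((y : ℂ) * I) - 1 - (y : ℂ) * I) - (w0 - (p + 1)) by ring]
        refine (norm_sub_le _ _).trans ?_
        have hn1 : ‖(y : ℂ) * I‖ = s := by
          rw [norm_mul, Complex.norm_I, mul_one, Complex.norm_real, Real.norm_eq_abs, hy]
        have h1 := Complex.norm_exp_sub_one_sub_id_le (x := (y : ℂ) * I) (by rw [hn1]; linarith)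
        rw [hn1] at h1
        linarith
      · have h1 := hdec y hy.le
        have h2 : y ^ 2 = s ^ 2 := by rw [← sq_abs, hy]
        rw [h2] at h1
        exact h1
    refine h0.trans ?_
    rw [hE]
    have h1 : Real.exp (-(s ^ 2 / 10 * n)) ≤ Real.exp (-(δ1 * n)) := by
      refine Real.exp_le_exp.2 (neg_le_neg ?_)
      exact mul_le_mul_of_nonneg_right hδ2 hnpos.le
    have h2 := mul_le_mul_of_nonneg_right h1 hA0.le
    linarith
  have harcle : c / Real.sqrt n * A - 1 / 25 * E ≤ ‖∫ φ in (-s : ℝ)..s, gg F n p φ‖ := by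
    rw [I1]
    have h1 := hconn s (by rw [abs_of_pos hs0])
    have h2 := hconn (-s) (by rw [abs_neg, abs_of_pos hs0])
    have h3 := norm_add₃_le (a := G (p + cexp (((s : ℝ) : ℂ) * I)) - G (p + cexp (((-s : ℝ) : ℂ) * I)))
      (b := -(G (p + cexp (((s : ℝ) : ℂ) * I)) - G (w0 + I * ((s : ℝ) : ℂ))))
      (c := G (p + cexp (((-s : ℝ) : ℂ) * I)) - G (w0 + I * ((-s : ℝ) : ℂ)))
    rw [norm_neg, show G (p + cexp (((s : ℝ) : ℂ) * I)) - G (p + cexp (((-s : ℝ) : ℂ) * I)) +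
      -(G (p + cexp (((s : ℝ) : ℂ) * I)) - G (w0 + I * ((s : ℝ) : ℂ))) +
      (G (p + cexp (((-s : ℝ) : ℂ) * I)) - G (w0 + I * ((-s : ℝ) : ℂ))) =
      G (w0 + I * ((s : ℝ) : ℂ)) - G (w0 + I * ((-s : ℝ) : ℂ)) by ring] at h3
    linarith
  -- the rest of the circle
  have hgg : ∀ φ : ℝ, s ≤ |φ| → |φ| ≤ Real.pi → ‖gg F n p φ‖ ≤ E := by
    intro φ h1 h2
    rw [gg_norm, hE]
    refine (hrest φ h1 h2).trans ?_
    have h3 : ‖F (p + 1)‖ ≤ Real.exp (κ' * n) * A := by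
      calc ‖F (p + 1)‖ = Real.exp (κ' * n) * (Real.exp (-(κ' * n)) * ‖F (p + 1)‖) := by
            rw [← mul_assoc, ← Real.exp_add, show (κ' * n + -(κ' * n) : ℝ) = 0 by ring,
              Real.exp_zero, one_mul]
        _ ≤ Real.exp (κ' * n) * A := mul_le_mul_of_nonneg_left hlow (Real.exp_pos _).le
    calc Real.exp (-(δ * n)) * ‖F (p + 1)‖ ≤ Real.exp (-(δ * n)) * (Real.exp (κ' * n) * A) :=
          mul_le_mul_of_nonneg_left h3 (Real.exp_pos _).le
      _ = Real.exp (-(δ * n) + κ' * n) * A := by rw [Real.exp_add]; ring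
      _ ≤ Real.exp (-(δ1 * n)) * A := by
        refine mul_le_mul_of_nonneg_right (Real.exp_le_exp.2 ?_) hA0.le
        have h4 : (κ' + δ1) * n ≤ δ * n := mul_le_mul_of_nonneg_right (by linarith) hnpos.le
        linarith
  have hpi : Real.pi ≤ 315 / 100 := by
    have := Real.pi_lt_d2
    linarith
  have hpi3 : 3 < Real.pi := Real.pi_gt_three
  have R1 : ‖∫ φ in (-Real.pi)..(-s : ℝ), gg F n p φ‖ ≤ E * 4 := by
    refine (intervalIntegral.norm_integral_le_of_norm_le_const (C := E) ?_).trans ?_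
    · intro φ hφ
      rw [Set.uIoc_of_le (by linarith)] at hφ
      have h0 : φ ≤ 0 := by linarith [hφ.2]
      refine hgg φ ?_ ?_
      · rw [abs_of_nonpos h0]; linarith [hφ.2]
      · rw [abs_of_nonpos h0]; linarith [hφ.1]
    · refine mul_le_mul_of_nonneg_left ?_ hE0
      rw [abs_of_nonneg (by linarith)]
      linarith
  have R2 : ‖∫ φ in (s : ℝ)..Real.pi, gg F n p φ‖ ≤ E * 4 := by
    refine (intervalIntegral.norm_integral_le_of_norm_le_const (C := E) ?_).trans ?_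
    · intro φ hφ
      rw [Set.uIoc_of_le (by linarith)] at hφ
      have h0 : 0 ≤ φ := by linarith [hφ.1]
      refine hgg φ ?_ ?_
      · rw [abs_of_nonneg h0]; linarith [hφ.1]
      · rw [abs_of_nonneg h0]; linarith [hφ.2]
    · refine mul_le_mul_of_nonneg_left ?_ hE0
      rw [abs_of_nonneg (by linarith)]
      linarith
  have hci := fun a b : ℝ => (gg_cont (n := n) hd).intervalIntegrable (μ := volume) a b
  have hsplit : ∫ φ in (-Real.pi)..Real.pi, gg F n p φ =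
      (∫ φ in (-Real.pi)..(-s : ℝ), gg F n p φ) + (∫ φ in (-s : ℝ)..s, gg F n p φ) +
        ∫ φ in (s : ℝ)..Real.pi, gg F n p φ := by
    rw [intervalIntegral.integral_add_adjacent_intervals (hci _ _) (hci _ _),
      intervalIntegral.integral_add_adjacent_intervals (hci _ _) (hci _ _)]
  have htot : c / Real.sqrt n * A - 9 * E ≤ ‖∫ φ in (-Real.pi)..Real.pi, gg F n p φ‖ := by
    have h3 := norm_add₃_le (a := ∫ φ in (-Real.pi)..Real.pi, gg F n p φ)
      (b := -(∫ φ in (-Real.pi)..(-s : ℝ), gg F n p φ))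
      (c := -(∫ φ in (s : ℝ)..Real.pi, gg F n p φ))
    rw [norm_neg, norm_neg, show (∫ φ in (-Real.pi)..Real.pi, gg F n p φ) +
      -(∫ φ in (-Real.pi)..(-s : ℝ), gg F n p φ) + -(∫ φ in (s : ℝ)..Real.pi, gg F n p φ) =
      ∫ φ in (-s : ℝ)..s, gg F n p φ by rw [hsplit]; ring] at h3
    linarith
  have hsq : 0 < Real.sqrt n := Real.sqrt_pos.2 hnpos
  have hsmall : 9 * E ≤ 9 / 16 * (c / Real.sqrt n * A) := by
    have h1 : 16 / (c * δ1) ≤ Real.sqrt n := Real.le_sqrt_of_sq_le hnc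
    have h2 : (δ1 * n) * Real.exp (-(δ1 * n)) ≤ 1 := by
      have h3 := Real.add_one_le_exp (δ1 * n)
      calc (δ1 * n) * Real.exp (-(δ1 * n)) ≤
            Real.exp (δ1 * n) * Real.exp (-(δ1 * n)) :=
            mul_le_mul_of_nonneg_right (by linarith) (Real.exp_pos _).le
        _ = 1 := by rw [← Real.exp_add]; simp
    have h4 : Real.exp (-(δ1 * n)) ≤ 1 / 16 * (c / Real.sqrt n) := by
      have h5 : Real.sqrt n * Real.sqrt n = n := Real.mul_self_sqrt hnpos.le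
      have h6 : Real.exp (-(δ1 * n)) ≤ 1 / (δ1 * n) := by
        rw [le_div_iff₀ (by positivity)]
        linarith
      refine h6.trans ?_
      have h7 : 16 ≤ Real.sqrt n * (c * δ1) := by
        rwa [div_le_iff₀ (by positivity)] at h1
      rw [show 1 / 16 * (c / Real.sqrt n) = c / (16 * Real.sqrt n) by field_simp,
        div_le_div_iff₀ (by positivity) (by positivity)]
      have h8 := mul_le_mul_of_nonneg_left h7 hsq.le
      calc 1 * (16 * Real.sqrt n) = Real.sqrt n * 16 := by ring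
        _ ≤ Real.sqrt n * (Real.sqrt n * (c * δ1)) := h8
        _ = c * (δ1 * n) := by linear_combination (c * δ1) * h5
    rw [hE]
    have := mul_le_mul_of_nonneg_right h4 hA0.le
    linarith
  rw [cauchy_gg n hd, hzero, mul_zero, norm_zero] at htot
  have : 0 < c / Real.sqrt n * A := by positivity
  linarith

theorem aw_pos (h : S_LAP) (κ R κ1 : ℝ) (hκ : 0 < κ) (hκ2 : κ ≤ 1 / 2) (hR : 3 ≤ R) (hκ1 : 0 < κ1)
    (hκ3 : κ1 ≤ κ / 2) : ∃ η : ℝ, ∃ n0 : ℕ, 0 < η ∧ ∀ (n : ℕ) (F : ℂ → ℂ), n0 ≤ n → QQ κ R n η F →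
    ∀ x : ℝ, κ1 ≤ x → x ≤ R - 2 → iteratedDeriv n F x ≠ 0 := by
  obtain ⟨s, hs⟩ : ∃ s, s = κ / 5 := ⟨_, rfl⟩
  have hs0 : 0 < s := by rw [hs]; positivity
  obtain ⟨δ, hδ⟩ : ∃ δ, δ = min (s ^ 2 / 10) (κ1 / 2) := ⟨_, rfl⟩
  have hδ0 : 0 < δ := by rw [hδ]; exact lt_min (by positivity) (by positivity)
  have hδ1 : δ ≤ s ^ 2 / 10 := by rw [hδ]; exact min_le_left _ _
  have hδ2 : δ ≤ κ1 / 2 := by rw [hδ]; exact min_le_right _ _
  obtain ⟨η0, n1, hη0, hn1, H⟩ := core h κ δ hκ hκ2 hδ0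
  have hR0 : 0 < R := by linarith
  obtain ⟨η, hη⟩ : ∃ η, η = min η0 (min (s ^ 2 / 20) (κ1 / (2 * R))) := ⟨_, rfl⟩
  have hη1 : 0 < η := by
    rw [hη]; exact lt_min hη0 (lt_min (by positivity) (by positivity))
  have hη2 : η ≤ η0 := by rw [hη]; exact min_le_left _ _
  have hη3 : η ≤ s ^ 2 / 20 := by rw [hη]; exact (min_le_right _ _).trans (min_le_left _ _)
  have hη4 : η * R ≤ κ1 / 2 := by
    have h1 : η ≤ κ1 / (2 * R) := by rw [hη]; exact (min_le_right _ _).trans (min_le_right _ _)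
    calc η * R ≤ κ1 / (2 * R) * R := mul_le_mul_of_nonneg_right h1 hR0.le
      _ = κ1 / 2 := by field_simp
  refine ⟨η, n1, hη1, ?_⟩
  intro n F hn hN x hx1 hx2
  have hnpos : (0 : ℝ) < n := by
    have : 0 < n := by omega
    exact_mod_cast this
  have hx0 : 0 < x := by linarith
  have hS : ∀ w ∈ ({w : ℂ | 1 - κ ≤ w.re} ∩ Metric.closedBall 0 R), DifferentiableAt ℂ F w ∧ F w ≠ 0 ∧
      ‖logDeriv F w - ((n : ℝ) : ℂ)‖ ≤ η * n := by
    intro w hw
    have hw2 : ‖w‖ ≤ R := by simpa using hw.2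
    exact ⟨hN.diff w, hN.far w hw.1 hw2⟩
  have hxn : ‖(x : ℂ)‖ = x := by rw [Complex.norm_real, Real.norm_eq_abs, abs_of_pos hx0]
  have hp1 : (x : ℂ) + 1 ∈ ({w : ℂ | 1 - κ ≤ w.re} ∩ Metric.closedBall 0 R) := by
    refine ⟨?_, ?_⟩
    · show 1 - κ ≤ ((x : ℂ) + 1).re
      rw [Complex.add_re, Complex.one_re, Complex.ofReal_re]; linarith
    · rw [Metric.mem_closedBall, dist_zero_right]
      refine (norm_add_le _ _).trans ?_
      rw [norm_one, hxn]; linarith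
  have hone : (1 : ℂ) ∈ ({w : ℂ | 1 - κ ≤ w.re} ∩ Metric.closedBall 0 R) := by
    refine ⟨?_, ?_⟩
    · show 1 - κ ≤ (1 : ℂ).re
      rw [Complex.one_re]; linarith
    · rw [Metric.mem_closedBall, dist_zero_right, norm_one]; linarith
  have hball : ∀ w ∈ Metric.ball ((x : ℂ) + 1) κ, w ∈ ({w : ℂ | 1 - κ ≤ w.re} ∩ Metric.closedBall 0 R) := by
    intro w hw
    rw [Metric.mem_ball, dist_eq_norm] at hw
    refine ⟨?_, ?_⟩
    · show 1 - κ ≤ w.re
      have h1 := (abs_le.1 ((Complex.abs_re_le_norm (w - ((x : ℂ) + 1))).trans hw.le)).1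
      rw [Complex.sub_re, Complex.add_re, Complex.one_re, Complex.ofReal_re] at h1
      linarith
    · rw [Metric.mem_closedBall, dist_zero_right]
      have h2 := norm_add_le (w - ((x : ℂ) + 1)) ((x : ℂ) + 1)
      rw [sub_add_cancel] at h2
      have h3 := norm_add_le (x : ℂ) 1
      rw [norm_one, hxn] at h3
      linarith
  refine H n x F hn
    (fun w hw => by
      have h1 := hS w (hball w hw)
      refine ⟨h1.1, h1.2.1, ?_⟩
      have h2 := h1.2.2.trans (mul_le_mul_of_nonneg_right hη2 hnpos.le)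
      exact_mod_cast h2)
    (fun w _ => hN.diff w)
    (fun φ h1 h2 => ?_)
  obtain ⟨w, hw⟩ : ∃ w, w = (x : ℂ) + cexp (φ * I) := ⟨_, rfl⟩
  rw [← hw]
  have hwn : ‖w‖ ≤ x + 1 := by
    rw [hw]
    refine (norm_add_le _ _).trans ?_
    rw [Complex.norm_exp_ofReal_mul_I, hxn]
  have hwre : w.re = x + Real.cos φ := by rw [hw, Complex.add_re, exp_I_re, Complex.ofReal_re]
  have hcos := cos_arc hs0.le (by rw [hs]; exact h1) h2
  by_cases hc1 : 1 - κ ≤ w.re
  · have hwS : w ∈ ({w : ℂ | 1 - κ ≤ w.re} ∩ Metric.closedBall 0 R) :=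
      ⟨hc1, by rw [Metric.mem_closedBall, dist_zero_right]; linarith⟩
    have h3 := growF (convex_far κ R) hS hp1 hwS
    refine h3.trans ?_
    rw [mul_comm]
    refine mul_le_mul_of_nonneg_right (Real.exp_le_exp.2 ?_) (norm_nonneg _)
    have h4 : w.re - ((x : ℂ) + 1).re = Real.cos φ - 1 := by
      rw [hwre, Complex.add_re, Complex.one_re, Complex.ofReal_re]; ring
    have h5 : ‖w - ((x : ℂ) + 1)‖ ≤ 2 := by
      rw [hw, show (x : ℂ) + cexp (φ * I) - (x + 1) = cexp (φ * I) - 1 by ring]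
      refine (norm_sub_le _ _).trans ?_
      rw [Complex.norm_exp_ofReal_mul_I, norm_one]
      norm_num
    rw [h4]
    have h7 : (n : ℝ) * (Real.cos φ - 1) ≤ n * (-(s ^ 2 / 5)) :=
      mul_le_mul_of_nonneg_left hcos hnpos.le
    have h8 : η * n * ‖w - ((x : ℂ) + 1)‖ ≤ s ^ 2 / 20 * n * 2 := by
      gcongr
    have h9 : δ * n ≤ s ^ 2 / 10 * n := mul_le_mul_of_nonneg_right hδ1 hnpos.le
    linarith
  · by_cases hc2 : |w.re| ≤ 1 - κ
    · have h3 := hN.near w hc2 (by linarith)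
      have h4 := growF (convex_far κ R) hS hp1 hone
      have h5 : (n : ℝ) * ((1 : ℂ).re - ((x : ℂ) + 1).re) + η * n * ‖1 - ((x : ℂ) + 1)‖ ≤
          κ1 / 2 * n := by
        rw [show (1 : ℂ) - ((x : ℂ) + 1) = -x by ring, norm_neg, Complex.add_re, Complex.one_re,
          Complex.ofReal_re, hxn]
        have h8 : η * n * x ≤ η * n * R := by
          refine mul_le_mul_of_nonneg_left (by linarith) (by positivity)
        have h8' : η * R * n ≤ κ1 / 2 * n := mul_le_mul_of_nonneg_right hη4 hnpos.le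
        have h9 : (n : ℝ) * (1 - (x + 1)) ≤ 0 := by
          have : 0 ≤ (n : ℝ) * x := mul_nonneg hnpos.le (by linarith)
          linarith
        linarith
      calc ‖F w‖ ≤ ‖F 1‖ * Real.exp (-(κ / 2 * n)) := h3
        _ ≤ (‖F ((x : ℂ) + 1)‖ * Real.exp (κ1 / 2 * n)) * Real.exp (-(κ / 2 * n)) := by
            refine mul_le_mul_of_nonneg_right (h4.trans ?_) (Real.exp_pos _).le
            exact mul_le_mul_of_nonneg_left (Real.exp_le_exp.2 h5) (norm_nonneg _)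
        _ = Real.exp (κ1 / 2 * n + -(κ / 2 * n)) * ‖F ((x : ℂ) + 1)‖ := by
            rw [Real.exp_add]; ring
        _ ≤ Real.exp (-(δ * n)) * ‖F ((x : ℂ) + 1)‖ := by
            refine mul_le_mul_of_nonneg_right (Real.exp_le_exp.2 ?_) (norm_nonneg _)
            have h6 : (δ + κ1 / 2) * n ≤ κ / 2 * n :=
              mul_le_mul_of_nonneg_right (by linarith) hnpos.le
            linarith
    · have hc3 : w.re < -(1 - κ) := by
        by_contra hc4
        exact hc2 (abs_le.2 ⟨by linarith, by linarith⟩)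
      obtain ⟨u, hu⟩ : ∃ u, u = -((starRingEnd ℂ) w) := ⟨_, rfl⟩
      have hure : u.re = -w.re := by rw [hu]; simp
      have hun : ‖u‖ ≤ x + 1 := by rw [hu, norm_neg, RCLike.norm_conj]; exact hwn
      have huS : u ∈ ({w : ℂ | 1 - κ ≤ w.re} ∩ Metric.closedBall 0 R) :=
        ⟨by show 1 - κ ≤ u.re; rw [hure]; linarith,
          by rw [Metric.mem_closedBall, dist_zero_right]; linarith⟩
      have hFu : ‖F w‖ = ‖F u‖ := by
        rw [hu, hN.symm w, RCLike.norm_conj]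
      have h3 := growF (convex_far κ R) hS hp1 huS
      rw [hFu]
      refine h3.trans ?_
      rw [mul_comm]
      refine mul_le_mul_of_nonneg_right (Real.exp_le_exp.2 ?_) (norm_nonneg _)
      have h4 : u.re - ((x : ℂ) + 1).re ≤ -(2 * κ1) := by
        rw [hure, hwre, Complex.add_re, Complex.one_re, Complex.ofReal_re]
        have := Real.neg_one_le_cos φ
        linarith
      have h5 : ‖u - ((x : ℂ) + 1)‖ ≤ 2 * R := by
        refine (norm_sub_le _ _).trans ?_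
        have h6 := norm_add_le (x : ℂ) 1
        rw [norm_one, hxn] at h6
        linarith
      have h7 : (n : ℝ) * (u.re - ((x : ℂ) + 1).re) ≤ n * (-(2 * κ1)) :=
        mul_le_mul_of_nonneg_left h4 hnpos.le
      have h8 : η * n * ‖u - ((x : ℂ) + 1)‖ ≤ η * n * (2 * R) := by
        gcongr
      have h8' : η * R * n ≤ κ1 / 2 * n := mul_le_mul_of_nonneg_right hη4 hnpos.le
      have h9 : δ * n ≤ κ1 / 2 * n := mul_le_mul_of_nonneg_right hδ2 hnpos.le
      have h10 : 0 < κ1 * n := by positivity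
      linarith

end AWAux

theorem aw (h : S_LAP) : S_AW := by
  intro κ R κ1 hκ hκ2 hR hκ1 hκ3
  obtain ⟨η, n0, hη, H⟩ := AWAux.aw_pos h κ R κ1 hκ hκ2 hR hκ1 hκ3
  refine ⟨η, n0, hη, ?_⟩
  intro n F hn hN x hx1 hx2
  by_cases hx : 0 ≤ x
  · rw [abs_of_nonneg hx] at hx1 hx2
    exact H n F hn hN x hx1 hx2
  · rw [abs_of_neg (not_le.1 hx)] at hx1 hx2
    have h1 := H n F hn hN (-x) hx1 hx2
    have h2 := (AWAux.symm_iter hN.diff hN.symm n).2 (x : ℂ)
    rw [Complex.conj_ofReal, ← Complex.ofReal_neg] at h2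
    intro h3
    rw [h3] at h2
    rw [map_zero, mul_zero] at h2
    exact h1 h2

end Pool.Agent.H986R2.K4
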