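import Pool.Agent.H986R2.K4.Spec
import Pool.Agent.H24R2.DZ.Cir
import Pool.Agent.H24R2.DZ.Strip
import Pool.Agent.H24R2.DZ.LowX
import Pool.Agent.H24R2.JP.B1

/-! Descending the chain of Jensen circles (helper485). -/

set_option autoImplicit false

namespace Pool.Agent.H986R2.K4

open Complex Filter Topology MeasureTheory Set
open Pool.Agent.H24R2.JP (XX HH Om)
open Pool.Agent.H24R2.DZ (bad hc SCir SStrip SLowX)

namespace ChAux

theorem desc (hc : SCir) (hs : SStrip) (m : ℕ) : ∀ (k : ℕ) (s : ℂ), bad (m + k) s →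
    ∃ z : ℂ, bad m z ∧ |s.im - z.im| ≤ k / 2 := by
  intro k
  induction k with
  | zero => intro s h; exact ⟨s, h, by simp⟩
  | succ k ih =>
    intro s h
    obtain ⟨z1, h1, -, h3⟩ := hc (m + k) s h
    obtain ⟨z, h4, h5⟩ := ih z1 h1
    refine ⟨z, h4, ?_⟩
    have h6 := hs (m + k) z1 h1.1
    have : |s.im - z.im| ≤ |s.im - z1.im| + |z1.im - z.im| := abs_sub_le _ _ _
    push_cast
    linarith

theorem bad_conj (hic : ∀ (n : ℕ) (z : ℂ), iteratedDeriv n XX ((starRingEnd ℂ) z) =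
    (starRingEnd ℂ) (iteratedDeriv n XX z)) (n : ℕ) (s : ℂ) (h : bad n s) :
    bad n ((starRingEnd ℂ) s) := by
  obtain ⟨h1, h2⟩ := h
  refine ⟨by rw [hic, h1, map_zero], ?_⟩
  rcases h2 with h2 | h2
  · left
    rwa [Complex.conj_re]
  · right
    rw [hic, h2, map_zero]

theorem ch_of (hcir : SCir) (hstr : SStrip) (hlow : SLowX)
    (hic : ∀ (n : ℕ) (z : ℂ), iteratedDeriv n XX ((starRingEnd ℂ) z) =
    (starRingEnd ℂ) (iteratedDeriv n XX z)) : S_CH := by
  intro r0 κ hr0 hr1 hNB hκ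
  obtain ⟨N0, hN0⟩ := hlow
  obtain ⟨T0, hT0, hNB⟩ := hNB
  by_cases hk0 : κ ≤ 1 / 25
  · refine ⟨N0, fun n hn s hs => hN0 n hn s (hs.trans ?_)⟩
    apply Real.exp_le_exp.2
    have : (0 : ℝ) ≤ n := Nat.cast_nonneg n
    nlinarith
  push Not at hk0
  set p : ℝ := r0 * κ / 2 with hp
  have hp0 : 0 < p := by positivity
  have hp1 : p < 1 := by rw [hp]; linarith
  set δ : ℝ := (1 - p) / 2 with hδ
  have hδ0 : 0 < δ := by rw [hδ]; linarith
  have hδ1 : δ ≤ 1 / 2 := by rw [hδ]; linarith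
  have hδp : (1 + δ) * p < 1 := by
    rw [hδ]
    nlinarith
  refine ⟨max N0 (max 1250 (max ⌈2 * T0⌉₊ (max ⌈25 / δ⌉₊ ⌈100 + 100 / r0⌉₊))), ?_⟩
  intro n hn
  have hn0 : N0 ≤ n := le_trans (le_max_left _ _) hn
  have hn' := le_trans (le_max_right _ _) hn
  have hn1 : 1250 ≤ n := le_trans (le_max_left _ _) hn'
  have hn'' := le_trans (le_max_right _ _) hn'
  have hn2 : ⌈2 * T0⌉₊ ≤ n := le_trans (le_max_left _ _) hn''
  have hn''' := le_trans (le_max_right _ _) hn''
  have hn3 : ⌈25 / δ⌉₊ ≤ n := le_trans (le_max_left _ _) hn'''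
  have hn4 : ⌈100 + 100 / r0⌉₊ ≤ n := le_trans (le_max_right _ _) hn'''
  have hn1' : (1250 : ℝ) ≤ n := by exact_mod_cast hn1
  have hn2' : 2 * T0 ≤ n := Nat.ceil_le.1 hn2
  have hn3' : 25 / δ ≤ n := Nat.ceil_le.1 hn3
  have hn4' : 100 + 100 / r0 ≤ n := Nat.ceil_le.1 hn4
  clear hn hn' hn'' hn''' hn1 hn2 hn3 hn4
  have hexp : (n : ℝ) ≤ Real.exp (n / 25) := by
    have h1 := Real.quadratic_le_exp_of_nonneg (x := (n : ℝ) / 25) (by positivity)
    nlinarith
  -- the main case
  have key : ∀ s : ℂ, 0 ≤ s.im → s.im ≤ Real.exp (κ * n) → ¬ bad n s := by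
    intro s hs0 hs1 hb
    by_cases hlo : s.im ≤ Real.exp (n / 25)
    · exact hN0 n hn0 s (by rw [abs_of_nonneg hs0]; exact hlo) hb
    push Not at hlo
    set t := s.im with ht
    have htn : (n : ℝ) ≤ t := hexp.trans hlo.le
    have ht0 : 0 < t := by linarith
    have hO1 : (n : ℝ) / 50 < Om t := by
      unfold Om
      have := (Real.lt_log_iff_exp_lt ht0).2 hlo
      linarith
    have hO2 : Om t ≤ κ * n / 2 := by
      unfold Om
      have := (Real.log_le_iff_le_exp ht0).2 hs1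
      linarith
    set x : ℝ := (1 + δ) * r0 * Om t with hx
    have hO0 : 0 < Om t := by linarith
    have hx0 : 0 < x := by positivity
    have hxn : x ≤ n := by
      have h1 : x ≤ (1 + δ) * r0 * (κ * n / 2) := by
        rw [hx]
        apply mul_le_mul_of_nonneg_left hO2
        positivity
      have h2 : (1 + δ) * r0 * (κ * n / 2) = ((1 + δ) * p) * n := by rw [hp]; ring
      rw [h2] at h1
      nlinarith
    have hmn : ⌈x⌉₊ ≤ n := Nat.ceil_le.2 hxn
    set m := ⌈x⌉₊ with hm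
    have hm1 : x ≤ m := Nat.le_ceil x
    have hm2 : (m : ℝ) < x + 1 := Nat.ceil_lt_add_one hx0.le
    obtain ⟨k, hk⟩ := Nat.exists_eq_add_of_le hmn
    rw [hk] at hb
    obtain ⟨z, hz, hzi⟩ := desc hcir hstr m k s hb
    have hkn : (k : ℝ) ≤ n := by
      have : k ≤ n := by omega
      exact_mod_cast this
    have hz2 := abs_le.1 hzi
    have hz3 : t / 2 ≤ z.im := by linarith
    have hz4 : z.im ≤ 2 * t := by linarith
    have hz0 : 0 < z.im := by linarith
    have hlog2 : Real.log 2 ≤ 1 := by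
      have := Real.log_two_lt_d9
      linarith
    have hOz1 : Om z.im ≤ Om t + 1 / 2 := by
      unfold Om
      have h1 := Real.log_le_log hz0 hz4
      rw [Real.log_mul (by norm_num) ht0.ne'] at h1
      linarith
    have hOz2 : Om t - 1 / 2 ≤ Om z.im := by
      unfold Om
      have h1 := Real.log_le_log (by positivity) hz3
      rw [Real.log_div ht0.ne' (by norm_num)] at h1
      linarith
    have hT : T0 ≤ z.im := by linarith
    refine hNB z.im m hT ?_ ?_ z rfl hz
    · -- lower bound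
      have h1 : 25 ≤ n * δ := by
        rw [div_le_iff₀ hδ0] at hn3'
        exact hn3'
      have h2 : Om z.im ≤ (1 + δ) * Om t := by nlinarith
      calc r0 * Om z.im ≤ r0 * ((1 + δ) * Om t) := mul_le_mul_of_nonneg_left h2 hr0.le
        _ = x := by rw [hx]; ring
        _ ≤ m := hm1
    · -- upper bound
      have h1 : 100 * r0 + 100 ≤ n * r0 := by
        have h2 := mul_le_mul_of_nonneg_right hn4' hr0.le
        have h3 : (100 + 100 / r0) * r0 = 100 * r0 + 100 := by field_simp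
        linarith
      have h4 : 2 * r0 + 2 ≤ r0 * Om t := by nlinarith
      have h5 : x ≤ 3 / 2 * (r0 * Om t) := by
        rw [hx]
        have : 0 < r0 * Om t := by positivity
        nlinarith
      have h6 : r0 * (Om t - 1 / 2) ≤ r0 * Om z.im := mul_le_mul_of_nonneg_left hOz2 hr0.le
      nlinarith
  intro s hs hb
  rcases le_total 0 s.im with h0 | h0
  · rw [abs_of_nonneg h0] at hs
    exact key s h0 hs hb
  · rw [abs_of_nonpos h0] at hs
    refine key ((starRingEnd ℂ) s) ?_ ?_ (bad_conj hic n s hb)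
    · rw [Complex.conj_im]; linarith
    · rw [Complex.conj_im]; exact hs

end ChAux

/-- Propagation of `NoBad` to all heights up to `exp (κ n)`. -/
theorem ch : S_CH :=
  ChAux.ch_of (Pool.Agent.H24R2.DZ.cir Pool.Agent.H24R2.DZ.strip) Pool.Agent.H24R2.DZ.strip
    Pool.Agent.H24R2.DZ.lowX
    (fun n z => Pool.Agent.H24R2.JP.B1h.iter_conj XX Pool.Agent.H24R2.JP.B1h.XX_conj n z)

end Pool.Agent.H986R2.K4
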