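import Pool.Agent.H986R2.K4.Spec

/-!
# K4, task 13: the forward theorem (helper784)
-/

set_option autoImplicit false

namespace Pool.Agent.H986R2.K4

/-- The forward theorem. -/
theorem fwd (h1 : S_WIN) (h2 : S_CH) : S_FWD := by
  intro y κ hy0 hy hZ hκ
  obtain ⟨r0, hr, hr1, hκr⟩ : ∃ r0 : ℝ, y < r0 ∧ r0 ≤ 1 ∧ κ * r0 < 2 := by
    rcases le_or_gt κ 0 with hk | hk
    · exact ⟨1, by linarith, le_refl _, by linarith⟩
    · have hy2 : y < 2 / κ := by
        rw [lt_div_iff₀ hk]
        linarith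
      have hm : y < min 1 (2 / κ) := lt_min (by linarith) hy2
      refine ⟨(y + min 1 (2 / κ)) / 2, by linarith, ?_, ?_⟩
      · have := min_le_left (1 : ℝ) (2 / κ)
        linarith
      · have h3 := min_le_right (1 : ℝ) (2 / κ)
        have h4 : (y + min 1 (2 / κ)) / 2 < 2 / κ := by linarith
        rw [lt_div_iff₀ hk] at h4
        linarith
  exact h2 r0 κ (by linarith) hr1 (h1 y r0 hy0 hy hZ hr hr1) hκr

end Pool.Agent.H986R2.K4
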