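import Pool.Agent.H986R2.K4.Spec

set_option autoImplicit false

/-!
# K4, task 19: growth of the logarithmic derivative when all zeros near height `t` are on the line
-/

namespace Pool.Agent.H986R2.K4

open Complex Filter Topology MeasureTheory Set
open Pool.Agent.H24R2.JP (XX HH Om)
open Pool.Agent.H24R2.DZ (bad hc)

namespace GRAux

theorem diff_XX : Differentiable ℂ XX := by
  have h0 : Differentiable ℂ (fun z : ℂ => completedRiemannZeta₀ (1 / 2 + z)) :=
    differentiable_completedZeta₀.comp (differentiable_id.const_add _)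
  have h1 : Differentiable ℂ (fun z : ℂ => (4 * z ^ 2 - 1)) := by fun_prop
  have : XX = fun z : ℂ => (4 * z ^ 2 - 1) * completedRiemannZeta₀ (1 / 2 + z) + 4 := rfl
  rw [this]
  exact (h1.mul h0).add_const _

theorem diff_iter (n : ℕ) : Differentiable ℂ (iteratedDeriv n XX) := by
  have h : ContDiff ℂ ⊤ XX := diff_XX.contDiff
  exact h.differentiable_iteratedDeriv n (by exact WithTop.coe_lt_top _)

/-- the norm of a point of the square is at most 15. -/
theorem norm_le {u : ℂ} (h1 : |u.re| ≤ 10) (h2 : |u.im| ≤ 10) : ‖u‖ ≤ 15 := by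
  rw [Complex.norm_eq_sqrt_sq_add_sq]
  apply Real.sqrt_le_iff.mpr
  refine ⟨by norm_num, ?_⟩
  have := abs_le.mp h1
  have := abs_le.mp h2
  nlinarith [sq_abs u.re, sq_abs u.im, abs_nonneg u.re, abs_nonneg u.im]

theorem logDeriv_quot {F H : ℂ → ℂ} {p c u : ℂ} (hc : c ≠ 0)
    (hF : DifferentiableAt ℂ F (p + u)) (hF0 : F (p + u) ≠ 0)
    (hH : DifferentiableAt ℂ H (p + u)) (hH0 : H (p + u) ≠ 0) :
    logDeriv (fun v => F (p + v) / (c * H (p + v))) u =
      logDeriv F (p + u) - logDeriv H (p + u) := by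
  have hd : HasDerivAt (fun v : ℂ => p + v) 1 u := (hasDerivAt_id u).const_add p
  have hF' : HasDerivAt (fun v => F (p + v)) (deriv F (p + u)) u := by
    have := HasDerivAt.comp u hF.hasDerivAt hd
    rw [mul_one] at this
    exact this
  have hH' : HasDerivAt (fun v => H (p + v)) (deriv H (p + u)) u := by
    have := HasDerivAt.comp u hH.hasDerivAt hd
    rw [mul_one] at this
    exact this
  have hq : HasDerivAt (fun v => F (p + v) / (c * H (p + v)))
      ((deriv F (p + u) * (c * H (p + u)) - F (p + u) * (c * deriv H (p + u))) /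
        (c * H (p + u)) ^ 2) u := hF'.div (hH'.const_mul c) (mul_ne_zero hc hH0)
  rw [logDeriv_apply, hq.deriv, logDeriv_apply, logDeriv_apply]
  field_simp

end GRAux

open GRAux in
theorem gr (h1 : S_SAB) (h2 : S_RG) (h3 : S_UB) (h4 : S_HH) : S_GR := by
  intro r0 r1 η0 η hr0 hr01 hr1 hη0 hη0' hη
  obtain ⟨K, hK, hHH⟩ := h4
  obtain ⟨TH, hTH, hHH⟩ := hHH 15 (by norm_num)
  obtain ⟨KU, TU, hKU, hTU, hUB⟩ := h3 r0 r1 hr0 hr01 (by linarith)
  obtain ⟨ε, hε, hS⟩ := h1 η0 (η / 4) (KU + 15 * K) hη0 hη0' (by positivity) (by positivity)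
  obtain ⟨TR, hTR, hRG⟩ := h2 r0 r1 ε hr0 hr01 hr1 hε
  refine ⟨max (max TH TU) (max TR (Real.exp (max 1 (4 * K / η)))), ?_, ?_⟩
  · exact le_trans hTH (le_trans (le_max_left _ _) (le_max_left _ _))
  intro t n ht hn0 hn1 hz
  have htH : TH ≤ t := le_trans (le_trans (le_max_left _ _) (le_max_left _ _)) ht
  have htU : TU ≤ t := le_trans (le_trans (le_max_right _ _) (le_max_left _ _)) ht
  have htR : TR ≤ t := le_trans (le_trans (le_max_left _ _) (le_max_right _ _)) ht
  have htE : Real.exp (max 1 (4 * K / η)) ≤ t :=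
    le_trans (le_trans (le_max_right _ _) (le_max_right _ _)) ht
  have ht0 : 0 < t := lt_of_lt_of_le (Real.exp_pos _) htE
  have hlog : max 1 (4 * K / η) ≤ Real.log t := (Real.le_log_iff_exp_le ht0).mpr htE
  have hL1 : 1 ≤ Real.log t := le_trans (le_max_left _ _) hlog
  have hLK : 4 * K / η ≤ Real.log t := le_trans (le_max_right _ _) hlog
  have hOm : Om t = Real.log t / 2 := rfl
  have hOm0 : 0 < Om t := by rw [hOm]; linarith
  have hKO : K ≤ η / 2 * Om t := by
    rw [div_le_iff₀ hη] at hLK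
    rw [hOm]; nlinarith
  have hc : ((Om t : ℂ) ^ n) ≠ 0 := by
    apply pow_ne_zero
    exact_mod_cast hOm0.ne'
  have hcn : ‖((Om t : ℂ) ^ n)‖ = Om t ^ n := by
    rw [norm_pow, Complex.norm_real, Real.norm_of_nonneg hOm0.le]
  have hcpos : 0 < Om t ^ n := pow_pos hOm0 n
  set F : ℂ → ℂ := iteratedDeriv n XX with hF
  set g : ℂ → ℂ := fun v => F (I * t + v) / ((Om t : ℂ) ^ n * HH (I * t + v)) with hg
  have hFd : Differentiable ℂ F := diff_iter n
  -- non-vanishing
  have hF0 : ∀ u : ℂ, 0 < u.re → |u.im| ≤ 10 → F (I * t + u) ≠ 0 := by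
    intro u hu hu2 h0
    have := hz (I * t + u) h0 (by
      have : (I * (t : ℂ) + u).im - t = u.im := by simp
      rw [this]; linarith)
    simp at this
    linarith
  have hH0 : ∀ u : ℂ, |u.re| ≤ 10 → |u.im| ≤ 10 → DifferentiableAt ℂ HH (I * t + u) ∧
      HH (I * t + u) ≠ 0 ∧ ‖logDeriv HH (I * t + u) - (Om t : ℂ)‖ ≤ K ∧
      Real.exp (Om t * u.re - K * 15) * ‖HH (I * t)‖ ≤ ‖HH (I * t + u)‖ := by
    intro u hu hu2
    obtain ⟨a, b, c, d, _⟩ := hHH t u htH (norm_le hu hu2)
    exact ⟨a, b, c, d⟩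
  have hgn : ∀ u : ℂ, ‖g u‖ = ‖F (I * t + u)‖ / (Om t ^ n * ‖HH (I * t + u)‖) := by
    intro u
    rw [hg]; simp only
    rw [norm_div, norm_mul, hcn]
  have key := hS (Real.log t) g hL1 ?_ ?_
  · intro u hu1 hu2 hu3
    have hur : |u.re| ≤ 10 := by rw [abs_of_nonneg (by linarith)]; linarith
    have hui : |u.im| ≤ 10 := by linarith
    obtain ⟨a1, a2, a3, a4⟩ := hH0 u hur hui
    have hFu := hF0 u (by linarith) hui
    obtain ⟨k1, k2, k3⟩ := key u hu1 (by linarith) (by linarith)
    refine ⟨hFu, ?_, ?_⟩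
    · have e1 := logDeriv_quot (p := I * t) (u := u) hc hFd.differentiableAt hFu a1 a2
      have e2 : logDeriv F (I * t + u) - (Om t : ℂ) =
          logDeriv g u + (logDeriv HH (I * t + u) - (Om t : ℂ)) := by
        rw [hg, e1]; ring
      rw [e2]
      calc _ ≤ ‖logDeriv g u‖ + ‖logDeriv HH (I * t + u) - (Om t : ℂ)‖ := norm_add_le _ _
        _ ≤ η / 4 * Real.log t + K := add_le_add k1 a3
        _ ≤ η * Om t := by rw [hOm] at hKO ⊢; linarith
    · rw [hgn, le_div_iff₀ (by positivity)] at k2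
      refine le_trans ?_ k2
      apply mul_le_mul_of_nonneg_right _ (by positivity)
      rw [Real.rpow_def_of_pos ht0]
      apply Real.exp_le_exp.mpr
      nlinarith
  · intro u hu1 hu2 hu3
    have hur : |u.re| ≤ 10 := by rw [abs_of_nonneg (by linarith)]; linarith
    obtain ⟨a1, a2, a3, a4⟩ := hH0 u hur hu3
    have hFu := hF0 u hu1 hu3
    refine ⟨?_, ?_, ?_⟩
    · have hd : DifferentiableAt ℂ (fun v : ℂ => I * t + v) u := differentiableAt_id.const_add _
      have b1 : DifferentiableAt ℂ (fun v : ℂ => F (I * t + v)) u :=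
        DifferentiableAt.comp u hFd.differentiableAt hd
      have b2 : DifferentiableAt ℂ (fun v : ℂ => HH (I * t + v)) u :=
        DifferentiableAt.comp u a1 hd
      exact b1.div (b2.const_mul _) (mul_ne_zero hc a2)
    · exact div_ne_zero hFu (mul_ne_zero hc a2)
    · rw [hgn, div_le_iff₀ (by positivity)]
      have b1 := hUB t n htU hn0 hn1 u hur hu3
      refine le_trans b1 ?_
      have b2 : Real.exp (-(K * 15)) * ‖HH (I * t)‖ ≤ ‖HH (I * t + u)‖ := by
        refine le_trans ?_ a4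
        apply mul_le_mul_of_nonneg_right _ (norm_nonneg _)
        apply Real.exp_le_exp.mpr
        nlinarith
      have b3 : ‖HH (I * t)‖ ≤ Real.exp (K * 15) * ‖HH (I * t + u)‖ := by
        have := mul_le_mul_of_nonneg_left b2 (Real.exp_pos (K * 15)).le
        rwa [← mul_assoc, ← Real.exp_add, add_neg_cancel, Real.exp_zero, one_mul] at this
      have b4 : t ^ KU = Real.exp (KU * Real.log t) := by
        rw [Real.rpow_def_of_pos ht0, mul_comm]
      have b5 : Real.exp (K * 15) ≤ Real.exp (15 * K * Real.log t) := by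
        apply Real.exp_le_exp.mpr
        nlinarith
      calc t ^ KU * (Om t ^ n * ‖HH (I * t)‖)
          ≤ t ^ KU * (Om t ^ n * (Real.exp (K * 15) * ‖HH (I * t + u)‖)) := by gcongr
        _ ≤ t ^ KU * (Om t ^ n * (Real.exp (15 * K * Real.log t) * ‖HH (I * t + u)‖)) := by gcongr
        _ = Real.exp ((KU + 15 * K) * Real.log t) * (Om t ^ n * ‖HH (I * t + u)‖) := by
          rw [b4, add_mul, Real.exp_add]; ring
  · intro u hu1 hu2 hu3
    have hur : |u.re| ≤ 10 := by rw [abs_of_nonneg (by linarith)]; linarith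
    obtain ⟨a1, a2, a3, a4⟩ := hH0 u hur hu3
    obtain ⟨c1, c2⟩ := hRG t n htR hn0 hn1 u hu1 hu2 hu3
    rw [hgn, le_div_iff₀ (by positivity), div_le_iff₀ (by positivity)]
    rw [Real.rpow_def_of_pos ht0] at c1 c2
    have d1 : -(ε * Real.log t) = Real.log t * -ε := by ring
    have d2 : ε * Real.log t = Real.log t * ε := by ring
    rw [d1, d2]
    exact ⟨c1, c2⟩

end Pool.Agent.H986R2.K4
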