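import Pool.Agent.H986R2.K4.Spec
import Pool.Agent.H24R2.JP.Stir

set_option autoImplicit false

namespace Pool.Agent.H986R2.K4

open Complex Filter Topology MeasureTheory Set
open Pool.Agent.H24R2.JP (XX HH Om)
open Pool.Agent.H24R2.JP.StirAux

namespace HHbAux

/-- one-sided bound from the logarithmic derivative along a segment -/
lemma segw (p d : ℂ) (w κ : ℝ) (hκ : 0 < κ)
    (h : ∀ x ∈ Icc (0 : ℝ) 1, 0 < (p + x * d).im ∧ ‖logDeriv HH (p + x * d) - (w : ℂ)‖ * ‖d‖ ≤ κ) :
    ‖HH (p + d)‖ ≤ Real.exp (κ + w * d.re) * ‖HH p‖ := by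
  have key := SG.GamAux.gron (fun x : ℝ => HH (p + x * d) * cexp (-((x : ℂ) * (w * d))))
    (fun x : ℝ => HH (p + x * d) * cexp (-((x : ℂ) * (w * d))) * ((ld (p + x * d) - w) * d)) κ hκ ?_ ?_
  · have h1 := key.1
    simp only [ofReal_one, one_mul, ofReal_zero, zero_mul, add_zero, neg_zero, Complex.exp_zero,
      mul_one, norm_mul, Complex.norm_exp, Complex.neg_re, Complex.re_ofReal_mul] at h1
    have h2 : ‖HH (p + d)‖ = ‖HH (p + d)‖ * Real.exp (-(w * d.re)) * Real.exp (w * d.re) := by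
      rw [mul_assoc, ← Real.exp_add]
      simp
    rw [h2]
    calc ‖HH (p + d)‖ * Real.exp (-(w * d.re)) * Real.exp (w * d.re)
        ≤ (Real.exp κ * ‖HH p‖) * Real.exp (w * d.re) := by gcongr
      _ = Real.exp (κ + w * d.re) * ‖HH p‖ := by rw [Real.exp_add]; ring
  · intro x hx
    have h0 : HasDerivAt (fun x : ℝ => (x : ℂ)) 1 x := Complex.ofRealCLM.hasDerivAt
    have hlin : HasDerivAt (fun x : ℝ => p + (x : ℂ) * d) d x := by
      simpa using (h0.mul_const d).const_add p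
    have h1 : HasDerivAt (fun x : ℝ => HH (p + x * d)) (HH (p + x * d) * ld (p + x * d) * d) x :=
      HasDerivAt.comp x (HH_deriv (h x hx).1) hlin
    have h2 : HasDerivAt (fun x : ℝ => cexp (-((x : ℂ) * (w * d))))
        (cexp (-((x : ℂ) * (w * d))) * (-(w * d))) x := by
      have h3 : HasDerivAt (fun x : ℝ => -((x : ℂ) * (w * d))) (-(1 * (w * d))) x :=
        (h0.mul_const ((w : ℂ) * d)).neg
      have h4 := h3.cexp
      simpa using h4
    refine (h1.mul h2).congr_deriv ?_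
    ring
  · intro x hx
    obtain ⟨h1, h2⟩ := h x hx
    rw [← ld_eq h1, norm_mul, norm_mul (_ - _), mul_comm]
    gcongr

end HHbAux

open HHbAux in
theorem hh : S_HH := by
  obtain ⟨K, hK, h⟩ := bound1
  refine ⟨K, hK, ?_⟩
  intro R hR
  refine ⟨400 + 4 * R, by linarith, ?_⟩
  intro t u ht hu
  have hR0 : 0 < R := by linarith
  have hin : ∀ v : ℂ, ‖v‖ ≤ R → 0 < (I * t + v).im ∧ ‖logDeriv HH (I * t + v) - (Om t : ℂ)‖ ≤ K := by
    intro v hv
    refine h t (I * t + v) (by linarith) ?_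
    rw [add_sub_cancel_left]
    linarith
  have hκ : 0 < K * R := by positivity
  have hn1 : ∀ x ∈ Icc (0 : ℝ) 1, ‖(x : ℂ) * u‖ ≤ R := by
    intro x hx
    rw [norm_mul, Complex.norm_real, Real.norm_eq_abs, abs_of_nonneg hx.1]
    nlinarith [hx.2, norm_nonneg u]
  have hn2 : ∀ x ∈ Icc (0 : ℝ) 1, ‖u + (x : ℂ) * (-u)‖ ≤ R := by
    intro x hx
    have := hn1 (1 - x) ⟨by linarith [hx.2], by linarith [hx.1]⟩
    have e : ((1 - x : ℝ) : ℂ) * u = u + (x : ℂ) * (-u) := by push_cast; ring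
    rwa [e] at this
  obtain ⟨h1, h2⟩ := hin u hu
  refine ⟨HH_diff h1, HH_ne h1, h2, ?_, ?_⟩
  · have h3 := segw (I * t + u) (-u) (Om t) (K * R) hκ ?_
    · rw [add_neg_cancel_right, Complex.neg_re] at h3
      have e : Real.exp (Om t * u.re - K * R) * Real.exp (K * R + Om t * -u.re) = 1 := by
        rw [← Real.exp_add]
        have : Om t * u.re - K * R + (K * R + Om t * -u.re) = 0 := by ring
        rw [this, Real.exp_zero]
      calc Real.exp (Om t * u.re - K * R) * ‖HH (I * t)‖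
          ≤ Real.exp (Om t * u.re - K * R) *
            (Real.exp (K * R + Om t * -u.re) * ‖HH (I * t + u)‖) := by gcongr
        _ = ‖HH (I * t + u)‖ := by rw [← mul_assoc, e, one_mul]
    · intro x hx
      have e : I * t + u + x * (-u) = I * t + (u + x * (-u)) := by ring
      rw [e]
      obtain ⟨h4, h5⟩ := hin _ (hn2 x hx)
      refine ⟨h4, ?_⟩
      rw [norm_neg]
      gcongr
  · have h3 := segw (I * t) u (Om t) (K * R) hκ ?_
    · rw [add_comm (K * R)] at h3
      exact h3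
    · intro x hx
      obtain ⟨h4, h5⟩ := hin _ (hn1 x hx)
      refine ⟨h4, ?_⟩
      gcongr

end Pool.Agent.H986R2.K4
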