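import Pool.Agent.H986R2.K4.Spec
import Pool.Agent.H156R2.DZArc
import Pool.Agent.H24R2.DZ.Lap

set_option autoImplicit false

/-!
# Derivatives at a point whose whole neighbourhood is controlled (task LL)
-/

namespace Pool.Agent.H986R2.K4

open Complex Filter Topology MeasureTheory Set
open Pool.Agent.H24R2.DZ
open Pool.Agent.H156R2.DZArc

namespace LLAux

/-- Cauchy's formula with the saddle point estimate -/
lemma coreK (h : SLap) (κ : ℝ) (hκ : 0 < κ) (hκ1 : κ ≤ 1 / 10000) : ∃ η c : ℝ, ∃ n1 : ℕ, 0 < η ∧ η ≤ 1 / 1000 ∧ 0 < c ∧ 1 ≤ n1 ∧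
    ∀ (n : ℕ) (p : ℂ) (F : ℂ → ℂ), n1 ≤ n →
    (∀ w ∈ Metric.ball (p + 1) (1 / 2), DifferentiableAt ℂ F w ∧ F w ≠ 0 ∧
      ‖logDeriv F w - n‖ ≤ η * n) →
    (∀ w ∈ Metric.closedBall p 1, DifferentiableAt ℂ F w) →
    (∀ φ : ℝ, 1 / 10 ≤ |φ| → |φ| ≤ Real.pi →
      ‖F (p + cexp (φ * I))‖ ≤ Real.exp (-(n / 250)) * ‖F (p + 1)‖) →
    (n.factorial : ℝ) * (c / Real.sqrt n * (Real.exp (-(κ * n)) * ‖F (p + 1)‖)) ≤
      ‖iteratedDeriv n F p‖ := by
  obtain ⟨η0, c, C, n0, hη0, hc, hC, hn0, H⟩ := h κ hκ (by linarith)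
  refine ⟨min η0 (1 / 1000), c / 16, max n0 (max 100 (⌈(16000 / c) ^ 2⌉₊)),
    lt_min hη0 (by norm_num), min_le_right _ _, by positivity, le_max_of_le_left hn0, ?_⟩
  intro n p F hn hF hd hrest
  have hn0' : n0 ≤ n := (le_max_left _ _).trans hn
  have hn100 : 100 ≤ n := (le_max_left _ _).trans ((le_max_right _ _).trans hn)
  have hnc : (16000 / c) ^ 2 ≤ (n : ℝ) := by
    have h1 : ⌈(16000 / c) ^ 2⌉₊ ≤ n := (le_max_right _ _).trans ((le_max_right _ _).trans hn)
    exact (Nat.le_ceil _).trans (by exact_mod_cast h1)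
  have hnpos : (0 : ℝ) < n := by
    have : 0 < n := by omega
    exact_mod_cast this
  have hηpos : 0 < min η0 (1 / 1000) := lt_min hη0 (by norm_num)
  have hη1 : min η0 (1 / 1000) ≤ 1 / 1000 := min_le_right _ _
  obtain ⟨w0, hw0, -, hlow, hdec, hmain, -⟩ := H n hn0' p F (fun w hw =>
    ⟨(hF w hw).1, (hF w hw).2.1, (hF w hw).2.2.trans
      (mul_le_mul_of_nonneg_right (min_le_left _ _) hnpos.le)⟩)
  obtain ⟨A, hA⟩ : ∃ A, A = ‖F w0 / (w0 - p) ^ (n + 1)‖ := ⟨_, rfl⟩
  simp only [← hA] at hlow hdec hmain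
  have hA0 : 0 ≤ A := by rw [hA]; exact norm_nonneg _
  obtain ⟨E, hE⟩ : ∃ E, E = Real.exp (-(n / 1000 : ℝ)) * A := ⟨_, rfl⟩
  have hE0 : 0 ≤ E := by rw [hE]; exact mul_nonneg (Real.exp_pos _).le hA0
  have hne : ∀ w ∈ Metric.ball (p + 1) (1 / 2 : ℝ), w - p ≠ 0 := by
    intro w hw h
    rw [Metric.mem_ball, dist_eq_norm, show w - (p + 1) = (w - p) - 1 by ring, h, zero_sub,
      norm_neg, norm_one] at hw
    linarith
  have hQ : DifferentiableOn ℂ (fun w => F w / (w - p) ^ (n + 1)) (Metric.ball (p + 1) (1 / 2)) :=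
    fun w hw => (hasDeriv_Q (hF w hw).1 (hF w hw).2.1 (hne w hw)).differentiableAt.differentiableWithinAt
  obtain ⟨G, hG⟩ := hQ.isExactOn_ball
  -- points near `p + 1`
  have hexp1 : ∀ φ : ℝ, ‖cexp (φ * I) - 1‖ ≤ |φ| := by
    intro φ
    have := Real.norm_exp_I_mul_ofReal_sub_one_le (x := φ)
    rwa [mul_comm I, Real.norm_eq_abs] at this
  have harc : ∀ φ : ℝ, |φ| ≤ 1 / 10 → p + cexp (φ * I) ∈ Metric.ball (p + 1) (1 / 2 : ℝ) := by
    intro φ hφ
    rw [Metric.mem_ball, dist_eq_norm, show p + cexp (φ * I) - (p + 1) = cexp (φ * I) - 1 by ring]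
    have := hexp1 φ
    linarith
  have hver : ∀ y : ℝ, |y| ≤ 1 / 10 → ‖w0 + I * y - (p + 1)‖ ≤ 1001 / 10000 := by
    intro y hy
    rw [show w0 + I * y - (p + 1) = (w0 - (p + 1)) + I * y by ring]
    refine (norm_add_le _ _).trans ?_
    rw [norm_mul, Complex.norm_I, one_mul, Complex.norm_real, Real.norm_eq_abs]
    linarith
  have hver' : ∀ y : ℝ, |y| ≤ 1 / 10 → w0 + I * y ∈ Metric.ball (p + 1) (1 / 2 : ℝ) := by
    intro y hy
    rw [Metric.mem_ball, dist_eq_norm]
    have := hver y hy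
    linarith
  -- the arc
  have I1 : ∫ φ in (-(1 / 10) : ℝ)..(1 / 10), gg F n p φ =
      G (p + cexp (((1 / 10 : ℝ) : ℂ) * I)) - G (p + cexp (((-(1 / 10) : ℝ) : ℂ) * I)) := by
    refine intervalIntegral.integral_eq_sub_of_hasDerivAt (f := fun φ : ℝ => G (p + cexp (φ * I)))
      ?_ ((gg_cont hd).intervalIntegrable _ _)
    intro φ hφ
    rw [Set.uIcc_of_le (by norm_num)] at hφ
    have h1 := hG _ (harc φ (abs_le.2 ⟨hφ.1, hφ.2⟩))
    have h2 : HasDerivAt (fun φ : ℝ => p + cexp (φ * I)) (cexp (φ * I) * I) φ := by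
      have h3 : HasDerivAt (fun φ : ℝ => (φ : ℂ) * I) (1 * I) φ :=
        (Complex.ofRealCLM.hasDerivAt (x := φ)).mul_const I
      have := h3.cexp.const_add p
      simpa using this
    have := HasDerivAt.scomp φ h1 h2
    refine this.congr_deriv ?_
    rw [smul_eq_mul]
    unfold gg
    ring
  have I2 : ∫ y in (-(1 / 10) : ℝ)..(1 / 10), I * (F (w0 + I * y) / (w0 + I * y - p) ^ (n + 1)) =
      G (w0 + I * ((1 / 10 : ℝ) : ℂ)) - G (w0 + I * ((-(1 / 10) : ℝ) : ℂ)) := by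
    refine intervalIntegral.integral_eq_sub_of_hasDerivAt (f := fun y : ℝ => G (w0 + I * y)) ?_ ?_
    · intro y hy
      rw [Set.uIcc_of_le (by norm_num)] at hy
      have h1 := hG _ (hver' y (abs_le.2 ⟨hy.1, hy.2⟩))
      have h2 : HasDerivAt (fun y : ℝ => w0 + I * y) I y := by
        have h3 : HasDerivAt (fun y : ℝ => I * (y : ℂ)) (I * 1) y :=
          (Complex.ofRealCLM.hasDerivAt (x := y)).const_mul I
        simpa using h3.const_add w0
      have := HasDerivAt.scomp y h1 h2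
      exact this.congr_deriv (by rw [smul_eq_mul])
    · refine ContinuousOn.intervalIntegrable ?_
      rw [Set.uIcc_of_le (by norm_num)]
      intro y hy
      have h1 := (hQ _ (hver' y (abs_le.2 ⟨hy.1, hy.2⟩))).differentiableAt
        (Metric.isOpen_ball.mem_nhds (hver' y (abs_le.2 ⟨hy.1, hy.2⟩)))
      have h2 : ContinuousAt (fun y : ℝ => w0 + I * (y : ℂ)) y := by fun_prop
      exact ((h1.continuousAt.comp_of_eq h2 rfl).const_mul I |>.continuousWithinAt)
  have I3 : c / Real.sqrt n * A ≤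
      ‖G (w0 + I * ((1 / 10 : ℝ) : ℂ)) - G (w0 + I * ((-(1 / 10) : ℝ) : ℂ))‖ := by
    rw [← I2, intervalIntegral.integral_const_mul, norm_mul, Complex.norm_I, one_mul]
    exact hmain
  have hconn : ∀ y : ℝ, |y| = 1 / 10 →
      ‖G (p + cexp ((y : ℂ) * I)) - G (w0 + I * (y : ℂ))‖ ≤ 1 / 50 * E := by
    intro y hy
    rw [hE]
    refine seg_le hηpos hη1 hn100 hF hG ?_ (hver y hy.le) ?_ ?_
    · rw [show p + cexp ((y : ℂ) * I) - (p + 1) = cexp ((y : ℂ) * I) - 1 by ring]
      have := hexp1 y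
      linarith
    · rw [show p + cexp ((y : ℂ) * I) - (w0 + I * (y : ℂ)) =
        (cexp ((y : ℂ) * I) - 1 - (y : ℂ) * I) - (w0 - (p + 1)) by ring]
      refine (norm_sub_le _ _).trans ?_
      have hn1 : ‖(y : ℂ) * I‖ = 1 / 10 := by
        rw [norm_mul, Complex.norm_I, mul_one, Complex.norm_real, Real.norm_eq_abs, hy]
      have h1 := Complex.norm_exp_sub_one_sub_id_le (x := (y : ℂ) * I) (by rw [hn1]; norm_num)
      rw [hn1] at h1
      linarith
    · have h1 := hdec y hy.le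
      have h2 : y ^ 2 = (1 / 10) ^ 2 := by rw [← sq_abs, hy]
      rw [h2] at h1
      refine h1.trans (le_of_eq ?_)
      congr 2
      ring
  have harcle : c / Real.sqrt n * A - 1 / 25 * E ≤ ‖∫ φ in (-(1 / 10) : ℝ)..(1 / 10), gg F n p φ‖ := by
    rw [I1]
    have h1 := hconn (1 / 10) (by rw [abs_of_pos (by norm_num)])
    have h2 := hconn (-(1 / 10)) (by rw [abs_neg, abs_of_pos (by norm_num)])
    have h3 := norm_add₃_le (a := G (p + cexp (((1 / 10 : ℝ) : ℂ) * I)) - G (p + cexp (((-(1 / 10) : ℝ) : ℂ) * I)))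
      (b := -(G (p + cexp (((1 / 10 : ℝ) : ℂ) * I)) - G (w0 + I * ((1 / 10 : ℝ) : ℂ))))
      (c := G (p + cexp (((-(1 / 10) : ℝ) : ℂ) * I)) - G (w0 + I * ((-(1 / 10) : ℝ) : ℂ)))
    rw [norm_neg, show G (p + cexp (((1 / 10 : ℝ) : ℂ) * I)) - G (p + cexp (((-(1 / 10) : ℝ) : ℂ) * I)) +
      -(G (p + cexp (((1 / 10 : ℝ) : ℂ) * I)) - G (w0 + I * ((1 / 10 : ℝ) : ℂ))) +
      (G (p + cexp (((-(1 / 10) : ℝ) : ℂ) * I)) - G (w0 + I * ((-(1 / 10) : ℝ) : ℂ))) =
      G (w0 + I * ((1 / 10 : ℝ) : ℂ)) - G (w0 + I * ((-(1 / 10) : ℝ) : ℂ)) by ring] at h3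
    linarith
  -- the rest of the circle
  have hgg : ∀ φ : ℝ, 1 / 10 ≤ |φ| → |φ| ≤ Real.pi → ‖gg F n p φ‖ ≤ E := by
    intro φ h1 h2
    rw [gg_norm, hE]
    refine (hrest φ h1 h2).trans ?_
    have h3 : ‖F (p + 1)‖ ≤ Real.exp (n / 10000) * A := by
      calc ‖F (p + 1)‖ = Real.exp (κ * n) * (Real.exp (-(κ * n)) * ‖F (p + 1)‖) := by
            rw [← mul_assoc, ← Real.exp_add, show (κ * n + -(κ * n) : ℝ) = 0 by ring,
              Real.exp_zero, one_mul]
        _ ≤ Real.exp (κ * n) * A := mul_le_mul_of_nonneg_left hlow (Real.exp_pos _).le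
        _ ≤ Real.exp (n / 10000) * A := by
          refine mul_le_mul_of_nonneg_right (Real.exp_le_exp.2 ?_) hA0
          have := mul_le_mul_of_nonneg_right hκ1 hnpos.le
          linarith
    calc Real.exp (-(n / 250)) * ‖F (p + 1)‖ ≤ Real.exp (-(n / 250)) * (Real.exp (n / 10000) * A) :=
          mul_le_mul_of_nonneg_left h3 (Real.exp_pos _).le
      _ = Real.exp (-(n / 250) + n / 10000) * A := by rw [Real.exp_add]; ring
      _ ≤ Real.exp (-(n / 1000)) * A := by
        refine mul_le_mul_of_nonneg_right (Real.exp_le_exp.2 ?_) hA0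
        linarith
  have hpi : Real.pi ≤ 315 / 100 := by
    have := Real.pi_lt_d2
    linarith
  have hpi3 : 3 < Real.pi := Real.pi_gt_three
  have R1 : ‖∫ φ in (-Real.pi)..(-(1 / 10) : ℝ), gg F n p φ‖ ≤ E * 4 := by
    refine (intervalIntegral.norm_integral_le_of_norm_le_const (C := E) ?_).trans ?_
    · intro φ hφ
      rw [Set.uIoc_of_le (by linarith)] at hφ
      have h0 : φ ≤ 0 := by linarith [hφ.2]
      refine hgg φ ?_ ?_
      · rw [abs_of_nonpos h0]; linarith [hφ.2]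
      · rw [abs_of_nonpos h0]; linarith [hφ.1]
    · refine mul_le_mul_of_nonneg_left ?_ hE0
      rw [abs_of_nonneg (by linarith)]
      linarith
  have R2 : ‖∫ φ in (1 / 10 : ℝ)..Real.pi, gg F n p φ‖ ≤ E * 4 := by
    refine (intervalIntegral.norm_integral_le_of_norm_le_const (C := E) ?_).trans ?_
    · intro φ hφ
      rw [Set.uIoc_of_le (by linarith)] at hφ
      have h0 : 0 ≤ φ := by linarith [hφ.1]
      refine hgg φ ?_ ?_
      · rw [abs_of_nonneg h0]; linarith [hφ.1]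
      · rw [abs_of_nonneg h0]; linarith [hφ.2]
    · refine mul_le_mul_of_nonneg_left ?_ hE0
      rw [abs_of_nonneg (by linarith)]
      linarith
  have hci := fun a b : ℝ => (gg_cont (n := n) hd).intervalIntegrable (μ := volume) a b
  have hsplit : ∫ φ in (-Real.pi)..Real.pi, gg F n p φ =
      (∫ φ in (-Real.pi)..(-(1 / 10) : ℝ), gg F n p φ) + (∫ φ in (-(1 / 10) : ℝ)..(1 / 10), gg F n p φ) +
        ∫ φ in (1 / 10 : ℝ)..Real.pi, gg F n p φ := by
    rw [intervalIntegral.integral_add_adjacent_intervals (hci _ _) (hci _ _),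
      intervalIntegral.integral_add_adjacent_intervals (hci _ _) (hci _ _)]
  have htot : c / Real.sqrt n * A - 9 * E ≤ ‖∫ φ in (-Real.pi)..Real.pi, gg F n p φ‖ := by
    have h3 := norm_add₃_le (a := ∫ φ in (-Real.pi)..Real.pi, gg F n p φ)
      (b := -(∫ φ in (-Real.pi)..(-(1 / 10) : ℝ), gg F n p φ))
      (c := -(∫ φ in (1 / 10 : ℝ)..Real.pi, gg F n p φ))
    rw [norm_neg, norm_neg, show (∫ φ in (-Real.pi)..Real.pi, gg F n p φ) +
      -(∫ φ in (-Real.pi)..(-(1 / 10) : ℝ), gg F n p φ) + -(∫ φ in (1 / 10 : ℝ)..Real.pi, gg F n p φ) =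
      ∫ φ in (-(1 / 10) : ℝ)..(1 / 10), gg F n p φ by rw [hsplit]; ring] at h3
    linarith
  have hsq : 0 < Real.sqrt n := Real.sqrt_pos.2 hnpos
  have hsmall : 9 * E ≤ 9 / 16 * (c / Real.sqrt n * A) := by
    have h1 : 16000 / c ≤ Real.sqrt n := Real.le_sqrt_of_sq_le hnc
    have h2 : (n : ℝ) / 1000 * Real.exp (-(n / 1000 : ℝ)) ≤ 1 := by
      have h3 := Real.add_one_le_exp (n / 1000 : ℝ)
      calc (n : ℝ) / 1000 * Real.exp (-(n / 1000 : ℝ)) ≤
            Real.exp (n / 1000 : ℝ) * Real.exp (-(n / 1000 : ℝ)) :=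
            mul_le_mul_of_nonneg_right (by linarith) (Real.exp_pos _).le
        _ = 1 := by rw [← Real.exp_add]; simp
    have h4 : Real.exp (-(n / 1000 : ℝ)) ≤ 1 / 16 * (c / Real.sqrt n) := by
      have h5 : Real.sqrt n * Real.sqrt n = n := Real.mul_self_sqrt hnpos.le
      have h6 : Real.exp (-(n / 1000 : ℝ)) ≤ 1000 / n := by
        rw [le_div_iff₀ hnpos]
        linarith
      refine h6.trans ?_
      have h7 : 16000 ≤ Real.sqrt n * c := by
        rwa [div_le_iff₀ hc] at h1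
      have h8 : c / Real.sqrt n = c * Real.sqrt n / n := by
        rw [div_eq_div_iff hsq.ne' hnpos.ne']
        linear_combination (-c) * h5
      rw [h8, ← mul_div_assoc, div_le_div_iff_of_pos_right hnpos]
      linarith
    rw [hE]
    have := mul_le_mul_of_nonneg_right h4 hA0
    linarith
  rw [cauchy_gg n hd, norm_mul] at htot
  have hfac : (0 : ℝ) < n.factorial := by exact_mod_cast n.factorial_pos
  have hnorm : ‖(2 * Real.pi * I / n.factorial : ℂ)‖ = 2 * Real.pi / n.factorial := by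
    rw [norm_div, norm_mul, norm_mul, Complex.norm_I, Complex.norm_real, Complex.norm_natCast,
      Real.norm_eq_abs, abs_of_pos Real.pi_pos]
    simp
  rw [hnorm] at htot
  have hfin : 7 / 16 * (c / Real.sqrt n * A) ≤ 2 * Real.pi / n.factorial * ‖iteratedDeriv n F p‖ := by
    linarith
  have h8 : 7 / 16 * (c / Real.sqrt n * A) ≤ 7 * (‖iteratedDeriv n F p‖ / n.factorial) := by
    refine hfin.trans ?_
    rw [div_mul_eq_mul_div, mul_div_assoc]
    refine mul_le_mul_of_nonneg_right (by linarith) (by positivity)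
  have h9 : 1 / 16 * (c / Real.sqrt n * A) * n.factorial ≤ ‖iteratedDeriv n F p‖ := by
    rw [← le_div_iff₀ hfac]
    linarith
  have h10 : Real.exp (-(κ * n)) * ‖F (p + 1)‖ ≤ A := hlow
  calc (n.factorial : ℝ) * (c / 16 / Real.sqrt n * (Real.exp (-(κ * n)) * ‖F (p + 1)‖))
      ≤ (n.factorial : ℝ) * (c / 16 / Real.sqrt n * A) := by
        gcongr
    _ = 1 / 16 * (c / Real.sqrt n * A) * n.factorial := by ring
    _ ≤ ‖iteratedDeriv n F p‖ := h9


lemma cos_arc {φ : ℝ} (h1 : 1 / 10 ≤ |φ|) (h2 : |φ| ≤ Real.pi) : Real.cos φ - 1 ≤ -(499 / 100000) := by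
  rw [← Real.cos_abs φ]
  have h3 : Real.cos |φ| ≤ Real.cos (1 / 10) :=
    Real.cos_le_cos_of_nonneg_of_le_pi (by norm_num) h2 h1
  have h4 := Real.cos_bound (x := 1 / 10) (by rw [abs_of_pos (by norm_num)]; norm_num)
  rw [abs_of_pos (show (0 : ℝ) < 1 / 10 by norm_num)] at h4
  have h5 := (abs_le.1 h4).2
  norm_num at h5
  linarith

lemma exp_I_re (φ : ℝ) : (cexp (φ * I)).re = Real.cos φ := by
  rw [Complex.exp_ofReal_mul_I_re]

end LLAux

open LLAux

theorem ll : S_LL := by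
  intro ε hε
  obtain ⟨κ, hκ⟩ : ∃ κ, κ = min (ε / 4) (1 / 10000) := ⟨_, rfl⟩
  have hκ0 : 0 < κ := by rw [hκ]; exact lt_min (by linarith) (by norm_num)
  have hκ1 : κ ≤ 1 / 10000 := by rw [hκ]; exact min_le_right _ _
  have hκ2 : κ ≤ ε / 4 := by rw [hκ]; exact min_le_left _ _
  obtain ⟨η1, c, n1, hη1, hη11, hc, hn1, H⟩ := coreK lap κ hκ0 hκ1
  obtain ⟨η, hη⟩ : ∃ η, η = min η1 (min (1 / 4000) (ε / 4)) := ⟨_, rfl⟩
  have hη0 : 0 < η := by rw [hη]; exact lt_min hη1 (lt_min (by norm_num) (by linarith))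
  have hηa : η ≤ η1 := by rw [hη]; exact min_le_left _ _
  have hηb : η ≤ 1 / 4000 := by rw [hη]; exact (min_le_right _ _).trans (min_le_left _ _)
  have hηc : η ≤ ε / 4 := by rw [hη]; exact (min_le_right _ _).trans (min_le_right _ _)
  refine ⟨η, max n1 ⌈8 / (c * ε ^ 2)⌉₊, hη0, le_max_of_le_left hn1, ?_⟩
  intro n p F hn hF
  have hn' : n1 ≤ n := (le_max_left _ _).trans hn
  have hnc : 8 / (c * ε ^ 2) ≤ (n : ℝ) := by
    have h1 : ⌈8 / (c * ε ^ 2)⌉₊ ≤ n := (le_max_right _ _).trans hn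
    exact (Nat.le_ceil _).trans (by exact_mod_cast h1)
  have hnpos : (0 : ℝ) < n := by
    have : 0 < n := by omega
    exact_mod_cast this
  have hF1 : ∀ w ∈ Metric.ball p (3 / 2), DifferentiableAt ℂ F w ∧ F w ≠ 0 ∧
      ‖logDeriv F w - ((n : ℝ) : ℂ)‖ ≤ η * n := by
    intro w hw
    have := hF w hw
    push_cast
    exact this
  have hp : p ∈ Metric.ball p (3 / 2 : ℝ) := Metric.mem_ball_self (by norm_num)
  have hp1 : p + 1 ∈ Metric.ball p (3 / 2 : ℝ) := by
    rw [Metric.mem_ball, dist_eq_norm, add_sub_cancel_left, norm_one]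
    norm_num
  have hsub : ∀ w ∈ Metric.ball (p + 1) (1 / 2 : ℝ), w ∈ Metric.ball p (3 / 2 : ℝ) := by
    intro w hw
    rw [Metric.mem_ball, dist_eq_norm] at hw ⊢
    have := norm_add_le (w - (p + 1)) 1
    rw [norm_one, show w - (p + 1) + 1 = w - p by ring] at this
    linarith
  have hcirc : ∀ φ : ℝ, p + cexp (φ * I) ∈ Metric.ball p (3 / 2 : ℝ) := by
    intro φ
    rw [Metric.mem_ball, dist_eq_norm, add_sub_cancel_left, Complex.norm_exp_ofReal_mul_I]
    norm_num
  constructor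
  · have key := H n p F hn'
      (fun w hw => ⟨(hF w (hsub w hw)).1, (hF w (hsub w hw)).2.1, (hF w (hsub w hw)).2.2.trans
        (mul_le_mul_of_nonneg_right hηa hnpos.le)⟩)
      (fun w hw => (hF w (Metric.closedBall_subset_ball (by norm_num) hw)).1)
      (fun φ h1 h2 => by
        have h3 := growF (convex_ball p (3 / 2)) hF1 hp1 (hcirc φ)
        refine h3.trans ?_
        rw [mul_comm]
        refine mul_le_mul_of_nonneg_right (Real.exp_le_exp.2 ?_) (norm_nonneg _)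
        have h4 : (p + cexp (φ * I)).re - (p + 1).re = Real.cos φ - 1 := by
          rw [Complex.add_re, Complex.add_re, exp_I_re, Complex.one_re]; ring
        have h5 : ‖p + cexp (φ * I) - (p + 1)‖ ≤ 2 := by
          rw [show p + cexp (φ * I) - (p + 1) = cexp (φ * I) - 1 by ring]
          refine (norm_sub_le _ _).trans ?_
          rw [Complex.norm_exp_ofReal_mul_I, norm_one]
          norm_num
        rw [h4]
        have h6 := cos_arc h1 h2
        have h7 : (n : ℝ) * (Real.cos φ - 1) ≤ n * (-(499 / 100000)) :=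
          mul_le_mul_of_nonneg_left h6 hnpos.le
        have h8 : η * n * ‖p + cexp (φ * I) - (p + 1)‖ ≤ 1 / 4000 * n * 2 := by
          gcongr
        linarith)
    have h1 := growF (convex_ball p (3 / 2)) hF1 hp1 hp
    have h2 : n * (p.re - (p + 1).re) + η * n * ‖p - (p + 1)‖ ≤ -((1 - ε / 4) * n) := by
      rw [show p - (p + 1) = -1 by ring, norm_neg, norm_one, Complex.add_re, Complex.one_re]
      have h8 : η * n ≤ ε / 4 * n := by gcongr
      linarith
    have h3 : ‖F p‖ ≤ ‖F (p + 1)‖ * Real.exp (-((1 - ε / 4) * n)) :=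
      h1.trans (mul_le_mul_of_nonneg_left (Real.exp_le_exp.2 h2) (norm_nonneg _))
    have h3' : Real.exp ((1 - ε / 4) * n) * ‖F p‖ ≤ ‖F (p + 1)‖ := by
      calc Real.exp ((1 - ε / 4) * n) * ‖F p‖ ≤
            Real.exp ((1 - ε / 4) * n) * (‖F (p + 1)‖ * Real.exp (-((1 - ε / 4) * n))) :=
            mul_le_mul_of_nonneg_left h3 (Real.exp_pos _).le
        _ = ‖F (p + 1)‖ * (Real.exp ((1 - ε / 4) * n) * Real.exp (-((1 - ε / 4) * n))) := by ring
        _ = ‖F (p + 1)‖ := by rw [← Real.exp_add, add_neg_cancel, Real.exp_zero, mul_one]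
    have hn1' : (1 : ℝ) ≤ n := by exact_mod_cast (show 1 ≤ n by omega)
    have hsq : 0 < Real.sqrt n := Real.sqrt_pos.2 hnpos
    have hsqn : Real.sqrt n ≤ n := by
      rw [Real.sqrt_le_left hnpos.le]
      nlinarith
    have h4 : Real.exp (-(ε / 2 * n)) ≤ c / Real.sqrt n := by
      have h5 : (ε / 2 * n) ^ 2 / 2 ≤ Real.exp (ε / 2 * n) := by
        have h6 := Real.quadratic_le_exp_of_nonneg (x := ε / 2 * n) (by positivity)
        have h7 : 0 ≤ ε / 2 * n := by positivity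
        linarith
      have h8 : (n : ℝ) / c ≤ (ε / 2 * n) ^ 2 / 2 := by
        rw [div_le_iff₀ (by positivity)] at hnc
        rw [div_le_iff₀ hc]
        have : (n : ℝ) * 8 ≤ n * (n * (c * ε ^ 2)) := mul_le_mul_of_nonneg_left hnc hnpos.le
        nlinarith
      have h9 : Real.sqrt n / c ≤ Real.exp (ε / 2 * n) :=
        (div_le_div_of_nonneg_right hsqn hc.le).trans (h8.trans h5)
      rw [Real.exp_neg]
      rw [show c / Real.sqrt n = (Real.sqrt n / c)⁻¹ by rw [inv_div]]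
      exact inv_anti₀ (by positivity) h9
    calc Real.exp ((1 - ε) * n) * ((n.factorial : ℝ) * ‖F p‖)
        = (n.factorial : ℝ) * (Real.exp (-(ε / 2 * n)) * (Real.exp (-(ε / 4 * n)) *
            (Real.exp ((1 - ε / 4) * n) * ‖F p‖))) := by
          rw [show (1 - ε) * (n : ℝ) = -(ε / 2 * n) + (-(ε / 4 * n) + (1 - ε / 4) * n) by ring,
            Real.exp_add, Real.exp_add]
          ring
      _ ≤ (n.factorial : ℝ) * (c / Real.sqrt n * (Real.exp (-(κ * n)) * ‖F (p + 1)‖)) := by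
          refine mul_le_mul_of_nonneg_left ?_ (Nat.cast_nonneg _)
          refine mul_le_mul h4 ?_ (by positivity) (by positivity)
          refine mul_le_mul (Real.exp_le_exp.2 ?_) h3' (by positivity) (Real.exp_pos _).le
          have := mul_le_mul_of_nonneg_right hκ2 hnpos.le
          linarith
      _ ≤ ‖iteratedDeriv n F p‖ := key
  · have hcl : Metric.closedBall p 1 ⊆ Metric.ball p (3 / 2 : ℝ) :=
      Metric.closedBall_subset_ball (by norm_num)
    have hdc : DiffContOnCl ℂ F (Metric.ball p 1) := by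
      refine DifferentiableOn.diffContOnCl ?_
      rw [closure_ball p one_ne_zero]
      exact fun w hw => (hF w (hcl hw)).1.differentiableWithinAt
    have hC : ∀ z ∈ Metric.sphere p 1, ‖F z‖ ≤ Real.exp ((1 + ε) * n) * ‖F p‖ := by
      intro z hz
      have hz1 : ‖z - p‖ = 1 := by rw [← dist_eq_norm]; exact hz
      have h1 := growF (convex_ball p (3 / 2)) hF1 hp (hcl (Metric.sphere_subset_closedBall hz))
      refine h1.trans ?_
      rw [mul_comm]
      refine mul_le_mul_of_nonneg_right (Real.exp_le_exp.2 ?_) (norm_nonneg _)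
      rw [hz1, mul_one]
      have h2 : z.re - p.re ≤ 1 := by
        rw [← Complex.sub_re, ← hz1]
        exact Complex.re_le_norm _
      have h3 := mul_le_mul_of_nonneg_left h2 hnpos.le
      have h4 := mul_le_mul_of_nonneg_right hηc hnpos.le
      have h5 : 0 ≤ ε * n := by positivity
      linarith
    have := Complex.norm_iteratedDeriv_le_of_forall_mem_sphere_norm_le n one_pos hdc hC
    rw [one_pow, div_one] at this
    refine this.trans (le_of_eq (by ring))

end Pool.Agent.H986R2.K4
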