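import Pool.Agent.H986R2.K4.LRb

set_option autoImplicit false

/-!
# Laplace's method along the real direction: the theorem
-/

namespace Pool.Agent.H986R2.K4

open Complex Filter Topology MeasureTheory Set

namespace LRAux

lemma main {m : ℕ} {F : ℂ → ℂ} {η ρ κ δ c0 Y : ℝ} (hδ : 0 < δ) (hδρ : δ ≤ ρ / 10)
    (hδc : δ ≤ c0 / 10) (hρ : ρ ≤ 1 / 2) (hκ : 0 < κ) (hκδ : κ ≤ δ ^ 2 / 100000)
    (hη1 : η ≤ κ * ρ / 10000) (hη : 0 < η) (hn : 8 / κ ^ 2 ≤ (m : ℝ)) (hY : 1 + c0 ≤ Y)
    (hY2 : Y ≤ 100)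
    (h : ∀ y : ℝ, 0 ≤ y → y ≤ Y → ∀ w ∈ Metric.ball (y : ℂ) ρ,
      DifferentiableAt ℂ F w ∧ F w ≠ 0 ∧ ‖logDeriv F w + ((m : ℂ) + 1)‖ ≤ η * (m + 1)) :
    Real.exp (-(2 * (κ * (m + 1)))) * ‖F 1‖ ≤ ‖∫ y in (0 : ℝ)..Y, F y * (y : ℂ) ^ m‖ := by
  have hδ1 : δ ≤ 1 / 20 := by linarith
  have hκ1 : κ ≤ δ / 2000000 := by nlinarith
  have hκ2 : κ ≤ 1 / 10000000 := by linarith
  have hρ0 : 0 < ρ := by linarith
  have hm0 : (0 : ℝ) ≤ m := Nat.cast_nonneg m
  have hκκ : 8 ≤ κ * (κ * m) := by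
    rw [div_le_iff₀ (by positivity)] at hn
    nlinarith
  have hκm : 80000000 ≤ κ * m := by
    by_contra hcon
    push Not at hcon
    have h0 : 0 ≤ κ * m := by positivity
    nlinarith
  have hm1 : 1000000000000 ≤ (m : ℝ) := by
    by_contra hcon
    push Not at hcon
    nlinarith
  have h1 : Hyp1 F ρ m η := fun w hw => h 1 zero_le_one (by linarith) w (by simpa using hw)
  obtain ⟨w0, hw0, hlow, hint⟩ := local_int hδ hδρ hρ hκ hκδ hη1 hη hn h1
  have ha : |w0.re - 1| ≤ κ := by
    have := Complex.abs_re_le_norm (w0 - 1)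
    simp only [Complex.sub_re, Complex.one_re] at this
    linarith
  have hb : |w0.im| ≤ κ := by
    have := Complex.abs_im_le_norm (w0 - 1)
    simp only [Complex.sub_im, Complex.one_im, sub_zero] at this
    linarith
  obtain ⟨a, ha'⟩ : ∃ a : ℝ, a = w0.re := ⟨_, rfl⟩
  obtain ⟨b, hb'⟩ : ∃ b : ℝ, b = w0.im := ⟨_, rfl⟩
  have hw0e : w0 = (a : ℂ) + b * I := by rw [ha', hb']; exact (Complex.re_add_im w0).symm
  rw [← ha'] at ha
  rw [← hb'] at hb
  obtain ⟨ha1, ha2⟩ := abs_le.1 ha
  set f : ℂ → ℂ := fun w => F w * w ^ m with hf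
  set B : ℝ := ‖F 1‖ * Real.exp (2 - 100 * (κ * (m + 1))) with hB
  have hB0 : 0 ≤ B := by positivity
  have hfar : ∀ w : ℂ, 0 ≤ w.re → w.re ≤ Y → |w.im| ≤ κ → δ - κ ≤ |w.re - 1| → ‖f w‖ ≤ B :=
    fun w h0 h1 h2 h3 => far_bound hδ hδρ hρ hκ hκδ hη1 hη (by linarith) hY2 h w h0 h1 h2 h3
  have hfd : ∀ y : ℝ, 0 ≤ y → y ≤ Y → ∀ w ∈ Metric.ball (y : ℂ) ρ, DifferentiableAt ℂ f w := by
    intro y h0 h1 w hw
    exact (h y h0 h1 w hw).1.mul (differentiableAt_pow m)
  -- the rectangle
  have hrect := Complex.integral_boundary_rect_eq_zero_of_differentiableOn f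
    ((a - δ : ℝ) : ℂ) (((a + δ : ℝ) : ℂ) + b * I) (by
      intro w hw
      apply DifferentiableAt.differentiableWithinAt
      apply hfd 1 zero_le_one (by linarith) w
      rw [mem_reProdIm] at hw
      obtain ⟨hw1, hw2⟩ := hw
      simp only [Complex.ofReal_re, Complex.ofReal_im, Complex.add_re, Complex.mul_re, Complex.I_re,
        mul_zero, Complex.I_im, mul_one, sub_self, add_zero, Complex.add_im, Complex.mul_im,
        zero_add] at hw1 hw2
      rw [uIcc_of_le (by linarith)] at hw1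
      have hw2' : |w.im| ≤ |b| := by
        have := abs_sub_left_of_mem_uIcc hw2
        simpa using this
      have h3 := Complex.norm_le_abs_re_add_abs_im (w - 1)
      simp only [Complex.sub_re, Complex.one_re, Complex.sub_im, Complex.one_im, sub_zero] at h3
      have h4 : |w.re - 1| ≤ δ + κ := abs_le.2 ⟨by linarith [hw1.1], by linarith [hw1.2]⟩
      rw [Metric.mem_ball, dist_eq_norm, Complex.ofReal_one]
      linarith)
  simp only [Complex.ofReal_re, Complex.ofReal_im, Complex.add_re, Complex.mul_re, Complex.I_re,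
    mul_zero, Complex.I_im, mul_one, sub_self, add_zero, Complex.add_im, Complex.mul_im,
    zero_add, Complex.ofReal_zero, zero_mul, smul_eq_mul] at hrect
  -- the horizontal side through `w0`
  have hmid : ∫ x in (a - δ)..(a + δ), f (x + b * I) = ∫ x in (-δ)..δ, F (w0 + x) * (w0 + x) ^ m := by
    have e := intervalIntegral.integral_comp_add_left (a := -δ) (b := δ)
      (fun x : ℝ => f (x + b * I)) a
    rw [← sub_eq_add_neg] at e
    rw [← e]
    apply intervalIntegral.integral_congr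
    intro x _
    simp only [hf]
    have : ((a + x : ℝ) : ℂ) + b * I = w0 + x := by rw [hw0e]; push_cast; ring
    rw [this]
  -- the vertical sides
  have hvert : ∀ c : ℝ, 0 ≤ c → c ≤ Y → δ - κ ≤ |c - 1| →
      ‖∫ y in (0 : ℝ)..b, f ((c : ℂ) + y * I)‖ ≤ B * κ := by
    intro c h0 h1 h2
    have h3 := intervalIntegral.norm_integral_le_of_norm_le_const (a := 0) (b := b) (C := B)
      (f := fun y : ℝ => f ((c : ℂ) + y * I)) (by
        intro y hy
        apply hfar
        · simpa using h0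
        · simpa using h1
        · simp only [Complex.add_im, Complex.ofReal_im, Complex.mul_im, Complex.ofReal_re,
            Complex.I_im, mul_one, Complex.I_re, mul_zero, add_zero, zero_add]
          have := abs_sub_left_of_mem_uIcc (uIoc_subset_uIcc hy)
          rw [sub_zero, sub_zero] at this
          linarith
        · simpa using h2)
    rw [sub_zero] at h3
    exact h3.trans (mul_le_mul_of_nonneg_left hb hB0)
  -- the real pieces
  have hcont : ContinuousOn (fun y : ℝ => f y) (Icc 0 Y) := by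
    intro y hy
    have h2 := (hfd y hy.1 hy.2 y (Metric.mem_ball_self hρ0)).continuousAt
    exact (ContinuousAt.comp (g := f) (f := fun y : ℝ => (y : ℂ)) h2
      Complex.continuous_ofReal.continuousAt).continuousWithinAt
  have hI : ∀ c d : ℝ, 0 ≤ c → c ≤ d → d ≤ Y → IntervalIntegrable (fun y : ℝ => f y) volume c d := by
    intro c d h0 h1 h2
    apply ContinuousOn.intervalIntegrable
    rw [uIcc_of_le h1]
    exact hcont.mono (Icc_subset_Icc h0 h2)
  have hreal : ∀ c d : ℝ, 0 ≤ c → c ≤ d → d ≤ Y → (∀ y, c ≤ y → y ≤ d → δ - κ ≤ |y - 1|) →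
      ‖∫ y in c..d, f y‖ ≤ B * (d - c) := by
    intro c d h0 h1 h2 h3
    have h4 := intervalIntegral.norm_integral_le_of_norm_le_const (a := c) (b := d) (C := B)
      (f := fun y : ℝ => f y) (by
        intro y hy
        rw [uIoc_of_le h1] at hy
        apply hfar
        · simpa using h0.trans hy.1.le
        · simpa using hy.2.trans h2
        · simpa using hκ.le
        · simpa using h3 y hy.1.le hy.2)
    rw [abs_of_nonneg (by linarith)] at h4
    exact h4
  have hp1 := hreal 0 (a - δ) le_rfl (by linarith) (by linarith) (fun y _ hy => by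
    exact le_trans (by linarith) (neg_le_abs _))
  have hp2 := hreal (a + δ) Y (by linarith) (by linarith) le_rfl (fun y hy _ => by
    exact le_trans (by linarith) (le_abs_self _))
  have hv1 := hvert (a - δ) (by linarith) (by linarith) (by
    exact le_trans (by linarith) (neg_le_abs _))
  have hv2 := hvert (a + δ) (by linarith) (by linarith) (by
    exact le_trans (by linarith) (le_abs_self _))
  have hsplit : ∫ y in (0 : ℝ)..Y, f y = (∫ x in (-δ)..δ, F (w0 + x) * (w0 + x) ^ m) +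
      ((∫ y in (0 : ℝ)..(a - δ), f y) + (∫ y in (a + δ)..Y, f y) -
        I * (∫ y in (0 : ℝ)..b, f (((a + δ : ℝ) : ℂ) + y * I)) +
        I * (∫ y in (0 : ℝ)..b, f (((a - δ : ℝ) : ℂ) + y * I))) := by
    rw [← hmid]
    have e1 := intervalIntegral.integral_add_adjacent_intervals
      (hI 0 (a - δ) le_rfl (by linarith) (by linarith))
      (hI (a - δ) (a + δ) (by linarith) (by linarith) (by linarith))
    have e2 := intervalIntegral.integral_add_adjacent_intervals
      ((hI 0 (a - δ) le_rfl (by linarith) (by linarith)).trans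
        (hI (a - δ) (a + δ) (by linarith) (by linarith) (by linarith)))
      (hI (a + δ) Y (by linarith) (by linarith) le_rfl)
    rw [← e2, ← e1]
    linear_combination hrect
  set J : ℂ := ∫ x in (-δ)..δ, F (w0 + x) * (w0 + x) ^ m with hJ
  set E : ℂ := (∫ y in (0 : ℝ)..(a - δ), f y) + (∫ y in (a + δ)..Y, f y) -
        I * (∫ y in (0 : ℝ)..b, f (((a + δ : ℝ) : ℂ) + y * I)) +
        I * (∫ y in (0 : ℝ)..b, f (((a - δ : ℝ) : ℂ) + y * I)) with hE
  have hEb : ‖E‖ ≤ B * 200 := by
    have n1 : ∀ z : ℂ, ‖I * z‖ = ‖z‖ := fun z => by rw [norm_mul, Complex.norm_I, one_mul]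
    calc ‖E‖ ≤ ‖∫ y in (0 : ℝ)..(a - δ), f y‖ + ‖∫ y in (a + δ)..Y, f y‖ +
          ‖I * (∫ y in (0 : ℝ)..b, f (((a + δ : ℝ) : ℂ) + y * I))‖ +
          ‖I * (∫ y in (0 : ℝ)..b, f (((a - δ : ℝ) : ℂ) + y * I))‖ := by
          rw [hE]
          refine (norm_add_le _ _).trans ?_
          gcongr
          refine (norm_sub_le _ _).trans ?_
          gcongr
          exact norm_add_le _ _
      _ ≤ B * (a - δ - 0) + B * (Y - (a + δ)) + B * κ + B * κ := by
          rw [n1, n1]
          exact add_le_add (add_le_add (add_le_add hp1 hp2) hv2) hv1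
      _ = B * (Y - 2 * δ + 2 * κ) := by ring
      _ ≤ B * 200 := by
          apply mul_le_mul_of_nonneg_left _ hB0
          linarith
  have htri : ‖J‖ - ‖E‖ ≤ ‖∫ y in (0 : ℝ)..Y, f y‖ := by
    rw [hsplit]
    exact norm_sub_le_norm_add _ _
  -- numerics
  set t : ℝ := κ * (m + 1) with ht
  have ht0 : 80000000 ≤ t := by rw [ht]; nlinarith
  have hexp : 4 * ((m : ℝ) + 1) ≤ Real.exp t := by
    have h2 := Real.quadratic_le_exp_of_nonneg (x := t) (by linarith)
    have h3 : 8 * ((m : ℝ) + 1) ≤ t ^ 2 := by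
      rw [ht]
      have : (κ * ((m : ℝ) + 1)) ^ 2 = (κ * (κ * (m + 1))) * (m + 1) := by ring
      rw [this]
      have h4 : 8 ≤ κ * (κ * (m + 1)) := by
        have : 0 ≤ κ * κ := by positivity
        nlinarith
      nlinarith
    linarith
  have hF0 : 0 ≤ ‖F 1‖ := norm_nonneg _
  have hJl : 2 * Real.exp (-(2 * t)) * ‖F 1‖ ≤ ‖J‖ := by
    refine le_trans ?_ hint
    have h2 : 2 * Real.exp (-(2 * t)) ≤ 1 / 2 / m * Real.exp (-t) := by
      have e : Real.exp (-(2 * t)) = Real.exp (-t) * Real.exp (-t) := by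
        rw [← Real.exp_add]; congr 1; ring
      rw [e, ← mul_assoc]
      apply mul_le_mul_of_nonneg_right _ (Real.exp_pos _).le
      rw [div_div, le_div_iff₀ (by positivity), Real.exp_neg]
      have h3 : 0 < Real.exp t := Real.exp_pos t
      calc 2 * (Real.exp t)⁻¹ * (2 * m) = (4 * m) / Real.exp t := by ring
        _ ≤ 1 := by
            rw [div_le_one h3]
            linarith
    calc 2 * Real.exp (-(2 * t)) * ‖F 1‖ ≤ 1 / 2 / m * Real.exp (-t) * ‖F 1‖ :=
          mul_le_mul_of_nonneg_right h2 hF0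
      _ = 1 / 2 / m * (Real.exp (-t) * ‖F 1‖) := by ring
      _ ≤ _ := by
          apply mul_le_mul_of_nonneg_left hlow
          positivity
  have hBl : B * 200 ≤ Real.exp (-(2 * t)) * ‖F 1‖ := by
    rw [hB]
    have h2 : Real.exp (2 - 100 * t) * 200 ≤ Real.exp (-(2 * t)) := by
      have h3 : (200 : ℝ) ≤ Real.exp t := by linarith
      calc Real.exp (2 - 100 * t) * 200 ≤ Real.exp (2 - 100 * t) * Real.exp t := by gcongr
        _ = Real.exp (2 - 100 * t + t) := by rw [← Real.exp_add]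
        _ ≤ _ := by
            apply Real.exp_le_exp.2
            linarith
    calc ‖F 1‖ * Real.exp (2 - 100 * t) * 200 = (Real.exp (2 - 100 * t) * 200) * ‖F 1‖ := by ring
      _ ≤ _ := mul_le_mul_of_nonneg_right h2 hF0
  have hgoal : Real.exp (-(2 * t)) * ‖F 1‖ ≤ ‖∫ y in (0 : ℝ)..Y, f y‖ := by linarith
  exact hgoal

end LRAux

open LRAux in
/-- Laplace's method along the real direction. -/
theorem lr : S_LR := by
  intro κ' ρ c0 hκ' hρ0 hρ hc0
  set δ : ℝ := min (ρ / 10) (c0 / 10) with hδ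
  have hδ0 : 0 < δ := by rw [hδ]; positivity
  set κ : ℝ := min (κ' / 2) (δ ^ 2 / 100000) with hκ
  have hκ0 : 0 < κ := by rw [hκ]; positivity
  obtain ⟨n0, hn0⟩ := exists_nat_ge (8 / κ ^ 2)
  refine ⟨κ * ρ / 10000, n0 + 1, by positivity, by omega, ?_⟩
  intro n Y F hn hY hY2 h
  obtain ⟨m, rfl⟩ : ∃ m, n = m + 1 := ⟨n - 1, by omega⟩
  have hm : (n0 : ℝ) ≤ m := by exact_mod_cast (by omega : n0 ≤ m)
  have := main (m := m) (F := F) (κ := κ) (δ := δ) (c0 := c0) (Y := Y) (ρ := ρ) hδ0
    (min_le_left _ _) (min_le_right _ _) hρ hκ0 (min_le_right _ _) le_rfl (by positivity)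
    (hn0.trans hm) hY hY2 (by
      intro y h0 h1 w hw
      have := h y h0 h1 w hw
      push_cast at this
      exact this)
  rw [Nat.add_sub_cancel]
  refine le_trans ?_ this
  apply mul_le_mul_of_nonneg_right _ (norm_nonneg _)
  apply Real.exp_le_exp.2
  push_cast
  have h2 : κ ≤ κ' / 2 := min_le_left _ _
  have h3 : (0 : ℝ) ≤ (m : ℝ) + 1 := by positivity
  nlinarith

end Pool.Agent.H986R2.K4
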