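import Pool.Agent.H986R2.K4.Spec
import Pool.Agent.H24R2.DZ.Lap

set_option autoImplicit false

/-!
# Laplace's method at a saddle point, on a ball of arbitrary radius
-/

namespace Pool.Agent.H986R2.K4

open Complex Filter Topology MeasureTheory Set
open Pool.Agent.H24R2.JP (XX HH Om)
open Pool.Agent.H24R2.DZ.LapAux (t_exp t2_exp abs_exp abs3_exp)

namespace LapAux

/-- the Gaussian integral over a finite interval -/
lemma gauss_le {s a : ℝ} (hs : 0 < s) (ha : 0 < a) :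
    ∫ y in (-a : ℝ)..a, Real.exp (-(s ^ 2 * y ^ 2 / 8)) ≤ 6 / s := by
  have e : ∀ y : ℝ, Real.exp (-(s ^ 2 * y ^ 2 / 8)) = Real.exp (-(s ^ 2 / 8) * y ^ 2) := by
    intro y; congr 1; ring
  simp_rw [e]
  rw [intervalIntegral.integral_of_le (by linarith)]
  have hb : 0 < s ^ 2 / 8 := by positivity
  have h1 : ∫ y in Ioc (-a : ℝ) a, Real.exp (-(s ^ 2 / 8) * y ^ 2) ≤
      ∫ y : ℝ, Real.exp (-(s ^ 2 / 8) * y ^ 2) :=
    setIntegral_le_integral (integrable_exp_neg_mul_sq hb) (Eventually.of_forall fun y => (Real.exp_pos _).le)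
  refine h1.trans ?_
  rw [integral_gaussian]
  apply Real.sqrt_le_iff.2
  refine ⟨by positivity, ?_⟩
  rw [div_pow, div_le_div_iff₀ hb (by positivity)]
  nlinarith [Real.pi_lt_d2, sq_nonneg s, mul_pos hs hs]

/-- **Core of Laplace's method** on the vertical segment. -/
lemma core {s a : ℝ} (hs : 30000 ≤ s) (ha : 0 < a) (ha1 : a ≤ 1 / 10) (hsa : 1 / s ≤ a) {m : ℝ} (hm1 : s ^ 2 ≤ m) (hm2 : m ≤ 2 * s ^ 2) (v v' : ℝ → ℂ)
    (h0 : v 0 = 0) (hv : ∀ y, |y| ≤ a → HasDerivAt v (v' y) y)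
    (hb : ∀ y, |y| ≤ a → ‖v' y + m * y‖ ≤ |y| * s ^ 2 * (1 / 1000 + 11 / 10 * |y|)) :
    (∀ y, |y| ≤ a → ‖cexp (v y)‖ ≤ Real.exp (-(s ^ 2 * y ^ 2 / 4))) ∧
    1 / 2 / s ≤ ‖∫ y in (-a : ℝ)..a, cexp (v y)‖ := by
  have hs0 : 0 < s := by linarith
  set r : ℝ → ℂ := fun y => v y + m * y ^ 2 / 2 with hr
  have hr' : ∀ y, |y| ≤ a → HasDerivAt r (v' y + m * y) y := by
    intro y hy
    have h1 : HasDerivAt (fun y : ℝ => ((y : ℂ)) ^ 2) (2 * (y : ℂ)) y := by
      have := (hasDerivAt_pow 2 y).ofReal_comp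
      simpa using this
    have h2 : HasDerivAt (fun y : ℝ => (m : ℂ) * (y : ℂ) ^ 2 / 2) ((m : ℂ) * (2 * (y : ℂ)) / 2) y :=
      (h1.const_mul (m : ℂ)).div_const 2
    have h3 := (hv y hy).add h2
    have e : v' y + (m : ℂ) * (2 * (y : ℂ)) / 2 = v' y + m * y := by ring
    rw [e] at h3
    exact h3
  have hrb : ∀ y, |y| ≤ a → ‖r y‖ ≤ s ^ 2 * y ^ 2 * (1 / 1000 + 11 / 10 * |y|) := by
    intro y hy
    have hr0 : r 0 = 0 := by rw [hr]; simp [h0]
    have h1 := Convex.norm_image_sub_le_of_norm_hasDerivWithin_le (f := r) (f' := fun y => v' y + m * y)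
      (s := Icc (-|y|) |y|) (x := 0) (y := y) (C := |y| * s ^ 2 * (1 / 1000 + 11 / 10 * |y|))
      (fun x hx => (hr' x ((abs_le.2 hx).trans hy)).hasDerivWithinAt)
      (fun x hx => by
        have hx' : |x| ≤ |y| := abs_le.2 hx
        refine (hb x (hx'.trans hy)).trans ?_
        gcongr)
      (convex_Icc _ _) ⟨by simp, by simp⟩ ⟨neg_abs_le y, le_abs_self y⟩
    rw [hr0, sub_zero, sub_zero, Real.norm_eq_abs] at h1
    refine h1.trans (le_of_eq ?_)
    have : |y| * |y| = y ^ 2 := by rw [← sq, sq_abs]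
    calc |y| * s ^ 2 * (1 / 1000 + 11 / 10 * |y|) * |y| = s ^ 2 * (|y| * |y|) * (1 / 1000 + 11 / 10 * |y|) := by
          ring
      _ = _ := by rw [this]
  have hrb2 : ∀ y, |y| ≤ a → ‖r y‖ ≤ s ^ 2 * y ^ 2 / 4 := by
    intro y hy
    refine (hrb y hy).trans ?_
    have : 1 / 1000 + 11 / 10 * |y| ≤ 1 / 4 := by linarith
    calc s ^ 2 * y ^ 2 * (1 / 1000 + 11 / 10 * |y|) ≤ s ^ 2 * y ^ 2 * (1 / 4) := by gcongr
      _ = _ := by ring
  have hvr : ∀ y, v y = ((-(m * y ^ 2 / 2) : ℝ) : ℂ) + r y := by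
    intro y; rw [hr]; push_cast; ring
  have hdec : ∀ y, |y| ≤ a → Real.exp (-(m * y ^ 2 / 2)) * Real.exp ‖r y‖ ≤ Real.exp (-(s ^ 2 * y ^ 2 / 4)) := by
    intro y hy
    rw [← Real.exp_add]
    apply Real.exp_le_exp.2
    have := hrb2 y hy
    have h2 : s ^ 2 * y ^ 2 ≤ m * y ^ 2 := by gcongr
    linarith
  have hA : ∀ y, |y| ≤ a → ‖cexp (v y)‖ ≤ Real.exp (-(s ^ 2 * y ^ 2 / 4)) := by
    intro y hy
    rw [hvr y, Complex.exp_add, norm_mul, Complex.norm_exp_ofReal]
    refine le_trans ?_ (hdec y hy)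
    gcongr
    exact Complex.norm_exp_le_exp_norm _
  refine ⟨hA, ?_⟩
  -- the integral
  have hcont : ContinuousOn (fun y : ℝ => cexp (v y)) (uIcc (-a : ℝ) a) := by
    intro y hy
    rw [uIcc_of_le (by linarith)] at hy
    exact ((hv y (abs_le.2 hy)).continuousAt.cexp).continuousWithinAt
  have hint1 : IntervalIntegrable (fun y : ℝ => cexp (v y)) volume (-a : ℝ) a :=
    hcont.intervalIntegrable
  have hcg : Continuous fun y : ℝ => ((Real.exp (-(m * y ^ 2 / 2)) : ℝ) : ℂ) := by fun_prop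
  have hint2 : IntervalIntegrable (fun y : ℝ => ((Real.exp (-(m * y ^ 2 / 2)) : ℝ) : ℂ)) volume
      (-a : ℝ) a := hcg.intervalIntegrable _ _
  have hdiff : ‖∫ y in (-a : ℝ)..a, (cexp (v y) - ((Real.exp (-(m * y ^ 2 / 2)) : ℝ) : ℂ))‖ ≤
      ∫ y in (-a : ℝ)..a, (13 / 1000 : ℝ) * Real.exp (-(s ^ 2 * y ^ 2 / 8)) := by
    apply intervalIntegral.norm_integral_le_of_norm_le (by linarith)
    · apply Eventually.of_forall
      intro y hy
      have hy' : |y| ≤ a := abs_le.2 ⟨hy.1.le, hy.2⟩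
      have e1 : cexp (v y) - ((Real.exp (-(m * y ^ 2 / 2)) : ℝ) : ℂ) =
          ((Real.exp (-(m * y ^ 2 / 2)) : ℝ) : ℂ) * (cexp (r y) - 1) := by
        rw [hvr y, Complex.exp_add, Complex.ofReal_exp]; ring
      have e2 : ‖cexp (r y) - 1‖ ≤ ‖r y‖ * Real.exp ‖r y‖ := by
        have := Complex.norm_exp_sub_sum_le_norm_mul_exp (r y) 1
        simpa using this
      rw [e1, norm_mul, Complex.norm_real, Real.norm_of_nonneg (Real.exp_pos _).le]
      have hs3 : 132 / s ≤ 44 / 10000 := by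
        rw [div_le_div_iff₀ hs0 (by norm_num)]; linarith
      calc Real.exp (-(m * y ^ 2 / 2)) * ‖cexp (r y) - 1‖
          ≤ Real.exp (-(m * y ^ 2 / 2)) * (‖r y‖ * Real.exp ‖r y‖) := by gcongr
        _ = ‖r y‖ * (Real.exp (-(m * y ^ 2 / 2)) * Real.exp ‖r y‖) := by ring
        _ ≤ (s ^ 2 * y ^ 2 * (1 / 1000 + 11 / 10 * |y|)) * Real.exp (-(s ^ 2 * y ^ 2 / 4)) :=
            mul_le_mul (hrb y hy') (hdec y hy') (by positivity) (by positivity)
        _ = 1 / 1000 * (s ^ 2 * y ^ 2 * Real.exp (-(s ^ 2 * y ^ 2 / 4))) +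
            11 / 10 * (s ^ 2 * |y| ^ 3 * Real.exp (-(s ^ 2 * y ^ 2 / 4))) := by
            have h0 : |y| ^ 3 = y ^ 2 * |y| := by rw [pow_succ, sq_abs]
            rw [h0]; ring
        _ ≤ 1 / 1000 * (8 * Real.exp (-(s ^ 2 * y ^ 2 / 8))) +
            11 / 10 * (44 / 10000 * Real.exp (-(s ^ 2 * y ^ 2 / 8))) := by
            gcongr 1 / 1000 * ?_ + 11 / 10 * ?_
            · exact t_exp (by positivity)
            · refine (abs3_exp hs0).trans ?_
              gcongr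
        _ ≤ 13 / 1000 * Real.exp (-(s ^ 2 * y ^ 2 / 8)) := by
            nlinarith [Real.exp_pos (-(s ^ 2 * y ^ 2 / 8))]
    · apply Continuous.intervalIntegrable
      fun_prop
  have hdiff2 : ∫ y in (-a : ℝ)..a, (13 / 1000 : ℝ) * Real.exp (-(s ^ 2 * y ^ 2 / 8)) ≤
      8 / 100 / s := by
    rw [intervalIntegral.integral_const_mul]
    calc (13 / 1000 : ℝ) * ∫ y in (-a : ℝ)..a, Real.exp (-(s ^ 2 * y ^ 2 / 8))
        ≤ 13 / 1000 * (6 / s) := by gcongr; exact gauss_le hs0 ha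
      _ = 78 / 1000 / s := by ring
      _ ≤ _ := div_le_div_of_nonneg_right (by norm_num) hs0.le
  -- main term
  have hmain : 7 / 10 / s ≤ ∫ y in (-a : ℝ)..a, Real.exp (-(m * y ^ 2 / 2)) := by
    have hs1 : 1 / s ≤ a := hsa

    have hc : Continuous fun y : ℝ => Real.exp (-(m * y ^ 2 / 2)) := by fun_prop
    have h1 : ∫ y in (-(1 / s))..(1 / s), Real.exp (-(m * y ^ 2 / 2)) ≤
        ∫ y in (-a : ℝ)..a, Real.exp (-(m * y ^ 2 / 2)) := by
      apply intervalIntegral.integral_mono_interval (by linarith) _ (by linarith)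
      · exact Eventually.of_forall fun y => (Real.exp_pos _).le
      · exact hc.intervalIntegrable _ _
      · have : 0 < 1 / s := by positivity
        linarith
    have h2 : ∫ y in (-(1 / s))..(1 / s), Real.exp (-1) ≤
        ∫ y in (-(1 / s))..(1 / s), Real.exp (-(m * y ^ 2 / 2)) := by
      apply intervalIntegral.integral_mono_on
      · have : 0 < 1 / s := by positivity
        linarith
      · exact intervalIntegrable_const
      · exact hc.intervalIntegrable _ _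
      · intro y hy
        apply Real.exp_le_exp.2
        have hy' : |y| ≤ 1 / s := abs_le.2 hy
        have hy2 : y ^ 2 ≤ (1 / s) ^ 2 := by
          rw [← sq_abs]; gcongr
        have hy3 : m * y ^ 2 ≤ 2 := by
          calc m * y ^ 2 ≤ (2 * s ^ 2) * (1 / s) ^ 2 := by gcongr
            _ = 2 := by field_simp
        linarith
    rw [intervalIntegral.integral_const, smul_eq_mul] at h2
    have h3 : 7 / 10 / s ≤ (1 / s - -(1 / s)) * Real.exp (-1) := by
      have e1 : (0.367 : ℝ) ≤ Real.exp (-1) := by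
        have := Real.exp_one_lt_d9
        rw [Real.exp_neg, ← one_div, le_div_iff₀ (Real.exp_pos 1)]
        nlinarith
      have e2 : (1 / s - -(1 / s)) * Real.exp (-1) = (2 * Real.exp (-1)) / s := by ring
      rw [e2]
      gcongr
      linarith
    linarith
  have hfin : ∫ y in (-a : ℝ)..a, cexp (v y) =
      ((∫ y in (-a : ℝ)..a, Real.exp (-(m * y ^ 2 / 2)) : ℝ) : ℂ) +
        ∫ y in (-a : ℝ)..a, (cexp (v y) - ((Real.exp (-(m * y ^ 2 / 2)) : ℝ) : ℂ)) := by
    rw [intervalIntegral.integral_sub hint1 hint2, intervalIntegral.integral_ofReal]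
    ring
  have hlow := norm_sub_le_norm_add
    ((∫ y in (-a : ℝ)..a, Real.exp (-(m * y ^ 2 / 2)) : ℝ) : ℂ)
    (∫ y in (-a : ℝ)..a, (cexp (v y) - ((Real.exp (-(m * y ^ 2 / 2)) : ℝ) : ℂ)))
  rw [← hfin, Complex.norm_real] at hlow
  have h8 : 1 / 2 / s ≤ 7 / 10 / s - 8 / 100 / s := by
    rw [← sub_div]; gcongr; norm_num
  have h9 := Real.le_norm_self (∫ y in (-a : ℝ)..a, Real.exp (-(m * y ^ 2 / 2)))
  linarith

/-! ### The local situation -/

section local_

variable {F : ℂ → ℂ} {p : ℂ} {n : ℕ} {η ρ : ℝ}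

/-- the hypothesis of the task -/
def Hyp (ρ : ℝ) (F : ℂ → ℂ) (p : ℂ) (n : ℕ) (η : ℝ) : Prop :=
  ∀ w ∈ Metric.ball (p + 1) ρ, DifferentiableAt ℂ F w ∧ F w ≠ 0 ∧ ‖logDeriv F w - n‖ ≤ η * n

lemma sub_ne (hρ : ρ ≤ 1 / 2) {w : ℂ} (hw : w ∈ Metric.ball (p + 1) ρ) : w - p ≠ 0 := by
  intro h
  rw [Metric.mem_ball, dist_eq_norm] at hw
  have : w - (p + 1) = -1 := by linear_combination h
  rw [this, norm_neg, norm_one] at hw
  linarith

lemma diffOn (h : Hyp ρ F p n η) : DifferentiableOn ℂ F (Metric.ball (p + 1) ρ) :=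
  fun w hw => (h w hw).1.differentiableWithinAt

lemma ld_diffOn (h : Hyp ρ F p n η) : DifferentiableOn ℂ (logDeriv F) (Metric.ball (p + 1) ρ) := by
  have h1 := (diffOn h).deriv Metric.isOpen_ball
  exact h1.div (diffOn h) fun w hw => (h w hw).2.1

/-- `logDeriv F` is Lipschitz on the smaller ball -/
lemma ld_lip (hρ0 : 0 < ρ) (hη : η ≤ ρ / 1000000) (h : Hyp ρ F p n η) {w1 w2 : ℂ} (h1 : w1 ∈ Metric.ball (p + 1) (4 / 5 * ρ))
    (h2 : w2 ∈ Metric.ball (p + 1) (4 / 5 * ρ)) :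
    ‖logDeriv F w1 - logDeriv F w2‖ ≤ 1 / 100000 * n * ‖w1 - w2‖ := by
  have hd := ld_diffOn h
  have hsub : Metric.ball (p + 1) (4 / 5 * ρ) ⊆ Metric.ball (p + 1) ρ := Metric.ball_subset_ball (by linarith)
  have key : ∀ w ∈ Metric.ball (p + 1) (4 / 5 * ρ), ‖deriv (logDeriv F) w‖ ≤ 1 / 100000 * n := by
    intro w hw
    have hcl : Metric.closedBall w (ρ / 10) ⊆ Metric.ball (p + 1) ρ := by
      intro x hx
      rw [Metric.mem_closedBall] at hx
      rw [Metric.mem_ball] at hw ⊢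
      have := dist_triangle x w (p + 1)
      linarith
    have e : deriv (logDeriv F) w = deriv (fun z => logDeriv F z - n) w := by
      rw [deriv_sub_const]
    rw [e]
    have hdc : DiffContOnCl ℂ (fun z => logDeriv F z - n) (Metric.ball w (ρ / 10)) := by
      apply DifferentiableOn.diffContOnCl
      rw [closure_ball w (by positivity)]
      exact (hd.mono hcl).sub_const _
    have := Complex.norm_deriv_le_of_forall_mem_sphere_norm_le (R := ρ / 10) (C := η * n) (by positivity) hdc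
      (fun z hz => (h z (hcl (Metric.sphere_subset_closedBall hz))).2.2)
    refine this.trans ?_
    rw [div_le_iff₀ (by positivity)]
    have hn0 : (0 : ℝ) ≤ n := by positivity
    calc η * n ≤ (ρ / 1000000) * n := mul_le_mul_of_nonneg_right hη hn0
      _ = 1 / 100000 * n * (ρ / 10) := by ring
  exact (convex_ball (p + 1) (4 / 5 * ρ)).norm_image_sub_le_of_norm_deriv_le
    (fun w hw => hd.differentiableAt (Metric.isOpen_ball.mem_nhds (hsub hw))) key h2 h1

/-- the saddle point -/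
lemma saddle (hρ0 : 0 < ρ) (hρ : ρ ≤ 1 / 2) (h : Hyp ρ F p n η) {κ : ℝ} (hκ0 : 0 < κ) (hκ : κ ≤ ρ / 10000) (hη0 : 0 < η) (hη : η ≤ κ / 100)
    (hn : 4 / κ ≤ n) :
    ∃ w0 : ℂ, ‖w0 - (p + 1)‖ ≤ κ ∧ logDeriv F w0 * (w0 - p) = n + 1 := by
  have hn0 : (0 : ℝ) < n := lt_of_lt_of_le (by positivity) hn
  have hn1 : 4 ≤ κ * n := by rwa [div_le_iff₀ hκ0, mul_comm] at hn
  have hsub : Metric.closedBall (p + 1) κ ⊆ Metric.ball (p + 1) (4 / 5 * ρ) :=
    Metric.closedBall_subset_ball (by linarith)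
  have hsub' : Metric.ball (p + 1) (4 / 5 * ρ) ⊆ Metric.ball (p + 1) ρ := Metric.ball_subset_ball (by linarith)
  have hηn : η * n ≤ n / 1000 := by nlinarith
  have hlow : ∀ w ∈ Metric.closedBall (p + 1) κ, (9 / 10 : ℝ) * n ≤ ‖logDeriv F w‖ := by
    intro w hw
    have h1 := (h w (hsub' (hsub hw))).2.2
    have h2 : ‖(n : ℂ)‖ ≤ ‖logDeriv F w‖ + ‖logDeriv F w - n‖ := by
      have : (n : ℂ) = logDeriv F w - (logDeriv F w - n) := by ring
      calc ‖(n : ℂ)‖ = ‖logDeriv F w - (logDeriv F w - n)‖ := by rw [← this]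
        _ ≤ _ := norm_sub_le _ _
    rw [Complex.norm_natCast] at h2
    linarith
  set T : ℂ → ℂ := fun w => p + (n + 1) / logDeriv F w with hT
  have hmaps : MapsTo T (Metric.closedBall (p + 1) κ) (Metric.closedBall (p + 1) κ) := by
    intro w hw
    have hl := hlow w hw
    have hl0 : 0 < ‖logDeriv F w‖ := lt_of_lt_of_le (by positivity) hl
    have hne : logDeriv F w ≠ 0 := norm_pos_iff.1 hl0
    rw [Metric.mem_closedBall, dist_eq_norm]
    have e : T w - (p + 1) = (1 - (logDeriv F w - n)) / logDeriv F w := by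
      rw [hT]; field_simp; ring
    rw [e, norm_div, div_le_iff₀ hl0]
    have h1 := (h w (hsub' (hsub hw))).2.2
    calc ‖1 - (logDeriv F w - n)‖ ≤ ‖(1 : ℂ)‖ + ‖logDeriv F w - n‖ := norm_sub_le _ _
      _ ≤ 1 + η * n := by rw [norm_one]; linarith
      _ ≤ κ * (9 / 10 * n) := by nlinarith
      _ ≤ _ := by gcongr
  have hlip : ∀ w1 ∈ Metric.closedBall (p + 1) κ, ∀ w2 ∈ Metric.closedBall (p + 1) κ,
      ‖T w1 - T w2‖ ≤ 1 / 2 * ‖w1 - w2‖ := by
    intro w1 h1 w2 h2
    have l1 := hlow w1 h1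
    have l2 := hlow w2 h2
    have p1 : 0 < ‖logDeriv F w1‖ := lt_of_lt_of_le (by positivity) l1
    have p2 : 0 < ‖logDeriv F w2‖ := lt_of_lt_of_le (by positivity) l2
    have n1 : logDeriv F w1 ≠ 0 := norm_pos_iff.1 p1
    have n2 : logDeriv F w2 ≠ 0 := norm_pos_iff.1 p2
    have e : T w1 - T w2 = (n + 1) * (logDeriv F w2 - logDeriv F w1) / (logDeriv F w1 * logDeriv F w2) := by
      rw [hT]; field_simp; ring
    rw [e, norm_div, norm_mul, norm_mul, div_le_iff₀ (by positivity)]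
    have hl := ld_lip hρ0 (by linarith) h (hsub h2) (hsub h1)
    rw [norm_sub_rev w2 w1] at hl
    have e2 : ‖(n : ℂ) + 1‖ = n + 1 := by
      rw [show (n : ℂ) + 1 = ((n + 1 : ℕ) : ℂ) by push_cast; ring, Complex.norm_natCast]; push_cast; ring
    rw [e2]
    have hn1' : (1 : ℝ) ≤ n := by nlinarith
    have h3 : (9 / 10 : ℝ) * n * (9 / 10 * n) ≤ ‖logDeriv F w1‖ * ‖logDeriv F w2‖ :=
      mul_le_mul l1 l2 (by positivity) (by positivity)
    calc ((n : ℝ) + 1) * ‖logDeriv F w2 - logDeriv F w1‖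
        ≤ (n + 1) * (1 / 100000 * n * ‖w1 - w2‖) := by gcongr
      _ ≤ (n + n) * (1 / 100000 * n * ‖w1 - w2‖) := by gcongr
      _ = (1 / 50000 * n * n) * ‖w1 - w2‖ := by ring
      _ ≤ (1 / 2 * ((9 / 10 : ℝ) * n * (9 / 10 * n))) * ‖w1 - w2‖ := by
          apply mul_le_mul_of_nonneg_right _ (norm_nonneg _)
          nlinarith [mul_pos hn0 hn0]
      _ ≤ (1 / 2 * (‖logDeriv F w1‖ * ‖logDeriv F w2‖)) * ‖w1 - w2‖ := by gcongr
      _ = _ := by ring
  have hcontr : ContractingWith (1 / 2) (hmaps.restrict T (Metric.closedBall (p + 1) κ) (Metric.closedBall (p + 1) κ)) := by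
    refine ⟨by norm_num, ?_⟩
    apply LipschitzWith.of_dist_le_mul
    intro x y
    rw [Subtype.dist_eq, Subtype.dist_eq, dist_eq_norm, dist_eq_norm]
    have := hlip x.1 x.2 y.1 y.2
    simpa using this
  obtain ⟨w0, hw0, hfix, _⟩ := hcontr.exists_fixedPoint' Metric.isClosed_closedBall.isComplete hmaps
    (Metric.mem_closedBall_self hκ0.le) (edist_ne_top _ _)
  refine ⟨w0, by rw [Metric.mem_closedBall, dist_eq_norm] at hw0; exact hw0, ?_⟩
  have hne : logDeriv F w0 ≠ 0 := norm_pos_iff.1 (lt_of_lt_of_le (by positivity) (hlow w0 hw0))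
  have : p + (n + 1) / logDeriv F w0 = w0 := hfix
  have h2 : w0 - p = (n + 1) / logDeriv F w0 := by linear_combination -this
  rw [h2]
  field_simp

/-- `Q` as an exponential -/
lemma exp_rep (hρ : ρ ≤ 1 / 2) (h : Hyp ρ F p n η) : ∃ H : ℂ → ℂ,
    (∀ w ∈ Metric.ball (p + 1) ρ, HasDerivAt H (logDeriv F w - (n + 1) / (w - p)) w) ∧
    ∀ w1 ∈ Metric.ball (p + 1) ρ, ∀ w2 ∈ Metric.ball (p + 1) ρ,
      F w1 / (w1 - p) ^ (n + 1) = F w2 / (w2 - p) ^ (n + 1) * cexp (H w1 - H w2) := by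
  have hg : DifferentiableOn ℂ (fun w => logDeriv F w - (n + 1) / (w - p)) (Metric.ball (p + 1) ρ) := by
    apply (ld_diffOn h).sub
    apply DifferentiableOn.div (differentiableOn_const _) (differentiableOn_id.sub_const _)
    intro w hw
    exact sub_ne hρ hw
  obtain ⟨H, hH⟩ := hg.isExactOn_ball
  refine ⟨H, hH, ?_⟩
  have hder : ∀ w ∈ Metric.ball (p + 1) ρ,
      HasDerivAt (fun w => F w / (w - p) ^ (n + 1) * cexp (-H w)) 0 w := by
    intro w hw
    obtain ⟨hd, hne, _⟩ := h w hw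
    have hs := sub_ne hρ hw
    have h1 : HasDerivAt (fun w => (w - p) ^ (n + 1)) (((n + 1 : ℕ) : ℂ) * (w - p) ^ n * 1) w :=
      ((hasDerivAt_id w).sub_const p).pow (n + 1)
    have h2 : HasDerivAt (fun w => F w / (w - p) ^ (n + 1) * cexp (-H w)) _ w :=
      (hd.hasDerivAt.div h1 (pow_ne_zero _ hs)).mul ((hH w hw).neg.cexp)
    refine h2.congr_deriv ?_
    simp only [Pi.neg_apply, Pi.div_apply]
    rw [logDeriv_apply]
    field_simp
    push_cast
    ring
  have hconst : ∀ w1 ∈ Metric.ball (p + 1) ρ, ∀ w2 ∈ Metric.ball (p + 1) ρ,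
      F w1 / (w1 - p) ^ (n + 1) * cexp (-H w1) = F w2 / (w2 - p) ^ (n + 1) * cexp (-H w2) := by
    intro w1 h1 w2 h2
    have := (convex_ball (p + 1) ρ).norm_image_sub_le_of_norm_hasDerivWithin_le (C := 0)
      (fun w hw => (hder w hw).hasDerivWithinAt) (fun w _ => by simp) h2 h1
    rw [zero_mul] at this
    exact sub_eq_zero.1 (norm_eq_zero.1 (le_antisymm this (norm_nonneg _)))
  intro w1 h1 w2 h2
  have := hconst w1 h1 w2 h2
  have e : F w1 / (w1 - p) ^ (n + 1) = (F w1 / (w1 - p) ^ (n + 1) * cexp (-H w1)) * cexp (H w1) := by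
    rw [mul_assoc, ← Complex.exp_add]; simp
  rw [e, this, mul_assoc, ← Complex.exp_add]
  congr 2
  ring

end local_

end LapAux

open LapAux in
theorem lapQ : S_LAP := by
  intro ρ κ hρ0 hρ hκ0 hκ
  set κ' : ℝ := κ / 10 with hκ'
  have hκ'0 : 0 < κ' := by rw [hκ']; positivity
  have hκ'ρ : κ' ≤ ρ / 10000 := by rw [hκ']; linarith
  have hκ'1 : κ' ≤ 1 / 10000 := by linarith
  obtain ⟨a, ha⟩ : ∃ a : ℝ, a = ρ / 5 := ⟨_, rfl⟩
  have ha0 : 0 < a := by rw [ha]; positivity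
  have ha1 : a ≤ 1 / 10 := by rw [ha]; linarith
  rw [← ha]
  obtain ⟨n0, hn0⟩ := exists_nat_ge (4 / κ')
  obtain ⟨n1, hn1a⟩ := exists_nat_ge (1 / a ^ 2)
  refine ⟨κ' / 100, 1 / 2, 27, max n0 (max n1 1000000000), by positivity, by norm_num, by norm_num,
    by omega, ?_⟩
  intro n hn p F h
  have hn1 : n0 ≤ n := (le_max_left _ _).trans hn
  have hn1b : n1 ≤ n := ((le_max_left _ _).trans (le_max_right _ _)).trans hn
  have hn2 : 1000000000 ≤ n := ((le_max_right _ _).trans (le_max_right _ _)).trans hn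
  have hna : 1 / a ^ 2 ≤ n := hn1a.trans (by exact_mod_cast hn1b)
  have hnr : (1000000000 : ℝ) ≤ n := by exact_mod_cast hn2
  have hn4 : 4 / κ' ≤ n := hn0.trans (by exact_mod_cast hn1)
  obtain ⟨w0, hw0, hsad⟩ := saddle (h := h) hρ0 hρ hκ'0 hκ'ρ (by positivity) le_rfl hn4
  obtain ⟨H, hH, hQ⟩ := exp_rep hρ h
  set s : ℝ := Real.sqrt n with hs
  have hs2 : s ^ 2 = n := Real.sq_sqrt (by positivity)
  have hs1 : 30000 ≤ s := by
    rw [hs]; apply Real.le_sqrt_of_sq_le; linarith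
  have hs0 : 0 < s := by linarith
  have hsa : 1 / s ≤ a := by
    rw [div_le_iff₀ hs0]
    have h1 : (1 : ℝ) ^ 2 ≤ (a * s) ^ 2 := by
      rw [mul_pow, hs2]
      rw [div_le_iff₀ (by positivity)] at hna
      linarith
    exact (sq_le_sq₀ (by norm_num) (by positivity)).1 h1
  set d : ℂ := w0 - (p + 1) with hd
  set u0 : ℂ := w0 - p with hu0
  have hu : u0 = 1 + d := by rw [hu0, hd]; ring
  have hball : ∀ y : ℝ, |y| ≤ a → w0 + I * y ∈ Metric.ball (p + 1) (4 / 5 * ρ) := by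
    intro y hy
    rw [Metric.mem_ball, dist_eq_norm]
    have e : w0 + I * y - (p + 1) = d + I * y := by rw [hd]; ring
    rw [e]
    have : ‖I * (y : ℂ)‖ = |y| := by rw [norm_mul, Complex.norm_I, one_mul, Complex.norm_real, Real.norm_eq_abs]
    have := norm_add_le d (I * y)
    linarith
  have hsub' : Metric.ball (p + 1) (4 / 5 * ρ) ⊆ Metric.ball (p + 1) ρ := Metric.ball_subset_ball (by linarith)
  have hw0b : w0 ∈ Metric.ball (p + 1) (4 / 5 * ρ) := by
    have := hball 0 (by rw [abs_zero]; exact ha0.le)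
    simpa using this
  have hp1 : p + 1 ∈ Metric.ball (p + 1) ρ := Metric.mem_ball_self hρ0
  set Q0 : ℂ := F w0 / (w0 - p) ^ (n + 1) with hQ0
  -- the lower bound
  have hlow : Real.exp (-(κ * n)) * ‖F (p + 1)‖ ≤ ‖Q0‖ := by
    have e1 := hQ w0 (hsub' hw0b) (p + 1) hp1
    have e2 : F (p + 1) / (p + 1 - p) ^ (n + 1) = F (p + 1) := by simp
    rw [e2] at e1
    rw [hQ0, e1, norm_mul, mul_comm]
    apply mul_le_mul_of_nonneg_left _ (norm_nonneg _)
    have hcb : Metric.closedBall (p + 1) κ' ⊆ Metric.ball (p + 1) ρ :=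
      Metric.closedBall_subset_ball (by linarith)
    have h1 := (convex_closedBall (p + 1) κ').norm_image_sub_le_of_norm_hasDerivWithin_le (C := n)
      (fun w hw => (hH w (hcb hw)).hasDerivWithinAt) (fun w hw => by
        have a1 := (h w (hcb hw)).2.2
        rw [Metric.mem_closedBall, dist_eq_norm] at hw
        have a2 : w - p ≠ 0 := sub_ne hρ (hcb (by rwa [Metric.mem_closedBall, dist_eq_norm]))
        have a3 : logDeriv F w - (n + 1) / (w - p) = (logDeriv F w - n) +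
            (n * (w - (p + 1)) - 1) / (w - p) := by field_simp; ring
        have a4 : 9 / 10 ≤ ‖w - p‖ := by
          have : (1 : ℂ) = (w - p) - (w - (p + 1)) := by ring
          have a5 : ‖(1 : ℂ)‖ ≤ ‖w - p‖ + ‖w - (p + 1)‖ := by
            calc ‖(1 : ℂ)‖ = ‖(w - p) - (w - (p + 1))‖ := by rw [← this]
              _ ≤ _ := norm_sub_le _ _
          rw [norm_one] at a5
          linarith
        have a6 : ‖(n : ℂ) * (w - (p + 1)) - 1‖ ≤ n * κ' + 1 := by
          calc ‖(n : ℂ) * (w - (p + 1)) - 1‖ ≤ ‖(n : ℂ) * (w - (p + 1))‖ + ‖(1 : ℂ)‖ := norm_sub_le _ _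
            _ = n * ‖w - (p + 1)‖ + 1 := by rw [norm_mul, Complex.norm_natCast, norm_one]
            _ ≤ _ := by gcongr
        have a7 : ‖((n : ℂ) * (w - (p + 1)) - 1) / (w - p)‖ ≤ (n * κ' + 1) / (9 / 10) := by
          rw [norm_div]
          gcongr
        rw [a3]
        calc _ ≤ ‖logDeriv F w - n‖ + ‖((n : ℂ) * (w - (p + 1)) - 1) / (w - p)‖ := norm_add_le _ _
          _ ≤ κ' / 100 * n + (n * κ' + 1) / (9 / 10) := add_le_add a1 a7
          _ ≤ n := by nlinarith) (Metric.mem_closedBall_self hκ'0.le)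
      (y := w0) (by rw [Metric.mem_closedBall, dist_eq_norm]; exact hw0)
    rw [Complex.norm_exp]
    apply Real.exp_le_exp.2
    have h2 : -‖H w0 - H (p + 1)‖ ≤ (H w0 - H (p + 1)).re := (abs_le.1 (Complex.abs_re_le_norm _)).1
    have h3 : (n : ℝ) * ‖w0 - (p + 1)‖ ≤ n * κ := by
      gcongr
      exact hw0.trans (by rw [hκ']; linarith)
    linarith
  -- the function on the segment
  set v : ℝ → ℂ := fun y => H (w0 + I * y) - H w0 with hv
  set v' : ℝ → ℂ := fun y => (logDeriv F (w0 + I * y) - (n + 1) / (w0 + I * y - p)) * I with hv'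
  have hvd : ∀ y, |y| ≤ a → HasDerivAt v (v' y) y := by
    intro y hy
    have h1 : HasDerivAt (fun y : ℝ => w0 + I * (y : ℂ)) I y := by
      have := ((Complex.ofRealCLM.hasDerivAt (x := y)).const_mul I).const_add w0
      simpa using this
    have h2 := (hH _ (hsub' (hball y hy))).comp_of_eq y h1 rfl
    exact h2.sub_const _
  have hrep : ∀ y : ℝ, |y| ≤ a → F (w0 + I * y) / (w0 + I * y - p) ^ (n + 1) = Q0 * cexp (v y) := by
    intro y hy
    exact hQ _ (hsub' (hball y hy)) w0 (hsub' hw0b)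
  have hv'b : ∀ y : ℝ, |y| ≤ a → ‖v' y + ((n + 1 : ℝ) : ℂ) * y‖ ≤ |y| * s ^ 2 * (1 / 1000 + 11 / 10 * |y|) := by
    intro y hy
    have a1 := ld_lip hρ0 (by linarith) h (hball y hy) hw0b
    have e0 : w0 + I * y - w0 = I * y := by ring
    have e1 : ‖I * (y : ℂ)‖ = |y| := by rw [norm_mul, Complex.norm_I, one_mul, Complex.norm_real, Real.norm_eq_abs]
    rw [e0, e1] at a1
    have hu0n : u0 ≠ 0 := sub_ne hρ (hsub' hw0b)
    have hu1n : u0 + I * y ≠ 0 := by
      have := sub_ne hρ (hsub' (hball y hy))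
      have e : w0 + I * y - p = u0 + I * y := by rw [hu0]; ring
      rwa [e] at this
    have hL0 : logDeriv F w0 = (n + 1) / u0 := by
      rw [eq_div_iff hu0n]; exact hsad
    have key : v' y + ((n + 1 : ℝ) : ℂ) * y = (logDeriv F (w0 + I * y) - logDeriv F w0) * I +
        (n + 1) * y * ((d * (2 + d) + I * y * u0) / (u0 * (u0 + I * y))) := by
      have e : w0 + I * y - p = u0 + I * y := by rw [hu0]; ring
      rw [hv']
      simp only
      rw [e, hL0]
      push_cast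
      have hI : I * I = -1 := Complex.I_mul_I
      have hd' : d = u0 - 1 := by rw [hu]; ring
      rw [hd']
      field_simp
      linear_combination ((n + 1) * y : ℂ) * hI
    have b1 : ‖u0‖ ≤ 10001 / 10000 := by
      rw [hu]
      calc ‖1 + d‖ ≤ ‖(1 : ℂ)‖ + ‖d‖ := norm_add_le _ _
        _ ≤ _ := by rw [norm_one]; linarith
    have b2 : 99 / 100 ≤ u0.re := by
      have : -‖d‖ ≤ d.re := (abs_le.1 (Complex.abs_re_le_norm d)).1
      rw [hu, Complex.add_re, Complex.one_re]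
      linarith
    have b3 : 99 / 100 ≤ ‖u0‖ := b2.trans ((le_abs_self _).trans (Complex.abs_re_le_norm _))
    have b4 : 99 / 100 ≤ ‖u0 + I * y‖ := by
      have : (u0 + I * y).re = u0.re := by simp
      have h2 := (le_abs_self (u0 + I * (y : ℂ)).re).trans (Complex.abs_re_le_norm _)
      rw [this] at h2
      exact b2.trans h2
    have b5 : ‖d * (2 + d) + I * y * u0‖ ≤ 21 / 10 * κ' + 10001 / 10000 * |y| := by
      have c1 : ‖2 + d‖ ≤ 21 / 10 := by
        calc ‖2 + d‖ ≤ ‖(2 : ℂ)‖ + ‖d‖ := norm_add_le _ _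
          _ ≤ _ := by rw [Complex.norm_ofNat]; linarith
      calc ‖d * (2 + d) + I * y * u0‖ ≤ ‖d * (2 + d)‖ + ‖I * y * u0‖ := norm_add_le _ _
        _ = ‖d‖ * ‖2 + d‖ + |y| * ‖u0‖ := by rw [norm_mul, norm_mul, e1]
        _ ≤ κ' * (21 / 10) + |y| * (10001 / 10000) := by gcongr
        _ = _ := by ring
    have b6 : ‖(d * (2 + d) + I * y * u0) / (u0 * (u0 + I * y))‖ ≤
        (21 / 10 * κ' + 10001 / 10000 * |y|) / (98 / 100) := by
      rw [norm_div, norm_mul]
      gcongr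
      nlinarith
    have e2 : ‖((n : ℂ) + 1)‖ = n + 1 := by
      rw [show (n : ℂ) + 1 = ((n + 1 : ℕ) : ℂ) by push_cast; ring, Complex.norm_natCast]; push_cast; ring
    have hy0 : 0 ≤ |y| := abs_nonneg y
    rw [key, hs2]
    calc _ ≤ ‖(logDeriv F (w0 + I * y) - logDeriv F w0) * I‖ +
          ‖(n + 1) * y * ((d * (2 + d) + I * y * u0) / (u0 * (u0 + I * y)))‖ := norm_add_le _ _
      _ = ‖logDeriv F (w0 + I * y) - logDeriv F w0‖ +
          (n + 1) * |y| * ‖(d * (2 + d) + I * y * u0) / (u0 * (u0 + I * y))‖ := by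
          rw [norm_mul, Complex.norm_I, mul_one, norm_mul, norm_mul, e2, Complex.norm_real, Real.norm_eq_abs]
      _ ≤ 1 / 100000 * n * |y| + (n + 1) * |y| * ((21 / 10 * κ' + 10001 / 10000 * |y|) / (98 / 100)) := by
          gcongr
      _ = |y| * (1 / 100000 * n + (n + 1) * ((21 / 10 * κ' + 10001 / 10000 * |y|) / (98 / 100))) := by ring
      _ ≤ |y| * (n * (1 / 1000 + 11 / 10 * |y|)) := by
          apply mul_le_mul_of_nonneg_left _ hy0
          have c1 : (n : ℝ) + 1 ≤ 10001 / 10000 * n := by linarith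
          calc 1 / 100000 * n + (n + 1) * ((21 / 10 * κ' + 10001 / 10000 * |y|) / (98 / 100))
              ≤ 1 / 100000 * n + (10001 / 10000 * n) *
                  ((21 / 10 * (1 / 10000) + 10001 / 10000 * |y|) / (98 / 100)) := by
                gcongr
            _ = n * (1 / 100000 + 10001 / 10000 *
                  ((21 / 10 * (1 / 10000) + 10001 / 10000 * |y|) / (98 / 100))) := by ring
            _ ≤ _ := by
                apply mul_le_mul_of_nonneg_left _ (by positivity)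
                linarith
      _ = _ := by ring
  have hv0 : v 0 = 0 := by rw [hv]; simp
  obtain ⟨hA, hB⟩ := core hs1 ha0 ha1 hsa (m := (n : ℝ) + 1) (by rw [hs2]; linarith) (by rw [hs2]; linarith) v v' hv0 hvd hv'b
  have hdec : ∀ y : ℝ, |y| ≤ a → ‖F (w0 + I * y) / (w0 + I * y - p) ^ (n + 1)‖ ≤
      Real.exp (-(n * y ^ 2 / 4)) * ‖Q0‖ := by
    intro y hy
    rw [hrep y hy, norm_mul, mul_comm, ← hs2]
    exact mul_le_mul_of_nonneg_right (hA y hy) (norm_nonneg _)
  refine ⟨w0, hw0.trans (by rw [hκ']; linarith), hsad, hlow, hdec, ?_, ?_⟩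
  · have e : ∫ y in (-a : ℝ)..a, F (w0 + I * y) / (w0 + I * y - p) ^ (n + 1) =
        ∫ y in (-a : ℝ)..a, Q0 * cexp (v y) := by
      apply intervalIntegral.integral_congr
      intro y hy
      rw [uIcc_of_le (by linarith)] at hy
      exact hrep y (abs_le.2 hy)
    rw [e, intervalIntegral.integral_const_mul, norm_mul, mul_comm]
    exact mul_le_mul_of_nonneg_left hB (norm_nonneg _)
  · have h1 : ∫ y in (-a : ℝ)..a, ‖F (w0 + I * y) / (w0 + I * y - p) ^ (n + 1)‖ * |y| ≤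
        ∫ y in (-a : ℝ)..a, (9 / 2 / s * ‖Q0‖) * Real.exp (-(s ^ 2 * y ^ 2 / 8)) := by
      apply intervalIntegral.integral_mono_on (by linarith)
      · apply ContinuousOn.intervalIntegrable
        intro y hy
        rw [uIcc_of_le (by linarith)] at hy
        have hy' := abs_le.2 hy
        have hwb := hsub' (hball y hy')
        have c1 : ContinuousAt (fun y : ℝ => w0 + I * (y : ℂ)) y := by fun_prop
        have c2 : ContinuousAt (fun y : ℝ => F (w0 + I * (y : ℂ))) y :=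
          ContinuousAt.comp (g := F) (h _ hwb).1.continuousAt c1
        have c3 : ContinuousAt (fun y : ℝ => (w0 + I * (y : ℂ) - p) ^ (n + 1)) y := by fun_prop
        exact (((c2.div c3 (pow_ne_zero _ (sub_ne hρ hwb))).norm).mul continuous_abs.continuousAt).continuousWithinAt
      · apply Continuous.intervalIntegrable
        fun_prop
      · intro y hy
        have hy' := abs_le.2 hy
        calc ‖F (w0 + I * y) / (w0 + I * y - p) ^ (n + 1)‖ * |y|
            ≤ (Real.exp (-(n * y ^ 2 / 4)) * ‖Q0‖) * |y| :=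
              mul_le_mul_of_nonneg_right (hdec y hy') (abs_nonneg y)
          _ = (|y| * Real.exp (-(s ^ 2 * y ^ 2 / 4))) * ‖Q0‖ := by rw [hs2]; ring
          _ ≤ (9 / 2 / s * Real.exp (-(s ^ 2 * y ^ 2 / 8))) * ‖Q0‖ :=
              mul_le_mul_of_nonneg_right (abs_exp hs0) (norm_nonneg _)
          _ = _ := by ring
    refine h1.trans ?_
    rw [intervalIntegral.integral_const_mul]
    calc 9 / 2 / s * ‖Q0‖ * ∫ y in (-a : ℝ)..a, Real.exp (-(s ^ 2 * y ^ 2 / 8))
        ≤ 9 / 2 / s * ‖Q0‖ * (6 / s) := by gcongr; exact gauss_le hs0 ha0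
      _ = 27 / (s ^ 2) * ‖Q0‖ := by field_simp; ring
      _ = _ := by rw [hs2]

end Pool.Agent.H986R2.K4
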