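import Pool.Agent.H986R2.K4.Spec
import Pool.Agent.H295R2.M

set_option autoImplicit false

/-! Zero-free half-planes give power savings for the Mertens function. -/

namespace Pool.Agent.H986R2.K4

open Complex Filter Topology MeasureTheory Set

theorem merA : (∀ θ : ℝ, 1 / 2 ≤ θ → θ < 1 → (∀ s : ℂ, θ < s.re → riemannZeta s ≠ 0) →
    ∀ θ' : ℝ, θ < θ' → ∃ C : ℝ, ∀ x : ℝ, 1 ≤ x → |Mer x| ≤ C * x ^ θ') := by
  intro θ h0 h1 hz θ' hθ'
  have h2 : θ < 2 := by linarith
  have hZs : ∀ s : ℂ, θ < s.re → Pool.Agent.H295R2.Zs s ≠ 0 := by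
    intro s hs
    by_cases h : s = 1
    · rw [h]
      unfold Pool.Agent.H295R2.Zs
      simp
    · rw [← Pool.Agent.H295R2.Zs_eq h]
      exact mul_ne_zero (sub_ne_zero.2 h) (hz s hs)
  have hm : θ < min θ' 2 := lt_min hθ' h2
  obtain ⟨C', _, hC'⟩ := Pool.Agent.H295R2.mertens_bound (by linarith) hZs hm (min_le_right _ _)
  have hC0 : 0 ≤ C' := by
    have := (abs_nonneg _).trans (hC' 1 le_rfl)
    simpa using this
  refine ⟨C', fun x hx => ?_⟩
  have h3 : |Mer x| ≤ C' * x ^ (min θ' 2) := hC' x hx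
  exact h3.trans (mul_le_mul_of_nonneg_left (Real.rpow_le_rpow_of_exponent_le hx (min_le_left _ _)) hC0)

end Pool.Agent.H986R2.K4
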