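import Pool.Agent.H986R2.K4.Spec
import Pool.Agent.H353R2.P4

set_option autoImplicit false

namespace Pool.Agent.H986R2.K4

/-- a power saving for the Mertens function gives a zero-free half-plane -/
theorem merB : ∀ θ C : ℝ, 0 < θ → (∀ x : ℝ, 1 ≤ x → |Mer x| ≤ C * x ^ θ) →
    ∀ s : ℂ, θ < s.re → riemannZeta s ≠ 0 := by
  intro θ C h0 hM s hs
  by_cases h1 : θ < 1
  · exact H353.zero_free_of_M θ C h0.le h1 hM s hs
  · exact riemannZeta_ne_zero_of_one_le_re (by linarith)

end Pool.Agent.H986R2.K4
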