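import Pool.Agent.H986R2.K4.Spec
import Pool.Agent.H24R2.DZ.Half

set_option autoImplicit false

/-!
# Task 10 (NL): near the line, adapted from `Pool.Agent.H24R2.DZ.B1b` (helper241)
-/

namespace Pool.Agent.H986R2.K4

open Complex Filter Topology MeasureTheory Set
open Pool.Agent.H24R2.JP (XX HH Om)
open Pool.Agent.H24R2.DZ (bad hc)

theorem nl (h : S_RT) : S_NL := by
  intro κ R hκ hκ2 hR3
  obtain ⟨κ1, η, n0, hκ1, hκ12, hη, hR⟩ := h κ R hκ hκ2 hR3
  refine ⟨κ1, η, n0, hκ1, hκ12, hη, fun n F hn hN x hx h0 => ?_⟩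
  have hnorm : ∀ y : ℝ, |y| ≤ κ1 → ‖(y : ℂ)‖ < 1 := by
    intro y hy
    rw [Complex.norm_real, Real.norm_eq_abs]
    linarith
  have hH : ∀ w : ℂ, ‖w‖ < 1 → _ := fun w hw =>
    Pool.Agent.H24R2.DZ.half F n w hN.diff hN.symm hw
  have hz1 : ‖(x : ℂ)‖ < 1 := hnorm x hx
  have hconj : -((starRingEnd ℂ) (x : ℂ)) = ((-x : ℝ) : ℂ) := by
    rw [Complex.conj_ofReal]; push_cast; rfl
  -- the values at `x` and `-x`
  have hfac : (n.factorial : ℂ) ≠ 0 := by exact_mod_cast n.factorial_ne_zero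
  have e1 := (hH x hz1).1
  rw [h0, zero_div] at e1
  have e2 : hc F (n + 1) x =
      -((-1) ^ n * (starRingEnd ℂ) (hc F (n + 1) (-((starRingEnd ℂ) (x : ℂ))))) :=
    eq_neg_of_add_eq_zero_left e1.symm
  have e3 : ‖hc F (n + 1) x‖ = ‖hc F (n + 1) ((-x : ℝ) : ℂ)‖ := by
    rw [e2, norm_neg, norm_mul, norm_pow, norm_neg, norm_one, one_pow, one_mul, RCLike.norm_conj,
      hconj]
  -- monotonicity
  have hmono : StrictMonoOn (fun y : ℝ => ‖hc F (n + 1) (y : ℂ)‖ ^ 2) (Icc (-κ1) κ1) := by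
    have hder : ∀ y ∈ Icc (-κ1) κ1,
        HasDerivAt (fun y : ℝ => ‖hc F (n + 1) (y : ℂ)‖ ^ 2)
          (2 * inner ℝ (hc F (n + 1) (y : ℂ)) ((n + 1) * hc F (n + 2) (y : ℂ))) y := by
      intro y hy
      have h5 := (hH _ (hnorm y (abs_le.2 hy))).2
      have h7 : HasDerivAt (fun y : ℝ => hc F (n + 1) (y : ℂ))
          ((n + 1) * hc F (n + 2) (y : ℂ)) y := h5.comp_ofReal
      exact h7.norm_sq
    refine strictMonoOn_of_deriv_pos (convex_Icc _ _)
      (fun y hy => (hder y hy).continuousAt.continuousWithinAt) fun y hy => ?_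
    have hy' := interior_subset hy
    rw [(hder y hy').deriv, Complex.inner]
    obtain ⟨h8, h9⟩ := hR n F hn hN y (abs_le.2 hy')
    set A := hc F (n + 1) (y : ℂ)
    set B := hc F (n + 2) (y : ℂ)
    have h10 : (starRingEnd ℂ) A * (((n : ℂ) + 1) * B) =
        (((n : ℝ) + 1) * Complex.normSq A : ℝ) * (B / A) := by
      have h11 : (starRingEnd ℂ) A * A = (Complex.normSq A : ℂ) := by
        rw [mul_comm, Complex.mul_conj]
      push_cast
      rw [← h11]
      field_simp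
    have h12 : 0 < Complex.normSq A := Complex.normSq_pos.2 h8
    rw [mul_comm ((n + 1) * B) _, h10, Complex.re_ofReal_mul]
    positivity
  have hre : x = 0 := by
    have h13 : (fun y : ℝ => ‖hc F (n + 1) (y : ℂ)‖ ^ 2) x =
        (fun y : ℝ => ‖hc F (n + 1) (y : ℂ)‖ ^ 2) (-x) := by
      simp only
      rw [e3]
    have h14 := hmono.injOn (abs_le.1 hx)
      (show -x ∈ Icc (-κ1) κ1 from by
        rw [← abs_neg] at hx; exact abs_le.1 hx) h13
    linarith
  refine ⟨hre, fun h20 => ?_⟩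
  have hz4 : -((starRingEnd ℂ) (x : ℂ)) = (x : ℂ) := by
    rw [hconj, hre]; simp
  have e4 := (Pool.Agent.H24R2.DZ.half F (n + 1) x hN.diff hN.symm hz1).1
  rw [h20, zero_div, hz4] at e4
  rw [hz4] at e2
  obtain ⟨h8, h9⟩ := hR n F hn hN x hx
  set A := hc F (n + 1) (x : ℂ)
  set B := hc F (n + 2) (x : ℂ) with hB
  have e5 : B = (-1) ^ n * (starRingEnd ℂ) B := by
    have h21 : (0 : ℂ) = B + (-1) ^ (n + 1) * (starRingEnd ℂ) B := e4
    rw [pow_succ] at h21
    have h22 := h21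
    linear_combination -h22
  have e6 : B / A = -((starRingEnd ℂ) (B / A)) := by
    have hA' : (starRingEnd ℂ) A ≠ 0 := by simpa using h8
    have hp : ((-1 : ℂ)) ^ n ≠ 0 := pow_ne_zero _ (by norm_num)
    rw [map_div₀]
    nth_rewrite 1 [e5]
    nth_rewrite 1 [e2]
    field_simp
  have e7 := congrArg Complex.re e6
  rw [Complex.neg_re, Complex.conj_re] at e7
  linarith

end Pool.Agent.H986R2.K4
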