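import Pool.Agent.H986R2.K4.Spec
import Pool.Agent.H24R2.DZ.XB
import Pool.Agent.H24R2.JP.Grow

set_option autoImplicit false

/-! Task 05: the convexity bound (Phragmen-Lindelof). -/

namespace Pool.Agent.H986R2.K4

open Complex Filter Topology MeasureTheory Set
open Pool.Agent.H24R2.JP (XX HH Om)

namespace PLAux

open Pool.Agent.H24R2.JP.StirAux

/-- vertical comparison of `HH` -/
lemma vert : ∃ K : ℝ, 1 ≤ K ∧ ∀ x0 y y' : ℝ, |x0| ≤ 1 → 400 ≤ y → 400 ≤ y' →
    ‖HH (x0 + I * y)‖ ≤ Real.exp (K * |y - y'|) * ‖HH (x0 + I * y')‖ := by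
  obtain ⟨K, hK, hb⟩ := bound1
  refine ⟨K, hK, fun x0 y y' hx0 hy hy' => ?_⟩
  by_cases hyy : y = y'
  · rw [hyy]; simp
  have hd : 0 < |y - y'| := abs_pos.2 (sub_ne_zero.2 hyy)
  -- the curve
  set c : ℝ → ℝ := fun s => y' + s * (y - y') with hc
  have hc400 : ∀ s ∈ Icc (0 : ℝ) 1, 400 ≤ c s := by
    intro s hs
    have : c s = (1 - s) * y' + s * y := by rw [hc]; ring
    rw [this]
    nlinarith [hs.1, hs.2]
  have hpt : ∀ s ∈ Icc (0 : ℝ) 1, 0 < ((x0 : ℂ) + I * (c s : ℂ)).im ∧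
      |(ld ((x0 : ℂ) + I * (c s : ℂ))).im| ≤ K := by
    intro s hs
    have h1 := hb (c s) ((x0 : ℂ) + I * (c s : ℂ)) (hc400 s hs) (by
      rw [add_sub_cancel_right, Complex.norm_real, Real.norm_eq_abs]
      have := hc400 s hs
      linarith)
    refine ⟨h1.1, ?_⟩
    rw [← ld_eq h1.1]
    have h2 := (Complex.abs_im_le_norm _).trans h1.2
    rwa [Complex.sub_im, Complex.ofReal_im, sub_zero] at h2
  have key := SG.GamAux.gron
    (fun s : ℝ => (((‖HH ((x0 : ℂ) + I * (c s : ℂ))‖ ^ 2 : ℝ)) : ℂ))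
    (fun s : ℝ => (((-2 * (y - y') * (ld ((x0 : ℂ) + I * (c s : ℂ))).im *
      ‖HH ((x0 : ℂ) + I * (c s : ℂ))‖ ^ 2 : ℝ)) : ℂ)) (2 * K * |y - y'|) (by positivity) ?_ ?_
  · have h1 := key.1
    rw [Complex.norm_real, Complex.norm_real, Real.norm_of_nonneg (sq_nonneg _),
      Real.norm_of_nonneg (sq_nonneg _)] at h1
    have e1 : c 1 = y := by rw [hc]; ring
    have e0 : c 0 = y' := by rw [hc]; ring
    rw [e1, e0] at h1
    have h2 : Real.exp (2 * K * |y - y'|) = Real.exp (K * |y - y'|) ^ 2 := by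
      rw [← Real.exp_nat_mul]; congr 1; push_cast; ring
    rw [h2, ← mul_pow] at h1
    exact le_of_sq_le_sq h1 (by positivity)
  · intro s hs
    obtain ⟨hpos, -⟩ := hpt s hs
    have hlin : HasDerivAt (fun s : ℝ => (x0 : ℂ) + I * (c s : ℂ)) (I * ((y - y' : ℝ) : ℂ)) s := by
      have h0 : HasDerivAt (fun s : ℝ => c s) (y - y') s := by
        rw [hc]
        simpa using ((hasDerivAt_id s).mul_const (y - y')).const_add y'
      exact (h0.ofReal_comp.const_mul I).const_add (x0 : ℂ)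
    have hH : HasDerivAt (fun s : ℝ => HH ((x0 : ℂ) + I * (c s : ℂ)))
        (HH ((x0 : ℂ) + I * (c s : ℂ)) * ld ((x0 : ℂ) + I * (c s : ℂ)) * (I * ((y - y' : ℝ) : ℂ))) s :=
      HasDerivAt.comp s (HH_deriv hpos) hlin
    have h3 := (hH.norm_sq).ofReal_comp
    convert h3 using 1
    congr 1
    rw [Complex.inner]
    set a := HH ((x0 : ℂ) + I * (c s : ℂ))
    set b := ld ((x0 : ℂ) + I * (c s : ℂ))
    have h4 : ‖a‖ ^ 2 = a.re * a.re + a.im * a.im := by
      rw [← Complex.normSq_eq_norm_sq, Complex.normSq_apply]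
    rw [h4]
    simp only [Complex.mul_re, Complex.mul_im, Complex.conj_re, Complex.conj_im, Complex.I_re,
      Complex.I_im, Complex.ofReal_re, Complex.ofReal_im]
    ring
  · intro s hs
    obtain ⟨-, h1⟩ := hpt s hs
    rw [Complex.norm_real, Complex.norm_real, Real.norm_eq_abs, Real.norm_eq_abs, abs_mul, abs_mul,
      abs_mul]
    have h2 : |(-2 : ℝ)| = 2 := by norm_num
    rw [h2]
    have : 2 * |y - y'| * |(ld ((x0 : ℂ) + I * (c s : ℂ))).im| ≤ 2 * K * |y - y'| := by
      nlinarith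
    exact mul_le_mul_of_nonneg_right this (abs_nonneg _)

/-- `XX` is bounded on the strip -/
lemma bdd : ∃ B : ℝ, 0 < B ∧ ∀ z : ℂ, |z.re| ≤ 1 → ‖XX z‖ ≤ B := by
  obtain ⟨A, -, hA⟩ := Pool.Agent.Helper242.KK.Ph_upper
  obtain ⟨C, hC, hb⟩ := Pool.Agent.Helper242.KK.FT_upper
    Pool.Agent.Helper242.KK.continuous_Ph hA
  refine ⟨8 * Real.exp (1 / 2 * Real.log 3 + C * 2) + 4, by positivity, fun z hz => ?_⟩
  by_cases hc : (1 / 2 : ℂ) + z = 0 ∨ (1 / 2 : ℂ) + z = 1
  · have hx : 4 * z ^ 2 - 1 = 0 := by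
      rcases hc with hc | hc
      · have : z = -(1 / 2) := by linear_combination hc
        rw [this]; norm_num
      · have : z = 1 / 2 := by linear_combination hc
        rw [this]; norm_num
    have : XX z = 4 := by unfold XX; rw [hx]; ring
    rw [this]
    have : ‖(4 : ℂ)‖ = 4 := by simp
    rw [this]
    have := Real.exp_pos (1 / 2 * Real.log 3 + C * 2)
    linarith
  · push Not at hc
    rw [Pool.Agent.H24R2.JP.XX_eq_FT_aux z hc.1 hc.2, norm_mul]
    have e2 := hb (-I * z)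
    have him : |(-I * z).im| = |z.re| := by simp
    rw [him] at e2
    have h8 : ‖(8 : ℂ)‖ = 8 := by simp
    rw [h8]
    have h0 : 0 ≤ |z.re| := abs_nonneg _
    have h1 : |z.re| / 2 * Real.log (2 + |z.re|) ≤ 1 / 2 * Real.log 3 := by
      have hl : Real.log (2 + |z.re|) ≤ Real.log 3 := Real.log_le_log (by linarith) (by linarith)
      have hl0 : 0 ≤ Real.log (2 + |z.re|) := Real.log_nonneg (by linarith)
      nlinarith
    have h2 : Real.exp (|z.re| / 2 * Real.log (2 + |z.re|) + C * (1 + |z.re|)) ≤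
        Real.exp (1 / 2 * Real.log 3 + C * 2) := by
      apply Real.exp_le_exp.2
      nlinarith
    linarith [e2.trans h2]

end PLAux

open PLAux in
theorem pl (hHH : S_HH) : S_PL := by
  intro x0 ν C t1 R hx0 hx1 hν0 hν1 hC ht1 hR hz
  obtain ⟨K, hK, hv⟩ := vert
  obtain ⟨B, hB, hbd⟩ := bdd
  obtain ⟨K2, hK2, hHH1⟩ := hHH
  obtain ⟨T1, hT1, hHH2⟩ := hHH1 1 le_rfl
  have hx0a : |x0| ≤ 1 := by rw [abs_of_pos hx0]; exact hx1
  -- threshold
  obtain ⟨Y, hY400, hYt⟩ : ∃ Y : ℝ, 400 ≤ Y ∧ t1 ≤ Y := ⟨max 400 t1, le_max_left _ _, le_max_right _ _⟩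
  have hne : HH (x0 + I * Y) ≠ 0 := by
    apply Pool.Agent.H24R2.JP.StirAux.HH_ne
    simp
    linarith
  have hh0 : 0 < ‖HH (x0 + I * Y)‖ := norm_pos_iff.2 hne
  -- constants
  obtain ⟨c1, hc1⟩ : ∃ c1 : ℝ, c1 = C * Real.exp ((K + 1) ^ 2 + 1 + K2) := ⟨_, rfl⟩
  obtain ⟨c2, hc2⟩ : ∃ c2 : ℝ, c2 = B / ‖HH (x0 + I * Y)‖ * Real.exp (1 + K2 + K ^ 2 + K * Y) :=
    ⟨_, rfl⟩
  have hc1p : 0 < c1 := by rw [hc1]; positivity
  have hc2p : 0 < c2 := by rw [hc2]; positivity
  refine ⟨Real.exp (R ^ 2) * (c1 + c2), max Y (max T1 2), by positivity,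
    (le_max_right _ _).trans' (le_max_right _ _), ?_⟩
  intro T u hT hu1 hu2
  have hTY : Y ≤ T := (le_max_left _ _).trans hT
  have hTT : T1 ≤ T := ((le_max_left _ _).trans (le_max_right _ _)).trans hT
  have hT400 : 400 ≤ T := hY400.trans hTY
  have hT0 : 0 < T := by linarith
  have hTν : 1 ≤ T ^ ν := Real.one_le_rpow (by linarith) hν0
  -- the quantity at height `T`
  obtain ⟨M0, hM0⟩ : ∃ M0 : ℝ, M0 = Real.exp (x0 * Om T) * ‖HH (I * T)‖ := ⟨_, rfl⟩
  have hM0n : 0 ≤ M0 := by rw [hM0]; positivity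
  have hup : ‖HH (x0 + I * T)‖ ≤ Real.exp K2 * M0 := by
    have h1 := (hHH2 T (x0 : ℂ) hTT (by
      rw [Complex.norm_real, Real.norm_eq_abs]; exact hx0a)).2.2.2.2
    rw [add_comm (I * (T : ℂ)) (x0 : ℂ), Complex.ofReal_re, mul_one, Real.exp_add] at h1
    rw [hM0]
    calc _ ≤ _ := h1
      _ = _ := by rw [mul_comm (Om T) x0]; ring
  rw [← hM0]
  -- the auxiliary function
  obtain ⟨G, hG⟩ : ∃ G : ℂ → ℂ, G = fun z => XX z * cexp ((z - I * T) ^ 2) := ⟨_, rfl⟩
  have hGn : ∀ z : ℂ, ‖G z‖ = ‖XX z‖ * Real.exp (z.re ^ 2 - (z.im - T) ^ 2) := by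
    intro z
    rw [hG]
    simp only [norm_mul, Complex.norm_exp]
    congr 2
    rw [sq, Complex.mul_re]
    simp
    ring
  have hside : ∀ y : ℝ, ‖G (x0 + I * y)‖ ≤ (c1 + c2) * (T ^ ν * M0) := by
    intro y
    rw [hGn]
    have e1 : ((x0 : ℂ) + I * y).re = x0 := by simp
    have e2 : ((x0 : ℂ) + I * y).im = y := by simp
    rw [e1, e2]
    have hMp : 0 ≤ T ^ ν * M0 := by positivity
    by_cases hy : Y ≤ |y|
    · -- the symmetric point
      have hsym : ‖XX (x0 + I * y)‖ = ‖XX (x0 + I * (|y| : ℝ))‖ := by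
        rcases le_total 0 y with h | h
        · rw [abs_of_nonneg h]
        · rw [abs_of_nonpos h]
          have : (x0 : ℂ) + I * ((-y : ℝ) : ℂ) = (starRingEnd ℂ) ((x0 : ℂ) + I * y) := by
            simp
          rw [this, Pool.Agent.H24R2.JP.B1h.XX_conj, RCLike.norm_conj]
      rw [hsym]
      set a : ℝ := |y| with ha
      have hsq : (a - T) ^ 2 ≤ (y - T) ^ 2 := by
        have h1 : y ≤ a := le_abs_self y
        have h2 : a ^ 2 = y ^ 2 := sq_abs y
        nlinarith
      have ha400 : 400 ≤ a := hY400.trans hy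
      have hXXa : XX (x0 + I * a) = HH (x0 + I * a) * riemannZeta (1 / 2 + (x0 + I * a)) :=
        Pool.Agent.H24R2.JP.ZetaTask.part1 _ (by simp; linarith)
      have hza := hz a (hYt.trans hy)
      have e3 : (1 / 2 : ℂ) + (x0 + I * a) = 1 / 2 + x0 + a * I := by ring
      rw [hXXa, e3, norm_mul]
      obtain ⟨D, hD⟩ : ∃ D : ℝ, D = |a - T| := ⟨_, rfl⟩
      have hD0 : 0 ≤ D := by rw [hD]; exact abs_nonneg _
      have hD2 : D ^ 2 = (a - T) ^ 2 := by rw [hD, sq_abs]
      have h5 := hv x0 a T hx0a ha400 hT400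
      rw [← hD] at h5
      have h6 : a ^ ν ≤ T ^ ν * Real.exp D := by
        have h7 : a ≤ T * (1 + D) := by
          have : a - T ≤ D := by rw [hD]; exact le_abs_self _
          nlinarith
        calc a ^ ν ≤ (T * (1 + D)) ^ ν := Real.rpow_le_rpow (by linarith) h7 hν0
          _ = T ^ ν * (1 + D) ^ ν := Real.mul_rpow hT0.le (by linarith)
          _ ≤ T ^ ν * Real.exp D := by
            gcongr
            calc (1 + D) ^ ν ≤ (1 + D) ^ (1 : ℝ) :=
                  Real.rpow_le_rpow_of_exponent_le (by linarith) hν1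
              _ = 1 + D := Real.rpow_one _
              _ ≤ Real.exp D := by have := Real.add_one_le_exp D; linarith
      have h8 : Real.exp (x0 ^ 2 - (y - T) ^ 2) ≤ Real.exp (1 - D ^ 2) := by
        apply Real.exp_le_exp.2
        rw [hD2]
        nlinarith
      have h9 : (K + 1) * D - D ^ 2 ≤ (K + 1) ^ 2 := by nlinarith [sq_nonneg (D - (K + 1)), mul_nonneg hD0 hD0]
      calc ‖HH (x0 + I * a)‖ * ‖riemannZeta (1 / 2 + x0 + a * I)‖ * Real.exp (x0 ^ 2 - (y - T) ^ 2)
          ≤ (Real.exp (K * D) * (Real.exp K2 * M0)) * (C * (T ^ ν * Real.exp D)) *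
            Real.exp (1 - D ^ 2) := by
            have q1 : ‖HH (x0 + I * a)‖ ≤ Real.exp (K * D) * (Real.exp K2 * M0) :=
              h5.trans (mul_le_mul_of_nonneg_left hup (Real.exp_pos _).le)
            have q2 : ‖riemannZeta (1 / 2 + x0 + a * I)‖ ≤ C * (T ^ ν * Real.exp D) :=
              hza.trans (mul_le_mul_of_nonneg_left h6 hC.le)
            gcongr
        _ = C * Real.exp (((K + 1) * D - D ^ 2) + 1 + K2) * (T ^ ν * M0) := by
            have : Real.exp (((K + 1) * D - D ^ 2) + 1 + K2) =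
                Real.exp (K * D) * Real.exp K2 * Real.exp D * Real.exp (1 - D ^ 2) := by
              rw [← Real.exp_add, ← Real.exp_add, ← Real.exp_add]
              congr 1
              ring
            rw [this]
            ring
        _ ≤ c1 * (T ^ ν * M0) := by
            rw [hc1]
            have : Real.exp (((K + 1) * D - D ^ 2) + 1 + K2) ≤ Real.exp ((K + 1) ^ 2 + 1 + K2) :=
              Real.exp_le_exp.2 (by linarith)
            gcongr
        _ ≤ (c1 + c2) * (T ^ ν * M0) := by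
            apply mul_le_mul_of_nonneg_right _ hMp
            linarith
    · push Not at hy
      have hy1 : y ≤ Y := (le_abs_self y).trans hy.le
      have h1 : ‖XX (x0 + I * y)‖ ≤ B := hbd _ (by rw [e1]; exact hx0a)
      have h2 := hv x0 Y T hx0a hY400 hT400
      have hYT : |Y - T| = T - Y := by rw [abs_sub_comm]; exact abs_of_nonneg (by linarith)
      rw [hYT] at h2
      have h3 : ‖HH (x0 + I * Y)‖ ≤ Real.exp (K * (T - Y)) * (Real.exp K2 * M0) :=
        h2.trans (mul_le_mul_of_nonneg_left hup (Real.exp_pos _).le)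
      have h4 : 1 ≤ Real.exp (K * (T - Y)) * (Real.exp K2 * M0) / ‖HH (x0 + I * Y)‖ := by
        rwa [one_le_div hh0]
      have h5 : (T - Y) ^ 2 ≤ (y - T) ^ 2 := by nlinarith
      have h6 : Real.exp (x0 ^ 2 - (y - T) ^ 2) ≤ Real.exp (1 - (T - Y) ^ 2) := by
        apply Real.exp_le_exp.2
        nlinarith
      have h7 : K * (T - Y) - (T - Y) ^ 2 ≤ K ^ 2 + K * Y := by
        nlinarith [sq_nonneg (T - Y - K), mul_nonneg (by linarith : (0 : ℝ) ≤ K) (by linarith : (0:ℝ) ≤ Y),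
          sq_nonneg (T - Y)]
      calc ‖XX (x0 + I * y)‖ * Real.exp (x0 ^ 2 - (y - T) ^ 2)
          ≤ B * Real.exp (1 - (T - Y) ^ 2) := by gcongr
        _ = B * Real.exp (1 - (T - Y) ^ 2) * 1 := by ring
        _ ≤ B * Real.exp (1 - (T - Y) ^ 2) *
            (Real.exp (K * (T - Y)) * (Real.exp K2 * M0) / ‖HH (x0 + I * Y)‖) := by gcongr
        _ = B / ‖HH (x0 + I * Y)‖ * Real.exp (1 + K2 + (K * (T - Y) - (T - Y) ^ 2)) * M0 := by
            have : Real.exp (1 + K2 + (K * (T - Y) - (T - Y) ^ 2)) =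
                Real.exp (1 - (T - Y) ^ 2) * Real.exp (K * (T - Y)) * Real.exp K2 := by
              rw [← Real.exp_add, ← Real.exp_add]
              congr 1
              ring
            rw [this]
            ring
        _ ≤ c2 * M0 := by
            rw [hc2]
            have : Real.exp (1 + K2 + (K * (T - Y) - (T - Y) ^ 2)) ≤
                Real.exp (1 + K2 + K ^ 2 + K * Y) := Real.exp_le_exp.2 (by linarith)
            gcongr
        _ ≤ (c1 + c2) * (T ^ ν * M0) := by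
            have : M0 ≤ T ^ ν * M0 := by nlinarith
            calc c2 * M0 ≤ c2 * (T ^ ν * M0) := by gcongr
              _ ≤ _ := by
                apply mul_le_mul_of_nonneg_right _ hMp
                linarith
  -- Phragmen-Lindelof
  have hPL : ∀ z : ℂ, -x0 ≤ z.re → z.re ≤ x0 → ‖G z‖ ≤ (c1 + c2) * (T ^ ν * M0) := by
    intro z hz1 hz2
    refine PhragmenLindelof.vertical_strip (a := -x0) (b := x0) ?_ ?_ ?_ ?_ hz1 hz2
    · apply Differentiable.diffContOnCl
      rw [hG]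
      have := Pool.Agent.H24R2.JP.B1h.XX_diff
      fun_prop
    · refine ⟨0, by have := Real.pi_pos; apply div_pos this; linarith, 0, ?_⟩
      have : (fun z : ℂ => Real.exp (0 * Real.exp (0 * |z.im|))) = fun _ => (1 : ℝ) := by
        funext z; simp
      rw [this]
      apply Asymptotics.IsBigO.of_bound (B * Real.exp 1)
      rw [Filter.eventually_inf_principal]
      refine Filter.Eventually.of_forall fun w hw => ?_
      have hw1 : |w.re| ≤ 1 := by
        have h1 : -x0 < w.re := hw.1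
        have h2 : w.re < x0 := hw.2
        rw [abs_le]
        constructor <;> linarith
      rw [hGn, norm_one, mul_one]
      have h3 : w.re ^ 2 ≤ 1 := by
        rw [← sq_abs]; nlinarith [abs_nonneg w.re]
      have h4 : Real.exp (w.re ^ 2 - (w.im - T) ^ 2) ≤ Real.exp 1 :=
        Real.exp_le_exp.2 (by nlinarith [sq_nonneg (w.im - T)])
      exact mul_le_mul (hbd w hw1) h4 (Real.exp_pos _).le hB.le
    · intro w hw
      have h1 := hside w.im
      have h2 : ‖G w‖ = ‖G (x0 + I * w.im)‖ := by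
        rw [hGn, hGn]
        have e1 : ((x0 : ℂ) + I * w.im).re = x0 := by simp
        have e2 : ((x0 : ℂ) + I * w.im).im = w.im := by simp
        rw [e1, e2, hw]
        have e3 : (x0 : ℂ) + I * w.im = -((starRingEnd ℂ) w) := by
          apply Complex.ext
          · simp [hw]
          · simp
        rw [e3, Pool.Agent.H24R2.DZ.XBAux.xsymm, RCLike.norm_conj, neg_sq]
      rw [h2]
      exact h1
    · intro w hw
      have h1 := hside w.im
      have e3 : (x0 : ℂ) + I * w.im = w := by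
        apply Complex.ext
        · simp [hw]
        · simp
      rwa [e3] at h1
  have hre : (I * (T : ℂ) + u).re = u.re := by simp
  have him : (I * (T : ℂ) + u).im = T + u.im := by simp
  have h1 := hPL (I * T + u) (by rw [hre]; exact (abs_le.1 hu1).1) (by rw [hre]; exact (abs_le.1 hu1).2)
  rw [hGn, hre, him] at h1
  have h2 : Real.exp (-(R ^ 2)) ≤ Real.exp (u.re ^ 2 - (T + u.im - T) ^ 2) := by
    apply Real.exp_le_exp.2
    have h3 : u.im ^ 2 ≤ R ^ 2 := by rw [← sq_abs]; nlinarith [abs_nonneg u.im]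
    nlinarith [sq_nonneg u.re]
  have h3 : ‖XX (I * T + u)‖ * Real.exp (-(R ^ 2)) ≤ (c1 + c2) * (T ^ ν * M0) :=
    (mul_le_mul_of_nonneg_left h2 (norm_nonneg _)).trans h1
  have h4 : Real.exp (-(R ^ 2)) * Real.exp (R ^ 2) = 1 := by
    rw [← Real.exp_add]; simp
  calc ‖XX (I * T + u)‖ = ‖XX (I * T + u)‖ * Real.exp (-(R ^ 2)) * Real.exp (R ^ 2) := by
        rw [mul_assoc, h4, mul_one]
    _ ≤ (c1 + c2) * (T ^ ν * M0) * Real.exp (R ^ 2) := by gcongr
    _ = _ := by ring

end Pool.Agent.H986R2.K4
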