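import Pool.Agent.H986R2.K4.Spec
import Pool.Agent.H24R2.JP.Zeta

set_option autoImplicit false

/-!
# Task 17: the derivative far to the right
-/

namespace Pool.Agent.H986R2.K4

open Complex Filter Topology MeasureTheory Set
open Pool.Agent.H24R2.JP (XX HH Om)
open Pool.Agent.H24R2.DZ (bad hc)

namespace RGAux

theorem XX_diff : Differentiable ℂ XX := by
  unfold XX
  have h : Differentiable ℂ fun z : ℂ => completedRiemannZeta₀ (1 / 2 + z) :=
    differentiable_completedZeta₀.comp (by fun_prop)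
  fun_prop

theorem le_fact (n : ℕ) : (n : ℝ) ^ n ≤ n.factorial * Real.exp n := by
  have h := Real.pow_div_factorial_le_exp (n : ℝ) (Nat.cast_nonneg n) n
  have h1 : (0 : ℝ) < n.factorial := by exact_mod_cast Nat.factorial_pos n
  rw [div_le_iff₀ h1] at h
  linarith

theorem fact_le (n : ℕ) (hn : 1 ≤ n) :
    (n.factorial : ℝ) * Real.exp n ≤ Real.exp 1 * n * (n : ℝ) ^ n := by
  obtain ⟨k, rfl⟩ : ∃ k, n = k + 1 := ⟨n - 1, by omega⟩
  have h := Stirling.stirlingSeq'_antitone (Nat.zero_le k)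
  simp only [Function.comp, Nat.succ_eq_add_one, zero_add, Stirling.stirlingSeq_one] at h
  unfold Stirling.stirlingSeq at h
  set x : ℝ := ((k + 1 : ℕ) : ℝ) with hx
  have hx1 : (1 : ℝ) ≤ x := by rw [hx]; exact_mod_cast hn
  have hx0 : 0 < x := by linarith
  have hs2 : 0 < Real.sqrt 2 := by positivity
  have hsx : 0 < Real.sqrt x := Real.sqrt_pos.2 hx0
  have e1 : Real.sqrt (2 * x) = Real.sqrt 2 * Real.sqrt x := Real.sqrt_mul (by norm_num) x
  rw [e1, div_le_div_iff₀ (by positivity) hs2] at h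
  have h2 : ((k + 1).factorial : ℝ) ≤ Real.exp 1 * (Real.sqrt x * (x / Real.exp 1) ^ (k + 1)) := by
    have : ((k + 1).factorial : ℝ) * Real.sqrt 2 ≤
        (Real.exp 1 * (Real.sqrt x * (x / Real.exp 1) ^ (k + 1))) * Real.sqrt 2 := by
      calc ((k + 1).factorial : ℝ) * Real.sqrt 2
          ≤ Real.exp 1 * (Real.sqrt 2 * Real.sqrt x * (x / Real.exp 1) ^ (k + 1)) := h
        _ = _ := by ring
    exact le_of_mul_le_mul_right this hs2
  have h3 : Real.sqrt x ≤ x := by
    rw [Real.sqrt_le_left hx0.le]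
    nlinarith
  have h4 : (x / Real.exp 1) ^ (k + 1) * Real.exp x = x ^ (k + 1) := by
    have : Real.exp x = Real.exp 1 ^ (k + 1) := by
      rw [← Real.exp_nat_mul, mul_one]
    rw [this, ← mul_pow, div_mul_cancel₀ _ (Real.exp_pos 1).ne']
  calc ((k + 1).factorial : ℝ) * Real.exp x
      ≤ (Real.exp 1 * (Real.sqrt x * (x / Real.exp 1) ^ (k + 1))) * Real.exp x :=
        mul_le_mul_of_nonneg_right h2 (Real.exp_pos _).le
    _ = Real.exp 1 * Real.sqrt x * ((x / Real.exp 1) ^ (k + 1) * Real.exp x) := by ring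
    _ = Real.exp 1 * Real.sqrt x * x ^ (k + 1) := by rw [h4]
    _ ≤ Real.exp 1 * x * x ^ (k + 1) := by gcongr

/-- the logarithmic derivative of `XX` -/
theorem logDeriv_XX (z : ℂ) (hz : 0 < z.im) (hH : DifferentiableAt ℂ HH z) (hH0 : HH z ≠ 0)
    (hs : riemannZeta (1 / 2 + z) ≠ 0) :
    XX z ≠ 0 ∧ logDeriv XX z = logDeriv HH z + logDeriv riemannZeta (1 / 2 + z) := by
  have hval := Pool.Agent.H24R2.JP.ZetaTask.part1 z hz
  have hne : XX z ≠ 0 := by
    rw [hval]
    exact mul_ne_zero hH0 hs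
  refine ⟨hne, ?_⟩
  have hev : XX =ᶠ[𝓝 z] fun w => HH w * riemannZeta (1 / 2 + w) := by
    have ho : IsOpen {w : ℂ | 0 < w.im} := isOpen_lt continuous_const Complex.continuous_im
    filter_upwards [ho.mem_nhds hz] with w hw
    exact Pool.Agent.H24R2.JP.ZetaTask.part1 w hw
  have hs1 : (1 / 2 + z : ℂ) ≠ 1 := by
    intro h
    have : (1 / 2 + z : ℂ).im = (1 : ℂ).im := by rw [h]
    simp at this
    linarith
  have hdz : DifferentiableAt ℂ (fun w => riemannZeta (1 / 2 + w)) z := by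
    have h1 : DifferentiableAt ℂ riemannZeta (1 / 2 + z) := differentiableAt_riemannZeta hs1
    exact h1.comp z (by fun_prop)
  have e1 : logDeriv XX z = logDeriv (fun w => HH w * riemannZeta (1 / 2 + w)) z := by
    unfold logDeriv
    simp only [Pi.div_apply]
    rw [hev.deriv_eq, hev.eq_of_nhds]
  rw [e1, logDeriv_mul z hH0 hs hH hdz]
  congr 1
  unfold logDeriv
  simp only [Pi.div_apply]
  rw [deriv_comp_const_add]

end RGAux

open RGAux in
theorem rg (h1 : S_LL) (h2 : S_HH) (h3 : S_A1) : S_RG := by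
  intro r0 r1 ε hr0 hr01 hr1 hε
  obtain ⟨η, n0, hη, hn0, hLL⟩ := h1 ε hε
  obtain ⟨K, hK, hHH⟩ := h2
  obtain ⟨T1, hT1, hHH'⟩ := hHH 21 (by norm_num)
  set ε' : ℝ := min (1 / 4) (min (ε / 8) (η / 16)) with hε'
  have hε'0 : 0 < ε' := by
    rw [hε']
    exact lt_min (by norm_num) (lt_min (by linarith) (by linarith))
  have hε'1 : ε' ≤ 1 / 4 := min_le_left _ _
  have hε'2 : ε' ≤ ε / 8 := (min_le_right _ _).trans (min_le_left _ _)
  have hε'3 : ε' ≤ η / 16 := (min_le_right _ _).trans (min_le_right _ _)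
  obtain ⟨t1, ht1, hZ⟩ := h3 ε' hε'0
  -- the threshold
  have hOm : Tendsto Om atTop atTop := by
    unfold Om
    exact Real.tendsto_log_atTop.atTop_div_const (by norm_num)
  have ev1 : ∀ᶠ t : ℝ in atTop, T1 + t1 + 30 ≤ t := eventually_ge_atTop _
  have ev2 : ∀ᶠ t : ℝ in atTop, (n0 + 2 * K / η + 1) / r0 ≤ Om t :=
    hOm.eventually_ge_atTop _
  have ev3 : ∀ᶠ t : ℝ in atTop, Real.exp 1 * Real.log t ≤ t ^ (ε / 4) := by
    have h := (isLittleO_log_rpow_atTop (show 0 < ε / 4 by linarith)).bound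
      (show 0 < (Real.exp 1)⁻¹ by positivity)
    filter_upwards [h, eventually_ge_atTop (1 : ℝ)] with x hx hx1
    rw [Real.norm_eq_abs, Real.norm_eq_abs, abs_of_nonneg (Real.log_nonneg hx1),
      abs_of_nonneg (Real.rpow_nonneg (by linarith) _)] at hx
    calc Real.exp 1 * Real.log x ≤ Real.exp 1 * ((Real.exp 1)⁻¹ * x ^ (ε / 4)) :=
          mul_le_mul_of_nonneg_left hx (Real.exp_pos _).le
      _ = x ^ (ε / 4) := by
          rw [← mul_assoc, mul_inv_cancel₀ (Real.exp_pos 1).ne', one_mul]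
  obtain ⟨T0, hT0⟩ := eventually_atTop.1 (ev1.and (ev2.and ev3))
  refine ⟨max 2 T0, le_max_left _ _, ?_⟩
  intro t n ht hn1 hn2 u hu1 hu2 hu3
  obtain ⟨ht1', hOmt, hlogt⟩ := hT0 t ((le_max_right _ _).trans ht)
  have ht30 : 30 ≤ t := by linarith
  have ht0 : 0 < t := by linarith
  set Ω : ℝ := Om t with hΩ
  have hΩlog : Real.log t = 2 * Ω := by rw [hΩ]; unfold Om; ring
  have hΩpos : 0 < Ω := by
    have h4 : 0 < (n0 + 2 * K / η + 1) / r0 := by positivity
    linarith
  have hnΩ : n0 + 2 * K / η + 1 ≤ r0 * Ω := by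
    rw [div_le_iff₀ hr0] at hOmt
    linarith
  have hnr : n0 + 2 * K / η + 1 ≤ (n : ℝ) := hnΩ.trans hn1
  have hKη : 0 < 2 * K / η := by positivity
  have hnn0 : n0 ≤ n := by
    have : (n0 : ℝ) ≤ n := by linarith
    exact_mod_cast this
  have hn1' : 1 ≤ n := by omega
  have hnpos : (0 : ℝ) < n := by exact_mod_cast hn1'
  set r : ℝ := n / Ω with hr
  have hrpos : 0 < r := by positivity
  have hrhalf : r ≤ 1 / 2 := by
    rw [hr, div_le_iff₀ hΩpos]
    nlinarith
  have hrΩ : r * Ω = n := by rw [hr]; field_simp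
  set c : ℂ := I * t + u with hc'
  set F : ℂ → ℂ := fun z => XX (c + (r : ℂ) * z) with hF
  have hunorm : ‖u‖ ≤ 20 := by
    have h4 := Complex.norm_le_abs_re_add_abs_im u
    have h5 : |u.re| ≤ 10 := abs_le.2 ⟨by linarith, hu2⟩
    linarith
  -- data at a nearby point
  have hloc : ∀ v : ℂ, ‖v - u‖ ≤ 3 / 4 → 0 < (I * t + v).im ∧
      DifferentiableAt ℂ HH (I * t + v) ∧ HH (I * t + v) ≠ 0 ∧
      ‖logDeriv HH (I * t + v) - (Ω : ℂ)‖ ≤ K ∧ riemannZeta (1 / 2 + (I * t + v)) ≠ 0 ∧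
      ‖logDeriv riemannZeta (1 / 2 + (I * t + v))‖ ≤ ε' * (4 * Ω) ∧
      t ^ (-(ε / 4)) ≤ ‖riemannZeta (1 / 2 + (I * t + v))‖ ∧
      ‖riemannZeta (1 / 2 + (I * t + v))‖ ≤ t ^ (ε / 4) := by
    intro v hv
    have hvre : |v.re - u.re| ≤ 3 / 4 := by
      have := Complex.abs_re_le_norm (v - u)
      rw [Complex.sub_re] at this
      linarith
    have hvim : |v.im - u.im| ≤ 3 / 4 := by
      have := Complex.abs_im_le_norm (v - u)
      rw [Complex.sub_im] at this
      linarith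
    rw [abs_le] at hvre hvim
    have hu3' := abs_le.1 hu3
    have hvn : ‖v‖ ≤ 21 := by
      have : ‖v‖ ≤ ‖v - u‖ + ‖u‖ := by
        have := norm_add_le (v - u) u
        rwa [sub_add_cancel] at this
      linarith
    have him : (I * (t : ℂ) + v).im = t + v.im := by simp
    have hsim : (1 / 2 + (I * (t : ℂ) + v)).im = t + v.im := by simp
    have hsre : (1 / 2 + (I * (t : ℂ) + v)).re = 1 / 2 + v.re := by simp
    obtain ⟨a1, a2, a3, -, -⟩ := hHH' t v (by linarith) hvn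
    obtain ⟨b1, b2, b3, b4⟩ := hZ (1 / 2 + (I * (t : ℂ) + v)) (by rw [hsre]; linarith)
      (by rw [hsim]; linarith)
    rw [hsim] at b2 b3 b4
    have hy1 : 1 ≤ t + v.im := by linarith
    have hy2 : t + v.im ≤ t ^ 2 := by nlinarith
    have hlog : Real.log (t + v.im) ≤ 4 * Ω := by
      calc Real.log (t + v.im) ≤ Real.log (t ^ 2) := Real.log_le_log (by linarith) hy2
        _ = 2 * Real.log t := by rw [Real.log_pow]; norm_num
        _ = 4 * Ω := by rw [hΩlog]; ring
    have hpw : (t + v.im) ^ ε' ≤ t ^ (ε / 4) := by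
      calc (t + v.im) ^ ε' ≤ (t ^ 2) ^ ε' := Real.rpow_le_rpow (by linarith) hy2 hε'0.le
        _ = t ^ (2 * ε') := by
            rw [← Real.rpow_natCast, ← Real.rpow_mul ht0.le]
            norm_num
        _ ≤ t ^ (ε / 4) := Real.rpow_le_rpow_of_exponent_le (by linarith) (by linarith)
    refine ⟨by rw [him]; linarith, a1, a2, a3, b1, b2.trans ?_, ?_, b4.trans hpw⟩
    · exact mul_le_mul_of_nonneg_left hlog hε'0.le
    · refine le_trans ?_ b3
      rw [Real.rpow_neg ht0.le, Real.rpow_neg (by linarith)]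
      exact inv_anti₀ (Real.rpow_pos_of_pos (by linarith) _) hpw
  -- the hypothesis of `S_LL`
  have hball : ∀ w ∈ Metric.ball (0 : ℂ) (3 / 2), DifferentiableAt ℂ F w ∧ F w ≠ 0 ∧
      ‖logDeriv F w - n‖ ≤ η * n := by
    intro w hw
    rw [mem_ball_zero_iff] at hw
    have hrw : ‖(u + (r : ℂ) * w) - u‖ ≤ 3 / 4 := by
      rw [add_sub_cancel_left, norm_mul, Complex.norm_real, Real.norm_eq_abs, abs_of_pos hrpos]
      nlinarith [norm_nonneg w]
    obtain ⟨c1, c2, c3, c4, c5, c6, -, -⟩ := hloc _ hrw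
    have hz : I * (t : ℂ) + (u + (r : ℂ) * w) = c + (r : ℂ) * w := by rw [hc']; ring
    rw [hz] at c1 c2 c3 c4 c5 c6
    obtain ⟨d1, d2⟩ := logDeriv_XX _ c1 c2 c3 c5
    have hder : HasDerivAt F (deriv XX (c + (r : ℂ) * w) * r) w := by
      have e1 : HasDerivAt (fun z : ℂ => c + (r : ℂ) * z) (r : ℂ) w := by
        have := ((hasDerivAt_id w).const_mul (r : ℂ)).const_add c
        simpa using this
      exact (XX_diff (c + (r : ℂ) * w)).hasDerivAt.comp w e1
    refine ⟨hder.differentiableAt, d1, ?_⟩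
    have e2 : logDeriv F w = r * logDeriv XX (c + (r : ℂ) * w) := by
      unfold logDeriv
      simp only [Pi.div_apply]
      rw [hder.deriv]
      have : F w = XX (c + (r : ℂ) * w) := rfl
      rw [this]
      ring
    have e3 : (n : ℂ) = (r : ℂ) * (Ω : ℂ) := by
      rw [← Complex.ofReal_mul, hrΩ]
      simp
    rw [e2, d2, e3]
    have e4 : (r : ℂ) * (logDeriv HH (c + r * w) + logDeriv riemannZeta (1 / 2 + (c + r * w))) -
        r * Ω = r * (logDeriv HH (c + r * w) - Ω) +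
          r * logDeriv riemannZeta (1 / 2 + (c + r * w)) := by ring
    rw [e4]
    calc ‖(r : ℂ) * (logDeriv HH (c + r * w) - Ω) +
          r * logDeriv riemannZeta (1 / 2 + (c + r * w))‖
        ≤ ‖(r : ℂ) * (logDeriv HH (c + r * w) - Ω)‖ +
          ‖(r : ℂ) * logDeriv riemannZeta (1 / 2 + (c + r * w))‖ := norm_add_le _ _
      _ = r * ‖logDeriv HH (c + r * w) - Ω‖ +
          r * ‖logDeriv riemannZeta (1 / 2 + (c + r * w))‖ := by
          rw [norm_mul, norm_mul, Complex.norm_real, Real.norm_eq_abs, abs_of_pos hrpos]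
      _ ≤ r * K + r * (ε' * (4 * Ω)) := by gcongr
      _ = r * K + 4 * ε' * n := by rw [← hrΩ]; ring
      _ ≤ η * n := by
          have f1 : r * K ≤ 1 / 2 * K := mul_le_mul_of_nonneg_right hrhalf (by linarith)
          have f2 : 2 * K ≤ η * n := by
            have : 2 * K / η ≤ n := by
              have : (0 : ℝ) ≤ n0 := Nat.cast_nonneg _
              linarith
            rw [div_le_iff₀ hη] at this
            linarith
          have f3 : 4 * ε' * n ≤ 4 * (η / 16) * n := by gcongr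
          nlinarith
  have hmain := hLL n 0 F hnn0 hball
  -- evaluation
  have hF0 : F 0 = XX c := by rw [hF]; simp
  have hcd : ContDiff ℂ n (fun z => XX (c + z)) := by
    have : Differentiable ℂ (fun z => XX (c + z)) := XX_diff.comp (by fun_prop)
    exact this.contDiff
  have hFn : iteratedDeriv n F 0 = (r : ℂ) ^ n * iteratedDeriv n XX c := by
    have e1 := iteratedDeriv_comp_const_mul hcd (r : ℂ)
    have e2 : F = fun x => (fun z => XX (c + z)) ((r : ℂ) * x) := rfl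
    rw [e2, e1]
    simp only [mul_zero]
    rw [iteratedDeriv_comp_const_add]
    simp
  rw [hF0, hFn, norm_mul, norm_pow, Complex.norm_real, Real.norm_eq_abs, abs_of_pos hrpos] at hmain
  obtain ⟨c1, c2, c3, -, c5, -, c7, c8⟩ := hloc u (by simp; norm_num)
  have hXX : ‖XX c‖ = ‖HH c‖ * ‖riemannZeta (1 / 2 + c)‖ := by
    rw [Pool.Agent.H24R2.JP.ZetaTask.part1 c c1, norm_mul]
  have hHpos : 0 ≤ ‖HH c‖ := norm_nonneg _
  have hrn : r ^ n = (n : ℝ) ^ n / Ω ^ n := by rw [hr, div_pow]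
  have hnn : (0 : ℝ) < (n : ℝ) ^ n := by positivity
  have hΩn : 0 < Ω ^ n := by positivity
  have hnlog : (n : ℝ) ≤ Real.log t / 4 := by
    rw [hΩlog]
    nlinarith
  have hnε : Real.exp (ε * n) ≤ t ^ (ε / 4) := by
    rw [Real.rpow_def_of_pos ht0]
    apply Real.exp_le_exp.2
    nlinarith
  have hfl := le_fact n
  have hfu := fact_le n hn1'
  have hexp1 : Real.exp ((1 - ε) * n) = Real.exp n / Real.exp (ε * n) := by
    rw [← Real.exp_sub]; congr 1; ring
  have hexp2 : Real.exp ((1 + ε) * n) = Real.exp n * Real.exp (ε * n) := by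
    rw [← Real.exp_add]; congr 1; ring
  have htε : 0 < t ^ (ε / 4) := Real.rpow_pos_of_pos ht0 _
  have hfac0 : (0 : ℝ) < n.factorial := by exact_mod_cast Nat.factorial_pos n
  set Dn : ℝ := ‖iteratedDeriv n XX c‖ with hDn
  constructor
  · -- lower bound
    have g1 := hmain.1
    rw [hXX, hexp1, hrn] at g1
    have g2 : (n : ℝ) ^ n * (t ^ (-(ε / 4)) * (‖HH c‖ * t ^ (-(ε / 4)))) ≤
        Real.exp n / Real.exp (ε * n) *
          (n.factorial * (‖HH c‖ * ‖riemannZeta (1 / 2 + c)‖)) := by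
      have g3 : t ^ (-(ε / 4)) ≤ 1 / Real.exp (ε * n) := by
        rw [Real.rpow_neg ht0.le, one_div]
        exact inv_anti₀ (Real.exp_pos _) hnε
      calc (n : ℝ) ^ n * (t ^ (-(ε / 4)) * (‖HH c‖ * t ^ (-(ε / 4))))
          ≤ (n.factorial * Real.exp n) * ((1 / Real.exp (ε * n)) *
            (‖HH c‖ * ‖riemannZeta (1 / 2 + c)‖)) := by
            have p1 : 0 ≤ t ^ (-(ε / 4)) := (Real.rpow_pos_of_pos ht0 _).le
            exact mul_le_mul hfl (mul_le_mul g3 (mul_le_mul_of_nonneg_left c7 hHpos)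
              (by positivity) (by positivity)) (by positivity) (by positivity)
        _ = _ := by ring
    have g4 : (n : ℝ) ^ n * (t ^ (-(ε / 4)) * (‖HH c‖ * t ^ (-(ε / 4)))) ≤
        (n : ℝ) ^ n / Ω ^ n * Dn := g2.trans g1
    have g5 : t ^ (-(ε / 4)) * (‖HH c‖ * t ^ (-(ε / 4))) * Ω ^ n ≤ Dn := by
      have e1 : (n : ℝ) ^ n / Ω ^ n * Dn = (n : ℝ) ^ n * (Dn / Ω ^ n) := by ring
      rw [e1] at g4
      have g6 := le_of_mul_le_mul_left g4 hnn
      rw [le_div_iff₀ hΩn] at g6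
      exact g6
    refine le_trans ?_ g5
    have e2 : t ^ (-(ε / 4)) * (‖HH c‖ * t ^ (-(ε / 4))) * Ω ^ n =
        (t ^ (-(ε / 4)) * t ^ (-(ε / 4))) * (Ω ^ n * ‖HH c‖) := by ring
    rw [e2]
    apply mul_le_mul_of_nonneg_right _ (by positivity)
    rw [← Real.rpow_add ht0]
    exact Real.rpow_le_rpow_of_exponent_le (by linarith) (by linarith)
  · -- upper bound
    have g1 := hmain.2
    rw [hXX, hexp2, hrn] at g1
    have g2 : Real.exp n * Real.exp (ε * n) *
          (n.factorial * (‖HH c‖ * ‖riemannZeta (1 / 2 + c)‖)) ≤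
        (n : ℝ) ^ n * (t ^ (ε / 4) * t ^ (ε / 4) * (‖HH c‖ * t ^ (ε / 4))) := by
      have g3 : Real.exp 1 * n ≤ t ^ (ε / 4) := by
        refine le_trans ?_ hlogt
        have : (0 : ℝ) ≤ Real.log t := Real.log_nonneg (by linarith)
        exact mul_le_mul_of_nonneg_left (by linarith) (Real.exp_pos _).le
      have g4 : (n.factorial : ℝ) * Real.exp n ≤ t ^ (ε / 4) * (n : ℝ) ^ n :=
        hfu.trans (mul_le_mul_of_nonneg_right g3 hnn.le)
      calc Real.exp n * Real.exp (ε * n) *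
            (n.factorial * (‖HH c‖ * ‖riemannZeta (1 / 2 + c)‖))
          = (n.factorial * Real.exp n) * (Real.exp (ε * n) *
            (‖HH c‖ * ‖riemannZeta (1 / 2 + c)‖)) := by ring
        _ ≤ (t ^ (ε / 4) * (n : ℝ) ^ n) * (t ^ (ε / 4) * (‖HH c‖ * t ^ (ε / 4))) :=
            mul_le_mul g4 (mul_le_mul hnε (mul_le_mul_of_nonneg_left c8 hHpos)
              (by positivity) (by positivity)) (by positivity) (by positivity)
        _ = _ := by ring
    have g4 : (n : ℝ) ^ n / Ω ^ n * Dn ≤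
        (n : ℝ) ^ n * (t ^ (ε / 4) * t ^ (ε / 4) * (‖HH c‖ * t ^ (ε / 4))) := g1.trans g2
    have g5 : Dn ≤ t ^ (ε / 4) * t ^ (ε / 4) * (‖HH c‖ * t ^ (ε / 4)) * Ω ^ n := by
      have e1 : (n : ℝ) ^ n / Ω ^ n * Dn = (n : ℝ) ^ n * (Dn / Ω ^ n) := by ring
      rw [e1] at g4
      have g6 := le_of_mul_le_mul_left g4 hnn
      rw [div_le_iff₀ hΩn] at g6
      exact g6
    refine g5.trans ?_
    have e2 : t ^ (ε / 4) * t ^ (ε / 4) * (‖HH c‖ * t ^ (ε / 4)) * Ω ^ n =
        (t ^ (ε / 4) * t ^ (ε / 4) * t ^ (ε / 4)) * (Ω ^ n * ‖HH c‖) := by ring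
    rw [e2]
    apply mul_le_mul_of_nonneg_right _ (by positivity)
    rw [← Real.rpow_add ht0, ← Real.rpow_add ht0]
    exact Real.rpow_le_rpow_of_exponent_le (by linarith) (by linarith)

end Pool.Agent.H986R2.K4
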