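import Pool.Agent.H986R2.K4.RTa

set_option autoImplicit false

namespace Pool.Agent.H986R2.K4

open Complex Filter Topology MeasureTheory Set
open Pool.Agent.H24R2.JP (XX HH Om)
open Pool.Agent.H24R2.DZ (bad hc)

namespace RTAux

/-- deformation of the contour -/
lemma deform {n : ℕ} {F k : ℂ → ℂ} {z w0 : ℂ} {M d : ℝ} (hF : Differentiable ℂ F)
    (hd0 : 0 < d) (hd : d ≤ 1 / 20)
    (hz : ‖z‖ ≤ 1 / 50) (hw0 : ‖w0 - (z + 1)‖ ≤ 1 / 1000) (hM : 0 ≤ M)
    (hk : ∀ w, 1 / 2 ≤ ‖w - z‖ → DifferentiableAt ℂ k w)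
    (hA : ∀ φ : ℝ, d ≤ |φ| → |φ| ≤ Real.pi / 2 →
      ‖F (cexp (I * φ)) / (cexp (I * φ) - z) ^ (n + 1) * k (cexp (I * φ))‖ ≤ M)
    (hS : ∀ σ : ℝ, (σ = 1 ∨ σ = -1) →
      ∀ w ∈ segment ℝ (w0 + I * ((σ * d : ℝ) : ℂ)) (cexp (I * ((σ * d : ℝ) : ℂ))),
      ‖F w / (w - z) ^ (n + 1) * k w‖ ≤ M) :
    ‖(∫ φ in (-(Real.pi / 2))..(Real.pi / 2),
        (F (cexp (I * φ)) / (cexp (I * φ) - z) ^ (n + 1) * k (cexp (I * φ))) * cexp (I * φ)) -
      ∫ y in (-d)..d, F (w0 + I * y) / (w0 + I * y - z) ^ (n + 1) * k (w0 + I * y)‖ ≤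
      8 * M := by
  have hpi1 := Real.pi_gt_three
  have hpi2 := Real.pi_lt_four
  set g : ℂ → ℂ := fun w => F w / (w - z) ^ (n + 1) * k w with hg
  have hgd : ∀ w, 1 / 2 ≤ ‖w - z‖ → DifferentiableAt ℂ g w := by
    intro w hw
    have hne : (w - z) ^ (n + 1) ≠ 0 := by
      apply pow_ne_zero
      rw [← norm_pos_iff]
      linarith
    exact ((hF w).div ((differentiableAt_id.sub_const z).pow (n + 1)) hne).mul (hk w hw)
  have hnm : ∀ φ : ℝ, ‖cexp (I * φ)‖ = 1 := by
    intro φ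
    rw [mul_comm]; exact Complex.norm_exp_ofReal_mul_I φ
  have hcirc : ∀ φ : ℝ, 1 / 2 ≤ ‖cexp (I * φ) - z‖ := by
    intro φ
    have := norm_sub_norm_le (cexp (I * φ)) z
    rw [hnm] at this
    linarith
  have hder : ∀ φ : ℝ, HasDerivAt (fun φ : ℝ => cexp (I * (φ : ℂ))) (cexp (I * φ) * I) φ := by
    intro φ
    have h0 : HasDerivAt (fun x : ℝ => (x : ℂ)) 1 φ := Complex.ofRealCLM.hasDerivAt
    have h1 := (h0.const_mul I).cexp
    simpa using h1
  have hcont : Continuous fun φ : ℝ => g (cexp (I * φ)) * cexp (I * φ) := by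
    rw [continuous_iff_continuousAt]
    intro φ
    exact (ContinuousAt.comp (f := fun φ : ℝ => cexp (I * (φ : ℂ))) (hgd _ (hcirc φ)).continuousAt
      (hder φ).continuousAt).mul (hder φ).continuousAt
  have hball : ∀ w ∈ Metric.ball (1 : ℂ) (2 / 5), 1 / 2 ≤ ‖w - z‖ := by
    intro w hw
    rw [Metric.mem_ball, dist_eq_norm] at hw
    have h1 : ‖(1 : ℂ)‖ ≤ ‖w - z‖ + ‖w - 1‖ + ‖z‖ := by
      have e : (1 : ℂ) = (w - z) + (-(w - 1)) + z := by ring
      calc ‖(1 : ℂ)‖ = ‖(w - z) + (-(w - 1)) + z‖ := by rw [← e]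
        _ ≤ ‖(w - z) + (-(w - 1))‖ + ‖z‖ := norm_add_le _ _
        _ ≤ (‖w - z‖ + ‖-(w - 1)‖) + ‖z‖ := by gcongr; exact norm_add_le _ _
        _ = _ := by rw [norm_neg]
    rw [norm_one] at h1
    linarith
  obtain ⟨G, hG⟩ := DifferentiableOn.isExactOn_ball (f := g) (c := 1) (r := 2 / 5)
    (fun w hw => (hgd w (hball w hw)).differentiableWithinAt)
  have hinE : ∀ φ : ℝ, |φ| ≤ d → cexp (I * φ) ∈ Metric.ball (1 : ℂ) (2 / 5) := by
    intro φ hφ
    rw [Metric.mem_ball, dist_eq_norm]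
    have := Real.norm_exp_I_mul_ofReal_sub_one_le (x := φ)
    rw [Real.norm_eq_abs] at this
    linarith
  have hinP : ∀ y : ℝ, |y| ≤ d → w0 + I * y ∈ Metric.ball (1 : ℂ) (2 / 5) := by
    intro y hy
    rw [Metric.mem_ball, dist_eq_norm]
    have e : w0 + I * y - 1 = (w0 - (z + 1)) + z + I * y := by ring
    rw [e]
    refine (norm_add_le _ _).trans_lt ?_
    have := norm_add_le (w0 - (z + 1)) z
    rw [norm_mul, Complex.norm_I, one_mul, Complex.norm_real, Real.norm_eq_abs]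
    linarith
  -- the middle part of the arc
  have hmid : (∫ φ in (-d)..d, g (cexp (I * φ)) * cexp (I * φ)) * I =
      G (cexp (I * ((d : ℝ) : ℂ))) - G (cexp (I * ((-d : ℝ) : ℂ))) := by
    rw [← intervalIntegral.integral_mul_const]
    have h1 : ∀ φ ∈ uIcc (-d) d, HasDerivAt (fun φ : ℝ => G (cexp (I * φ)))
        (g (cexp (I * φ)) * cexp (I * φ) * I) φ := by
      intro φ hφ
      rw [uIcc_of_le (by linarith)] at hφ
      have h2 := hG _ (hinE φ (abs_le.2 hφ))
      have h3 := HasDerivAt.comp φ h2 (hder φ)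
      rw [← mul_assoc] at h3
      exact h3
    exact intervalIntegral.integral_eq_sub_of_hasDerivAt h1 ((hcont.mul continuous_const).intervalIntegrable _ _)
  have hV : (∫ y in (-d)..d, g (w0 + I * y)) * I =
      G (w0 + I * ((d : ℝ) : ℂ)) - G (w0 + I * ((-d : ℝ) : ℂ)) := by
    rw [← intervalIntegral.integral_mul_const]
    have hl : ∀ y : ℝ, HasDerivAt (fun y : ℝ => w0 + I * (y : ℂ)) I y := by
      intro y
      have h0 : HasDerivAt (fun x : ℝ => (x : ℂ)) 1 y := Complex.ofRealCLM.hasDerivAt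
      simpa using (h0.const_mul I).const_add w0
    have h1 : ∀ y ∈ uIcc (-d) d, HasDerivAt (fun y : ℝ => G (w0 + I * y))
        (g (w0 + I * y) * I) y := by
      intro y hy
      rw [uIcc_of_le (by linarith)] at hy
      exact HasDerivAt.comp y (hG _ (hinP y (abs_le.2 hy))) (hl y)
    refine intervalIntegral.integral_eq_sub_of_hasDerivAt h1 (ContinuousOn.intervalIntegrable ?_)
    intro y hy
    rw [uIcc_of_le (by linarith)] at hy
    have h2 := (hgd _ (hball _ (hinP y (abs_le.2 hy)))).continuousAt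
    exact ((ContinuousAt.comp (f := fun y : ℝ => w0 + I * (y : ℂ)) h2 (hl y).continuousAt).mul
      continuousAt_const).continuousWithinAt
  -- the connecting segments
  have hconn : ∀ σ : ℝ, (σ = 1 ∨ σ = -1) →
      ‖G (cexp (I * ((σ * d : ℝ) : ℂ))) - G (w0 + I * ((σ * d : ℝ) : ℂ))‖ ≤ M := by
    intro σ hσ
    have hσa : |σ * d| ≤ d := by
      rcases hσ with rfl | rfl
      · rw [one_mul, abs_of_pos hd0]
      · rw [neg_one_mul, abs_neg, abs_of_pos hd0]
    have hsub : segment ℝ (w0 + I * ((σ * d : ℝ) : ℂ)) (cexp (I * ((σ * d : ℝ) : ℂ))) ⊆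
        Metric.ball (1 : ℂ) (2 / 5) :=
      (convex_ball (1 : ℂ) (2 / 5)).segment_subset (hinP _ hσa) (hinE _ hσa)
    have h1 := (convex_segment (𝕜 := ℝ) (w0 + I * ((σ * d : ℝ) : ℂ))
      (cexp (I * ((σ * d : ℝ) : ℂ)))).norm_image_sub_le_of_norm_hasDerivWithin_le
      (f := G) (f' := g) (C := M) (fun w hw => (hG w (hsub hw)).hasDerivWithinAt)
      (fun w hw => hS σ hσ w hw) (left_mem_segment ℝ _ _) (right_mem_segment ℝ _ _)
    refine h1.trans ?_
    have h2 : ‖cexp (I * ((σ * d : ℝ) : ℂ)) - (w0 + I * ((σ * d : ℝ) : ℂ))‖ ≤ 1 := by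
      have a1 := hinE _ hσa
      have a2 := hinP _ hσa
      rw [Metric.mem_ball, dist_eq_norm] at a1 a2
      have e : cexp (I * ((σ * d : ℝ) : ℂ)) - (w0 + I * ((σ * d : ℝ) : ℂ)) =
        (cexp (I * ((σ * d : ℝ) : ℂ)) - 1) - (w0 + I * ((σ * d : ℝ) : ℂ) - 1) := by ring
      rw [e]
      refine (norm_sub_le _ _).trans ?_
      linarith
    calc M * ‖cexp (I * ((σ * d : ℝ) : ℂ)) - (w0 + I * ((σ * d : ℝ) : ℂ))‖ ≤ M * 1 := by gcongr
      _ = M := mul_one M
  have hc1 := hconn 1 (Or.inl rfl)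
  have hc2 := hconn (-1) (Or.inr rfl)
  rw [show (-1 * d : ℝ) = -d by ring] at hc2
  rw [one_mul] at hc1
  -- the outer parts
  have ho1 : ‖∫ φ in d..(Real.pi / 2), g (cexp (I * φ)) * cexp (I * φ)‖ ≤ M * 2 := by
    have := intervalIntegral.norm_integral_le_of_norm_le_const (a := d) (b := Real.pi / 2) (C := M)
      (f := fun φ : ℝ => g (cexp (I * φ)) * cexp (I * φ)) ?_
    · refine this.trans ?_
      gcongr
      rw [abs_of_nonneg (by linarith)]
      linarith
    · intro φ hφ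
      rw [uIoc_of_le (by linarith)] at hφ
      rw [norm_mul, hnm, mul_one]
      have ha : |φ| = φ := abs_of_pos (by linarith [hφ.1])
      exact hA φ (by rw [ha]; exact hφ.1.le) (by rw [ha]; exact hφ.2)
  have ho2 : ‖∫ φ in (-(Real.pi / 2))..(-d), g (cexp (I * φ)) * cexp (I * φ)‖ ≤ M * 2 := by
    have := intervalIntegral.norm_integral_le_of_norm_le_const (a := -(Real.pi / 2)) (b := -d) (C := M)
      (f := fun φ : ℝ => g (cexp (I * φ)) * cexp (I * φ)) ?_
    · refine this.trans ?_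
      gcongr
      rw [abs_of_nonneg (by linarith)]
      linarith
    · intro φ hφ
      rw [uIoc_of_le (by linarith)] at hφ
      rw [norm_mul, hnm, mul_one]
      have ha : |φ| = -φ := abs_of_neg (by linarith [hφ.2])
      exact hA φ (by rw [ha]; linarith [hφ.2]) (by rw [ha]; linarith [hφ.1])
  have hsplit : ∫ φ in (-(Real.pi / 2))..(Real.pi / 2), g (cexp (I * φ)) * cexp (I * φ) =
      (∫ φ in (-(Real.pi / 2))..(-d), g (cexp (I * φ)) * cexp (I * φ)) +
      (∫ φ in (-d)..d, g (cexp (I * φ)) * cexp (I * φ)) +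
      ∫ φ in d..(Real.pi / 2), g (cexp (I * φ)) * cexp (I * φ) := by
    rw [intervalIntegral.integral_add_adjacent_intervals (hcont.intervalIntegrable _ _)
      (hcont.intervalIntegrable _ _), intervalIntegral.integral_add_adjacent_intervals
      (hcont.intervalIntegrable _ _) (hcont.intervalIntegrable _ _)]
  have hmv : ‖(∫ φ in (-d)..d, g (cexp (I * φ)) * cexp (I * φ)) -
      ∫ y in (-d)..d, g (w0 + I * y)‖ ≤ 2 * M := by
    have e : ((∫ φ in (-d)..d, g (cexp (I * φ)) * cexp (I * φ)) -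
      ∫ y in (-d)..d, g (w0 + I * y)) * I =
      (G (cexp (I * ((d : ℝ) : ℂ))) - G (w0 + I * ((d : ℝ) : ℂ))) -
      (G (cexp (I * ((-d : ℝ) : ℂ))) - G (w0 + I * ((-d : ℝ) : ℂ))) := by
      rw [sub_mul, hmid, hV]
      ring
    have e2 : ‖((∫ φ in (-d)..d, g (cexp (I * φ)) * cexp (I * φ)) -
      ∫ y in (-d)..d, g (w0 + I * y))‖ =
      ‖((∫ φ in (-d)..d, g (cexp (I * φ)) * cexp (I * φ)) -
      ∫ y in (-d)..d, g (w0 + I * y)) * I‖ := by
      rw [norm_mul, Complex.norm_I, mul_one]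
    rw [e2, e]
    refine (norm_sub_le _ _).trans ?_
    linarith
  show ‖(∫ φ in (-(Real.pi / 2))..(Real.pi / 2), g (cexp (I * φ)) * cexp (I * φ)) -
      ∫ y in (-d)..d, g (w0 + I * y)‖ ≤ 8 * M
  rw [hsplit]
  have e3 : ∀ a b c d : ℂ, a + b + c - d = a + (b - d) + c := by intros; ring
  rw [e3]
  refine (norm_add_le _ _).trans ?_
  have := norm_add_le (∫ φ in (-(Real.pi / 2))..(-d), g (cexp (I * φ)) * cexp (I * φ))
    ((∫ φ in (-d)..d, g (cexp (I * φ)) * cexp (I * φ)) -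
      ∫ y in (-d)..d, g (w0 + I * y))
  linarith


/-- choice of the threshold -/
lemma large (c C δ : ℝ) (hc : 0 < c) (hδ : 0 < δ) : ∃ n0 : ℕ, 1 ≤ n0 ∧ ∀ n : ℕ, n0 ≤ n →
    32 * Real.exp (-(δ * n)) ≤ c / (2 * Real.sqrt n) ∧
    2 * C / n + 96 * Real.exp (-(δ * n)) ≤ 1 / 2 * (c / (2 * Real.sqrt n)) := by
  have t1 : Tendsto (fun n : ℕ => Real.sqrt n * Real.exp (-(δ * n))) atTop (𝓝 0) := by
    have h := (tendsto_rpow_mul_exp_neg_mul_atTop_nhds_zero (1 / 2) δ hδ).comp
      tendsto_natCast_atTop_atTop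
    refine h.congr fun n => ?_
    simp only [Function.comp_apply]
    rw [Real.sqrt_eq_rpow]
    ring_nf
  have t2 : Tendsto (fun n : ℕ => Real.sqrt n / n) atTop (𝓝 0) := by
    have h := (tendsto_rpow_neg_atTop (y := 1 / 2) (by norm_num)).comp
      (tendsto_natCast_atTop_atTop (R := ℝ))
    refine h.congr' ?_
    filter_upwards [eventually_ge_atTop 1] with n hn
    have hn0 : (0 : ℝ) < n := by exact_mod_cast hn
    simp only [Function.comp_apply]
    rw [Real.rpow_neg hn0.le, ← Real.sqrt_eq_rpow]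
    have := Real.mul_self_sqrt hn0.le
    have hs : 0 < Real.sqrt n := Real.sqrt_pos.2 hn0
    rw [eq_div_iff hn0.ne', inv_mul_eq_div, div_eq_iff hs.ne']
    exact this.symm
  have t3 : Tendsto (fun n : ℕ => 2 * C * (Real.sqrt n / n) +
      96 * (Real.sqrt n * Real.exp (-(δ * n)))) atTop (𝓝 0) := by
    have := (t2.const_mul (2 * C)).add (t1.const_mul 96)
    simpa using this
  have e1 := t1.eventually (gt_mem_nhds (show (0 : ℝ) < c / 64 by positivity))
  have e2 := t3.eventually (gt_mem_nhds (show (0 : ℝ) < c / 4 by positivity))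
  obtain ⟨n0, h0⟩ := eventually_atTop.1 (e1.and e2)
  refine ⟨max n0 1, le_max_right _ _, ?_⟩
  intro n hn
  obtain ⟨a1, a2⟩ := h0 n (le_trans (le_max_left _ _) hn)
  have hn1 : 1 ≤ n := le_trans (le_max_right _ _) hn
  have hn0 : (0 : ℝ) < n := by exact_mod_cast hn1
  have hs : 0 < Real.sqrt n := Real.sqrt_pos.2 hn0
  constructor
  · rw [le_div_iff₀ (by positivity)]
    linarith
  · have e : 1 / 2 * (c / (2 * Real.sqrt n)) = c / 4 / Real.sqrt n := by
      field_simp
      ring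
    rw [e, le_div_iff₀ hs]
    have e4 : (2 * C / n + 96 * Real.exp (-(δ * n))) * Real.sqrt n =
        2 * C * (Real.sqrt n / n) + 96 * (Real.sqrt n * Real.exp (-(δ * n))) := by
      field_simp
    rw [e4]
    exact a2.le

end RTAux

set_option maxHeartbeats 4000000 in
open RTAux in
theorem rt (h : S_LAP) : S_RT := by
  intro κ R hκ0 hκ1 hR
  obtain ⟨d, hdd⟩ : ∃ d, d = κ / 2 / 5 := ⟨_, rfl⟩
  have hκ : κ = 10 * d := by rw [hdd]; ring
  have hd0 : 0 < d := by rw [hdd]; positivity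
  have hd : d ≤ 1 / 20 := by rw [hdd]; linarith
  obtain ⟨d1, d2, d3, d4, d5⟩ := dd hd0 hd
  obtain ⟨η0, c, C, n0, hη0, hcp, hC, hn0, hL⟩ := h (κ / 2) (d ^ 3 / 10) (by positivity)
    (by linarith) (by positivity) (by rw [hκ]; nlinarith)
  rw [← hdd] at hL
  have hδ : 0 < d ^ 2 / 8 := by positivity
  obtain ⟨n1, hn1, hlarge⟩ := large c C (d ^ 2 / 8) hcp hδ
  refine ⟨d ^ 3 / 10, min η0 (d ^ 2 / 100), max n0 n1, by positivity, by rw [hκ]; nlinarith,
    lt_min hη0 (by positivity), ?_⟩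
  intro n F hn hN x hx
  have hnn0 : n0 ≤ n := (le_max_left _ _).trans hn
  have hnn1 : n1 ≤ n := (le_max_right _ _).trans hn
  have hn1' : 1 ≤ n := hn0.trans hnn0
  have hnpos : (0 : ℝ) < n := by exact_mod_cast hn1'
  have hη : 0 < min η0 (d ^ 2 / 100) := lt_min hη0 (by positivity)
  have hη1 : min η0 (d ^ 2 / 100) ≤ d ^ 2 / 100 := min_le_right _ _
  obtain ⟨z, hzx⟩ : ∃ z : ℂ, z = (x : ℂ) := ⟨_, rfl⟩
  rw [← hzx]
  have hz : ‖z‖ ≤ d ^ 3 / 10 := by
    rw [hzx, Complex.norm_real, Real.norm_eq_abs]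
    exact hx
  have hz50 : ‖z‖ ≤ 1 / 50 := by linarith
  have hz1' := abs_le.1 ((Complex.abs_re_le_norm z).trans hz)
  have hreg : ∀ w ∈ Metric.ball (z + 1) (κ / 2), 1 - κ ≤ w.re ∧ ‖w‖ ≤ R := by
    intro w hw
    rw [Metric.mem_ball, dist_eq_norm] at hw
    have h1 := abs_le.1 ((Complex.abs_re_le_norm _).trans hw.le)
    rw [Complex.sub_re, Complex.add_re, Complex.one_re] at h1
    refine ⟨by linarith [h1.1, hz1'.1], ?_⟩
    have e : w = (w - (z + 1)) + z + 1 := by ring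
    rw [e]
    refine (norm_add_le _ _).trans ?_
    have := norm_add_le (w - (z + 1)) z
    rw [norm_one]
    linarith
  obtain ⟨w0, hw0, -, hQ1, -, hQ3, hQ4⟩ := hL n hnn0 z F (by
    intro w hw
    obtain ⟨r1, r2⟩ := hreg w hw
    obtain ⟨r3, r4⟩ := hN.far w r1 r2
    refine ⟨hN.diff w, r3, ?_⟩
    exact r4.trans (by gcongr; exact min_le_left _ _))
  obtain ⟨l1, l2⟩ := hlarge n hnn1
  obtain ⟨Q0, hQ0⟩ : ∃ Q0, Q0 = ‖F w0 / (w0 - z) ^ (n + 1)‖ := ⟨_, rfl⟩
  rw [← hQ0] at hQ1 hQ3 hQ4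
  have hw0b : w0 ∈ Metric.ball (z + 1) (κ / 2) := by
    rw [Metric.mem_ball, dist_eq_norm]
    linarith
  have hF1 : F (z + 1) ≠ 0 := (hN.far _ (hreg _ (Metric.mem_ball_self (by positivity))).1
    (hreg _ (Metric.mem_ball_self (by positivity))).2).1
  have hQ0pos : 0 < Q0 := by
    refine lt_of_lt_of_le ?_ hQ1
    have := norm_pos_iff.2 hF1
    positivity
  have hFQ : ‖F (z + 1)‖ * Real.exp (-(d ^ 2 / 5 * n)) ≤ Real.exp (-(d ^ 2 / 8 * n)) * Q0 := by
    have e1 : ‖F (z + 1)‖ * Real.exp (-(d ^ 2 / 5 * n)) =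
      Real.exp (-((d ^ 2 / 5 - d ^ 3 / 10) * n)) * (Real.exp (-(d ^ 3 / 10 * n)) * ‖F (z + 1)‖) := by
      rw [← mul_assoc, ← Real.exp_add, mul_comm]
      congr 2
      ring
    rw [e1]
    have e2 : Real.exp (-((d ^ 2 / 5 - d ^ 3 / 10) * n)) ≤ Real.exp (-(d ^ 2 / 8 * n)) :=
      Real.exp_le_exp.2 (by
        have h9 : d ^ 2 / 8 * n ≤ (d ^ 2 / 5 - d ^ 3 / 10) * n :=
          mul_le_mul_of_nonneg_right (by linarith) hnpos.le
        linarith)
    gcongr
  have hvlow : ∀ y : ℝ, |y| ≤ d → 1 / 2 ≤ ‖w0 + I * y - z‖ := by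
    intro y hy
    have h1 : (w0 + I * y - z).re = 1 + (w0 - (z + 1)).re := by simp; ring
    have h2 := abs_le.1 ((Complex.abs_re_le_norm _).trans hw0)
    have h3 := Complex.abs_re_le_norm (w0 + I * y - z)
    rw [h1] at h3
    have h4 := le_abs_self (1 + (w0 - (z + 1)).re)
    linarith [h2.1]
  have hw0low : 49 / 50 ≤ ‖w0 - z‖ := by
    have h1 : (w0 - z).re = 1 + (w0 - (z + 1)).re := by simp; ring
    have h2 := abs_le.1 ((Complex.abs_re_le_norm _).trans hw0)
    have h3 := Complex.abs_re_le_norm (w0 - z)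
    rw [h1] at h3
    have h4 := le_abs_self (1 + (w0 - (z + 1)).re)
    linarith [h2.1]
  have hw0ne : w0 - z ≠ 0 := by
    rw [← norm_pos_iff]
    linarith
  obtain ⟨lam, hlam⟩ : ∃ lam : ℂ, lam = 1 / (w0 - z) := ⟨_, rfl⟩
  have hlamn : ‖lam‖ ≤ 50 / 49 := by
    rw [hlam, norm_div, norm_one, div_le_div_iff₀ (by linarith) (by norm_num)]
    linarith
  have hcirc : ∀ φ : ℝ, 1 / 2 ≤ ‖cexp (I * φ) - z‖ := by
    intro φ
    have := norm_sub_norm_le (cexp (I * φ)) z
    have hnm : ‖cexp (I * φ)‖ = 1 := by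
      rw [mul_comm]; exact Complex.norm_exp_ofReal_mul_I φ
    rw [hnm] at this
    linarith
  -- first integral
  have hE0 : 0 ≤ Real.exp (-(d ^ 2 / 8 * n)) * Q0 := by positivity
  have D1 := deform (n := n) (F := F) (k := fun _ => 1) (z := z) (w0 := w0)
    (M := 2 * (Real.exp (-(d ^ 2 / 8 * n)) * Q0)) hN.diff hd0 hd hz50 (by linarith) (by positivity)
    (fun w _ => differentiableAt_const _)
    (fun φ h1 h2 => by
      rw [mul_one]
      refine (arcb hκ hd0 hd hR hη hη1 hn1' hN hz h1 h2).trans ?_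
      gcongr)
    (fun σ hσ w hw => by
      rw [mul_one]
      refine (segb hκ hd0 hd hR hη hη1 hn1' hN hz hw0 hσ hw).trans ?_
      gcongr)
  simp only [mul_one] at D1
  -- second integral
  have hkb : ∀ w : ℂ, 1 / 2 ≤ ‖w - z‖ → ‖1 / (w - z) - lam‖ ≤ 6 := by
    intro w hw
    refine (norm_sub_le _ _).trans ?_
    rw [norm_div, norm_one]
    have : 1 / ‖w - z‖ ≤ 2 := by
      rw [div_le_iff₀ (by linarith)]
      linarith
    linarith
  have hseglow : ∀ σ : ℝ, (σ = 1 ∨ σ = -1) →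
      ∀ w ∈ segment ℝ (w0 + I * ((σ * d : ℝ) : ℂ)) (cexp (I * ((σ * d : ℝ) : ℂ))),
      1 / 2 ≤ ‖w - z‖ := by
    intro σ hσ w hw
    have hσa : |σ * d| ≤ d := by
      rcases hσ with rfl | rfl
      · rw [one_mul, abs_of_pos hd0]
      · rw [neg_one_mul, abs_neg, abs_of_pos hd0]
    have b1 : w0 + I * ((σ * d : ℝ) : ℂ) ∈ Metric.ball (1 : ℂ) (2 / 5) := by
      rw [Metric.mem_ball, dist_eq_norm]
      have e : w0 + I * ((σ * d : ℝ) : ℂ) - 1 = (w0 - (z + 1)) + z + I * ((σ * d : ℝ) : ℂ) := by ring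
      rw [e]
      refine (norm_add_le _ _).trans_lt ?_
      have := norm_add_le (w0 - (z + 1)) z
      rw [norm_mul, Complex.norm_I, one_mul, Complex.norm_real, Real.norm_eq_abs]
      linarith
    have b2 : cexp (I * ((σ * d : ℝ) : ℂ)) ∈ Metric.ball (1 : ℂ) (2 / 5) := by
      rw [Metric.mem_ball, dist_eq_norm]
      have := Real.norm_exp_I_mul_ofReal_sub_one_le (x := σ * d)
      rw [Real.norm_eq_abs] at this
      linarith
    have hwb := (convex_ball (1 : ℂ) (2 / 5)).segment_subset b1 b2 hw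
    rw [Metric.mem_ball, dist_eq_norm] at hwb
    have h1 : ‖(1 : ℂ)‖ ≤ ‖w - z‖ + ‖w - 1‖ + ‖z‖ := by
      have e : (1 : ℂ) = (w - z) + (-(w - 1)) + z := by ring
      calc ‖(1 : ℂ)‖ = ‖(w - z) + (-(w - 1)) + z‖ := by rw [← e]
        _ ≤ ‖(w - z) + (-(w - 1))‖ + ‖z‖ := norm_add_le _ _
        _ ≤ (‖w - z‖ + ‖-(w - 1)‖) + ‖z‖ := by gcongr; exact norm_add_le _ _
        _ = _ := by rw [norm_neg]
    rw [norm_one] at h1
    linarith
  have D2 := deform (n := n) (F := F) (k := fun w => 1 / (w - z) - lam) (z := z) (w0 := w0)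
    (M := 12 * (Real.exp (-(d ^ 2 / 8 * n)) * Q0)) hN.diff hd0 hd hz50 (by linarith) (by positivity)
    (fun w hw => by
      have hne : w - z ≠ 0 := by
        rw [← norm_pos_iff]
        linarith
      exact ((differentiableAt_const _).div (differentiableAt_id.sub_const z) hne).sub_const _)
    (fun φ h1 h2 => by
      rw [norm_mul]
      have a1 := (arcb hκ hd0 hd hR hη hη1 hn1' hN hz h1 h2).trans
        (mul_le_mul_of_nonneg_left hFQ (by norm_num : (0 : ℝ) ≤ 2))
      calc ‖F (cexp (I * φ)) / (cexp (I * φ) - z) ^ (n + 1)‖ * ‖1 / (cexp (I * φ) - z) - lam‖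
          ≤ (2 * (Real.exp (-(d ^ 2 / 8 * n)) * Q0)) * 6 := by
            gcongr
            exact hkb _ (hcirc φ)
        _ = _ := by ring)
    (fun σ hσ w hw => by
      rw [norm_mul]
      have a1 := (segb hκ hd0 hd hR hη hη1 hn1' hN hz hw0 hσ hw).trans
        (mul_le_mul_of_nonneg_left hFQ (by norm_num : (0 : ℝ) ≤ 2))
      calc ‖F w / (w - z) ^ (n + 1)‖ * ‖1 / (w - z) - lam‖
          ≤ (2 * (Real.exp (-(d ^ 2 / 8 * n)) * Q0)) * 6 := by
            gcongr
            exact hkb _ (hseglow σ hσ w hw)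
        _ = _ := by ring)
  -- bound of the second vertical integral
  have hV2 : ‖∫ y in (-d)..d, F (w0 + I * y) / (w0 + I * y - z) ^ (n + 1) *
      (1 / (w0 + I * y - z) - lam)‖ ≤ 3 * (C / n * Q0) := by
    refine (intervalIntegral.norm_integral_le_integral_norm (by linarith)).trans ?_
    have hline : Continuous fun y : ℝ => w0 + I * (y : ℂ) := by fun_prop
    have hcF : Continuous fun y : ℝ => F (w0 + I * (y : ℂ)) := hN.diff.continuous.comp hline
    have hI1 : IntervalIntegrable (fun y : ℝ => ‖F (w0 + I * y) / (w0 + I * y - z) ^ (n + 1)‖ * |y|)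
        volume (-d) d := by
      apply ContinuousOn.intervalIntegrable
      refine ContinuousOn.mul (ContinuousOn.norm (hcF.continuousOn.div ?_ ?_)) continuous_abs.continuousOn
      · exact ((hline.sub continuous_const).pow _).continuousOn
      · intro y hy
        rw [uIcc_of_le (by linarith)] at hy
        apply pow_ne_zero
        rw [← norm_pos_iff]
        linarith [hvlow y (abs_le.2 hy)]
    have hI2 : IntervalIntegrable (fun y : ℝ => ‖F (w0 + I * y) / (w0 + I * y - z) ^ (n + 1) *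
        (1 / (w0 + I * y - z) - lam)‖) volume (-d) d := by
      apply ContinuousOn.intervalIntegrable
      refine ContinuousOn.norm (ContinuousOn.mul (hcF.continuousOn.div ?_ ?_)
        (ContinuousOn.sub (continuousOn_const.div ?_ ?_) continuousOn_const))
      · exact ((hline.sub continuous_const).pow _).continuousOn
      · intro y hy
        rw [uIcc_of_le (by linarith)] at hy
        apply pow_ne_zero
        rw [← norm_pos_iff]
        linarith [hvlow y (abs_le.2 hy)]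
      · exact (hline.sub continuous_const).continuousOn
      · intro y hy
        rw [uIcc_of_le (by linarith)] at hy
        rw [← norm_pos_iff]
        linarith [hvlow y (abs_le.2 hy)]
    have hle : ∀ y ∈ Icc (-d) d,
        ‖F (w0 + I * y) / (w0 + I * y - z) ^ (n + 1) * (1 / (w0 + I * y - z) - lam)‖ ≤
        3 * (‖F (w0 + I * y) / (w0 + I * y - z) ^ (n + 1)‖ * |y|) := by
      intro y hy
      have hv := hvlow y (abs_le.2 hy)
      have hvne : w0 + I * y - z ≠ 0 := by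
        rw [← norm_pos_iff]
        linarith
      have e : 1 / (w0 + I * y - z) - lam = -(I * y) / ((w0 + I * y - z) * (w0 - z)) := by
        rw [hlam, div_sub_div _ _ hvne hw0ne]
        congr 1
        ring
      have e2 : ‖1 / (w0 + I * y - z) - lam‖ ≤ 3 * |y| := by
        rw [e, norm_div, norm_neg, norm_mul, norm_mul, Complex.norm_I, one_mul, Complex.norm_real,
          Real.norm_eq_abs, div_le_iff₀ (by positivity)]
        have : 1 ≤ 3 * (‖w0 + I * y - z‖ * ‖w0 - z‖) := by nlinarith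
        nlinarith [abs_nonneg y]
      rw [norm_mul]
      calc _ ≤ ‖F (w0 + I * y) / (w0 + I * y - z) ^ (n + 1)‖ * (3 * |y|) := by gcongr
        _ = _ := by ring
    refine (intervalIntegral.integral_mono_on (by linarith) hI2 (hI1.const_mul 3) hle).trans ?_
    rw [intervalIntegral.integral_const_mul]
    gcongr
  obtain ⟨I1, hI1⟩ : ∃ I1, I1 = ∫ φ in (-(Real.pi / 2))..(Real.pi / 2),
      F (cexp (I * φ)) / (cexp (I * φ) - z) ^ (n + 1) * cexp (I * φ) := ⟨_, rfl⟩
  obtain ⟨I2, hI2⟩ : ∃ I2, I2 = ∫ φ in (-(Real.pi / 2))..(Real.pi / 2),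
      F (cexp (I * φ)) / (cexp (I * φ) - z) ^ (n + 1) * (1 / (cexp (I * φ) - z) - lam) *
        cexp (I * φ) := ⟨_, rfl⟩
  rw [← hI1] at D1
  rw [← hI2] at D2
  have nI1 : c / (2 * Real.sqrt n) * Q0 ≤ ‖I1‖ := by
    have a1 := norm_sub_norm_le (∫ y in (-d)..d,
      F (w0 + I * y) / (w0 + I * y - z) ^ (n + 1)) I1
    have a1' : ‖(∫ y in (-d)..d,
      F (w0 + I * y) / (w0 + I * y - z) ^ (n + 1)) - I1‖ ≤ 16 * (Real.exp (-(d ^ 2 / 8 * n)) * Q0) := by
      rw [norm_sub_rev]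
      linarith
    have a2 : 16 * (Real.exp (-(d ^ 2 / 8 * n)) * Q0) ≤ c / (2 * Real.sqrt n) * Q0 := by
      calc 16 * (Real.exp (-(d ^ 2 / 8 * n)) * Q0) ≤ (32 * Real.exp (-(d ^ 2 / 8 * n))) * Q0 := by
            linarith
        _ ≤ _ := by gcongr
    have a3 : c / Real.sqrt n * Q0 = 2 * (c / (2 * Real.sqrt n) * Q0) := by
      have hs : Real.sqrt n ≠ 0 := (Real.sqrt_pos.2 hnpos).ne'
      field_simp
    linarith
  have nI2 : ‖I2‖ ≤ 3 / 4 * ‖I1‖ := by
    have a1 : ‖I2‖ ≤ 3 * (C / n * Q0) + 96 * (Real.exp (-(d ^ 2 / 8 * n)) * Q0) := by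
      have b1 := norm_add_le (I2 - ∫ y in (-d)..d,
        F (w0 + I * y) / (w0 + I * y - z) ^ (n + 1) * (1 / (w0 + I * y - z) - lam))
        (∫ y in (-d)..d,
        F (w0 + I * y) / (w0 + I * y - z) ^ (n + 1) * (1 / (w0 + I * y - z) - lam))
      rw [sub_add_cancel] at b1
      linarith
    have hEx : 0 ≤ Real.exp (-(d ^ 2 / 8 * n)) * Q0 := hE0
    have a2 : 3 * (C / n * Q0) + 96 * (Real.exp (-(d ^ 2 / 8 * n)) * Q0) ≤
        3 / 2 * ((2 * C / n + 96 * Real.exp (-(d ^ 2 / 8 * n))) * Q0) := by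
      have : 3 / 2 * ((2 * C / n + 96 * Real.exp (-(d ^ 2 / 8 * n))) * Q0) =
        3 * (C / n * Q0) + 144 * (Real.exp (-(d ^ 2 / 8 * n)) * Q0) := by ring
      rw [this]
      linarith
    have a3 : (2 * C / n + 96 * Real.exp (-(d ^ 2 / 8 * n))) * Q0 ≤
        (1 / 2 * (c / (2 * Real.sqrt n))) * Q0 := by gcongr
    have a4 : (1 / 2 * (c / (2 * Real.sqrt n))) * Q0 ≤ 1 / 2 * ‖I1‖ := by
      rw [mul_assoc]
      gcongr
    linarith
  have hI1pos : 0 < ‖I1‖ := by
    refine lt_of_lt_of_le ?_ nI1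
    have hs : 0 < Real.sqrt n := Real.sqrt_pos.2 hnpos
    positivity
  have hI1ne : I1 ≠ 0 := norm_pos_iff.1 hI1pos
  -- identification
  have hpi : (Real.pi : ℂ) ≠ 0 := by exact_mod_cast Real.pi_ne_zero
  have hcont1 : Continuous fun φ : ℝ => F (cexp (I * φ)) / (cexp (I * φ) - z) ^ (n + 1) * cexp (I * φ) := by
    have hl : Continuous fun φ : ℝ => cexp (I * (φ : ℂ)) := by fun_prop
    refine ((hN.diff.continuous.comp hl).div ((hl.sub continuous_const).pow _) ?_).mul hl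
    intro φ
    apply pow_ne_zero
    have h0 := hcirc φ
    exact norm_pos_iff.1 (show 0 < ‖cexp (I * φ) - z‖ by linarith)
  have hcont2 : Continuous fun φ : ℝ => F (cexp (I * φ)) * cexp (I * φ) / (cexp (I * φ) - z) ^ (n + 2) := by
    have hl : Continuous fun φ : ℝ => cexp (I * (φ : ℂ)) := by fun_prop
    refine ((hN.diff.continuous.comp hl).mul hl).div ((hl.sub continuous_const).pow _) ?_
    intro φ
    apply pow_ne_zero
    have h0 := hcirc φ
    exact norm_pos_iff.1 (show 0 < ‖cexp (I * φ) - z‖ by linarith)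
  have hc1 : hc F (n + 1) z = (1 / (2 * Real.pi) : ℂ) * I1 := by
    unfold hc
    rw [hI1]
    congr 1
    apply intervalIntegral.integral_congr
    intro φ _
    simp only
    ring
  have hc2 : hc F (n + 2) z = (1 / (2 * Real.pi) : ℂ) * (I2 + lam * I1) := by
    have e : I2 + lam * I1 = ∫ φ in (-(Real.pi / 2))..(Real.pi / 2),
        F (cexp (I * φ)) * cexp (I * φ) / (cexp (I * φ) - z) ^ (n + 2) := by
      have e1 : I2 = (∫ φ in (-(Real.pi / 2))..(Real.pi / 2),
        (F (cexp (I * φ)) * cexp (I * φ) / (cexp (I * φ) - z) ^ (n + 2) -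
          lam * (F (cexp (I * φ)) / (cexp (I * φ) - z) ^ (n + 1) * cexp (I * φ)))) := by
        rw [hI2]
        apply intervalIntegral.integral_congr
        intro φ _
        have hne : cexp (I * φ) - z ≠ 0 := by
          rw [← norm_pos_iff]
          linarith [hcirc φ]
        simp only
        rw [pow_succ _ (n + 1)]
        field_simp
      rw [e1, intervalIntegral.integral_sub (hcont2.intervalIntegrable _ _)
        ((hcont1.intervalIntegrable _ _).const_mul lam), intervalIntegral.integral_const_mul,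
        ← hI1]
      ring
    unfold hc
    rw [e]
  have hne : (1 / (2 * Real.pi) : ℂ) ≠ 0 := by
    apply div_ne_zero one_ne_zero
    exact mul_ne_zero two_ne_zero hpi
  refine ⟨by rw [hc1]; exact mul_ne_zero hne hI1ne, ?_⟩
  have hratio : hc F (n + 2) z / hc F (n + 1) z = lam + I2 / I1 := by
    rw [hc1, hc2, mul_div_mul_left _ _ hne, add_div, mul_div_cancel_right₀ _ hI1ne]
    ring
  rw [hratio, Complex.add_re]
  have hr2 : -(3 / 4) ≤ (I2 / I1).re := by
    have h1 := (Complex.abs_re_le_norm (I2 / I1))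
    have h2 : ‖I2 / I1‖ ≤ 3 / 4 := by
      rw [norm_div, div_le_iff₀ hI1pos]
      exact nI2
    exact (abs_le.1 (h1.trans h2)).1
  have hr1 : 9 / 10 ≤ lam.re := by
    have h1 : ‖lam - 1‖ ≤ 1 / 10 := by
      have e : lam - 1 = -(w0 - (z + 1)) / (w0 - z) := by
        rw [hlam, div_sub_one hw0ne]
        congr 1
        ring
      rw [e, norm_div, norm_neg, div_le_iff₀ (by linarith)]
      linarith
    have h2 := (abs_le.1 ((Complex.abs_re_le_norm _).trans h1)).1
    rw [Complex.sub_re, Complex.one_re] at h2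
    linarith
  linarith

end Pool.Agent.H986R2.K4
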