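import Pool.Agent.H986R2.K4.Spec
import Pool.Agent.H296R2.LE.Basic

/-!
# Borel-Caratheodory and three circles (helper742)
-/

set_option autoImplicit false

namespace Pool.Agent.H986R2.K4

open Complex Filter Topology MeasureTheory Set Metric

namespace SABAux

/-- Borel-Caratheodory on a ball with arbitrary centre -/
theorem bc {f : ℂ → ℂ} {c : ℂ} {r R M : ℝ} (hM : 0 < M) (hf : DifferentiableOn ℂ f (ball c R))
    (hre : ∀ z ∈ ball c R, (f z).re ≤ M) (hf0 : f c = 0) (hr : 0 ≤ r) (hrR : r < R)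
    {z : ℂ} (hz : z ∈ closedBall c r) : ‖f z‖ ≤ 2 * M * r / (R - r) := by
  have hmap : ∀ w ∈ ball (0 : ℂ) R, c + w ∈ ball c R := by
    intro w hw
    rw [mem_ball, dist_eq_norm, add_sub_cancel_left]
    rwa [mem_ball_zero_iff] at hw
  have hzn : ‖z - c‖ ≤ r := by rwa [mem_closedBall, dist_eq_norm] at hz
  have hzR : z - c ∈ ball (0 : ℂ) R := by rw [mem_ball_zero_iff]; linarith
  have hd : DifferentiableOn ℂ (fun w => f (c + w)) (ball (0 : ℂ) R) := by
    intro w hw
    have h1 : DifferentiableAt ℂ f (c + w) :=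
      (hf _ (hmap w hw)).differentiableAt (isOpen_ball.mem_nhds (hmap w hw))
    exact (h1.comp w ((differentiableAt_const c).add differentiableAt_id)).differentiableWithinAt
  have h := borelCaratheodory_zero hM hd (fun w hw => hre _ (hmap w hw)) (by linarith) hzR
    (by simpa using hf0)
  simp only [add_sub_cancel] at h
  refine h.trans ?_
  have h1 : 0 < R - r := by linarith
  have h2 := norm_nonneg (z - c)
  gcongr

end SABAux

open SABAux in
theorem sab : S_SAB := by
  intro η0 η K0 hη0 hη04 hη hK0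
  obtain ⟨θ, hθ0, hθ1, h3c⟩ := Pool.Agent.H296R2.LE.three_circles (r := 3) (ρ := 5 - 3 * η0 / 4)
    (R := 5 - η0 / 4) (by norm_num) (by linarith) (by linarith)
  set B : ℝ := 40 * (K0 + 1) / η0 with hB
  have hB160 : 24 ≤ B := by
    rw [hB, le_div_iff₀ hη0]; nlinarith
  have hB0 : 0 < B := by linarith
  set δ : ℝ := η * η0 / 8 with hδ
  have hδ0 : 0 < δ := by positivity
  have hδη : δ ≤ η / 2 := by rw [hδ]; nlinarith
  -- choice of ε
  obtain ⟨ε, hε0, hε1, hεη, hεδ⟩ : ∃ ε : ℝ, 0 < ε ∧ ε ≤ 1 ∧ ε ≤ η / 2 ∧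
      (24 * ε) ^ (1 - θ) * B ^ θ ≤ δ := by
    have hlim : Tendsto (fun ε : ℝ => (24 * ε) ^ (1 - θ) * B ^ θ) (𝓝[>] 0) (𝓝 0) := by
      have h1 : Tendsto (fun ε : ℝ => 24 * ε) (𝓝[>] 0) (𝓝 0) := by
        have : Tendsto (fun ε : ℝ => 24 * ε) (𝓝 0) (𝓝 (24 * 0)) := (continuous_const_mul _).tendsto 0
        rw [mul_zero] at this
        exact this.mono_left nhdsWithin_le_nhds
      have h2 : Tendsto (fun x : ℝ => x ^ (1 - θ)) (𝓝 0) (𝓝 0) := by
        have := (Real.continuousAt_rpow_const 0 (1 - θ) (Or.inr (by linarith))).tendsto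
        rwa [Real.zero_rpow (by linarith)] at this
      have h3 := (h2.comp h1).mul_const (B ^ θ)
      rw [zero_mul] at h3
      exact h3
    have h4 : ∀ᶠ ε : ℝ in 𝓝[>] 0, (24 * ε) ^ (1 - θ) * B ^ θ < δ := hlim.eventually (gt_mem_nhds hδ0)
    have h5 : ∀ᶠ ε : ℝ in 𝓝[>] 0, ε < min 1 (η / 2) :=
      nhdsWithin_le_nhds (gt_mem_nhds (by positivity))
    have h6 : ∀ᶠ ε : ℝ in 𝓝[>] 0, 0 < ε := eventually_mem_nhdsWithin
    obtain ⟨ε, ha, hb, hc⟩ := (h4.and (h5.and h6)).exists
    exact ⟨ε, hc, (hb.le.trans (min_le_left _ _)), (hb.le.trans (min_le_right _ _)), ha.le⟩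
  refine ⟨ε, hε0, ?_⟩
  intro L g hL H1 H2 u hu1 hu2 hu3
  have hL0 : 0 < L := by linarith
  set c : ℂ := ⟨5, u.im⟩ with hc
  have hcre : c.re = 5 := rfl
  have hcim : c.im = u.im := rfl
  have hball : ∀ R : ℝ, ∀ z ∈ ball c R, |z.re - 5| < R ∧ |z.im - u.im| < R := by
    intro R z hz
    rw [mem_ball, dist_eq_norm] at hz
    have h1 := abs_re_le_norm (z - c)
    have h2 := abs_im_le_norm (z - c)
    rw [sub_re, hcre] at h1
    rw [sub_im, hcim] at h2
    exact ⟨by linarith, by linarith⟩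
  have hu3' := abs_le.mp hu3
  have hb5 : ∀ z ∈ ball c 5, 0 < z.re ∧ z.re ≤ 10 ∧ |z.im| ≤ 10 := by
    intro z hz
    obtain ⟨h1, h2⟩ := hball 5 z hz
    rw [abs_lt] at h1 h2
    exact ⟨by linarith, by linarith, abs_le.mpr ⟨by linarith, by linarith⟩⟩
  have hb7 : ∀ z ∈ ball c (7 / 2), 3 / 2 ≤ z.re ∧ z.re ≤ 10 ∧ |z.im| ≤ 10 := by
    intro z hz
    obtain ⟨h1, h2⟩ := hball _ z hz
    rw [abs_lt] at h1 h2
    exact ⟨by linarith, by linarith, abs_le.mpr ⟨by linarith, by linarith⟩⟩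
  have hgd : DifferentiableOn ℂ g (ball c 5) := fun z hz =>
    (H1 z (hb5 z hz).1 (hb5 z hz).2.1 (hb5 z hz).2.2).1.differentiableWithinAt
  have hgn : ∀ z ∈ ball c 5, g z ≠ 0 := fun z hz =>
    (H1 z (hb5 z hz).1 (hb5 z hz).2.1 (hb5 z hz).2.2).2.1
  obtain ⟨f, hfc, hfd, hfe⟩ := Pool.Agent.H296R2.LE.exists_log (by norm_num) hgd hgn
  have hc5 : c ∈ ball c 5 := mem_ball_self (by norm_num)
  have hgc := H2 c (by rw [hcre]; norm_num) (by rw [hcre]; norm_num) (hb5 c hc5).2.2
  have hgc0 : 0 < ‖g c‖ := norm_pos_iff.mpr (hgn c hc5)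
  -- norms
  have hnorm : ∀ z ∈ ball c 5, ‖g z‖ = ‖g c‖ * Real.exp (f z).re := by
    intro z hz
    rw [hfe z hz, norm_mul, Complex.norm_exp]
  have hup : ∀ z ∈ ball c 5, ∀ A : ℝ, ‖g z‖ ≤ Real.exp (A * L) → (f z).re ≤ (A + ε) * L := by
    intro z hz A hA
    rw [hnorm z hz] at hA
    have h1 : Real.exp (-(ε * L)) * Real.exp (f z).re ≤ Real.exp (A * L) :=
      (mul_le_mul_of_nonneg_right hgc.1 (Real.exp_pos _).le).trans hA
    rw [← Real.exp_add, Real.exp_le_exp] at h1
    linarith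
  have hfdo : DifferentiableOn ℂ f (ball c 5) := fun z hz =>
    (hfd z hz).differentiableAt.differentiableWithinAt
  -- the big bound
  have hbig : ∀ z ∈ ball c (5 - η0 / 4), ‖f z‖ ≤ B * L := by
    intro z hz
    have hM : 0 < (K0 + 1) * L := by positivity
    have h1 := bc (f := f) (c := c) (r := 5 - η0 / 4) (R := 5) hM hfdo (fun w hw => by
      have := hup w hw K0 (H1 w (hb5 w hw).1 (hb5 w hw).2.1 (hb5 w hw).2.2).2.2
      refine this.trans (mul_le_mul_of_nonneg_right (by linarith) hL0.le)) hfc (by linarith)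
      (by linarith) (ball_subset_closedBall hz)
    refine h1.trans ?_
    have e : (5 : ℝ) - (5 - η0 / 4) = η0 / 4 := by ring
    rw [e, hB, div_le_iff₀ (by positivity)]
    have e2 : 40 * (K0 + 1) / η0 * L * (η0 / 4) = 10 * ((K0 + 1) * L) := by
      field_simp
      ring
    rw [e2]
    nlinarith
  -- the small bound
  have hsmall : ∀ z ∈ closedBall c 3, ‖f z‖ ≤ 24 * ε * L := by
    intro z hz
    have hM : 0 < 2 * ε * L := by positivity
    have h1 := bc (f := f) (c := c) (r := 3) (R := 7 / 2) hM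
      (hfdo.mono (ball_subset_ball (by norm_num))) (fun w hw => by
      have := hup w (ball_subset_ball (by norm_num) hw) ε (H2 w (hb7 w hw).1 (hb7 w hw).2.1
        (hb7 w hw).2.2).2
      refine this.trans (le_of_eq ?_)
      ring) hfc (by norm_num) (by norm_num) hz
    refine h1.trans (le_of_eq ?_)
    ring
  -- three circles
  have hmid : ∀ z ∈ closedBall c (5 - 3 * η0 / 4), ‖f z‖ ≤ δ * L := by
    intro z hz
    have h1 := h3c f c (24 * ε * L) (B * L) (by positivity)
      (mul_le_mul_of_nonneg_right (by linarith) hL0.le)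
      (hfdo.mono (ball_subset_ball (by linarith))) hsmall hbig z hz
    refine h1.trans ?_
    rw [Real.mul_rpow (by positivity) hL0.le, Real.mul_rpow hB0.le hL0.le]
    have h2 : L ^ (1 - θ) * L ^ θ = L := by
      rw [← Real.rpow_add hL0]; simp
    calc (24 * ε) ^ (1 - θ) * L ^ (1 - θ) * (B ^ θ * L ^ θ)
        = ((24 * ε) ^ (1 - θ) * B ^ θ) * (L ^ (1 - θ) * L ^ θ) := by ring
      _ ≤ δ * L := by rw [h2]; exact mul_le_mul_of_nonneg_right hεδ hL0.le
  -- the point `u`
  have huc : ‖u - c‖ ≤ 5 - η0 := by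
    have e : u - c = ((u.re - 5 : ℝ) : ℂ) := by
      apply Complex.ext
      · simp [hcre]
      · simp [hcim]
    rw [e, Complex.norm_real, Real.norm_eq_abs, abs_le]
    exact ⟨by linarith, by linarith⟩
  have hu_mem : u ∈ closedBall c (5 - 3 * η0 / 4) := by
    rw [mem_closedBall, dist_eq_norm]; linarith
  have hu5 : u ∈ ball c 5 := by
    rw [mem_ball, dist_eq_norm]; linarith
  have hfu : ‖f u‖ ≤ δ * L := hmid u hu_mem
  have hfre : |(f u).re| ≤ δ * L := (abs_re_le_norm _).trans hfu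
  rw [abs_le] at hfre
  refine ⟨?_, ?_, ?_⟩
  · have h1 : logDeriv g u = deriv f u := by
      rw [(hfd u hu5).deriv]; rfl
    rw [h1]
    have hsub : closedBall u (η0 / 4) ⊆ ball c 5 := by
      intro w hw
      rw [mem_closedBall] at hw
      rw [mem_ball]
      have := dist_triangle w u c
      rw [dist_eq_norm u c] at this
      linarith
    have hdc : DiffContOnCl ℂ f (ball u (η0 / 4)) := by
      apply DifferentiableOn.diffContOnCl
      rw [closure_ball u (by positivity)]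
      exact hfdo.mono hsub
    have h2 := Complex.norm_deriv_le_of_forall_mem_sphere_norm_le (c := u) (R := η0 / 4)
      (C := δ * L) (f := f) (by positivity) hdc (by
        intro w hw
        apply hmid
        rw [mem_sphere] at hw
        rw [mem_closedBall]
        have := dist_triangle w u c
        rw [dist_eq_norm u c] at this
        linarith)
    refine h2.trans ?_
    rw [div_le_iff₀ (by positivity), hδ]
    have : 0 < η * L * η0 := by positivity
    nlinarith
  · rw [hnorm u hu5]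
    calc Real.exp (-(η * L)) ≤ Real.exp (-(ε * L) + (f u).re) := by
          rw [Real.exp_le_exp]; nlinarith
      _ = Real.exp (-(ε * L)) * Real.exp (f u).re := Real.exp_add _ _
      _ ≤ ‖g c‖ * Real.exp (f u).re := mul_le_mul_of_nonneg_right hgc.1 (Real.exp_pos _).le
  · rw [hnorm u hu5]
    calc ‖g c‖ * Real.exp (f u).re ≤ Real.exp (ε * L) * Real.exp (f u).re :=
          mul_le_mul_of_nonneg_right hgc.2 (Real.exp_pos _).le
      _ = Real.exp (ε * L + (f u).re) := (Real.exp_add _ _).symm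
      _ ≤ Real.exp (η * L) := by rw [Real.exp_le_exp]; nlinarith

end Pool.Agent.H986R2.K4
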