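import Pool.Agent.H986R2.K4.Spec

set_option autoImplicit false

namespace Pool.Agent.H986R2.K4

open Complex Filter Topology MeasureTheory Set

namespace TayAux

theorem hd {g : ℂ → ℂ} (hg : Differentiable ℂ g) (k : ℕ) (z : ℂ) :
    HasDerivAt (iteratedDeriv k g) (iteratedDeriv (k + 1) g z) z := by
  have h1 : Differentiable ℂ (iteratedDeriv k g) := by
    have h2 : ContDiff ℂ (k + 1) g := hg.contDiff
    exact h2.differentiable_iteratedDeriv k (by exact_mod_cast Nat.lt_succ_self k)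
  rw [iteratedDeriv_succ]
  exact (h1 z).hasDerivAt

/-- partial Taylor sum -/
noncomputable def Ph (g : ℂ → ℂ) (p : ℂ) (n : ℕ) (v : ℂ) : ℂ :=
  ∑ k ∈ Finset.range n, iteratedDeriv k g (p - v) * (v ^ k / (k.factorial : ℂ))

theorem hd2 {g : ℂ → ℂ} (hg : Differentiable ℂ g) (p : ℂ) (k : ℕ) (v : ℂ) :
    HasDerivAt (fun v => iteratedDeriv k g (p - v)) (-(iteratedDeriv (k + 1) g (p - v))) v := by
  have h1 : HasDerivAt (fun v : ℂ => p - v) (-1) v := by
    simpa using (hasDerivAt_id v).const_sub p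
  have h2 := HasDerivAt.comp v (hd hg k (p - v)) h1
  rw [mul_neg_one] at h2
  exact h2

theorem Ph_deriv {g : ℂ → ℂ} (hg : Differentiable ℂ g) (p : ℂ) (m : ℕ) (v : ℂ) :
    HasDerivAt (Ph g p (m + 1))
      (-(iteratedDeriv (m + 1) g (p - v) * (v ^ m / (m.factorial : ℂ)))) v := by
  induction m with
  | zero =>
    have h : Ph g p (0 + 1) = fun v => iteratedDeriv 0 g (p - v) := by
      funext v
      simp [Ph]
    rw [h]
    simpa using hd2 hg p 0 v
  | succ m ih =>
    have h : Ph g p (m + 1 + 1) = fun v => Ph g p (m + 1) v +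
        iteratedDeriv (m + 1) g (p - v) * (v ^ (m + 1) / ((m + 1).factorial : ℂ)) := by
      funext v
      unfold Ph
      rw [Finset.sum_range_succ]
    rw [h]
    have h1 : HasDerivAt (fun v : ℂ => v ^ (m + 1) / ((m + 1).factorial : ℂ))
        (((m + 1 : ℕ) : ℂ) * v ^ m / ((m + 1).factorial : ℂ)) v := by
      have := (hasDerivAt_pow (m + 1) v).div_const ((m + 1).factorial : ℂ)
      simpa using this
    have h2 := ih.add ((hd2 hg p (m + 1) v).mul h1)
    refine h2.congr_deriv ?_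
    have hf : ((m + 1).factorial : ℂ) = ((m + 1 : ℕ) : ℂ) * (m.factorial : ℂ) := by
      rw [Nat.factorial_succ]
      push_cast
      ring
    have hm : ((m + 1 : ℕ) : ℂ) ≠ 0 := by exact_mod_cast Nat.succ_ne_zero m
    have hmf : (m.factorial : ℂ) ≠ 0 := by exact_mod_cast Nat.factorial_ne_zero m
    rw [hf]
    field_simp
    ring

theorem taylor {g : ℂ → ℂ} (hg : Differentiable ℂ g) (p : ℂ) (m : ℕ) (x : ℝ) :
    ∫ v in (0 : ℝ)..x, iteratedDeriv (m + 1) g (p - v) * ((v : ℂ) ^ m / (m.factorial : ℂ)) =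
      g p - Ph g p (m + 1) x := by
  have h1 : ∀ v ∈ uIcc 0 x, HasDerivAt (fun v : ℝ => Ph g p (m + 1) (v : ℂ))
      (-(iteratedDeriv (m + 1) g (p - (v : ℂ)) * ((v : ℂ) ^ m / (m.factorial : ℂ)))) v :=
    fun v _ => (Ph_deriv hg p m (v : ℂ)).comp_ofReal
  have hc : Continuous (iteratedDeriv (m + 1) g) := by
    have h2 : ContDiff ℂ ((m + 1 : ℕ) : ℕ∞) g := hg.contDiff
    exact h2.continuous_iteratedDeriv (m + 1) le_rfl
  have h2 : IntervalIntegrable (fun v : ℝ =>
      -(iteratedDeriv (m + 1) g (p - (v : ℂ)) * ((v : ℂ) ^ m / (m.factorial : ℂ)))) volume 0 x := by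
    apply Continuous.intervalIntegrable
    have : Continuous (fun v : ℝ => iteratedDeriv (m + 1) g (p - (v : ℂ))) :=
      hc.comp (by fun_prop)
    exact (this.mul (by fun_prop)).neg
  have h3 := intervalIntegral.integral_eq_sub_of_hasDerivAt h1 h2
  rw [intervalIntegral.integral_neg] at h3
  have h4 : Ph g p (m + 1) ((0 : ℝ) : ℂ) = g p := by
    unfold Ph
    rw [Finset.sum_eq_single 0]
    · simp
    · intro k _ hk
      simp [hk]
    · intro h
      simp at h
  rw [h4] at h3
  linear_combination -h3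

end TayAux

open TayAux

theorem tay : S_TAY := by
  intro g p x ρ M n hg hn hρ hρx hM
  obtain ⟨m, rfl⟩ : ∃ m, n = m + 1 := ⟨n - 1, by omega⟩
  have hx : 0 < x := lt_of_lt_of_le hρ hρx
  have hM0 : 0 ≤ M := (norm_nonneg _).trans (hM (p - x) (Metric.mem_closedBall_self hρ.le))
  rw [Nat.add_sub_cancel, taylor hg p m x, sub_sub_cancel]
  unfold Ph
  have hq : 1 ≤ x / ρ := (one_le_div hρ).2 hρx
  refine (norm_sum_le _ _).trans ?_
  have hterm : ∀ k ∈ Finset.range (m + 1),
      ‖iteratedDeriv k g (p - x) * ((x : ℂ) ^ k / (k.factorial : ℂ))‖ ≤ (x / ρ) ^ (m + 1) * M := by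
    intro k hk
    rw [Finset.mem_range] at hk
    have h1 : ‖iteratedDeriv k g (p - x)‖ ≤ k.factorial * M / ρ ^ k :=
      Complex.norm_iteratedDeriv_le_of_forall_mem_sphere_norm_le k hρ hg.diffContOnCl
        fun z hz => hM z (Metric.sphere_subset_closedBall hz)
    have hk0 : (0 : ℝ) < k.factorial := by exact_mod_cast k.factorial_pos
    rw [norm_mul, norm_div, norm_pow, Complex.norm_real, Real.norm_of_nonneg hx.le,
      Complex.norm_natCast]
    calc ‖iteratedDeriv k g (p - x)‖ * (x ^ k / k.factorial)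
        ≤ (k.factorial * M / ρ ^ k) * (x ^ k / k.factorial) := by gcongr
      _ = (x / ρ) ^ k * M := by
          rw [div_pow]
          field_simp
      _ ≤ (x / ρ) ^ (m + 1) * M :=
          mul_le_mul_of_nonneg_right (pow_le_pow_right₀ hq (by omega)) hM0
  refine (Finset.sum_le_sum hterm).trans ?_
  rw [Finset.sum_const, Finset.card_range, nsmul_eq_mul, mul_assoc]

end Pool.Agent.H986R2.K4
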