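import Pool.Agent.H986R2.K4.Spec
import Pool.Agent.H24R2.DZ.XB

set_option autoImplicit false

namespace Pool.Agent.H986R2.K4

open Complex Filter Topology MeasureTheory Set
open Pool.Agent.H24R2.JP (XX HH Om)

theorem ub : S_UB := by
  intro r0 r1 hr0 _ hr1
  obtain ⟨K, T0, hT0, hX⟩ := Pool.Agent.H24R2.DZ.xb 21
  refine ⟨max K 1, max T0 2, le_max_right _ _, le_max_right _ _, ?_⟩
  intro t n ht hn1 hn2 u hu1 hu2
  have ht0 : T0 ≤ t := le_trans (le_max_left _ _) ht
  have ht2 : 2 ≤ t := le_trans (le_max_right _ _) ht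
  have htpos : 0 < t := by linarith
  have hlog : 0 < Real.log t := Real.log_pos (by linarith)
  have hOm : 0 < Om t := by unfold Om; linarith
  have hn : 0 < (n : ℝ) := lt_of_lt_of_le (mul_pos hr0 hOm) hn1
  set r : ℝ := n / Om t with hr
  have hrpos : 0 < r := div_pos hn hOm
  have hr1' : r ≤ 1 := by
    rw [hr, div_le_one hOm]
    nlinarith
  have hu : ‖u‖ ≤ 20 := by
    have := Complex.norm_le_abs_re_add_abs_im u
    linarith
  have hC : ∀ z ∈ Metric.sphere (I * t + u) r, ‖XX z‖ ≤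
      Real.exp (K * Real.log t) * ‖HH (I * t)‖ := by
    intro z hz
    have h1 : ‖z - (I * t + u)‖ = r := by
      rw [← dist_eq_norm]; exact hz
    have h2 := (hX t (u + (z - (I * t + u))) ht0 (by
      refine le_trans (norm_add_le _ _) ?_
      rw [h1]
      linarith)).1
    have h3 : I * t + (u + (z - (I * t + u))) = z := by ring
    rw [h3] at h2
    exact h2
  have h1 := Complex.norm_iteratedDeriv_le_of_forall_mem_sphere_norm_le n hrpos
    (Pool.Agent.H24R2.JP.B1h.XX_diff.diffContOnCl) hC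
  refine le_trans h1 ?_
  have h4 : (n.factorial : ℝ) ≤ (n : ℝ) ^ n := by exact_mod_cast n.factorial_le_pow
  have h5 : Real.exp (K * Real.log t) ≤ t ^ (max K 1) := by
    rw [Real.rpow_def_of_pos htpos]
    apply Real.exp_le_exp.2
    nlinarith [le_max_left K 1]
  rw [hr, div_pow, div_div_eq_mul_div, div_le_iff₀ (by positivity)]
  have hH : 0 ≤ ‖HH (I * t)‖ := norm_nonneg _
  have hp : 0 < Om t ^ n := by positivity
  calc (n.factorial : ℝ) * (Real.exp (K * Real.log t) * ‖HH (I * t)‖) * Om t ^ n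
      ≤ (n : ℝ) ^ n * (t ^ (max K 1) * ‖HH (I * t)‖) * Om t ^ n := by gcongr
    _ = t ^ (max K 1) * (Om t ^ n * ‖HH (I * t)‖) * (n : ℝ) ^ n := by ring

end Pool.Agent.H986R2.K4
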