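import Pool.Agent.H986R2.K4.Spec

set_option autoImplicit false

/-!
# V0: zeros near the edge have large height
-/

namespace Pool.Agent.H986R2.K4

open Complex Filter Topology MeasureTheory Set

theorem v0 : S_V0 := by
  intro h ε T1 hε
  -- the zeros in a compact rectangle
  obtain ⟨K, hK⟩ : ∃ K : Set ℂ, K = Icc (1 / 2 : ℝ) 1 ×ℂ Icc (-|T1|) |T1| := ⟨_, rfl⟩
  have hKc : IsCompact K := by
    rw [hK]
    exact isCompact_Icc.reProdIm isCompact_Icc
  have hfin := hKc.inter_riemannZetaZeros_finite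
  have hlt1 : ∀ s : ℂ, riemannZeta s = 0 → s.re < 1 := by
    intro s hs
    by_contra hcon
    exact riemannZeta_ne_zero_of_one_le_re (not_lt.1 hcon) hs
  -- a bound for their real parts
  obtain ⟨B, hB1, hB⟩ : ∃ B : ℝ, B < 1 ∧ ∀ s ∈ K ∩ riemannZetaZeros, s.re ≤ B := by
    rcases (K ∩ riemannZetaZeros).eq_empty_or_nonempty with he | hne
    · refine ⟨0, by norm_num, fun s hs => ?_⟩
      rw [he] at hs
      exact absurd hs (Set.notMem_empty s)
    · obtain ⟨s0, hs0, hmax⟩ := Set.exists_max_image _ (fun s : ℂ => s.re) hfin hne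
      exact ⟨s0.re, hlt1 s0 hs0.2, hmax⟩
  obtain ⟨s, hs1, hs0⟩ := h (max (max B (1 - ε)) (1 / 2) - 1 / 2) (by
    have : max (max B (1 - ε)) (1 / 2) < 1 := by
      refine max_lt (max_lt hB1 (by linarith)) (by norm_num)
    linarith)
  have hs2 : max (max B (1 - ε)) (1 / 2) < s.re := by linarith
  rw [max_lt_iff, max_lt_iff] at hs2
  obtain ⟨⟨hs3, hs4⟩, hs5⟩ := hs2
  have hs6 := hlt1 s hs0
  have him : |T1| < |s.im| := by
    by_contra hcon
    rw [not_lt, abs_le] at hcon
    have h1 : s ∈ K ∩ riemannZetaZeros := by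
      refine ⟨?_, hs0⟩
      rw [hK, Complex.mem_reProdIm]
      exact ⟨⟨hs5.le, hs6.le⟩, hcon⟩
    exact absurd (hB s h1) (not_le.2 hs3)
  rcases le_or_gt 0 s.im with h0 | h0
  · rw [abs_of_nonneg h0] at him
    exact ⟨s, hs0, hs4, hs6, (le_abs_self T1).trans him.le⟩
  · rw [abs_of_neg h0] at him
    refine ⟨(starRingEnd ℂ) s, ?_, ?_, ?_, ?_⟩
    · rw [riemannZeta_conj, hs0, map_zero]
    · rw [Complex.conj_re]; exact hs4
    · rw [Complex.conj_re]; exact hs6
    · rw [Complex.conj_im]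
      exact (le_abs_self T1).trans him.le

end Pool.Agent.H986R2.K4
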