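import Pool.Agent.H986R2.K4.Spec
import Pool.Agent.H442R2.EHI.VdC
import Pool.Agent.H307R2.LU

set_option autoImplicit false

/-! `μ(1 - e) = o(e)` (van der Corput). -/

namespace Pool.Agent.H986R2.K4

open Complex Filter Topology MeasureTheory Set

namespace VdCAux

open Finset
open Pool.Agent.H469R2.NK (e norm_e)

/-- Abel's inequality -/
theorem abel (w : ℕ → ℝ) (z : ℕ → ℂ) (B : ℝ) (L : ℕ) (hw : ∀ n, w (n + 1) ≤ w n)
    (hw0 : 0 ≤ w L) (hB : ∀ m ≤ L, ‖∑ n ∈ range m, z n‖ ≤ B) :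
    ‖∑ n ∈ range L, (w n : ℂ) * z n‖ ≤ w 0 * B := by
  have key : ∀ m ≤ L, ‖∑ n ∈ range m, (w n : ℂ) * z n - (w m : ℂ) * ∑ n ∈ range m, z n‖ ≤
      (w 0 - w m) * B := by
    intro m
    induction m with
    | zero => intro _; simp
    | succ m ih =>
      intro hm
      have h1 := ih (by omega)
      have e1 : ∑ n ∈ range (m + 1), (w n : ℂ) * z n -
          (w (m + 1) : ℂ) * ∑ n ∈ range (m + 1), z n =
          (∑ n ∈ range m, (w n : ℂ) * z n - (w m : ℂ) * ∑ n ∈ range m, z n) +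
          ((w m - w (m + 1) : ℝ) : ℂ) * ∑ n ∈ range (m + 1), z n := by
        rw [sum_range_succ, sum_range_succ]
        push_cast
        ring
      rw [e1]
      refine (norm_add_le _ _).trans ?_
      have h2 : ‖((w m - w (m + 1) : ℝ) : ℂ) * ∑ n ∈ range (m + 1), z n‖ ≤
          (w m - w (m + 1)) * B := by
        rw [norm_mul, Complex.norm_real, Real.norm_of_nonneg (by linarith [hw m])]
        exact mul_le_mul_of_nonneg_left (hB _ hm) (by linarith [hw m])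
      linarith
  have h1 := key L le_rfl
  have h2 : ‖(w L : ℂ) * ∑ n ∈ range L, z n‖ ≤ w L * B := by
    rw [norm_mul, Complex.norm_real, Real.norm_of_nonneg hw0]
    exact mul_le_mul_of_nonneg_left (hB _ le_rfl) hw0
  have e1 : ∑ n ∈ range L, (w n : ℂ) * z n =
      (∑ n ∈ range L, (w n : ℂ) * z n - (w L : ℂ) * ∑ n ∈ range L, z n) +
      (w L : ℂ) * ∑ n ∈ range L, z n := by ring
  rw [e1]
  refine (norm_add_le _ _).trans ?_
  linarith

/-- partial sums -/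
noncomputable def PS (s : ℂ) (N : ℕ) : ℂ := ∑ n ∈ range N, (((n + 1 : ℕ) : ℂ)) ^ (-s)

theorem PS_eq (s : ℂ) (N : ℕ) : ∑ n ∈ Finset.Icc 1 N, (n : ℂ) ^ (-s) = PS s N := by
  unfold PS
  induction N with
  | zero => simp
  | succ N ih => rw [Finset.sum_Icc_succ_top (by omega), ih, sum_range_succ]

theorem term_eq (ε t : ℝ) (x : ℝ) (hx : 0 < x) (m : ℕ) (hm : (m : ℝ) = x) :
    (m : ℂ) ^ (-((1 : ℂ) - ε + t * I)) =
      ((x ^ (ε - 1) : ℝ) : ℂ) * e (-(t / (2 * Real.pi)) * Real.log x) := by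
  have hm0 : (m : ℂ) ≠ 0 := by
    intro h
    have : (m : ℝ) = 0 := by exact_mod_cast h
    linarith
  have hlog : Complex.log (m : ℂ) = ((Real.log x : ℝ) : ℂ) := by
    rw [← hm]
    exact (Complex.natCast_log).symm
  rw [Complex.cpow_def_of_ne_zero hm0, hlog, Real.rpow_def_of_pos hx]
  unfold e
  rw [Complex.ofReal_exp, ← Complex.exp_add]
  congr 1
  have hpi : (2 * Real.pi : ℝ) ≠ 0 := by positivity
  have h2 : 2 * Real.pi * (-(t / (2 * Real.pi)) * Real.log x) = -(t * Real.log x) := by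
    field_simp
  rw [h2]
  push_cast
  ring

/-- one dyadic block -/
theorem block {M : ℕ} {η C : ℝ}
    (hv : ∀ (J L : ℕ) (u ξ : ℝ), 1 ≤ J →
      (J : ℝ) ≤ u → L ≤ J → u + L ≤ 3 * J → (J : ℝ) ^ (1 / 2 : ℝ) ≤ |ξ| → |ξ| ≤ (J : ℝ) ^ M →
      ‖∑ n ∈ range L, e (ξ * Real.log (u + n))‖ ≤ C * (J : ℝ) ^ (1 - η))
    (_hη : 0 < η) (hC : 0 < C) {ε t : ℝ} (hε : 0 < ε) (hε4 : ε ≤ 1 / 4) (hεη : ε ≤ η / 2)
    (ht : 0 < t) {J : ℕ} (hJ : 1 ≤ J)
    (h1 : (J : ℝ) ^ (1 / 2 : ℝ) ≤ t / (2 * Real.pi)) (h2 : t / (2 * Real.pi) ≤ (J : ℝ) ^ M) :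
    ‖PS ((1 : ℂ) - ε + t * I) (J + J) - PS ((1 : ℂ) - ε + t * I) J‖ ≤ C * (J : ℝ) ^ (-(η / 2)) := by
  have hJ' : (1 : ℝ) ≤ J := by exact_mod_cast hJ
  have hJ0 : (0 : ℝ) < J := by linarith
  have e1 : PS ((1 : ℂ) - ε + t * I) (J + J) - PS ((1 : ℂ) - ε + t * I) J =
      ∑ n ∈ range J, (((((J : ℝ) + 1 + n) ^ (ε - 1) : ℝ)) : ℂ) *
        e (-(t / (2 * Real.pi)) * Real.log ((J : ℝ) + 1 + n)) := by
    unfold PS
    rw [sum_range_add, add_sub_cancel_left]
    apply sum_congr rfl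
    intro n _
    rw [term_eq ε t ((J : ℝ) + 1 + n) (by positivity) (J + n + 1) (by push_cast; ring)]
  rw [e1]
  have habs : |-(t / (2 * Real.pi))| = t / (2 * Real.pi) := by
    rw [abs_neg, abs_of_pos (by positivity)]
  have h3 := abel (fun n => ((J : ℝ) + 1 + n) ^ (ε - 1))
    (fun n => e (-(t / (2 * Real.pi)) * Real.log ((J : ℝ) + 1 + n)))
    (C * (J : ℝ) ^ (1 - η)) J ?_ ?_ ?_
  · refine h3.trans ?_
    have h4 : ((J : ℝ) + 1 + ((0 : ℕ) : ℝ)) ^ (ε - 1) ≤ (J : ℝ) ^ (ε - 1) := by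
      apply Real.rpow_le_rpow_of_nonpos hJ0 (by simp) (by linarith)
    calc ((J : ℝ) + 1 + ((0 : ℕ) : ℝ)) ^ (ε - 1) * (C * (J : ℝ) ^ (1 - η))
        ≤ (J : ℝ) ^ (ε - 1) * (C * (J : ℝ) ^ (1 - η)) :=
          mul_le_mul_of_nonneg_right h4 (by positivity)
      _ = C * (J : ℝ) ^ (ε - η) := by
          have : (J : ℝ) ^ (ε - η) = (J : ℝ) ^ (ε - 1) * (J : ℝ) ^ (1 - η) := by
            rw [← Real.rpow_add hJ0]; ring_nf
          rw [this]; ring
      _ ≤ C * (J : ℝ) ^ (-(η / 2)) := by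
          apply mul_le_mul_of_nonneg_left _ hC.le
          exact Real.rpow_le_rpow_of_exponent_le hJ' (by linarith)
  · intro n
    apply Real.rpow_le_rpow_of_nonpos (by positivity) _ (by linarith)
    push_cast
    linarith
  · positivity
  · intro m hm
    have hm' : (m : ℝ) ≤ J := by exact_mod_cast hm
    exact hv J m ((J : ℝ) + 1) (-(t / (2 * Real.pi))) hJ (by linarith) hm (by linarith)
      (by rw [habs]; exact h1) (by rw [habs]; exact h2)

/-- all dyadic blocks -/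
theorem blocks {M : ℕ} {η C : ℝ}
    (hv : ∀ (J L : ℕ) (u ξ : ℝ), 1 ≤ J →
      (J : ℝ) ≤ u → L ≤ J → u + L ≤ 3 * J → (J : ℝ) ^ (1 / 2 : ℝ) ≤ |ξ| → |ξ| ≤ (J : ℝ) ^ M →
      ‖∑ n ∈ range L, e (ξ * Real.log (u + n))‖ ≤ C * (J : ℝ) ^ (1 - η))
    (hη : 0 < η) (hC : 0 < C) {ε t : ℝ} (hε : 0 < ε) (hε4 : ε ≤ 1 / 4) (hεη : ε ≤ η / 2)
    (ht : 0 < t) {J : ℕ} (hJ : 1 ≤ J) (h2 : t / (2 * Real.pi) ≤ (J : ℝ) ^ M) :
    ∀ K : ℕ, (2 : ℝ) ^ K * J ≤ t ^ 2 / 20 →
    ‖PS ((1 : ℂ) - ε + t * I) (2 ^ K * J) - PS ((1 : ℂ) - ε + t * I) J‖ ≤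
      C * ∑ i ∈ range K, ((2 : ℝ) ^ (-(η / 2))) ^ i := by
  have hJ' : (1 : ℝ) ≤ J := by exact_mod_cast hJ
  intro K
  induction K with
  | zero => intro _; simp
  | succ K ih =>
    intro hK
    have hK' : (2 : ℝ) ^ K * J ≤ t ^ 2 / 40 := by
      rw [pow_succ] at hK
      linarith
    have hKp : (1 : ℝ) ≤ 2 ^ K := one_le_pow₀ (by norm_num)
    have ih' := ih (by nlinarith [sq_nonneg t])
    have hcast : ((2 ^ K * J : ℕ) : ℝ) = (2 : ℝ) ^ K * J := by push_cast; ring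
    have hb := block hv hη hC hε hε4 hεη ht (J := 2 ^ K * J)
      (Nat.mul_pos (pow_pos (by norm_num) K) hJ) ?_ ?_
    · have e1 : 2 ^ (K + 1) * J = 2 ^ K * J + 2 ^ K * J := by ring
      rw [e1, sum_range_succ, mul_add]
      have e2 : PS ((1 : ℂ) - ε + t * I) (2 ^ K * J + 2 ^ K * J) - PS ((1 : ℂ) - ε + t * I) J =
          (PS ((1 : ℂ) - ε + t * I) (2 ^ K * J + 2 ^ K * J) -
            PS ((1 : ℂ) - ε + t * I) (2 ^ K * J)) +
          (PS ((1 : ℂ) - ε + t * I) (2 ^ K * J) - PS ((1 : ℂ) - ε + t * I) J) := by ring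
      rw [e2]
      refine (norm_add_le _ _).trans ?_
      have h5 : C * ((2 ^ K * J : ℕ) : ℝ) ^ (-(η / 2)) ≤ C * ((2 : ℝ) ^ (-(η / 2))) ^ K := by
        apply mul_le_mul_of_nonneg_left _ hC.le
        rw [hcast]
        calc ((2 : ℝ) ^ K * J) ^ (-(η / 2)) ≤ ((2 : ℝ) ^ K) ^ (-(η / 2)) := by
              apply Real.rpow_le_rpow_of_nonpos (by positivity) _ (by linarith)
              nlinarith
          _ = ((2 : ℝ) ^ (-(η / 2))) ^ K := by
              rw [← Real.rpow_natCast, ← Real.rpow_natCast, ← Real.rpow_mul (by norm_num),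
                ← Real.rpow_mul (by norm_num), mul_comm]
      linarith
    · rw [hcast, ← Real.sqrt_eq_rpow]
      apply Real.sqrt_le_iff.2
      refine ⟨by positivity, hK'.trans ?_⟩
      have hpi : Real.pi < 3.15 := Real.pi_lt_d2
      have hpi0 : 0 < Real.pi := Real.pi_pos
      rw [div_pow, div_le_div_iff₀ (by norm_num) (by positivity)]
      have h6 : (2 * Real.pi) ^ 2 ≤ 40 := by nlinarith
      nlinarith [sq_nonneg t]
    · refine h2.trans ?_
      apply pow_le_pow_left₀ (by positivity)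
      rw [hcast]
      nlinarith

/-- the tail of the truncated formula -/
theorem tail {ε t : ℝ} (hε : 0 < ε) (hε4 : ε ≤ 1 / 4) (ht : 2 ≤ t) {N : ℕ} (hN : 1 ≤ N) :
    ‖riemannZeta ((1 : ℂ) - ε + t * I) - PS ((1 : ℂ) - ε + t * I) N‖ ≤
      (N : ℝ) ^ ε / t + 2 * (1 + t) * (N : ℝ) ^ (ε - 1) := by
  set s : ℂ := (1 : ℂ) - ε + t * I with hs
  have hre : s.re = 1 - ε := by simp [hs]
  have him : s.im = t := by simp [hs]
  have hs0 : 0 < s.re := by rw [hre]; linarith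
  have hs1 : s ≠ 1 := by
    intro h
    rw [h] at him
    simp at him
    linarith
  have hN0 : (0 : ℝ) < N := by exact_mod_cast hN
  rw [Pool.Agent.H307R2.zeta_eq hN hs0 hs1, PS_eq]
  have e1 : PS s N + (N : ℂ) ^ (1 - s) / (s - 1) +
      s * Pool.Agent.H307R2.TM N Pool.Agent.H307R2.Ez s - PS s N =
      (N : ℂ) ^ (1 - s) / (s - 1) + s * Pool.Agent.H307R2.TM N Pool.Agent.H307R2.Ez s := by ring
  rw [e1]
  refine (norm_add_le _ _).trans ?_
  have n1 : ‖(N : ℂ) ^ (1 - s)‖ = (N : ℝ) ^ ε := by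
    have := Complex.norm_cpow_eq_rpow_re_of_pos hN0 (1 - s)
    rw [Complex.ofReal_natCast] at this
    rw [this]
    simp [hre]
  have n2 : t ≤ ‖s - 1‖ := by
    have := Complex.abs_im_le_norm (s - 1)
    have h3 : (s - 1).im = s.im := by simp
    rw [h3, him] at this
    exact (le_abs_self _).trans this
  have n3 : ‖s‖ ≤ 1 + t := by
    refine (Complex.norm_le_abs_re_add_abs_im s).trans ?_
    rw [hre, him, abs_of_nonneg (by linarith), abs_of_nonneg (by linarith)]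
    linarith
  have n4 := Pool.Agent.H307R2.TM_norm_le hN Pool.Agent.H307R2.Ez_norm_le hs0
  apply add_le_add
  · rw [norm_div, n1]
    apply div_le_div_of_nonneg_left (by positivity) (by linarith) n2
  · rw [norm_mul]
    have n5 : ‖Pool.Agent.H307R2.TM N Pool.Agent.H307R2.Ez s‖ ≤ 2 * (N : ℝ) ^ (ε - 1) := by
      refine n4.trans ?_
      rw [hre, one_mul, div_le_iff₀ (by linarith)]
      have e2 : -(1 - ε) = ε - 1 := by ring
      rw [e2]
      have : 0 < (N : ℝ) ^ (ε - 1) := Real.rpow_pos_of_pos hN0 _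
      nlinarith
    calc ‖s‖ * ‖Pool.Agent.H307R2.TM N Pool.Agent.H307R2.Ez s‖
        ≤ (1 + t) * (2 * (N : ℝ) ^ (ε - 1)) :=
          mul_le_mul n3 n5 (norm_nonneg _) (by linarith)
      _ = 2 * (1 + t) * (N : ℝ) ^ (ε - 1) := by ring

/-- the short sum -/
theorem short {ε t : ℝ} (hε : 0 < ε) (hε4 : ε ≤ 1 / 4) {J : ℕ} (hJ : 1 ≤ J) :
    ‖PS ((1 : ℂ) - ε + t * I) J‖ ≤ (1 + 1 / ε) * (J : ℝ) ^ (2 * ε) := by
  have hJ' : (1 : ℝ) ≤ J := by exact_mod_cast hJ
  have hJ0 : (0 : ℝ) < J := by linarith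
  have h1 : ‖PS ((1 : ℂ) - ε + t * I) J‖ ≤ ∑ n ∈ range J, (J : ℝ) ^ ε * ((n : ℝ) + 1)⁻¹ := by
    unfold PS
    refine (norm_sum_le _ _).trans (sum_le_sum fun n hn => ?_)
    rw [Finset.mem_range] at hn
    have hn' : (n : ℝ) + 1 ≤ J := by exact_mod_cast hn
    rw [term_eq ε t ((n : ℝ) + 1) (by positivity) (n + 1) (by push_cast; ring), norm_mul,
      norm_e, mul_one, Complex.norm_real, Real.norm_of_nonneg (by positivity),
      Real.rpow_sub (by positivity), Real.rpow_one, div_eq_mul_inv]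
    apply mul_le_mul_of_nonneg_right _ (by positivity)
    exact Real.rpow_le_rpow (by positivity) hn' hε.le
  have h2 : ∑ n ∈ range J, (J : ℝ) ^ ε * ((n : ℝ) + 1)⁻¹ ≤ (J : ℝ) ^ ε * (1 + Real.log J) := by
    rw [← mul_sum]
    apply mul_le_mul_of_nonneg_left _ (by positivity)
    have h3 := harmonic_le_one_add_log J
    unfold harmonic at h3
    push_cast at h3
    exact h3
  have h4 : Real.log J ≤ (J : ℝ) ^ ε / ε := Real.log_le_rpow_div hJ0.le hε
  have h5 : (1 : ℝ) ≤ (J : ℝ) ^ ε := Real.one_le_rpow hJ' hε.le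
  calc ‖PS ((1 : ℂ) - ε + t * I) J‖ ≤ (J : ℝ) ^ ε * (1 + Real.log J) := h1.trans h2
    _ ≤ (J : ℝ) ^ ε * ((J : ℝ) ^ ε + (J : ℝ) ^ ε / ε) :=
        mul_le_mul_of_nonneg_left (by linarith) (by positivity)
    _ = (1 + 1 / ε) * (J : ℝ) ^ (2 * ε) := by
        have : (J : ℝ) ^ (2 * ε) = (J : ℝ) ^ ε * (J : ℝ) ^ ε := by
          rw [← Real.rpow_add hJ0]; ring_nf
        rw [this]; ring

end VdCAux

open VdCAux in
theorem vdcQ : S_VDC := by
  intro δ hδ
  set d : ℝ := min δ 1 / 2 with hd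
  have hd0 : 0 < d := by rw [hd]; positivity
  have hd1 : d ≤ 1 / 2 := by rw [hd]; have := min_le_right δ 1; linarith
  have hdδ : 2 * d ≤ δ := by rw [hd]; have := min_le_left δ 1; linarith
  obtain ⟨M, hM⟩ := exists_nat_ge (1 / d)
  have hdM : 1 ≤ d * M := by
    rw [div_le_iff₀ hd0] at hM
    linarith
  obtain ⟨η, hη, C, hC, hv⟩ := Pool.Agent.H442R2.EHI.vdc_log M
  refine ⟨min (η / 2) (1 / 4), by positivity, min_le_right _ _, ?_⟩
  intro ε hε hεe
  have hε4 : ε ≤ 1 / 4 := hεe.trans (min_le_right _ _)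
  have hεη : ε ≤ η / 2 := hεe.trans (min_le_left _ _)
  set q : ℝ := (2 : ℝ) ^ (-(η / 2)) with hq
  have hq0 : 0 < q := by rw [hq]; positivity
  have hq1 : q < 1 := by
    rw [hq]
    exact Real.rpow_lt_one_of_one_lt_of_neg (by norm_num) (by linarith)
  refine ⟨2 * (1 + 1 / ε) + C / (1 - q) + 1 + 28 + 200, ?_, ?_⟩
  · have : 0 < 1 - q := by linarith
    positivity
  intro t ht
  have ht0 : 0 < t := by linarith
  have hD1 : 1 ≤ t ^ (δ * ε) := Real.one_le_rpow (by linarith) (by positivity)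
  have hcq : 0 ≤ C / (1 - q) := by
    have : 0 < 1 - q := by linarith
    positivity
  have hce : 0 ≤ 1 / ε := by positivity
  have hcast : riemannZeta (1 - (ε : ℂ) + t * I) = riemannZeta ((1 : ℂ) - ε + t * I) := rfl
  rw [hcast]
  rcases le_or_gt t 40 with ht40 | ht40
  · have h1 := tail hε hε4 ht (N := 1) le_rfl
    have h2 := short (t := t) hε hε4 (J := 1) le_rfl
    simp only [Nat.cast_one, Real.one_rpow, mul_one] at h1 h2
    have h3 : ‖riemannZeta ((1 : ℂ) - ε + t * I)‖ ≤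
        ‖riemannZeta ((1 : ℂ) - ε + t * I) - PS ((1 : ℂ) - ε + t * I) 1‖ +
        ‖PS ((1 : ℂ) - ε + t * I) 1‖ := by
      have := norm_add_le (riemannZeta ((1 : ℂ) - ε + t * I) - PS ((1 : ℂ) - ε + t * I) 1)
        (PS ((1 : ℂ) - ε + t * I) 1)
      rwa [sub_add_cancel] at this
    have h4 : 1 / t ≤ 1 := by rw [div_le_one ht0]; linarith
    calc ‖riemannZeta ((1 : ℂ) - ε + t * I)‖ ≤ 2 * (1 + 1 / ε) + C / (1 - q) + 1 + 28 + 200 := by
          linarith
      _ ≤ (2 * (1 + 1 / ε) + C / (1 - q) + 1 + 28 + 200) * t ^ (δ * ε) := by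
          apply le_mul_of_one_le_right _ hD1
          linarith
  · -- large t
    set J : ℕ := ⌈t ^ d⌉₊ with hJ
    have htd1 : 1 ≤ t ^ d := Real.one_le_rpow (by linarith) hd0.le
    have hJge : t ^ d ≤ (J : ℝ) := Nat.le_ceil _
    have hJ1' : (1 : ℝ) ≤ J := htd1.trans hJge
    have hJ1 : 1 ≤ J := by exact_mod_cast hJ1'
    have hJle : (J : ℝ) ≤ 2 * t ^ d := by
      have := Nat.ceil_lt_add_one (show 0 ≤ t ^ d by linarith)
      rw [hJ]; linarith
    have htd : t ^ d ≤ t := by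
      calc t ^ d ≤ t ^ (1 : ℝ) := Real.rpow_le_rpow_of_exponent_le (by linarith) (by linarith)
        _ = t := Real.rpow_one t
    have hJt : (J : ℝ) ≤ t ^ 2 / 20 := by nlinarith
    have hx : 1 ≤ t ^ 2 / 20 / J := by
      rw [le_div_iff₀ (by linarith)]
      linarith
    obtain ⟨K, hK1, hK2⟩ := exists_nat_pow_near hx (show (1 : ℝ) < 2 by norm_num)
    have hK1' : (2 : ℝ) ^ K * J ≤ t ^ 2 / 20 := by
      rwa [le_div_iff₀ (by linarith)] at hK1
    have hK2' : t ^ 2 / 40 ≤ (2 : ℝ) ^ K * J := by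
      rw [div_lt_iff₀ (by linarith), pow_succ (2 : ℝ) K] at hK2
      linarith
    have hxi : t / (2 * Real.pi) ≤ (J : ℝ) ^ M := by
      have hpi : 3 < Real.pi := Real.pi_gt_three
      calc t / (2 * Real.pi) ≤ t := div_le_self ht0.le (by linarith)
        _ = t ^ (1 : ℝ) := (Real.rpow_one t).symm
        _ ≤ t ^ (d * M) := Real.rpow_le_rpow_of_exponent_le (by linarith) hdM
        _ = (t ^ d) ^ M := by rw [Real.rpow_mul ht0.le, Real.rpow_natCast]
        _ ≤ (J : ℝ) ^ M := pow_le_pow_left₀ (by linarith) hJge M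
    have hb := blocks hv hη hC hε hε4 hεη ht0 hJ1 hxi K hK1'
    have hgeo : ∑ i ∈ Finset.range K, q ^ i ≤ 1 / (1 - q) := by
      rw [le_div_iff₀ (by linarith), mul_comm, mul_neg_geom_sum]
      have : 0 ≤ q ^ K := by positivity
      linarith
    have hb' : ‖PS ((1 : ℂ) - ε + t * I) (2 ^ K * J) - PS ((1 : ℂ) - ε + t * I) J‖ ≤
        C / (1 - q) := by
      refine hb.trans ?_
      rw [← hq]
      calc C * ∑ i ∈ Finset.range K, q ^ i ≤ C * (1 / (1 - q)) :=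
            mul_le_mul_of_nonneg_left hgeo hC.le
        _ = C / (1 - q) := by ring
    have hN1 : 1 ≤ 2 ^ K * J := Nat.mul_pos (pow_pos (by norm_num) K) hJ1
    have hNc : ((2 ^ K * J : ℕ) : ℝ) = (2 : ℝ) ^ K * J := by push_cast; ring
    have htl := tail hε hε4 ht hN1
    rw [hNc] at htl
    set N : ℝ := (2 : ℝ) ^ K * J with hN
    have hN1' : 1 ≤ N := by
      have : (1 : ℝ) ≤ ((2 ^ K * J : ℕ) : ℝ) := by exact_mod_cast hN1
      rwa [hNc] at this
    have hNe : N ^ ε / t ≤ 1 := by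
      rw [div_le_one ht0]
      calc N ^ ε ≤ N ^ (1 / 2 : ℝ) := Real.rpow_le_rpow_of_exponent_le hN1' (by linarith)
        _ ≤ (t ^ 2) ^ (1 / 2 : ℝ) := Real.rpow_le_rpow (by linarith) (by nlinarith) (by norm_num)
        _ = t := by rw [← Real.sqrt_eq_rpow, Real.sqrt_sq ht0.le]
    have hNe2 : 2 * (1 + t) * N ^ (ε - 1) ≤ 28 := by
      have h6 : N ^ (ε - 1) ≤ 7 / t := by
        calc N ^ (ε - 1) ≤ N ^ (-(1 / 2) : ℝ) :=
              Real.rpow_le_rpow_of_exponent_le hN1' (by linarith)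
          _ = (Real.sqrt N)⁻¹ := by
              rw [Real.rpow_neg (by linarith), Real.sqrt_eq_rpow]
          _ ≤ (t / 7)⁻¹ := by
              apply inv_anti₀ (by positivity)
              apply Real.le_sqrt_of_sq_le
              nlinarith
          _ = 7 / t := by rw [inv_div]
      calc 2 * (1 + t) * N ^ (ε - 1) ≤ 2 * (1 + t) * (7 / t) :=
            mul_le_mul_of_nonneg_left h6 (by linarith)
        _ = 14 / t + 14 := by field_simp; ring
        _ ≤ 28 := by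
            have : 14 / t ≤ 14 := div_le_self (by norm_num) (by linarith)
            linarith
    have hsh := short (t := t) hε hε4 hJ1
    have hsh2 : (J : ℝ) ^ (2 * ε) ≤ 2 * t ^ (δ * ε) := by
      calc (J : ℝ) ^ (2 * ε) ≤ (2 * t ^ d) ^ (2 * ε) :=
            Real.rpow_le_rpow (by linarith) hJle (by linarith)
        _ = 2 ^ (2 * ε) * t ^ (d * (2 * ε)) := by
            rw [Real.mul_rpow (by norm_num) (by linarith), ← Real.rpow_mul ht0.le]
        _ ≤ 2 * t ^ (δ * ε) := by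
            apply mul_le_mul
            · calc (2 : ℝ) ^ (2 * ε) ≤ (2 : ℝ) ^ (1 : ℝ) :=
                    Real.rpow_le_rpow_of_exponent_le (by norm_num) (by linarith)
                _ = 2 := Real.rpow_one 2
            · apply Real.rpow_le_rpow_of_exponent_le (by linarith)
              nlinarith
            · positivity
            · norm_num
    have htot : ‖riemannZeta ((1 : ℂ) - ε + t * I)‖ ≤
        ‖riemannZeta ((1 : ℂ) - ε + t * I) - PS ((1 : ℂ) - ε + t * I) (2 ^ K * J)‖ +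
        ‖PS ((1 : ℂ) - ε + t * I) (2 ^ K * J) - PS ((1 : ℂ) - ε + t * I) J‖ +
        ‖PS ((1 : ℂ) - ε + t * I) J‖ := by
      have e1 : riemannZeta ((1 : ℂ) - ε + t * I) =
        (riemannZeta ((1 : ℂ) - ε + t * I) - PS ((1 : ℂ) - ε + t * I) (2 ^ K * J)) +
        (PS ((1 : ℂ) - ε + t * I) (2 ^ K * J) - PS ((1 : ℂ) - ε + t * I) J) +
        PS ((1 : ℂ) - ε + t * I) J := by ring
      conv_lhs => rw [e1]
      refine (norm_add_le _ _).trans ?_
      gcongr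
      exact norm_add_le _ _
    have h7 : (1 + 1 / ε) * (J : ℝ) ^ (2 * ε) ≤ 2 * (1 + 1 / ε) * t ^ (δ * ε) := by
      calc (1 + 1 / ε) * (J : ℝ) ^ (2 * ε) ≤ (1 + 1 / ε) * (2 * t ^ (δ * ε)) :=
            mul_le_mul_of_nonneg_left hsh2 (by positivity)
        _ = 2 * (1 + 1 / ε) * t ^ (δ * ε) := by ring
    have h8 : C / (1 - q) + 1 + 28 + 200 ≤ (C / (1 - q) + 1 + 28 + 200) * t ^ (δ * ε) := by
      apply le_mul_of_one_le_right _ hD1
      linarith
    calc ‖riemannZeta ((1 : ℂ) - ε + t * I)‖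
        ≤ 2 * (1 + 1 / ε) * t ^ (δ * ε) + (C / (1 - q) + 1 + 28 + 200) := by
          linarith
      _ ≤ 2 * (1 + 1 / ε) * t ^ (δ * ε) + (C / (1 - q) + 1 + 28 + 200) * t ^ (δ * ε) := by
          linarith
      _ = (2 * (1 + 1 / ε) + C / (1 - q) + 1 + 28 + 200) * t ^ (δ * ε) := by ring

end Pool.Agent.H986R2.K4
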