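import Pool.Agent.H986R2.K4.Spec
import Pool.Agent.H24R2.DZ.Strip

set_option autoImplicit false

/-!
# No bad zeros in the window
-/

namespace Pool.Agent.H986R2.K4

open Complex Filter Topology MeasureTheory Set
open Pool.Agent.H24R2.JP (XX HH Om)
open Pool.Agent.H24R2.DZ (bad hc)

namespace WinAux

theorem diffXX : Differentiable ℂ XX := by
  have h : Differentiable ℂ completedRiemannZeta₀ := differentiable_completedZeta₀
  unfold Pool.Agent.H24R2.JP.XX
  refine Differentiable.add_const _ (Differentiable.mul (by fun_prop) ?_)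
  exact h.comp (by fun_prop)

theorem scale {f : ℂ → ℂ} (hf : Differentiable ℂ f) (c r : ℂ) (n : ℕ) (z : ℂ) :
    iteratedDeriv n (fun z => f (c + r * z)) z = r ^ n * iteratedDeriv n f (c + r * z) := by
  have h1 : ContDiff ℂ n (fun z => f (c + z)) :=
    (hf.comp (differentiable_id.const_add c)).contDiff
  have h2 := congrFun (iteratedDeriv_comp_const_mul (n := n) h1 r) z
  have h3 := congrFun (iteratedDeriv_comp_const_add n f c) (r * z)
  rw [h2, h3]

theorem mono {κ R η η' : ℝ} {n : ℕ} {F : ℂ → ℂ} (h : η' ≤ η) (hN : QQ κ R n η' F) :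
    QQ κ R n η F :=
  ⟨hN.diff, hN.symm, fun z h1 h2 => ⟨(hN.far z h1 h2).1,
    (hN.far z h1 h2).2.trans (mul_le_mul_of_nonneg_right h (Nat.cast_nonneg n))⟩, hN.near⟩

theorem win' (h0 : Pool.Agent.H24R2.DZ.SStrip) (h1 : S_NORM) (h2 : S_AW) (h3 : S_NL) : S_WIN := by
  intro y r0 hy0 hy1 hZ hyr hr1
  have hr0 : 0 < r0 := lt_of_le_of_lt hy0 hyr
  obtain ⟨κ, hκ0, hκ1, hN⟩ := h1 y r0 hy0 hy1 hZ hyr hr1
  set R : ℝ := 1 / (2 * r0) + 3 with hRdef
  have hR : 3 ≤ R := by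
    have : 0 < 1 / (2 * r0) := by positivity
    linarith
  obtain ⟨κ1, η1, n1, hκ10, hκ1κ, hη1, H3⟩ := h3 κ R hκ0 hκ1 hR
  obtain ⟨η2, n2, hη2, H2⟩ := h2 κ R κ1 hκ0 hκ1 hR hκ10 hκ1κ
  obtain ⟨T0, hT0, H1⟩ := hN R (min η1 η2) hR (lt_min hη1 hη2)
  refine ⟨max T0 (Real.exp (2 * (max n1 n2 : ℕ) / r0)), hT0.trans (le_max_left _ _), ?_⟩
  intro t n ht hn1 hn2 s hs hbad
  have htT0 : T0 ≤ t := (le_max_left _ _).trans ht
  have htE : Real.exp (2 * (max n1 n2 : ℕ) / r0) ≤ t := (le_max_right _ _).trans ht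
  have ht2 : 2 ≤ t := hT0.trans htT0
  have hlog : 2 * ((max n1 n2 : ℕ) : ℝ) / r0 ≤ Real.log t :=
    (Real.le_log_iff_exp_le (by linarith)).2 htE
  have hlog0 : 0 < Real.log t := Real.log_pos (by linarith)
  have hOm : 0 < Om t := by unfold Om; positivity
  have hnn : ((max n1 n2 : ℕ) : ℝ) ≤ n := by
    refine le_trans ?_ hn1
    rw [div_le_iff₀ hr0] at hlog
    unfold Om
    linarith
  have hnn' : max n1 n2 ≤ n := by exact_mod_cast hnn
  have hn0 : (0 : ℝ) < n := lt_of_lt_of_le (by positivity) hn1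
  set r : ℝ := n / Om t with hr
  have hrpos : 0 < r := by positivity
  have hrr0 : r0 ≤ r := by rw [hr, le_div_iff₀ hOm]; exact hn1
  have hrc : (r : ℂ) ≠ 0 := by exact_mod_cast hrpos.ne'
  have hQ := H1 t n htT0 hn1 hn2
  set x : ℝ := s.re / r with hx
  have hsx : I * (t : ℂ) + (r : ℂ) * (x : ℂ) = s := by
    have e1 : (r : ℂ) * (x : ℂ) = (s.re : ℂ) := by
      rw [hx]; push_cast; field_simp
    rw [e1, ← hs]
    apply Complex.ext <;> simp
  have hder : ∀ m : ℕ, iteratedDeriv m (fun z : ℂ => XX (I * t + ((r : ℝ) : ℂ) * z)) (x : ℂ) =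
      (r : ℂ) ^ m * iteratedDeriv m XX s := by
    intro m
    rw [scale diffXX (I * t) r m, hsx]
  have hzero : iteratedDeriv n (fun z : ℂ => XX (I * t + ((r : ℝ) : ℂ) * z)) (x : ℂ) = 0 := by
    rw [hder, hbad.1, mul_zero]
  have hstrip := h0 n s hbad.1
  by_cases hc : κ1 ≤ |x|
  · refine H2 n _ ((le_max_right _ _).trans hnn') (mono (min_le_right _ _) hQ) x hc ?_ hzero
    have e1 : |x| = |s.re| / r := by rw [hx, abs_div, abs_of_pos hrpos]
    rw [e1, div_le_iff₀ hrpos]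
    have e2 : (1 : ℝ) / 2 ≤ 1 / (2 * r0) * r := by
      rw [div_mul_eq_mul_div, one_mul, div_le_div_iff₀ (by norm_num) (by positivity)]
      linarith
    have e3 : (R - 2) * r = 1 / (2 * r0) * r + r := by rw [hRdef]; ring
    rw [e3]
    linarith
  · push Not at hc
    obtain ⟨h5, h6⟩ := H3 n _ ((le_max_left _ _).trans hnn') (mono (min_le_left _ _) hQ) x hc.le
      hzero
    rcases hbad.2 with h7 | h7
    · apply h7
      rw [hx] at h5
      exact (div_eq_zero_iff.1 h5).resolve_right hrpos.ne'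
    · apply h6
      rw [hder, h7, mul_zero]

end WinAux

theorem win (h1 : S_NORM) (h2 : S_AW) (h3 : S_NL) : S_WIN :=
  WinAux.win' Pool.Agent.H24R2.DZ.strip h1 h2 h3

end Pool.Agent.H986R2.K4
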