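import Pool.Agent.H986R2.K4.Spec
import Pool.Agent.H24R2.JP.XiFinal

set_option autoImplicit false

namespace Pool.Agent.H986R2.K4

open Complex Filter Topology MeasureTheory Set
open Pool.Agent.H24R2.JP (XX HH Om)
open Pool.Agent.H24R2.DZ (bad hc)

namespace XiAux

theorem iter (n : ℕ) (s : ℂ) :
    iteratedDeriv n xi s = (1 / 8) * iteratedDeriv n XX (s - 1 / 2) :=
  Pool.Agent.H24R2.JP.XiFin.iter_xi n s

theorem zero_iff (n : ℕ) (s : ℂ) :
    iteratedDeriv n xi s = 0 ↔ iteratedDeriv n XX (s - 1 / 2) = 0 := by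
  rw [iter]
  constructor
  · intro h
    rcases mul_eq_zero.1 h with h | h
    · norm_num at h
    · exact h
  · intro h
    rw [h, mul_zero]

theorem half_im (s : ℂ) : (s - 1 / 2).im = s.im := by
  simp

theorem half_re (s : ℂ) : (s - 1 / 2).re = s.re - 1 / 2 := by
  simp

end XiAux

open XiAux

theorem xiE : S_XI := by
  refine ⟨fun κ => ⟨?_, ?_⟩, zero_iff⟩
  · rintro ⟨N, h⟩
    refine ⟨N, fun n hn s hs hbad => ?_⟩
    obtain ⟨h1, h2⟩ := hbad
    have e : (s + 1 / 2) - 1 / 2 = s := by ring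
    have h3 : iteratedDeriv n xi (s + 1 / 2) = 0 := by
      rw [zero_iff, e]
      exact h1
    have him : (s + 1 / 2).im = s.im := by
      rw [← half_im (s + 1 / 2), e]
    have hre : s.re = (s + 1 / 2).re - 1 / 2 := by
      rw [← half_re (s + 1 / 2), e]
    obtain ⟨h4, h5⟩ := h n hn (s + 1 / 2) h3 (by rw [him]; exact hs)
    rcases h2 with h2 | h2
    · apply h2
      rw [hre, h4, sub_self]
    · apply h5
      rw [zero_iff, e]
      exact h2
  · rintro ⟨N, h⟩
    refine ⟨N, fun n hn s h1 hs => ?_⟩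
    have h2 := h n hn (s - 1 / 2) (by rw [half_im]; exact hs)
    have h3 := (zero_iff n s).1 h1
    unfold bad at h2
    push Not at h2
    obtain h4 := h2 h3
    refine ⟨?_, ?_⟩
    · have h5 := h4.1
      rw [half_re] at h5
      linarith
    · intro h6
      exact h4.2 ((zero_iff (n + 1) s).1 h6)

end Pool.Agent.H986R2.K4
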