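import Pool.Agent.H986R2.K4.Compose
import Pool.Agent.H986R2.K4.Conv
import Pool.Agent.H986R2.K4.A1
import Pool.Agent.H986R2.K4.A2
import Pool.Agent.H986R2.K4.AW
import Pool.Agent.H986R2.K4.Ch
import Pool.Agent.H986R2.K4.Fwd
import Pool.Agent.H986R2.K4.GR
import Pool.Agent.H986R2.K4.HHb
import Pool.Agent.H986R2.K4.LL
import Pool.Agent.H986R2.K4.LR
import Pool.Agent.H986R2.K4.Lap
import Pool.Agent.H986R2.K4.MerA
import Pool.Agent.H986R2.K4.MerB
import Pool.Agent.H986R2.K4.NL
import Pool.Agent.H986R2.K4.Norm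
import Pool.Agent.H986R2.K4.PL
import Pool.Agent.H986R2.K4.RG
import Pool.Agent.H986R2.K4.RT
import Pool.Agent.H986R2.K4.SAB
import Pool.Agent.H986R2.K4.Tay
import Pool.Agent.H986R2.K4.UB
import Pool.Agent.H986R2.K4.V0
import Pool.Agent.H986R2.K4.VdC
import Pool.Agent.H986R2.K4.Win
import Pool.Agent.H986R2.K4.Xi

set_option autoImplicit false

/-!
# The constant four: assembly
-/

namespace Pool.Agent.H986R2.K4

theorem winT : S_WIN := win (normQ hh (pl hh)) (aw lapQ) (nl (rt lapQ))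

theorem fwdT : S_FWD := fwd winT ch

theorem grT : S_GR := gr sab (rg ll hh a1) ub hh

theorem convT : S_CONV := conv vdcQ v0 (pl hh) lr grT hh tay

theorem finalT : S_FINAL := final a1 (a2 sab a1) fwdT convT ⟨merA, merB⟩ xiE

end Pool.Agent.H986R2.K4
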