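import Pool.Agent.H986R2.K4.Spec

set_option autoImplicit false

namespace Pool.Agent.H986R2.K4

open Complex Filter Topology MeasureTheory Set
open Pool.Agent.H24R2.JP (XX HH Om)
open Pool.Agent.H24R2.DZ (bad hc)

theorem final (hA1 : S_A1) (hA2 : S_A2) (hF : S_FWD) (hC : S_CONV) (hM : S_MER) (hX : S_XI) :
    S_FINAL := by
  have p2 : ∀ θ : ℝ, 1 / 2 ≤ θ → θ < 1 →
      (∀ θ' : ℝ, θ < θ' → ∃ C : ℝ, ∀ x : ℝ, 1 ≤ x → |Mer x| ≤ C * x ^ θ') →
      ∀ κ : ℝ, κ * (θ - 1 / 2) < 2 → OnLine κ := by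
    intro θ h1 h2 h κ hκ
    have hz : ∀ s : ℂ, θ < s.re → riemannZeta s ≠ 0 := by
      intro s hs
      obtain ⟨C, hC⟩ := h ((θ + s.re) / 2) (by linarith)
      exact hM.2 ((θ + s.re) / 2) C (by linarith) hC s (by linarith)
    have hZ : ZB (θ - 1 / 2) := by
      refine hA2 (θ - 1 / 2) (by linarith) (by linarith) ?_
      intro s hs
      exact hz s (by linarith)
    exact (hX.1 κ).2 (hF (θ - 1 / 2) κ (by linarith) (by linarith) hZ hκ)
  refine ⟨?_, p2, ?_, ?_⟩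
  · intro κ hκ
    exact (hX.1 κ).2 (hF (1 / 2) κ (by norm_num) le_rfl hA1 (by linarith))
  · rintro ⟨κ, hκ, N, hN⟩
    obtain ⟨y, hy, hz⟩ := hC κ hκ ⟨N, fun n hn s hs him => by
      have h0 : iteratedDeriv n xi (s + 1 / 2) = 0 := by
        rw [hX.2 n (s + 1 / 2)]
        simpa using hs
      have h1 := (hN n hn (s + 1 / 2) h0 (by simpa using him)).1
      simpa using h1⟩
    have hθ1 : 1 / 2 ≤ max (1 / 2) (1 / 2 + y) := le_max_left _ _
    have hθ2 : max (1 / 2) (1 / 2 + y) < 1 := max_lt (by norm_num) (by linarith)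
    obtain ⟨C, hC'⟩ := hM.1 (max (1 / 2) (1 / 2 + y)) hθ1 hθ2
      (fun s hs => hz s (lt_of_le_of_lt (le_max_right _ _) hs)) ((max (1 / 2) (1 / 2 + y) + 1) / 2)
      (by linarith)
    exact ⟨(max (1 / 2) (1 / 2 + y) + 1) / 2, C, by linarith, hC'⟩
  · rintro ⟨θ, C, hθ, h⟩
    set θ1 := max θ (3 / 4) with hθ1
    have h1 : 3 / 4 ≤ θ1 := le_max_right _ _
    have h2 : θ1 < 1 := max_lt hθ (by norm_num)
    have h3 : θ ≤ θ1 := le_max_left _ _
    have h4 : 0 < θ1 - 1 / 2 := by linarith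
    have h5 : 4 < 2 / (θ1 - 1 / 2) := by
      rw [lt_div_iff₀ h4]; linarith
    refine ⟨(4 + 2 / (θ1 - 1 / 2)) / 2, by linarith, p2 θ1 (by linarith) h2 ?_ _ ?_⟩
    · intro θ' hθ'
      refine ⟨|C|, fun x hx => ?_⟩
      have h6 : x ^ θ ≤ x ^ θ' := Real.rpow_le_rpow_of_exponent_le hx (by linarith)
      have h7 : 0 ≤ x ^ θ := Real.rpow_nonneg (by linarith) _
      calc |Mer x| ≤ C * x ^ θ := h x hx
        _ ≤ |C| * x ^ θ := by gcongr; exact le_abs_self C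
        _ ≤ |C| * x ^ θ' := by gcongr
    · have h8 : (2 / (θ1 - 1 / 2)) * (θ1 - 1 / 2) = 2 := div_mul_cancel₀ _ h4.ne'
      nlinarith

end Pool.Agent.H986R2.K4
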