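import Pool.Agent.H986R2.K4.SpecG

set_option autoImplicit false

/-!
# Assembly of the gap theorem
-/

namespace Pool.Agent.H986R2.K4

open Complex Filter Topology MeasureTheory Set
open Pool.Agent.H24R2.JP (XX HH Om)
open Pool.Agent.H24R2.DZ (bad hc)

namespace GFinAux

/-- covering by doubling -/
theorem cover (C : ℝ → ℕ → Prop) (y : ℝ) (hy : 0 ≤ y) (hy2 : y < 1)
    (hG : ∀ r0 : ℝ, y < r0 → r0 ≤ 1 → ∃ T0 : ℝ, 2 ≤ T0 ∧ ∀ (a : ℝ) (n : ℕ), T0 ≤ a → r0 * Om a ≤ n →
      (n : ℝ) ≤ 2 * r0 * Om a → C a n) :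
    ∀ K : ℕ, ∀ c : ℝ, y < c → c ≤ 1 → 1 ≤ 2 ^ K * c → ∃ T0 : ℝ, 2 ≤ T0 ∧ ∀ (a : ℝ) (n : ℕ), T0 ≤ a →
      c * Om a ≤ n → (n : ℝ) ≤ 2 * Om a → C a n := by
  intro K
  induction K with
  | zero =>
    intro c hc hc1 hc2
    have h1 : c = 1 := le_antisymm hc1 (by simpa using hc2)
    subst h1
    obtain ⟨T0, hT0, h⟩ := hG 1 hc le_rfl
    exact ⟨T0, hT0, fun a n ha h1 h2 => h a n ha h1 (by linarith)⟩
  | succ K ih =>
    intro c hc hc1 hc2
    have hc0 : 0 < c := lt_of_le_of_lt hy hc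
    obtain ⟨T1, hT1, h1⟩ := hG c hc hc1
    by_cases h2c : 2 * c ≤ 1
    · obtain ⟨T2, hT2, h2⟩ := ih (2 * c) (by linarith) h2c (by
        have : (2 : ℝ) ^ (K + 1) * c = 2 ^ K * (2 * c) := by ring
        linarith)
      refine ⟨max T1 T2, le_trans hT1 (le_max_left _ _), fun a n ha h3 h4 => ?_⟩
      rcases le_total (n : ℝ) (2 * c * Om a) with h5 | h5
      · exact h1 a n (le_trans (le_max_left _ _) ha) h3 h5
      · exact h2 a n (le_trans (le_max_right _ _) ha) h5 h4
    · push Not at h2c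
      obtain ⟨T2, hT2, h2⟩ := hG 1 hy2 le_rfl
      refine ⟨max T1 T2, le_trans hT1 (le_max_left _ _), fun a n ha h3 h4 => ?_⟩
      have ha2 : 2 ≤ a := le_trans hT1 (le_trans (le_max_left _ _) ha)
      have hOm : 0 ≤ Om a := by
        unfold Om
        have := Real.log_nonneg (by linarith : (1 : ℝ) ≤ a)
        linarith
      rcases le_total (n : ℝ) (2 * c * Om a) with h5 | h5
      · exact h1 a n (le_trans (le_max_left _ _) ha) h3 h5
      · refine h2 a n (le_trans (le_max_right _ _) ha) ?_ (by linarith)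
        have : 1 * Om a ≤ 2 * c * Om a := mul_le_mul_of_nonneg_right h2c.le hOm
        linarith

theorem cover' (C : ℝ → ℕ → Prop) (y δ : ℝ) (hy : 0 ≤ y) (hy2 : y < 1) (hδ : 0 < δ)
    (hG : ∀ r0 : ℝ, y < r0 → r0 ≤ 1 → ∃ T0 : ℝ, 2 ≤ T0 ∧ ∀ (a : ℝ) (n : ℕ), T0 ≤ a → r0 * Om a ≤ n →
      (n : ℝ) ≤ 2 * r0 * Om a → C a n) :
    ∃ T0 : ℝ, 2 ≤ T0 ∧ ∀ (a : ℝ) (n : ℕ), T0 ≤ a →
      (y + δ) * Om a ≤ n → (n : ℝ) ≤ 2 * Om a → C a n := by
  have hc0 : 0 < min (y + δ) 1 := lt_min (by linarith) one_pos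
  obtain ⟨K, hK⟩ := pow_unbounded_of_one_lt (1 / min (y + δ) 1) (by norm_num : (1 : ℝ) < 2)
  obtain ⟨T0, hT0, h⟩ := cover C y hy hy2 hG K (min (y + δ) 1) (lt_min (by linarith) hy2)
    (min_le_right _ _) (by
      rw [div_lt_iff₀ hc0] at hK
      exact hK.le)
  refine ⟨T0, hT0, fun a n ha h1 h2 => h a n ha ?_ h2⟩
  have hOm : 0 ≤ Om a := by
    unfold Om
    have := Real.log_nonneg (by linarith : (1 : ℝ) ≤ a)
    linarith
  exact le_trans (mul_le_mul_of_nonneg_right (min_le_left _ _) hOm) h1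

/-- mean value estimate for `x log x` -/
theorem mvt (a b : ℝ) (ha : 1 ≤ a) (hab : a ≤ b) :
    (b - a) * Real.log a ≤ b * Real.log b - a * Real.log a ∧
      b * Real.log b - a * Real.log a ≤ (b - a) * Real.log a + (b - a) * (b / a) := by
  have ha0 : 0 < a := by linarith
  have hb0 : 0 < b := by linarith
  have h1 : 0 ≤ Real.log (b / a) := Real.log_nonneg (by rw [le_div_iff₀ ha0]; linarith)
  have h2 : Real.log (b / a) = Real.log b - Real.log a := Real.log_div hb0.ne' ha0.ne'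
  have h3 : Real.log (b / a) ≤ b / a - 1 := Real.log_le_sub_one_of_pos (by positivity)
  have h4 : b * Real.log b - a * Real.log a = (b - a) * Real.log a + b * Real.log (b / a) := by
    rw [h2]; ring
  constructor
  · rw [h4]
    have := mul_nonneg hb0.le h1
    linarith
  · rw [h4]
    have h5 : b * Real.log (b / a) ≤ b * (b / a - 1) := mul_le_mul_of_nonneg_left h3 hb0.le
    have h6 : b * (b / a - 1) = (b - a) * (b / a) := by
      field_simp
    linarith

theorem gap (ε : ℝ) (hε : 0 < ε) : ∃ T1 : ℝ, 2 ≤ T1 ∧ ∀ a b : ℝ, T1 ≤ a → a < b →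
    |(b - a) * Om a / Real.pi - 1| ≤ min ε 1 / 4 →
    |(b * Real.log b - a * Real.log a) / (2 * Real.pi) - 1| ≤ ε := by
  have hT : Filter.Tendsto Real.log Filter.atTop Filter.atTop := Real.tendsto_log_atTop
  obtain ⟨T, hT1⟩ := (hT.eventually_ge_atTop (max 8 (8 / ε))).exists_forall_of_atTop
  refine ⟨max T 2, le_max_right _ _, fun a b ha hab h => ?_⟩
  have hl := hT1 a (le_trans (le_max_left _ _) ha)
  have ha2 : 2 ≤ a := le_trans (le_max_right _ _) ha
  have hl8 : 8 ≤ Real.log a := le_trans (le_max_left _ _) hl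
  have hle : 8 / ε ≤ Real.log a := le_trans (le_max_right _ _) hl
  have hpi := Real.pi_pos
  have hpi4 : Real.pi ≤ 4 := Real.pi_le_four
  rw [div_le_iff₀ hε] at hle
  have hm1 : min ε 1 ≤ ε := min_le_left _ _
  have hm2 : min ε 1 ≤ 1 := min_le_right _ _
  have hm0 : 0 < min ε 1 := lt_min hε one_pos
  rw [abs_le] at h ⊢
  obtain ⟨h1, h2⟩ := h
  unfold Om at h1 h2
  have e1 : (b - a) * (Real.log a / 2) / Real.pi = (b - a) * Real.log a / (2 * Real.pi) := by
    field_simp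
  rw [e1] at h1 h2
  obtain ⟨m1, m2⟩ := mvt a b (by linarith) hab.le
  have hba : 0 < b - a := by linarith
  have p2 : 0 < 2 * Real.pi := by positivity
  constructor
  · have : (b - a) * Real.log a / (2 * Real.pi) ≤
        (b * Real.log b - a * Real.log a) / (2 * Real.pi) := by
      gcongr
    linarith
  · have h3 : (b - a) * Real.log a ≤ (5 / 4) * (2 * Real.pi) := by
      have : (b - a) * Real.log a / (2 * Real.pi) ≤ 5 / 4 := by linarith
      rwa [div_le_iff₀ p2] at this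
    have h4 : b - a ≤ 2 := by
      by_contra hcon
      push Not at hcon
      nlinarith
    have h5 : b / a ≤ 2 := by
      rw [div_le_iff₀ (by linarith)]
      linarith
    have h6 : (b - a) * (b / a) ≤ (b - a) * 2 := mul_le_mul_of_nonneg_left h5 hba.le
    -- `(b - a) * 2 ≤ ε/4 * (b-a) * log a`
    have h7 : (b - a) * 2 ≤ (ε / 4) * ((b - a) * Real.log a) := by
      have : (b - a) * 8 ≤ (b - a) * (Real.log a * ε) := mul_le_mul_of_nonneg_left hle hba.le
      linarith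
    have h8 : (b * Real.log b - a * Real.log a) / (2 * Real.pi) ≤
        ((1 + ε / 4) * ((b - a) * Real.log a)) / (2 * Real.pi) := by
      gcongr
      linarith
    have h9 : ((1 + ε / 4) * ((b - a) * Real.log a)) / (2 * Real.pi) =
        (1 + ε / 4) * ((b - a) * Real.log a / (2 * Real.pi)) := by ring
    have h10 : (1 + ε / 4) * ((b - a) * Real.log a / (2 * Real.pi)) ≤
        (1 + ε / 4) * (1 + min ε 1 / 4) := by
      gcongr
      linarith
    nlinarith

end GFinAux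

open GFinAux in
theorem gfin (hA1 : S_A1) (hA2 : S_A2) (hW : S_WIN) (hG : G_WIN) (hX : S_XI) : G_FINAL := by
  intro θ ε hθ hθ1 hz hε
  set y : ℝ := θ - 1 / 2 with hy
  have hy0 : 0 ≤ y := by linarith
  have hy2 : y ≤ 1 / 2 := by linarith
  have hZB : ZB y := by
    rcases lt_or_eq_of_le hy2 with h | h
    · exact hA2 y hy0 h (fun s hs => hz s (by rw [hy] at hs; linarith))
    · rw [h]; exact hA1
  have hm0 : 0 < min ε 1 := lt_min hε one_pos
  obtain ⟨T1, hT1, h1⟩ := cover' (fun a n => ∀ s : ℂ, s.im = a → ¬ bad n s) y (2 * ε) hy0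
    (by linarith) (by linarith) (fun r0 hr hr1 => hW y r0 hy0 hy2 hZB hr hr1)
  obtain ⟨T2, hT2, h2⟩ := cover' (fun a n => ∀ b : ℝ,
    Consec (fun y : ℝ => iteratedDeriv n XX (I * y)) a b →
      |(b - a) * Om a / Real.pi - 1| ≤ min ε 1 / 4) y (2 * ε) hy0
    (by linarith) (by linarith) (fun r0 hr hr1 => by
      obtain ⟨T0, hT0, h⟩ := hG y r0 (min ε 1 / 4) hy0 hy2 hZB hr hr1 (by positivity)
      exact ⟨T0, hT0, fun a n ha h1 h2 b hb => h a b n ha h1 h2 hb⟩)
  obtain ⟨T3, hT3, h3⟩ := gap ε hε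
  refine ⟨max (max T1 T2) T3, le_trans hT3 (le_max_right _ _), fun a b n ha hn1 hn2 => ?_⟩
  have ha1 : T1 ≤ a := le_trans (le_trans (le_max_left _ _) (le_max_left _ _)) ha
  have ha2 : T2 ≤ a := le_trans (le_trans (le_max_right _ _) (le_max_left _ _)) ha
  have ha3 : T3 ≤ a := le_trans (le_max_right _ _) ha
  have hn1' : (y + 2 * ε) * Om a ≤ n := by
    have : (y + 2 * ε) * Om a = (y / 2 + ε) * Real.log a := by
      unfold Om; ring
    rw [this]
    exact hn1
  have hn2' : (n : ℝ) ≤ 2 * Om a := by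
    have : 2 * Om a = Real.log a := by unfold Om; ring
    linarith
  constructor
  · intro s hs hsa
    have hs' := (hX.2 n s).1 hs
    have him : (s - 1 / 2).im = a := by
      rw [Complex.sub_im]
      norm_num [hsa]
    have hnb := h1 a n ha1 hn1' hn2' (s - 1 / 2) him
    unfold Pool.Agent.H24R2.DZ.bad at hnb
    rw [not_and_or, not_or] at hnb
    rcases hnb with hnb | ⟨hr, hd⟩
    · exact absurd hs' hnb
    · push Not at hr
      constructor
      · rw [Complex.sub_re] at hr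
        norm_num at hr
        linarith
      · intro hcon
        exact hd ((hX.2 (n + 1) s).1 hcon)
  · intro hC
    have key : ∀ u : ℝ, iteratedDeriv n xi (1 / 2 + I * u) = 0 ↔ iteratedDeriv n XX (I * u) = 0 := by
      intro u
      have := hX.2 n (1 / 2 + I * u)
      rwa [show (1 / 2 + I * (u : ℂ)) - 1 / 2 = I * u by ring] at this
    obtain ⟨c1, c2, c3, c4⟩ := hC
    have hC' : Consec (fun y : ℝ => iteratedDeriv n XX (I * y)) a b :=
      ⟨c1, (key a).1 c2, (key b).1 c3, fun u hu1 hu2 h => c4 u hu1 hu2 ((key u).2 h)⟩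
    exact h3 a b ha3 c1 (h2 a n ha2 hn1' hn2' b hC')

end Pool.Agent.H986R2.K4
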