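import Pool.Agent.H986R2.K4.SpecG
import Pool.Agent.H986R2.K4.Win

set_option autoImplicit false

/-!
# Gaps in the window
-/

namespace Pool.Agent.H986R2.K4

open Complex Filter Topology MeasureTheory Set
open Pool.Agent.H24R2.JP (XX HH Om)
open Pool.Agent.H24R2.DZ (bad hc)

theorem gwin (h1 : S_NORM) (h2 : G_LOC) : G_WIN := by
  intro y r0 ε hy0 hy1 hZ hyr hr1 hε
  have hr0 : 0 < r0 := lt_of_le_of_lt hy0 hyr
  obtain ⟨κ, hκ0, hκ1, hN⟩ := h1 y r0 hy0 hy1 hZ hyr hr1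
  obtain ⟨η, n0, hη, H⟩ := h2 κ 3 ε hκ0 hκ1 le_rfl hε
  obtain ⟨T0, hT0, H1⟩ := hN 3 η le_rfl hη
  refine ⟨max T0 (Real.exp (2 * (n0 : ℝ) / r0)), hT0.trans (le_max_left _ _), ?_⟩
  intro a b n ha hn1 hn2 hC
  have haT0 : T0 ≤ a := (le_max_left _ _).trans ha
  have haE : Real.exp (2 * (n0 : ℝ) / r0) ≤ a := (le_max_right _ _).trans ha
  have ha2 : 2 ≤ a := hT0.trans haT0
  have hlog : 2 * (n0 : ℝ) / r0 ≤ Real.log a := (Real.le_log_iff_exp_le (by linarith)).2 haE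
  have hlog0 : 0 < Real.log a := Real.log_pos (by linarith)
  have hOm : 0 < Om a := by unfold Om; positivity
  have hnn : (n0 : ℝ) ≤ n := by
    refine le_trans ?_ hn1
    rw [div_le_iff₀ hr0] at hlog
    unfold Om
    linarith
  have hnn' : n0 ≤ n := by exact_mod_cast hnn
  have hn0 : (0 : ℝ) < n := lt_of_lt_of_le (by positivity) hn1
  set r : ℝ := n / Om a with hr
  have hrpos : 0 < r := by positivity
  have hrc : (r : ℂ) ≠ 0 := by exact_mod_cast hrpos.ne'
  have hQ := H1 a n haT0 hn1 hn2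
  have hder : ∀ x : ℝ, iteratedDeriv n (fun z : ℂ => XX (I * a + ((r : ℝ) : ℂ) * z)) (I * x) =
      (r : ℂ) ^ n * iteratedDeriv n XX (I * ((a + r * x : ℝ) : ℂ)) := by
    intro x
    rw [WinAux.scale WinAux.diffXX (I * a) r n]
    congr 2
    push_cast
    ring
  have hrn : (r : ℂ) ^ n ≠ 0 := pow_ne_zero _ hrc
  have hC' : Consec (fun x : ℝ => iteratedDeriv n
      (fun z : ℂ => XX (I * a + ((r : ℝ) : ℂ) * z)) (I * x)) 0 ((b - a) / r) := by
    obtain ⟨c1, c2, c3, c4⟩ := hC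
    refine ⟨div_pos (by linarith) hrpos, ?_, ?_, ?_⟩
    · show iteratedDeriv n (fun z : ℂ => XX (I * a + ((r : ℝ) : ℂ) * z)) (I * ((0 : ℝ) : ℂ)) = 0
      rw [hder, mul_zero, add_zero]
      have c2' : iteratedDeriv n XX (I * (a : ℂ)) = 0 := c2
      rw [c2', mul_zero]
    · show iteratedDeriv n (fun z : ℂ => XX (I * a + ((r : ℝ) : ℂ) * z))
        (I * (((b - a) / r : ℝ) : ℂ)) = 0
      rw [hder]
      have e1 : a + r * ((b - a) / r) = b := by field_simp; ring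
      rw [e1]
      have c3' : iteratedDeriv n XX (I * (b : ℂ)) = 0 := c3
      rw [c3', mul_zero]
    · intro x hx1 hx2
      show iteratedDeriv n (fun z : ℂ => XX (I * a + ((r : ℝ) : ℂ) * z)) (I * (x : ℂ)) ≠ 0
      rw [hder]
      refine mul_ne_zero hrn (c4 (a + r * x) ?_ ?_)
      · have := mul_pos hrpos hx1
        linarith
      · rw [lt_div_iff₀ hrpos] at hx2
        linarith
  have h3 := H n _ hnn' hQ ((b - a) / r) hC'
  have e2 : (n : ℝ) * ((b - a) / r) = (b - a) * Om a := by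
    rw [hr]
    field_simp
  rw [e2] at h3
  exact h3

end Pool.Agent.H986R2.K4
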