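import Pool.Agent.H986R2.K4.SpecG
import Pool.Agent.H24R2.DZ.Half

set_option autoImplicit false

/-! # Existence of zeros near the centre (adapted from task 32, helper950) -/

namespace Pool.Agent.H986R2.K4

open Complex Filter Topology MeasureTheory Set
open Pool.Agent.H24R2.JP (XX HH Om)
open Pool.Agent.H24R2.DZ (bad hc)

/-- Existence. -/
def G_LOCE : Prop := ∀ κ R : ℝ, 0 < κ → κ ≤ 1 / 2 → 3 ≤ R →
  ∃ η : ℝ, ∃ n0 : ℕ, 0 < η ∧ ∀ (n : ℕ) (F : ℂ → ℂ), n0 ≤ n → QQ κ R n η F →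
    ∃ b : ℝ, 0 < b ∧ n * b ≤ 2 * Real.pi ∧ iteratedDeriv n F (I * b) = 0

theorem locE (h1 : G_RT) (h2 : G_PH) : G_LOCE := by
  intro κ R hκ hκ2 hR
  obtain ⟨ε, hε⟩ : ∃ ε : ℝ, 0 < ε := ⟨1, one_pos⟩
  set e : ℝ := min (ε / 8) (1 / 4) with he
  have he0 : 0 < e := lt_min (by linarith) (by norm_num)
  have he1 : e ≤ 1 / 4 := min_le_right _ _
  have he2 : e ≤ ε / 8 := min_le_left _ _
  obtain ⟨κ1, η, n0, hκ1, hκ1', hη, H⟩ := h1 κ R e hκ hκ2 hR he0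
  set A : ℝ := κ1 / 2 with hA
  have hA0 : 0 < A := by rw [hA]; linarith
  have hA1 : A < 1 := by rw [hA]; linarith
  refine ⟨η, n0 + ⌈2 * Real.pi / A⌉₊ + ⌈8 / ε⌉₊, hη, ?_⟩
  intro n F hn hQ
  have hn0 : n0 ≤ n := by omega
  have hn1 : 2 * Real.pi / A ≤ (n : ℝ) + 1 := by
    have h3 : ⌈2 * Real.pi / A⌉₊ ≤ n := by omega
    have h4 := Nat.le_ceil (2 * Real.pi / A)
    have h5 : ((⌈2 * Real.pi / A⌉₊ : ℕ) : ℝ) ≤ n := by exact_mod_cast h3
    linarith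
  have hn2 : 8 / ε ≤ (n : ℝ) + 1 := by
    have h3 : ⌈8 / ε⌉₊ ≤ n := by omega
    have h4 := Nat.le_ceil (8 / ε)
    have h5 : ((⌈8 / ε⌉₊ : ℕ) : ℝ) ≤ n := by exact_mod_cast h3
    linarith
  set Ω : ℝ := (n : ℝ) + 1 with hΩ
  have hΩ0 : 0 < Ω := by rw [hΩ]; positivity
  set G : ℝ → ℂ := fun y => hc F (n + 1) (I * y) with hG
  set q : ℝ → ℂ := fun y => hc F (n + 2) (I * y) / hc F (n + 1) (I * y) with hq
  set s : ℝ := (-1) ^ n with hs
  have hs1 : s = 1 ∨ s = -1 := by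
    rw [hs]
    exact neg_one_pow_eq_or ℝ n
  have hnorm : ∀ y : ℝ, ‖I * (y : ℂ)‖ = |y| := by
    intro y
    rw [norm_mul, norm_I, one_mul, Complex.norm_real, Real.norm_eq_abs]
  have hG1 : ∀ y : ℝ, |y| ≤ A → G y ≠ 0 ∧ HasDerivAt G (I * (Ω : ℂ) * q y * G y) y ∧
      ‖q y - 1‖ ≤ e := by
    intro y hy
    have hz : ‖I * (y : ℂ)‖ ≤ κ1 := by
      rw [hnorm]
      linarith
    obtain ⟨h3, h4⟩ := H n F hn0 hQ _ hz
    refine ⟨h3, ?_, h4⟩
    have h5 := (Pool.Agent.H24R2.DZ.half F n (I * y) hQ.diff hQ.symm (by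
      rw [hnorm]; linarith)).2
    have h6 : HasDerivAt (fun y : ℝ => I * (y : ℂ)) I y := by
      have h7 : HasDerivAt (fun y : ℝ => (y : ℂ)) 1 y := Complex.ofRealCLM.hasDerivAt
      simpa using h7.const_mul I
    have h8 := h5.comp y h6
    refine h8.congr_deriv ?_
    simp only [hq, hG, hΩ]
    push_cast
    field_simp
  have hzero : ∀ y : ℝ, |y| ≤ A → (iteratedDeriv n F (I * y) = 0 ↔
      G y + (s : ℂ) * (starRingEnd ℂ) (G y) = 0) := by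
    intro y hy
    have h5 := (Pool.Agent.H24R2.DZ.half F n (I * y) hQ.diff hQ.symm (by
      rw [hnorm]; linarith)).1
    have h6 : -((starRingEnd ℂ) (I * (y : ℂ))) = I * y := by
      rw [map_mul, conj_I, conj_ofReal]
      ring
    rw [h6] at h5
    have h7 : G y + (s : ℂ) * (starRingEnd ℂ) (G y) = iteratedDeriv n F (I * y) / (n.factorial : ℂ) := by
      rw [h5, hs]
      push_cast
      rfl
    rw [h7, div_eq_zero_iff]
    have hfac : (n.factorial : ℂ) ≠ 0 := by exact_mod_cast n.factorial_ne_zero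
    constructor
    · exact fun h => Or.inl h
    · rintro (h | h)
      · exact h
      · exact absurd h hfac
  obtain ⟨P1, P2⟩ := h2 G q Ω e A s hΩ0 he0 he1 hA0 hs1 hG1
  have hpi := Real.pi_pos
  have hsmall : 2 * Real.pi / Ω ≤ A := by
    rw [div_le_iff₀ hΩ0]
    rw [div_le_iff₀ hA0] at hn1
    linarith
  obtain ⟨b', hb1, hb2, hb3⟩ := P2 0 (by linarith) (by rw [zero_add]; exact hsmall)
  rw [zero_add] at hb2
  have hb' : |b'| ≤ A := by
    rw [abs_of_pos hb1]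
    linarith
  refine ⟨b', hb1, ?_, (hzero b' hb').2 hb3⟩
  rw [le_div_iff₀ hΩ0, hΩ] at hb2
  nlinarith

end Pool.Agent.H986R2.K4
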