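import Pool.Agent.H986R2.K4.SpecG

set_option autoImplicit false

/-!
# Zeros of `G ± conj G` when `G` has nearly constant angular speed
-/

namespace Pool.Agent.H986R2.K4

open Complex Filter Topology MeasureTheory Set

namespace PHAux

/-- Increment of the argument along a curve in the slit plane. -/
theorem core (H q : ℝ → ℂ) (Ω ε c d : ℝ) (hΩ : 0 < Ω) (hcd : c < d)
    (hH : ∀ y ∈ Icc c d, HasDerivAt H (I * (Ω : ℂ) * q y * H y) y ∧ ‖q y - 1‖ ≤ ε)
    (hs : ∀ y ∈ Icc c d, H y ∈ slitPlane) :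
    Ω * (1 - ε) * (d - c) ≤ (H d).arg - (H c).arg ∧
      (H d).arg - (H c).arg ≤ Ω * (1 + ε) * (d - c) := by
  have hder : ∀ y ∈ Icc c d, HasDerivAt (fun y => (H y).arg) (Ω * (q y).re) y := by
    intro y hy
    have h1 := (hH y hy).1.clog_real (hs y hy)
    have hne : H y ≠ 0 := slitPlane_ne_zero (hs y hy)
    have h2 : HasDerivAt (fun y => (Complex.log (H y)).im)
        ((I * (Ω : ℂ) * q y * H y / H y).im) y := by
      exact Complex.imCLM.hasFDerivAt.comp_hasDerivAt y h1
    have h3 : (I * (Ω : ℂ) * q y * H y / H y).im = Ω * (q y).re := by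
      rw [mul_div_assoc, div_self hne, mul_one]
      simp
    rw [h3] at h2
    simpa [Complex.log_im] using h2
  obtain ⟨y, hy, hslope⟩ := exists_hasDerivAt_eq_slope (fun y => (H y).arg) (fun y => Ω * (q y).re) hcd
    (fun y hy => (hder y hy).continuousAt.continuousWithinAt)
    (fun y hy => hder y ⟨hy.1.le, hy.2.le⟩)
  have hq := (hH y ⟨hy.1.le, hy.2.le⟩).2
  have hre : |(q y).re - 1| ≤ ε := by
    have := Complex.abs_re_le_norm (q y - 1)
    simp only [sub_re, one_re] at this
    exact this.trans hq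
  have hdc : 0 < d - c := sub_pos.2 hcd
  have heq : (H d).arg - (H c).arg = Ω * (q y).re * (d - c) := by
    have := hslope
    field_simp at this
    linarith
  rw [heq]
  rw [abs_le] at hre
  have hp : 0 < Ω * (d - c) := mul_pos hΩ hdc
  constructor
  · nlinarith [hre.1]
  · nlinarith [hre.2]

theorem consecPos (H q : ℝ → ℂ) (Ω ε a b : ℝ) (hΩ : 0 < Ω) (hε : ε ≤ 1 / 4) (hab : a < b)
    (hH : ∀ y ∈ Icc a b, H y ≠ 0 ∧ HasDerivAt H (I * (Ω : ℂ) * q y * H y) y ∧ ‖q y - 1‖ ≤ ε)
    (ha : (H a).re = 0) (hb : (H b).re = 0) (hpos : ∀ y, a < y → y < b → 0 < (H y).re) :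
    Ω * (1 - ε) * (b - a) ≤ Real.pi ∧ Real.pi ≤ Ω * (1 + ε) * (b - a) := by
  have hs : ∀ y ∈ Icc a b, H y ∈ slitPlane := by
    intro y hy
    rcases eq_or_lt_of_le hy.1 with h | h
    · rw [← h, mem_slitPlane_iff]
      right
      intro him
      exact (hH a ⟨le_refl _, hab.le⟩).1 (Complex.ext ha him)
    · rcases eq_or_lt_of_le hy.2 with h' | h'
      · rw [h', mem_slitPlane_iff]
        right
        intro him
        exact (hH b ⟨hab.le, le_refl _⟩).1 (Complex.ext hb him)
      · rw [mem_slitPlane_iff]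
        left
        exact hpos y h h'
  have hc := core H q Ω ε a b hΩ hab (fun y hy => (hH y hy).2) hs
  have key : ∀ z : ℂ, z ≠ 0 → z.re = 0 → z.arg = Real.pi / 2 ∨ z.arg = -(Real.pi / 2) := by
    intro z hz hre
    rcases lt_trichotomy z.im 0 with h | h | h
    · right
      exact (arg_eq_neg_pi_div_two_iff).2 ⟨hre, h⟩
    · exact absurd (Complex.ext hre h) hz
    · left
      exact (arg_eq_pi_div_two_iff).2 ⟨hre, h⟩
  have h1 := key (H a) (hH a ⟨le_refl _, hab.le⟩).1 ha
  have h2 := key (H b) (hH b ⟨hab.le, le_refl _⟩).1 hb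
  have hpi := Real.pi_pos
  have hlow : 0 < Ω * (1 - ε) * (b - a) := by
    have : 0 < 1 - ε := by linarith
    have h3 : 0 < b - a := sub_pos.2 hab
    positivity
  rcases h1 with h1 | h1 <;> rcases h2 with h2 | h2 <;> rw [h1, h2] at hc
  · exfalso; linarith [hc.1]
  · exfalso; linarith [hc.1]
  · constructor <;> linarith [hc.1, hc.2]
  · exfalso; linarith [hc.1]

/-- A function whose real part does not vanish on an interval has real part of constant sign. -/
theorem sign_const (f : ℝ → ℝ) (S : Set ℝ) (hS : S.OrdConnected) (hf : ContinuousOn f S)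
    (hne : ∀ y ∈ S, f y ≠ 0) : (∀ y ∈ S, 0 < f y) ∨ (∀ y ∈ S, f y < 0) := by
  by_contra hcon
  push Not at hcon
  obtain ⟨⟨x, hx, hfx⟩, ⟨y, hy, hfy⟩⟩ := hcon
  have hx' : f x < 0 := lt_of_le_of_ne hfx (hne x hx)
  have hy' : 0 < f y := lt_of_le_of_ne hfy (Ne.symm (hne y hy))
  have hpre : IsPreconnected (f '' S) := hS.isPreconnected.image f hf
  have hmem : (0 : ℝ) ∈ f '' S := by
    have := hpre.Icc_subset (mem_image_of_mem f hx) (mem_image_of_mem f hy)
    exact this ⟨hx'.le, hy'.le⟩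
  obtain ⟨z, hz, hz0⟩ := hmem
  exact hne z hz hz0

theorem main (H q : ℝ → ℂ) (Ω ε A : ℝ) (hΩ : 0 < Ω) (hε : 0 < ε) (hε4 : ε ≤ 1 / 4)
    (hH : ∀ y : ℝ, |y| ≤ A → H y ≠ 0 ∧ HasDerivAt H (I * (Ω : ℂ) * q y * H y) y ∧ ‖q y - 1‖ ≤ ε) :
    (∀ a b : ℝ, -A ≤ a → b ≤ A → a < b → (H a).re = 0 → (H b).re = 0 →
      (∀ y, a < y → y < b → (H y).re ≠ 0) → |Ω * (b - a) / Real.pi - 1| ≤ 2 * ε) ∧
    (∀ a : ℝ, -A ≤ a → a + 2 * Real.pi / Ω ≤ A → ∃ b : ℝ, a < b ∧ b ≤ a + 2 * Real.pi / Ω ∧
      (H b).re = 0) := by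
  have hpi := Real.pi_pos
  constructor
  · intro a b haA hbA hab ha hb hne
    have hmem : ∀ y ∈ Icc a b, |y| ≤ A := fun y hy => abs_le.2 ⟨haA.trans hy.1, hy.2.trans hbA⟩
    have hcont : ContinuousOn (fun y => (H y).re) (Ioo a b) := by
      intro y hy
      exact (Complex.continuous_re.continuousAt.comp
        (hH y (hmem y ⟨hy.1.le, hy.2.le⟩)).2.1.continuousAt).continuousWithinAt
    have hconc : Ω * (1 - ε) * (b - a) ≤ Real.pi ∧ Real.pi ≤ Ω * (1 + ε) * (b - a) := by
      rcases sign_const (fun y => (H y).re) (Ioo a b) ordConnected_Ioo hcont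
        (fun y hy => hne y hy.1 hy.2) with hs | hs
      · exact consecPos H q Ω ε a b hΩ hε4 hab (fun y hy => hH y (hmem y hy)) ha hb
          (fun y h1 h2 => hs y ⟨h1, h2⟩)
      · refine consecPos (fun y => - H y) q Ω ε a b hΩ hε4 hab (fun y hy => ?_) ?_ ?_ ?_
        · obtain ⟨h1, h2, h3⟩ := hH y (hmem y hy)
          refine ⟨neg_ne_zero.2 h1, ?_, h3⟩
          exact h2.fun_neg.congr_deriv (by ring)
        · simp [ha]
        · simp [hb]
        · intro y h1 h2
          have h3 : (H y).re < 0 := hs y ⟨h1, h2⟩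
          rw [neg_re]
          linarith
    obtain ⟨h1, h2⟩ := hconc
    rw [abs_le]
    have hx1 : Ω * (b - a) / Real.pi * (1 - ε) ≤ 1 := by
      rw [div_mul_eq_mul_div, div_le_one hpi]
      linarith
    have hx2 : 1 ≤ Ω * (b - a) / Real.pi * (1 + ε) := by
      rw [div_mul_eq_mul_div, one_le_div hpi]
      linarith
    set x := Ω * (b - a) / Real.pi with hx
    constructor
    · nlinarith
    · nlinarith
  · intro a haA haA'
    by_contra hcon
    push Not at hcon
    have h2p : 0 < 2 * Real.pi / Ω := by positivity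
    have hmem : ∀ y ∈ Ioc a (a + 2 * Real.pi / Ω), |y| ≤ A := fun y hy =>
      abs_le.2 ⟨haA.trans hy.1.le, hy.2.trans haA'⟩
    have hcont : ContinuousOn (fun y => (H y).re) (Ioc a (a + 2 * Real.pi / Ω)) := by
      intro y hy
      exact (Complex.continuous_re.continuousAt.comp
        (hH y (hmem y hy)).2.1.continuousAt).continuousWithinAt
    have hred : ∀ K : ℝ → ℂ, (∀ y : ℝ, |y| ≤ A → K y ≠ 0 ∧ HasDerivAt K (I * (Ω : ℂ) * q y * K y) y ∧
        ‖q y - 1‖ ≤ ε) → (∀ y ∈ Ioc a (a + 2 * Real.pi / Ω), 0 < (K y).re) → False := by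
      intro K hK hpos
      have hpO : 0 < Real.pi / (2 * Ω) := by positivity
      have hlt : a + Real.pi / (2 * Ω) < a + 2 * Real.pi / Ω := by
        have : 2 * Real.pi / Ω = 4 * (Real.pi / (2 * Ω)) := by field_simp; ring
        rw [this]; linarith
      have hsub : ∀ y ∈ Icc (a + Real.pi / (2 * Ω)) (a + 2 * Real.pi / Ω),
          y ∈ Ioc a (a + 2 * Real.pi / Ω) := fun y hy => ⟨by linarith [hy.1], hy.2⟩
      have hc := (core K q Ω ε (a + Real.pi / (2 * Ω)) (a + 2 * Real.pi / Ω) hΩ hlt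
        (fun y hy => (hK y (hmem y (hsub y hy))).2)
        (fun y hy => by
          rw [mem_slitPlane_iff]
          left
          exact hpos y (hsub y hy))).1
      have harg1 : |(K (a + 2 * Real.pi / Ω)).arg| < Real.pi / 2 := by
        rw [abs_arg_lt_pi_div_two_iff]
        left
        exact hpos _ ⟨by linarith, le_refl _⟩
      have harg2 : |(K (a + Real.pi / (2 * Ω))).arg| < Real.pi / 2 := by
        rw [abs_arg_lt_pi_div_two_iff]
        left
        exact hpos _ ⟨by linarith, hlt.le⟩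
      rw [abs_lt] at harg1 harg2
      have heq : Ω * (1 - ε) * (a + 2 * Real.pi / Ω - (a + Real.pi / (2 * Ω))) =
          (1 - ε) * (3 / 2 * Real.pi) := by
        field_simp
        ring
      rw [heq] at hc
      nlinarith [harg1.2, harg2.1]
    rcases sign_const (fun y => (H y).re) (Ioc a (a + 2 * Real.pi / Ω)) ordConnected_Ioc hcont
      (fun y hy => hcon y hy.1 hy.2) with hs | hs
    · exact hred H hH hs
    · refine hred (fun y => - H y) (fun y hy => ?_) (fun y hy => ?_)
      · obtain ⟨h1, h2, h3⟩ := hH y hy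
        refine ⟨neg_ne_zero.2 h1, ?_, h3⟩
        exact h2.fun_neg.congr_deriv (by ring)
      · have h3 : (H y).re < 0 := hs y hy
        rw [neg_re]
        linarith

end PHAux

/-- Zeros of `G ± conj G` for a function `G` with nearly constant angular speed. -/
theorem ph : G_PH := by
  intro G q Ω ε A s hΩ hε hε4 hA hs hG
  rcases hs with hs | hs
  · have hiff : ∀ y, G y + (s : ℂ) * (starRingEnd ℂ) (G y) = 0 ↔ (G y).re = 0 := by
      intro y
      rw [hs]
      constructor
      · intro h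
        have := congrArg Complex.re h
        simp at this
        linarith
      · intro h
        apply Complex.ext
        · simp [h]
        · simp
    obtain ⟨h1, h2⟩ := PHAux.main G q Ω ε A hΩ hε hε4 hG
    constructor
    · intro a b ha hb hc
      obtain ⟨hab, hga, hgb, hne⟩ := hc
      exact h1 a b ha hb hab ((hiff a).1 hga) ((hiff b).1 hgb)
        (fun y hy1 hy2 h => hne y hy1 hy2 ((hiff y).2 h))
    · intro a ha hb
      obtain ⟨b, hb1, hb2, hb3⟩ := h2 a ha hb
      exact ⟨b, hb1, hb2, (hiff b).2 hb3⟩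
  · have hiff : ∀ y, G y + (s : ℂ) * (starRingEnd ℂ) (G y) = 0 ↔ (-I * G y).re = 0 := by
      intro y
      rw [hs]
      constructor
      · intro h
        have := congrArg Complex.im h
        simp at this
        simp
        linarith
      · intro h
        simp at h
        apply Complex.ext
        · simp
        · simp [h]
    have hG' : ∀ y : ℝ, |y| ≤ A → (-I * G y) ≠ 0 ∧
        HasDerivAt (fun y => -I * G y) (I * (Ω : ℂ) * q y * (-I * G y)) y ∧ ‖q y - 1‖ ≤ ε := by
      intro y hy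
      obtain ⟨h1, h2, h3⟩ := hG y hy
      refine ⟨mul_ne_zero (by simp) h1, ?_, h3⟩
      exact (h2.const_mul (-I)).congr_deriv (by ring)
    obtain ⟨h1, h2⟩ := PHAux.main (fun y => -I * G y) q Ω ε A hΩ hε hε4 hG'
    constructor
    · intro a b ha hb hc
      obtain ⟨hab, hga, hgb, hne⟩ := hc
      exact h1 a b ha hb hab ((hiff a).1 hga) ((hiff b).1 hgb)
        (fun y hy1 hy2 h => hne y hy1 hy2 ((hiff y).2 h))
    · intro a ha hb
      obtain ⟨b, hb1, hb2, hb3⟩ := h2 a ha hb
      exact ⟨b, hb1, hb2, (hiff b).2 hb3⟩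

end Pool.Agent.H986R2.K4
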