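import Pool.Agent.H986R2.K4.All
import Pool.Agent.H986R2.K4.GFin
import Pool.Agent.H986R2.K4.GWin
import Pool.Agent.H986R2.K4.Loc
import Pool.Agent.H986R2.K4.LocE
import Pool.Agent.H986R2.K4.PH
import Pool.Agent.H986R2.K4.RTz

set_option autoImplicit false

/-!
# The gaps between the zeros of the derivatives of the Riemann xi function: assembly
-/

namespace Pool.Agent.H986R2.K4

open Complex Filter Topology MeasureTheory Set
open Pool.Agent.H24R2.JP (XX HH Om)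
open Pool.Agent.H24R2.DZ (bad hc)

/-- Existence of zeros in the window. -/
theorem gwinE (h1 : S_NORM) (h2 : G_LOCE) : ∀ y r0 : ℝ, 0 ≤ y → y ≤ 1 / 2 → ZB y → y < r0 → r0 ≤ 1 →
    ∃ T0 : ℝ, 2 ≤ T0 ∧ ∀ (a : ℝ) (n : ℕ), T0 ≤ a → r0 * Om a ≤ n → (n : ℝ) ≤ 2 * r0 * Om a →
      ∃ b : ℝ, a < b ∧ (b - a) * Om a ≤ 2 * Real.pi ∧ iteratedDeriv n XX (I * b) = 0 := by
  intro y r0 hy0 hy1 hZ hyr hr1
  have hr0 : 0 < r0 := lt_of_le_of_lt hy0 hyr
  obtain ⟨κ, hκ0, hκ1, hN⟩ := h1 y r0 hy0 hy1 hZ hyr hr1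
  obtain ⟨η, n0, hη, H⟩ := h2 κ 3 hκ0 hκ1 le_rfl
  obtain ⟨T0, hT0, H1⟩ := hN 3 η le_rfl hη
  refine ⟨max T0 (Real.exp (2 * (n0 : ℝ) / r0)), hT0.trans (le_max_left _ _), ?_⟩
  intro a n ha hn1 hn2
  have haT0 : T0 ≤ a := (le_max_left _ _).trans ha
  have haE : Real.exp (2 * (n0 : ℝ) / r0) ≤ a := (le_max_right _ _).trans ha
  have ha2 : 2 ≤ a := hT0.trans haT0
  have hlog : 2 * (n0 : ℝ) / r0 ≤ Real.log a := (Real.le_log_iff_exp_le (by linarith)).2 haE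
  have hlog0 : 0 < Real.log a := Real.log_pos (by linarith)
  have hOm : 0 < Om a := by unfold Om; positivity
  have hnn : (n0 : ℝ) ≤ n := by
    refine le_trans ?_ hn1
    rw [div_le_iff₀ hr0] at hlog
    unfold Om
    linarith
  have hnn' : n0 ≤ n := by exact_mod_cast hnn
  have hn0 : (0 : ℝ) < n := lt_of_lt_of_le (by positivity) hn1
  set r : ℝ := n / Om a with hr
  have hrpos : 0 < r := by positivity
  have hrc : (r : ℂ) ≠ 0 := by exact_mod_cast hrpos.ne'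
  have hQ := H1 a n haT0 hn1 hn2
  have hder : ∀ x : ℝ, iteratedDeriv n (fun z : ℂ => XX (I * a + ((r : ℝ) : ℂ) * z)) (I * x) =
      (r : ℂ) ^ n * iteratedDeriv n XX (I * ((a + r * x : ℝ) : ℂ)) := by
    intro x
    rw [WinAux.scale WinAux.diffXX (I * a) r n]
    congr 2
    push_cast
    ring
  have hrn : (r : ℂ) ^ n ≠ 0 := pow_ne_zero _ hrc
  obtain ⟨b, hb0, hb1, hb2⟩ := H n _ hnn' hQ
  have hb3 : (r : ℂ) ^ n * iteratedDeriv n XX (I * ((a + r * b : ℝ) : ℂ)) = 0 := by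
    rw [← hder]; exact hb2
  refine ⟨a + r * b, by have := mul_pos hrpos hb0; linarith, ?_, ?_⟩
  · have e : (a + r * b - a) * Om a = n * b := by
      rw [hr]; field_simp; ring
    rw [e]; exact hb1
  · rcases mul_eq_zero.1 hb3 with h | h
    · exact absurd h hrn
    · exact h

/-- The complete statement. -/
def G_FINAL2 : Prop := ∀ θ ε : ℝ, 1 / 2 ≤ θ → θ ≤ 1 → (∀ s : ℂ, θ < s.re → riemannZeta s ≠ 0) → 0 < ε →
  ∃ T0 : ℝ, 2 ≤ T0 ∧ ∀ (a : ℝ) (n : ℕ), T0 ≤ a → ((θ - 1 / 2) / 2 + ε) * Real.log a ≤ n →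
    (n : ℝ) ≤ Real.log a →
    (∀ s : ℂ, iteratedDeriv n xi s = 0 → s.im = a → s.re = 1 / 2 ∧ iteratedDeriv (n + 1) xi s ≠ 0) ∧
    (∃ b : ℝ, a < b ∧ b ≤ a + 4 * Real.pi / Real.log a ∧ iteratedDeriv n xi (1 / 2 + I * b) = 0) ∧
    ∀ b : ℝ, Consec (fun y : ℝ => iteratedDeriv n xi (1 / 2 + I * y)) a b →
      |(b * Real.log b - a * Real.log a) / (2 * Real.pi) - 1| ≤ ε

open GFinAux in
theorem gfin2 (hA1 : S_A1) (hA2 : S_A2) (hN : S_NORM) (hE : G_LOCE) (hX : S_XI) (hF : G_FINAL) :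
    G_FINAL2 := by
  intro θ ε hθ hθ1 hz hε
  set y : ℝ := θ - 1 / 2 with hy
  have hy0 : 0 ≤ y := by linarith
  have hy2 : y ≤ 1 / 2 := by linarith
  have hZB : ZB y := by
    rcases lt_or_eq_of_le hy2 with h | h
    · exact hA2 y hy0 h (fun s hs => hz s (by rw [hy] at hs; linarith))
    · rw [h]; exact hA1
  obtain ⟨T1, hT1, h1⟩ := cover' (fun a n => ∃ b : ℝ, a < b ∧ (b - a) * Om a ≤ 2 * Real.pi ∧
    iteratedDeriv n XX (I * b) = 0) y (2 * ε) hy0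
    (by linarith) (by linarith) (fun r0 hr hr1 => gwinE hN hE y r0 hy0 hy2 hZB hr hr1)
  obtain ⟨T2, hT2, h2⟩ := hF θ ε hθ hθ1 hz hε
  refine ⟨max T1 T2, le_trans hT1 (le_max_left _ _), fun a n ha hn1 hn2 => ?_⟩
  have ha1 : T1 ≤ a := le_trans (le_max_left _ _) ha
  have ha2 : T2 ≤ a := le_trans (le_max_right _ _) ha
  have hn1' : (y + 2 * ε) * Om a ≤ n := by
    have : (y + 2 * ε) * Om a = (y / 2 + ε) * Real.log a := by
      unfold Om; ring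
    rw [this]
    exact hn1
  have hn2' : (n : ℝ) ≤ 2 * Om a := by
    have : 2 * Om a = Real.log a := by unfold Om; ring
    linarith
  have hlog0 : 0 < Real.log a := Real.log_pos (by linarith)
  refine ⟨(h2 a a n ha2 hn1 hn2).1, ?_, fun b => (h2 a b n ha2 hn1 hn2).2⟩
  obtain ⟨b, hb1, hb2, hb3⟩ := h1 a n ha1 hn1' hn2'
  refine ⟨b, hb1, ?_, ?_⟩
  · have : b - a ≤ 4 * Real.pi / Real.log a := by
      rw [le_div_iff₀ hlog0]
      unfold Om at hb2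
      linarith
    linarith
  · have := hX.2 n (1 / 2 + I * b)
    rw [show (1 / 2 + I * (b : ℂ)) - 1 / 2 = I * b by ring] at this
    exact this.2 hb3

theorem gapsT : G_FINAL2 :=
  gfin2 a1 (a2 sab a1) (normQ hh (pl hh)) (locE (rtz lapQ) ph) xiE
    (gfin a1 (a2 sab a1) winT (gwin (normQ hh (pl hh)) (loc (rtz lapQ) ph)) xiE)

end Pool.Agent.H986R2.K4
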