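import Pool.Agent.H986R2.K4.GAll

set_option autoImplicit false

namespace Pool.Agent.H986R2.K4

open Complex Filter Topology MeasureTheory Set

/-- Change of the normalisation of the gaps. -/
theorem renorm (ε : ℝ) (hε : 0 < ε) : ∃ T1 : ℝ, 2 ≤ T1 ∧ ∀ a b : ℝ, T1 ≤ a → a < b →
    |(b * Real.log b - a * Real.log a) / (2 * Real.pi) - 1| ≤ min ε 1 / 4 →
    |(b - a) / (2 * Real.pi) * Real.log (a / (2 * Real.pi)) - 1| ≤ ε := by
  have hT : Filter.Tendsto Real.log Filter.atTop Filter.atTop := Real.tendsto_log_atTop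
  obtain ⟨T, hT1⟩ := (hT.eventually_ge_atTop (max 16 (32 / ε))).exists_forall_of_atTop
  refine ⟨max T 2, le_max_right _ _, fun a b ha hab h => ?_⟩
  have hl := hT1 a (le_trans (le_max_left _ _) ha)
  have ha2 : 2 ≤ a := le_trans (le_max_right _ _) ha
  have hl8 : 16 ≤ Real.log a := le_trans (le_max_left _ _) hl
  have hle : 32 / ε ≤ Real.log a := le_trans (le_max_right _ _) hl
  have hpi := Real.pi_pos
  have hpi4 : Real.pi ≤ 4 := Real.pi_le_four
  have hpi3 : 3 < Real.pi := Real.pi_gt_three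
  rw [div_le_iff₀ hε] at hle
  have hm1 : min ε 1 ≤ ε := min_le_left _ _
  have hm2 : min ε 1 ≤ 1 := min_le_right _ _
  rw [abs_le] at h ⊢
  obtain ⟨h1, h2⟩ := h
  obtain ⟨m1, m2⟩ := GFinAux.mvt a b (by linarith) hab.le
  have hba : 0 < b - a := by linarith
  have p2 : 0 < 2 * Real.pi := by positivity
  have k1 : b * Real.log b - a * Real.log a ≤ (5 / 4) * (2 * Real.pi) := by
    have : (b * Real.log b - a * Real.log a) / (2 * Real.pi) ≤ 5 / 4 := by linarith
    rwa [div_le_iff₀ p2] at this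
  have k2 : (b - a) * Real.log a ≤ 10 := by nlinarith
  have k3 : b - a ≤ 1 := by
    by_contra hcon
    push Not at hcon
    nlinarith
  have k4 : b / a ≤ 2 := by
    rw [div_le_iff₀ (by linarith)]
    linarith
  have k5 : (b - a) * (b / a) ≤ (b - a) * 2 := mul_le_mul_of_nonneg_left k4 hba.le
  have k6 : (b - a) * 32 ≤ 10 * ε := by
    have : (b - a) * 32 ≤ (b - a) * (Real.log a * ε) := mul_le_mul_of_nonneg_left hle hba.le
    have h9 : (b - a) * (Real.log a * ε) = ((b - a) * Real.log a) * ε := by ring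
    rw [h9] at this
    have : ((b - a) * Real.log a) * ε ≤ 10 * ε := mul_le_mul_of_nonneg_right k2 hε.le
    linarith
  have hl2 : Real.log (2 * Real.pi) ≤ 7 := by
    have := Real.log_le_sub_one_of_pos p2
    linarith
  have hl0 : 0 ≤ Real.log (2 * Real.pi) := Real.log_nonneg (by linarith)
  have e : (b - a) / (2 * Real.pi) * Real.log (a / (2 * Real.pi)) =
      ((b - a) * Real.log a - (b - a) * Real.log (2 * Real.pi)) / (2 * Real.pi) := by
    rw [Real.log_div (by linarith) (by positivity)]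
    field_simp
  have l1 : (b - a) * Real.log (2 * Real.pi) ≤ (b - a) * 7 := mul_le_mul_of_nonneg_left hl2 hba.le
  have l2 : 0 ≤ (b - a) * Real.log (2 * Real.pi) := mul_nonneg hba.le hl0
  rw [le_sub_iff_add_le, le_div_iff₀ p2] at h1
  rw [sub_le_iff_le_add, div_le_iff₀ p2] at h2
  rw [e]
  constructor
  · rw [le_sub_iff_add_le, le_div_iff₀ p2]
    nlinarith
  · rw [sub_le_iff_le_add, div_le_iff₀ p2]
    nlinarith

end Pool.Agent.H986R2.K4
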