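import Pool.Agent.H986R2.K4.Spec
import Pool.Agent.H24R2.DZ.Lap

set_option autoImplicit false

/-!
# Laplace's method along the real direction
-/

namespace Pool.Agent.H986R2.K4

open Complex Filter Topology MeasureTheory Set

namespace LRAux

open Pool.Agent.H24R2.DZ.LapAux (t_exp t2_exp abs3_exp)

/-- the Gaussian integral over a finite interval -/
lemma gauss_le {s δ : ℝ} (hs : 0 < s) (hδ : 0 < δ) :
    ∫ y in (-δ)..δ, Real.exp (-(s ^ 2 * y ^ 2 / 8)) ≤ 6 / s := by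
  have e : ∀ y : ℝ, Real.exp (-(s ^ 2 * y ^ 2 / 8)) = Real.exp (-(s ^ 2 / 8) * y ^ 2) := by
    intro y; congr 1; ring
  simp_rw [e]
  rw [intervalIntegral.integral_of_le (by linarith)]
  have hb : 0 < s ^ 2 / 8 := by positivity
  have h1 : ∫ y in Ioc (-δ) δ, Real.exp (-(s ^ 2 / 8) * y ^ 2) ≤
      ∫ y : ℝ, Real.exp (-(s ^ 2 / 8) * y ^ 2) :=
    setIntegral_le_integral (integrable_exp_neg_mul_sq hb) (Eventually.of_forall fun y => (Real.exp_pos _).le)
  refine h1.trans ?_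
  rw [integral_gaussian]
  apply Real.sqrt_le_iff.2
  refine ⟨by positivity, ?_⟩
  rw [div_pow, div_le_div_iff₀ hb (by positivity)]
  nlinarith [Real.pi_lt_d2, sq_nonneg s, mul_pos hs hs]

/-- **Core of Laplace's method** on the vertical segment. -/
lemma core {s δ : ℝ} (hδ0 : 0 < δ) (hδ : δ ≤ 1 / 10) (hsδ : 1 / s ≤ δ) (hs : 30000 ≤ s) {m : ℝ} (hm1 : s ^ 2 ≤ m) (hm2 : m ≤ 2 * s ^ 2) (v v' : ℝ → ℂ)
    (h0 : v 0 = 0) (hv : ∀ y, |y| ≤ δ → HasDerivAt v (v' y) y)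
    (hb : ∀ y, |y| ≤ δ → ‖v' y + m * y‖ ≤ |y| * s ^ 2 * (1 / 1000 + 11 / 10 * |y|)) :
    (∀ y, |y| ≤ δ → ‖cexp (v y)‖ ≤ Real.exp (-(s ^ 2 * y ^ 2 / 4))) ∧
    1 / 2 / s ≤ ‖∫ y in (-δ)..δ, cexp (v y)‖ := by
  have hs0 : 0 < s := by linarith
  set r : ℝ → ℂ := fun y => v y + m * y ^ 2 / 2 with hr
  have hr' : ∀ y, |y| ≤ δ → HasDerivAt r (v' y + m * y) y := by
    intro y hy
    have h1 : HasDerivAt (fun y : ℝ => ((y : ℂ)) ^ 2) (2 * (y : ℂ)) y := by
      have := (hasDerivAt_pow 2 y).ofReal_comp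
      simpa using this
    have h2 : HasDerivAt (fun y : ℝ => (m : ℂ) * (y : ℂ) ^ 2 / 2) ((m : ℂ) * (2 * (y : ℂ)) / 2) y :=
      (h1.const_mul (m : ℂ)).div_const 2
    have h3 := (hv y hy).add h2
    have e : v' y + (m : ℂ) * (2 * (y : ℂ)) / 2 = v' y + m * y := by ring
    rw [e] at h3
    exact h3
  have hrb : ∀ y, |y| ≤ δ → ‖r y‖ ≤ s ^ 2 * y ^ 2 * (1 / 1000 + 11 / 10 * |y|) := by
    intro y hy
    have hr0 : r 0 = 0 := by rw [hr]; simp [h0]
    have h1 := Convex.norm_image_sub_le_of_norm_hasDerivWithin_le (f := r) (f' := fun y => v' y + m * y)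
      (s := Icc (-|y|) |y|) (x := 0) (y := y) (C := |y| * s ^ 2 * (1 / 1000 + 11 / 10 * |y|))
      (fun x hx => (hr' x ((abs_le.2 hx).trans hy)).hasDerivWithinAt)
      (fun x hx => by
        have hx' : |x| ≤ |y| := abs_le.2 hx
        refine (hb x (hx'.trans hy)).trans ?_
        gcongr)
      (convex_Icc _ _) ⟨by simp, by simp⟩ ⟨neg_abs_le y, le_abs_self y⟩
    rw [hr0, sub_zero, sub_zero, Real.norm_eq_abs] at h1
    refine h1.trans (le_of_eq ?_)
    have : |y| * |y| = y ^ 2 := by rw [← sq, sq_abs]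
    calc |y| * s ^ 2 * (1 / 1000 + 11 / 10 * |y|) * |y| = s ^ 2 * (|y| * |y|) * (1 / 1000 + 11 / 10 * |y|) := by
          ring
      _ = _ := by rw [this]
  have hrb2 : ∀ y, |y| ≤ δ → ‖r y‖ ≤ s ^ 2 * y ^ 2 / 4 := by
    intro y hy
    refine (hrb y hy).trans ?_
    have : 1 / 1000 + 11 / 10 * |y| ≤ 1 / 4 := by linarith
    calc s ^ 2 * y ^ 2 * (1 / 1000 + 11 / 10 * |y|) ≤ s ^ 2 * y ^ 2 * (1 / 4) := by gcongr
      _ = _ := by ring
  have hvr : ∀ y, v y = ((-(m * y ^ 2 / 2) : ℝ) : ℂ) + r y := by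
    intro y; rw [hr]; push_cast; ring
  have hdec : ∀ y, |y| ≤ δ → Real.exp (-(m * y ^ 2 / 2)) * Real.exp ‖r y‖ ≤ Real.exp (-(s ^ 2 * y ^ 2 / 4)) := by
    intro y hy
    rw [← Real.exp_add]
    apply Real.exp_le_exp.2
    have := hrb2 y hy
    have h2 : s ^ 2 * y ^ 2 ≤ m * y ^ 2 := by gcongr
    linarith
  have hA : ∀ y, |y| ≤ δ → ‖cexp (v y)‖ ≤ Real.exp (-(s ^ 2 * y ^ 2 / 4)) := by
    intro y hy
    rw [hvr y, Complex.exp_add, norm_mul, Complex.norm_exp_ofReal]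
    refine le_trans ?_ (hdec y hy)
    gcongr
    exact Complex.norm_exp_le_exp_norm _
  refine ⟨hA, ?_⟩
  -- the integral
  have hcont : ContinuousOn (fun y : ℝ => cexp (v y)) (uIcc (-δ) δ) := by
    intro y hy
    rw [uIcc_of_le (by linarith)] at hy
    exact ((hv y (abs_le.2 hy)).continuousAt.cexp).continuousWithinAt
  have hint1 : IntervalIntegrable (fun y : ℝ => cexp (v y)) volume (-δ) δ :=
    hcont.intervalIntegrable
  have hcg : Continuous fun y : ℝ => ((Real.exp (-(m * y ^ 2 / 2)) : ℝ) : ℂ) := by fun_prop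
  have hint2 : IntervalIntegrable (fun y : ℝ => ((Real.exp (-(m * y ^ 2 / 2)) : ℝ) : ℂ)) volume
      (-δ) δ := hcg.intervalIntegrable _ _
  have hdiff : ‖∫ y in (-δ)..δ, (cexp (v y) - ((Real.exp (-(m * y ^ 2 / 2)) : ℝ) : ℂ))‖ ≤
      ∫ y in (-δ)..δ, (13 / 1000 : ℝ) * Real.exp (-(s ^ 2 * y ^ 2 / 8)) := by
    apply intervalIntegral.norm_integral_le_of_norm_le (by linarith)
    · apply Eventually.of_forall
      intro y hy
      have hy' : |y| ≤ δ := abs_le.2 ⟨hy.1.le, hy.2⟩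
      have e1 : cexp (v y) - ((Real.exp (-(m * y ^ 2 / 2)) : ℝ) : ℂ) =
          ((Real.exp (-(m * y ^ 2 / 2)) : ℝ) : ℂ) * (cexp (r y) - 1) := by
        rw [hvr y, Complex.exp_add, Complex.ofReal_exp]; ring
      have e2 : ‖cexp (r y) - 1‖ ≤ ‖r y‖ * Real.exp ‖r y‖ := by
        have := Complex.norm_exp_sub_sum_le_norm_mul_exp (r y) 1
        simpa using this
      rw [e1, norm_mul, Complex.norm_real, Real.norm_of_nonneg (Real.exp_pos _).le]
      have hs3 : 132 / s ≤ 44 / 10000 := by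
        rw [div_le_div_iff₀ hs0 (by norm_num)]; linarith
      calc Real.exp (-(m * y ^ 2 / 2)) * ‖cexp (r y) - 1‖
          ≤ Real.exp (-(m * y ^ 2 / 2)) * (‖r y‖ * Real.exp ‖r y‖) := by gcongr
        _ = ‖r y‖ * (Real.exp (-(m * y ^ 2 / 2)) * Real.exp ‖r y‖) := by ring
        _ ≤ (s ^ 2 * y ^ 2 * (1 / 1000 + 11 / 10 * |y|)) * Real.exp (-(s ^ 2 * y ^ 2 / 4)) :=
            mul_le_mul (hrb y hy') (hdec y hy') (by positivity) (by positivity)
        _ = 1 / 1000 * (s ^ 2 * y ^ 2 * Real.exp (-(s ^ 2 * y ^ 2 / 4))) +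
            11 / 10 * (s ^ 2 * |y| ^ 3 * Real.exp (-(s ^ 2 * y ^ 2 / 4))) := by
            have h0 : |y| ^ 3 = y ^ 2 * |y| := by rw [pow_succ, sq_abs]
            rw [h0]; ring
        _ ≤ 1 / 1000 * (8 * Real.exp (-(s ^ 2 * y ^ 2 / 8))) +
            11 / 10 * (44 / 10000 * Real.exp (-(s ^ 2 * y ^ 2 / 8))) := by
            gcongr 1 / 1000 * ?_ + 11 / 10 * ?_
            · exact t_exp (by positivity)
            · refine (abs3_exp hs0).trans ?_
              gcongr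
        _ ≤ 13 / 1000 * Real.exp (-(s ^ 2 * y ^ 2 / 8)) := by
            nlinarith [Real.exp_pos (-(s ^ 2 * y ^ 2 / 8))]
    · apply Continuous.intervalIntegrable
      fun_prop
  have hdiff2 : ∫ y in (-δ)..δ, (13 / 1000 : ℝ) * Real.exp (-(s ^ 2 * y ^ 2 / 8)) ≤
      8 / 100 / s := by
    rw [intervalIntegral.integral_const_mul]
    calc (13 / 1000 : ℝ) * ∫ y in (-δ)..δ, Real.exp (-(s ^ 2 * y ^ 2 / 8))
        ≤ 13 / 1000 * (6 / s) := by gcongr; exact gauss_le hs0 hδ0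
      _ = 78 / 1000 / s := by ring
      _ ≤ _ := div_le_div_of_nonneg_right (by norm_num) hs0.le
  -- main term
  have hmain : 7 / 10 / s ≤ ∫ y in (-δ)..δ, Real.exp (-(m * y ^ 2 / 2)) := by
    have hs1 : 1 / s ≤ δ := hsδ
    have hc : Continuous fun y : ℝ => Real.exp (-(m * y ^ 2 / 2)) := by fun_prop
    have h1 : ∫ y in (-(1 / s))..(1 / s), Real.exp (-(m * y ^ 2 / 2)) ≤
        ∫ y in (-δ)..δ, Real.exp (-(m * y ^ 2 / 2)) := by
      apply intervalIntegral.integral_mono_interval (by linarith) _ (by linarith)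
      · exact Eventually.of_forall fun y => (Real.exp_pos _).le
      · exact hc.intervalIntegrable _ _
      · have : 0 < 1 / s := by positivity
        linarith
    have h2 : ∫ y in (-(1 / s))..(1 / s), Real.exp (-1) ≤
        ∫ y in (-(1 / s))..(1 / s), Real.exp (-(m * y ^ 2 / 2)) := by
      apply intervalIntegral.integral_mono_on
      · have : 0 < 1 / s := by positivity
        linarith
      · exact intervalIntegrable_const
      · exact hc.intervalIntegrable _ _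
      · intro y hy
        apply Real.exp_le_exp.2
        have hy' : |y| ≤ 1 / s := abs_le.2 hy
        have hy2 : y ^ 2 ≤ (1 / s) ^ 2 := by
          rw [← sq_abs]; gcongr
        have hy3 : m * y ^ 2 ≤ 2 := by
          calc m * y ^ 2 ≤ (2 * s ^ 2) * (1 / s) ^ 2 := by gcongr
            _ = 2 := by field_simp
        linarith
    rw [intervalIntegral.integral_const, smul_eq_mul] at h2
    have h3 : 7 / 10 / s ≤ (1 / s - -(1 / s)) * Real.exp (-1) := by
      have e1 : (0.367 : ℝ) ≤ Real.exp (-1) := by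
        have := Real.exp_one_lt_d9
        rw [Real.exp_neg, ← one_div, le_div_iff₀ (Real.exp_pos 1)]
        nlinarith
      have e2 : (1 / s - -(1 / s)) * Real.exp (-1) = (2 * Real.exp (-1)) / s := by ring
      rw [e2]
      gcongr
      linarith
    linarith
  have hfin : ∫ y in (-δ)..δ, cexp (v y) =
      ((∫ y in (-δ)..δ, Real.exp (-(m * y ^ 2 / 2)) : ℝ) : ℂ) +
        ∫ y in (-δ)..δ, (cexp (v y) - ((Real.exp (-(m * y ^ 2 / 2)) : ℝ) : ℂ)) := by
    rw [intervalIntegral.integral_sub hint1 hint2, intervalIntegral.integral_ofReal]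
    ring
  have hlow := norm_sub_le_norm_add
    ((∫ y in (-δ)..δ, Real.exp (-(m * y ^ 2 / 2)) : ℝ) : ℂ)
    (∫ y in (-δ)..δ, (cexp (v y) - ((Real.exp (-(m * y ^ 2 / 2)) : ℝ) : ℂ)))
  rw [← hfin, Complex.norm_real] at hlow
  have h8 : 1 / 2 / s ≤ 7 / 10 / s - 8 / 100 / s := by
    rw [← sub_div]; gcongr; norm_num
  have h9 := Real.le_norm_self (∫ y in (-δ)..δ, Real.exp (-(m * y ^ 2 / 2)))
  linarith


/-! ### The local situation -/

section local_

variable {F : ℂ → ℂ} {m : ℕ} {η ρ κ : ℝ}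

/-- the hypothesis near `1` -/
def Hyp1 (F : ℂ → ℂ) (ρ : ℝ) (m : ℕ) (η : ℝ) : Prop :=
  ∀ w ∈ Metric.ball (1 : ℂ) ρ,
    DifferentiableAt ℂ F w ∧ F w ≠ 0 ∧ ‖logDeriv F w + ((m : ℂ) + 1)‖ ≤ η * (m + 1)

lemma ne0 (hρ : ρ ≤ 1 / 2) {w : ℂ} (hw : w ∈ Metric.ball (1 : ℂ) ρ) : w ≠ 0 := by
  rintro rfl
  rw [Metric.mem_ball, dist_eq_norm] at hw
  norm_num at hw
  linarith

lemma diffOn (h : Hyp1 F ρ m η) : DifferentiableOn ℂ F (Metric.ball (1 : ℂ) ρ) :=
  fun w hw => (h w hw).1.differentiableWithinAt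

lemma ld_diffOn (h : Hyp1 F ρ m η) : DifferentiableOn ℂ (logDeriv F) (Metric.ball (1 : ℂ) ρ) := by
  have h1 := (diffOn h).deriv Metric.isOpen_ball
  exact h1.div (diffOn h) fun w hw => (h w hw).2.1

/-- `logDeriv F` is Lipschitz on the smaller ball -/
lemma ld_lip (hρ0 : 0 < ρ) (h : Hyp1 F ρ m η) {w1 w2 : ℂ} (h1 : w1 ∈ Metric.ball (1 : ℂ) (ρ / 2))
    (h2 : w2 ∈ Metric.ball (1 : ℂ) (ρ / 2)) :
    ‖logDeriv F w1 - logDeriv F w2‖ ≤ 4 * (η * (m + 1)) / ρ * ‖w1 - w2‖ := by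
  have hd := ld_diffOn h
  have hsub : Metric.ball (1 : ℂ) (ρ / 2) ⊆ Metric.ball (1 : ℂ) ρ := Metric.ball_subset_ball (by linarith)
  have key : ∀ w ∈ Metric.ball (1 : ℂ) (ρ / 2), ‖deriv (logDeriv F) w‖ ≤ 4 * (η * (m + 1)) / ρ := by
    intro w hw
    have hcl : Metric.closedBall w (ρ / 4) ⊆ Metric.ball (1 : ℂ) ρ := by
      intro x hx
      rw [Metric.mem_closedBall] at hx
      rw [Metric.mem_ball] at hw ⊢
      have := dist_triangle x w 1
      linarith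
    have e : deriv (logDeriv F) w = deriv (fun z => logDeriv F z + ((m : ℂ) + 1)) w := by
      rw [deriv_add_const]
    rw [e]
    have hdc : DiffContOnCl ℂ (fun z => logDeriv F z + ((m : ℂ) + 1)) (Metric.ball w (ρ / 4)) := by
      apply DifferentiableOn.diffContOnCl
      rw [closure_ball w (by positivity)]
      exact (hd.mono hcl).add_const _
    have := Complex.norm_deriv_le_of_forall_mem_sphere_norm_le (R := ρ / 4) (C := η * (m + 1))
      (by positivity) hdc (fun z hz => (h z (hcl (Metric.sphere_subset_closedBall hz))).2.2)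
    refine this.trans (le_of_eq ?_)
    field_simp
  exact (convex_ball (1 : ℂ) (ρ / 2)).norm_image_sub_le_of_norm_deriv_le
    (fun w hw => hd.differentiableAt (Metric.isOpen_ball.mem_nhds (hsub hw))) key h2 h1

/-- the saddle point -/
lemma saddle (hρ0 : 0 < ρ) (hρ : ρ ≤ 1 / 2) (h : Hyp1 F ρ m η) (hκ0 : 0 < κ) (hκ : κ ≤ 1 / 10000)
    (hκρ : κ ≤ ρ / 10) (hη0 : 0 < η) (hη : η ≤ κ * ρ / 10000) (hn : 4 / κ ≤ (m : ℝ) + 1) :
    ∃ w0 : ℂ, ‖w0 - 1‖ ≤ κ ∧ logDeriv F w0 * w0 = -(m : ℂ) := by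
  have hn0 : (0 : ℝ) < (m : ℝ) + 1 := by positivity
  have hn1 : 4 ≤ κ * (m + 1) := by rwa [div_le_iff₀ hκ0, mul_comm] at hn
  have hsub : Metric.closedBall (1 : ℂ) κ ⊆ Metric.ball (1 : ℂ) (ρ / 2) :=
    Metric.closedBall_subset_ball (by linarith)
  have hsub' : Metric.ball (1 : ℂ) (ρ / 2) ⊆ Metric.ball (1 : ℂ) ρ := Metric.ball_subset_ball (by linarith)
  have hη1 : η ≤ κ / 20000 := by nlinarith
  have hη2 : η ≤ 1 / 1000 := by linarith
  have hη3 : η ≤ ρ / 1000 := by nlinarith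
  have hηn : η * (m + 1) ≤ (m + 1) / 1000 := by nlinarith
  have hlow : ∀ w ∈ Metric.closedBall (1 : ℂ) κ, (9 / 10 : ℝ) * (m + 1) ≤ ‖logDeriv F w‖ := by
    intro w hw
    have h1 := (h w (hsub' (hsub hw))).2.2
    have h2 : ‖(m : ℂ) + 1‖ ≤ ‖logDeriv F w‖ + ‖logDeriv F w + ((m : ℂ) + 1)‖ := by
      have : (m : ℂ) + 1 = (logDeriv F w + ((m : ℂ) + 1)) - logDeriv F w := by ring
      calc ‖(m : ℂ) + 1‖ = ‖(logDeriv F w + ((m : ℂ) + 1)) - logDeriv F w‖ := by rw [← this]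
        _ ≤ ‖logDeriv F w + ((m : ℂ) + 1)‖ + ‖logDeriv F w‖ := norm_sub_le _ _
        _ = _ := add_comm _ _
    have e2 : ‖((m : ℂ) + 1)‖ = m + 1 := by
      rw [show (m : ℂ) + 1 = ((m + 1 : ℕ) : ℂ) by push_cast; ring, Complex.norm_natCast]; push_cast; ring
    rw [e2] at h2
    linarith
  set T : ℂ → ℂ := fun w => -(m : ℂ) / logDeriv F w with hT
  have hmaps : MapsTo T (Metric.closedBall (1 : ℂ) κ) (Metric.closedBall (1 : ℂ) κ) := by
    intro w hw
    have hl := hlow w hw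
    have hl0 : 0 < ‖logDeriv F w‖ := lt_of_lt_of_le (by positivity) hl
    have hne : logDeriv F w ≠ 0 := norm_pos_iff.1 hl0
    rw [Metric.mem_closedBall, dist_eq_norm]
    have e : T w - 1 = (1 - (logDeriv F w + ((m : ℂ) + 1))) / logDeriv F w := by
      rw [hT]; field_simp; ring
    rw [e, norm_div, div_le_iff₀ hl0]
    have h1 := (h w (hsub' (hsub hw))).2.2
    calc ‖1 - (logDeriv F w + ((m : ℂ) + 1))‖ ≤ ‖(1 : ℂ)‖ + ‖logDeriv F w + ((m : ℂ) + 1)‖ :=
          norm_sub_le _ _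
      _ ≤ 1 + η * (m + 1) := by rw [norm_one]; linarith
      _ ≤ κ * (9 / 10 * (m + 1)) := by nlinarith
      _ ≤ _ := by gcongr
  have hlip : ∀ w1 ∈ Metric.closedBall (1 : ℂ) κ, ∀ w2 ∈ Metric.closedBall (1 : ℂ) κ,
      ‖T w1 - T w2‖ ≤ 1 / 2 * ‖w1 - w2‖ := by
    intro w1 h1 w2 h2
    have l1 := hlow w1 h1
    have l2 := hlow w2 h2
    have p1 : 0 < ‖logDeriv F w1‖ := lt_of_lt_of_le (by positivity) l1
    have p2 : 0 < ‖logDeriv F w2‖ := lt_of_lt_of_le (by positivity) l2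
    have n1 : logDeriv F w1 ≠ 0 := norm_pos_iff.1 p1
    have n2 : logDeriv F w2 ≠ 0 := norm_pos_iff.1 p2
    have e : T w1 - T w2 = m * (logDeriv F w1 - logDeriv F w2) / (logDeriv F w1 * logDeriv F w2) := by
      rw [hT]; field_simp; ring
    rw [e, norm_div, norm_mul, norm_mul, div_le_iff₀ (by positivity)]
    have hl := ld_lip hρ0 h (hsub h1) (hsub h2)
    rw [Complex.norm_natCast]
    have h3 : (9 / 10 : ℝ) * (m + 1) * (9 / 10 * (m + 1)) ≤ ‖logDeriv F w1‖ * ‖logDeriv F w2‖ :=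
      mul_le_mul l1 l2 (by positivity) (by positivity)
    have h4 : 4 * (η * (m + 1)) / ρ ≤ 1 / 250 * (m + 1) := by
      rw [div_le_iff₀ hρ0]
      nlinarith
    calc (m : ℝ) * ‖logDeriv F w1 - logDeriv F w2‖
        ≤ (m + 1) * (1 / 250 * (m + 1) * ‖w1 - w2‖) := by
          apply mul_le_mul (by linarith) (hl.trans _) (norm_nonneg _) hn0.le
          exact mul_le_mul_of_nonneg_right h4 (norm_nonneg _)
      _ = (1 / 250 * (m + 1) * (m + 1)) * ‖w1 - w2‖ := by ring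
      _ ≤ (1 / 2 * ((9 / 10 : ℝ) * (m + 1) * (9 / 10 * (m + 1)))) * ‖w1 - w2‖ := by
          apply mul_le_mul_of_nonneg_right _ (norm_nonneg _)
          nlinarith [mul_pos hn0 hn0]
      _ ≤ (1 / 2 * (‖logDeriv F w1‖ * ‖logDeriv F w2‖)) * ‖w1 - w2‖ := by gcongr
      _ = _ := by ring
  have hcontr : ContractingWith (1 / 2) (hmaps.restrict T (Metric.closedBall (1 : ℂ) κ) (Metric.closedBall (1 : ℂ) κ)) := by
    refine ⟨by norm_num, ?_⟩
    apply LipschitzWith.of_dist_le_mul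
    intro x y
    rw [Subtype.dist_eq, Subtype.dist_eq, dist_eq_norm, dist_eq_norm]
    have := hlip x.1 x.2 y.1 y.2
    simpa using this
  obtain ⟨w0, hw0, hfix, _⟩ := hcontr.exists_fixedPoint' Metric.isClosed_closedBall.isComplete hmaps
    (Metric.mem_closedBall_self hκ0.le) (edist_ne_top _ _)
  refine ⟨w0, by rw [Metric.mem_closedBall, dist_eq_norm] at hw0; exact hw0, ?_⟩
  have hne : logDeriv F w0 ≠ 0 := norm_pos_iff.1 (lt_of_lt_of_le (by positivity) (hlow w0 hw0))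
  have : -(m : ℂ) / logDeriv F w0 = w0 := hfix
  rw [div_eq_iff hne] at this
  rw [mul_comm]
  exact this.symm

/-- the integrand as an exponential -/
lemma exp_rep (hρ : ρ ≤ 1 / 2) (h : Hyp1 F ρ m η) : ∃ H : ℂ → ℂ,
    (∀ w ∈ Metric.ball (1 : ℂ) ρ, HasDerivAt H (logDeriv F w + m / w) w) ∧
    ∀ w1 ∈ Metric.ball (1 : ℂ) ρ, ∀ w2 ∈ Metric.ball (1 : ℂ) ρ,
      F w1 * w1 ^ m = F w2 * w2 ^ m * cexp (H w1 - H w2) := by
  have hg : DifferentiableOn ℂ (fun w => logDeriv F w + m / w) (Metric.ball (1 : ℂ) ρ) := by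
    apply (ld_diffOn h).add
    apply DifferentiableOn.div (differentiableOn_const _) differentiableOn_id
    intro w hw
    exact ne0 hρ hw
  obtain ⟨H, hH⟩ := hg.isExactOn_ball
  refine ⟨H, hH, ?_⟩
  have hder : ∀ w ∈ Metric.ball (1 : ℂ) ρ,
      HasDerivAt (fun w => F w * w ^ m * cexp (-H w)) 0 w := by
    intro w hw
    obtain ⟨hd, hne, _⟩ := h w hw
    have hs := ne0 hρ hw
    have h1 : HasDerivAt (fun w : ℂ => w ^ m) ((m : ℂ) * w ^ (m - 1)) w := hasDerivAt_pow m w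
    have h2 : HasDerivAt (fun w => F w * w ^ m * cexp (-H w)) _ w :=
      (hd.hasDerivAt.mul h1).mul ((hH w hw).neg.cexp)
    refine h2.congr_deriv ?_
    simp only [Pi.neg_apply, Pi.mul_apply]
    rw [logDeriv_apply]
    rcases Nat.eq_zero_or_pos m with h0 | h0
    · subst h0
      field_simp
      simp
    · obtain ⟨k, rfl⟩ : ∃ k, m = k + 1 := ⟨m - 1, by omega⟩
      rw [Nat.add_sub_cancel]
      field_simp
      ring
  have hconst : ∀ w1 ∈ Metric.ball (1 : ℂ) ρ, ∀ w2 ∈ Metric.ball (1 : ℂ) ρ,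
      F w1 * w1 ^ m * cexp (-H w1) = F w2 * w2 ^ m * cexp (-H w2) := by
    intro w1 h1 w2 h2
    have := (convex_ball (1 : ℂ) ρ).norm_image_sub_le_of_norm_hasDerivWithin_le (C := 0)
      (fun w hw => (hder w hw).hasDerivWithinAt) (fun w _ => by simp) h2 h1
    rw [zero_mul] at this
    exact sub_eq_zero.1 (norm_eq_zero.1 (le_antisymm this (norm_nonneg _)))
  intro w1 h1 w2 h2
  have := hconst w1 h1 w2 h2
  have e : F w1 * w1 ^ m = (F w1 * w1 ^ m * cexp (-H w1)) * cexp (H w1) := by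
    rw [mul_assoc, ← Complex.exp_add]; simp
  rw [e, this, mul_assoc, ← Complex.exp_add]
  congr 2
  ring

end local_

/-- elementary inequality -/
lemma le_exp_quad {r : ℝ} (h0 : 0 ≤ r) (h1 : r ≤ 121) :
    r ≤ Real.exp (r - 1 - (r - 1) ^ 2 / 144) := by
  rcases h0.eq_or_lt with h | h
  · rw [← h]; positivity
  · set u := Real.sqrt r with hu
    have hu0 : 0 < u := Real.sqrt_pos.2 h
    have huu : u ^ 2 = r := Real.sq_sqrt h0
    have hu10 : u ≤ 11 := by
      rw [hu]; apply Real.sqrt_le_iff.2; exact ⟨by norm_num, by linarith⟩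
    have hl := Real.log_le_sub_one_of_pos hu0
    have hl2 : Real.log r = 2 * Real.log u := by rw [← huu, Real.log_pow]; norm_num
    rw [← Real.log_le_iff_le_exp h, hl2]
    have h3 : (r - 1) ^ 2 / 144 ≤ (u - 1) ^ 2 := by
      rw [← huu]
      have h4 : (u ^ 2 - 1) ^ 2 = (u - 1) ^ 2 * (u + 1) ^ 2 := by ring
      rw [h4, div_le_iff₀ (by norm_num)]
      apply mul_le_mul_of_nonneg_left _ (sq_nonneg _)
      nlinarith
    nlinarith

/-- growth of `F` along a segment -/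
lemma grow {F : ℂ → ℂ} {M η : ℝ} (w : ℂ)
    (h : ∀ t : ℝ, 0 ≤ t → t ≤ 1 → DifferentiableAt ℂ F (1 + t * (w - 1)) ∧
      F (1 + t * (w - 1)) ≠ 0 ∧ ‖logDeriv F (1 + t * (w - 1)) + M‖ ≤ η * M) :
    ‖F w‖ ≤ ‖F 1‖ * Real.exp (-(M * (w.re - 1)) + η * M * ‖w - 1‖) := by
  set φ : ℝ → ℂ := fun t => F (1 + t * (w - 1)) * cexp (M * t * (w - 1)) with hφ
  set φ' : ℝ → ℂ := fun t => (w - 1) * (logDeriv F (1 + t * (w - 1)) + M) * φ t with hφ'
  have hd : ∀ t : ℝ, 0 ≤ t → t ≤ 1 → HasDerivAt φ (φ' t) t := by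
    intro t h0 h1
    obtain ⟨a, b, c⟩ := h t h0 h1
    have h1 : HasDerivAt (fun t : ℝ => 1 + (t : ℂ) * (w - 1)) (w - 1) t := by
      have := ((Complex.ofRealCLM.hasDerivAt (x := t)).mul_const (w - 1)).const_add 1
      simpa using this
    have h2 : HasDerivAt (fun t : ℝ => F (1 + t * (w - 1))) (deriv F (1 + t * (w - 1)) * (w - 1)) t :=
      a.hasDerivAt.comp_of_eq t h1 rfl
    have h3 : HasDerivAt (fun t : ℝ => (M : ℂ) * t * (w - 1)) (M * (w - 1)) t := by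
      have := (((Complex.ofRealCLM.hasDerivAt (x := t)).const_mul (M : ℂ)).mul_const (w - 1))
      simpa using this
    have h4 := h2.mul h3.cexp
    refine h4.congr_deriv ?_
    simp only [hφ', hφ, logDeriv_apply]
    field_simp
  have hg := norm_le_gronwallBound_of_norm_deriv_right_le (f := φ) (f' := φ') (δ := ‖F 1‖)
    (K := η * M * ‖w - 1‖) (ε := 0) (a := 0) (b := 1)
    (fun t ht => (hd t ht.1 ht.2).continuousAt.continuousWithinAt)
    (fun t ht => (hd t ht.1 ht.2.le).hasDerivWithinAt)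
    (by simp [hφ])
    (fun t ht => by
      have h1 := (h t ht.1 ht.2.le).2.2
      rw [hφ']
      simp only
      rw [norm_mul, norm_mul, add_zero]
      apply mul_le_mul_of_nonneg_right _ (norm_nonneg _)
      rw [mul_comm]
      exact mul_le_mul_of_nonneg_right h1 (norm_nonneg _)) 1 (by simp)
  rw [gronwallBound_ε0] at hg
  have e1 : φ 1 = F w * cexp (M * (w - 1)) := by
    rw [hφ]; simp
  have e2 : ‖cexp (M * (w - 1))‖ = Real.exp (M * (w.re - 1)) := by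
    rw [Complex.norm_exp]; simp
  rw [e1, norm_mul, e2, sub_zero, mul_one] at hg
  calc ‖F w‖ = (‖F w‖ * Real.exp (M * (w.re - 1))) * Real.exp (-(M * (w.re - 1))) := by
        rw [mul_assoc, ← Real.exp_add]; simp
    _ ≤ (‖F 1‖ * Real.exp (η * M * ‖w - 1‖)) * Real.exp (-(M * (w.re - 1))) := by gcongr
    _ = _ := by rw [mul_assoc, ← Real.exp_add]; congr 2; ring

end LRAux

end Pool.Agent.H986R2.K4
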