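import Pool.Agent.H986R2.K4.LRa

set_option autoImplicit false

/-!
# Laplace's method along the real direction: the theorem
-/

namespace Pool.Agent.H986R2.K4

open Complex Filter Topology MeasureTheory Set

namespace LRAux

/-- the far pieces -/
lemma far_bound {m : ℕ} {F : ℂ → ℂ} {η ρ κ δ Y : ℝ} (hδ : 0 < δ) (hδρ : δ ≤ ρ / 10)
    (hρ : ρ ≤ 1 / 2) (hκ : 0 < κ) (hκδ : κ ≤ δ ^ 2 / 100000) (hη1 : η ≤ κ * ρ / 10000)
    (hη : 0 < η) (hY1 : 1 ≤ Y) (hY2 : Y ≤ 100)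
    (h : ∀ y : ℝ, 0 ≤ y → y ≤ Y → ∀ w ∈ Metric.ball (y : ℂ) ρ,
      DifferentiableAt ℂ F w ∧ F w ≠ 0 ∧ ‖logDeriv F w + ((m : ℂ) + 1)‖ ≤ η * (m + 1)) (w : ℂ)
    (hw0 : 0 ≤ w.re) (hw1 : w.re ≤ Y) (hw2 : |w.im| ≤ κ) (hw3 : δ - κ ≤ |w.re - 1|) :
    ‖F w * w ^ m‖ ≤ ‖F 1‖ * Real.exp (2 - 100 * (κ * (m + 1))) := by
  have hδ1 : δ ≤ 1 / 20 := by linarith
  have hκ1 : κ ≤ δ / 2000000 := by nlinarith
  have hκ2 : κ ≤ 1 / 10000000 := by linarith
  have hm0 : (0 : ℝ) ≤ m := Nat.cast_nonneg m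
  have hg := grow (F := F) (M := (m : ℝ) + 1) (η := η) w (by
    intro t h0 h1
    have hy0 : 0 ≤ 1 + t * (w.re - 1) := by nlinarith
    have hy1 : 1 + t * (w.re - 1) ≤ Y := by nlinarith
    have hb : (1 + (t : ℂ) * (w - 1)) ∈ Metric.ball (((1 + t * (w.re - 1) : ℝ)) : ℂ) ρ := by
      rw [Metric.mem_ball, dist_eq_norm]
      have e : (1 + (t : ℂ) * (w - 1)) - ((1 + t * (w.re - 1) : ℝ) : ℂ) = ((t * w.im : ℝ) : ℂ) * I := by
        apply Complex.ext <;> simp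
      rw [e, norm_mul, Complex.norm_I, mul_one, Complex.norm_real, Real.norm_eq_abs, abs_mul,
        abs_of_nonneg h0]
      have : t * |w.im| ≤ 1 * |w.im| := mul_le_mul_of_nonneg_right h1 (abs_nonneg _)
      linarith
    obtain ⟨a, b, c⟩ := h _ hy0 hy1 _ hb
    refine ⟨a, b, ?_⟩
    push_cast
    exact c)
  have hr1 : ‖w‖ ≤ w.re + κ := by
    have := Complex.norm_le_abs_re_add_abs_im w
    rw [abs_of_nonneg hw0] at this
    linarith
  have hr2 : w.re ≤ ‖w‖ := (le_abs_self _).trans (Complex.abs_re_le_norm w)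
  have hw1' : ‖w - 1‖ ≤ 100 := by
    have := Complex.norm_le_abs_re_add_abs_im (w - 1)
    simp only [Complex.sub_re, Complex.one_re, Complex.sub_im, Complex.one_im, sub_zero] at this
    have h2 : |w.re - 1| ≤ 99 := abs_le.2 ⟨by linarith, by linarith⟩
    linarith
  have hq := le_exp_quad (norm_nonneg w) (by linarith)
  have hsq : δ ^ 2 / 4 ≤ (‖w‖ - 1) ^ 2 := by
    have h1 : δ / 2 ≤ |‖w‖ - 1| := by
      rcases le_abs.1 hw3 with h2 | h2
      · exact le_trans (by linarith) (le_abs_self _)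
      · exact le_trans (by linarith) (neg_le_abs _)
    have h2 : (δ / 2) ^ 2 ≤ |‖w‖ - 1| ^ 2 := by gcongr
    rw [sq_abs] at h2
    linarith [h2, (by ring : (δ / 2) ^ 2 = δ ^ 2 / 4)]
  have hpow : ‖w‖ ^ m ≤ Real.exp (m * (w.re - 1 + κ) - 172 * (m * κ)) := by
    calc ‖w‖ ^ m ≤ (Real.exp (‖w‖ - 1 - (‖w‖ - 1) ^ 2 / 144)) ^ m :=
          pow_le_pow_left₀ (norm_nonneg _) hq _
      _ = Real.exp (m * (‖w‖ - 1 - (‖w‖ - 1) ^ 2 / 144)) := by rw [← Real.exp_nat_mul]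
      _ ≤ _ := by
          apply Real.exp_le_exp.2
          have h3 : ‖w‖ - 1 - (‖w‖ - 1) ^ 2 / 144 ≤ (w.re - 1 + κ) - 172 * κ := by
            nlinarith
          calc (m : ℝ) * (‖w‖ - 1 - (‖w‖ - 1) ^ 2 / 144) ≤ m * ((w.re - 1 + κ) - 172 * κ) := by gcongr
            _ = _ := by ring
  rw [norm_mul, norm_pow]
  calc ‖F w‖ * ‖w‖ ^ m ≤ (‖F 1‖ * Real.exp (-(((m : ℝ) + 1) * (w.re - 1)) + η * ((m : ℝ) + 1) * ‖w - 1‖)) *
        Real.exp (m * (w.re - 1 + κ) - 172 * (m * κ)) := by gcongr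
    _ = ‖F 1‖ * Real.exp (-(((m : ℝ) + 1) * (w.re - 1)) + η * ((m : ℝ) + 1) * ‖w - 1‖ +
        (m * (w.re - 1 + κ) - 172 * (m * κ))) := by rw [mul_assoc, ← Real.exp_add]
    _ ≤ _ := by
        apply mul_le_mul_of_nonneg_left _ (norm_nonneg _)
        apply Real.exp_le_exp.2
        have h4 : η * ((m : ℝ) + 1) * ‖w - 1‖ ≤ κ * (m + 1) := by
          have h5 : η * 100 ≤ κ := by nlinarith
          calc η * ((m : ℝ) + 1) * ‖w - 1‖ ≤ η * ((m : ℝ) + 1) * 100 := by gcongr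
            _ = (η * 100) * (m + 1) := by ring
            _ ≤ _ := by gcongr
        have h6 : 0 ≤ m * κ := by positivity
        nlinarith

/-- the local integral at the saddle point -/
lemma local_int {m : ℕ} {F : ℂ → ℂ} {η ρ κ δ : ℝ} (hδ : 0 < δ) (hδρ : δ ≤ ρ / 10)
    (hρ : ρ ≤ 1 / 2) (hκ : 0 < κ) (hκδ : κ ≤ δ ^ 2 / 100000) (hη1 : η ≤ κ * ρ / 10000)
    (hη : 0 < η) (hn : 8 / κ ^ 2 ≤ (m : ℝ)) (h1 : Hyp1 F ρ m η) :
    ∃ w0 : ℂ, ‖w0 - 1‖ ≤ κ ∧ Real.exp (-(κ * (m + 1))) * ‖F 1‖ ≤ ‖F w0 * w0 ^ m‖ ∧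
      1 / 2 / (m : ℝ) * ‖F w0 * w0 ^ m‖ ≤ ‖∫ x in (-δ)..δ, F (w0 + x) * (w0 + x) ^ m‖ := by
  have hδ1 : δ ≤ 1 / 20 := by linarith
  have hκ1 : κ ≤ δ / 2000000 := by nlinarith
  have hκ2 : κ ≤ 1 / 10000000 := by linarith
  have hρ0 : 0 < ρ := by linarith
  have hm0 : (0 : ℝ) ≤ m := Nat.cast_nonneg m
  have hκκ : 8 ≤ κ * (κ * m) := by
    rw [div_le_iff₀ (by positivity)] at hn
    nlinarith
  have hκm : 80000000 ≤ κ * m := by
    by_contra hcon
    push Not at hcon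
    have h0 : 0 ≤ κ * m := by positivity
    nlinarith
  have hm1 : 1000000000000 ≤ (m : ℝ) := by
    by_contra hcon
    push Not at hcon
    nlinarith
  have h4κ : 4 / κ ≤ (m : ℝ) + 1 := by
    rw [div_le_iff₀ hκ]
    nlinarith
  obtain ⟨w0, hw0, hsad⟩ := saddle hρ0 hρ h1 hκ (by linarith) (by linarith) hη hη1 h4κ
  obtain ⟨H, hH, hQ⟩ := exp_rep hρ h1
  have hball : ∀ x : ℝ, |x| ≤ δ → w0 + x ∈ Metric.ball (1 : ℂ) (ρ / 2) := by
    intro x hx
    rw [Metric.mem_ball, dist_eq_norm]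
    have e : w0 + x - 1 = (w0 - 1) + x := by ring
    rw [e]
    have h2 : ‖(x : ℂ)‖ = |x| := by rw [Complex.norm_real, Real.norm_eq_abs]
    have := norm_add_le (w0 - 1) (x : ℂ)
    linarith
  have hsub' : Metric.ball (1 : ℂ) (ρ / 2) ⊆ Metric.ball (1 : ℂ) ρ := Metric.ball_subset_ball (by linarith)
  have hw0b : w0 ∈ Metric.ball (1 : ℂ) (ρ / 2) := by
    have := hball 0 (by simpa using hδ.le)
    simpa using this
  have h1b : (1 : ℂ) ∈ Metric.ball (1 : ℂ) ρ := Metric.mem_ball_self hρ0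
  have hηκ : η ≤ κ / 20000 := by nlinarith
  refine ⟨w0, hw0, ?_, ?_⟩
  · have e1 := hQ w0 (hsub' hw0b) 1 h1b
    rw [one_pow, mul_one] at e1
    rw [e1, norm_mul, mul_comm]
    apply mul_le_mul_of_nonneg_left _ (norm_nonneg _)
    have hcb : Metric.closedBall (1 : ℂ) κ ⊆ Metric.ball (1 : ℂ) ρ :=
      Metric.closedBall_subset_ball (by linarith)
    have h2 := (convex_closedBall (1 : ℂ) κ).norm_image_sub_le_of_norm_hasDerivWithin_le
      (C := (m : ℝ) + 1)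
      (fun w hw => (hH w (hcb hw)).hasDerivWithinAt) (fun w hw => by
        have a1 := (h1 w (hcb hw)).2.2
        have a2 : w ≠ 0 := ne0 hρ (hcb hw)
        rw [Metric.mem_closedBall, dist_eq_norm] at hw
        have a3 : logDeriv F w + m / w = (logDeriv F w + ((m : ℂ) + 1)) +
            (m * (1 - w) - w) / w := by field_simp; ring
        have a4 : 9 / 10 ≤ ‖w‖ := by
          have a5 : ‖(1 : ℂ)‖ ≤ ‖w‖ + ‖w - 1‖ := by
            calc ‖(1 : ℂ)‖ = ‖w - (w - 1)‖ := by congr 1; ring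
              _ ≤ _ := norm_sub_le _ _
          rw [norm_one] at a5
          linarith
        have a4' : ‖w‖ ≤ 2 := by
          have a5 : ‖w‖ ≤ ‖(1 : ℂ)‖ + ‖w - 1‖ := by
            calc ‖w‖ = ‖1 + (w - 1)‖ := by congr 1; ring
              _ ≤ _ := norm_add_le _ _
          rw [norm_one] at a5
          linarith
        have a6 : ‖(m : ℂ) * (1 - w) - w‖ ≤ m * κ + 2 := by
          calc ‖(m : ℂ) * (1 - w) - w‖ ≤ ‖(m : ℂ) * (1 - w)‖ + ‖w‖ := norm_sub_le _ _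
            _ = m * ‖w - 1‖ + ‖w‖ := by rw [norm_mul, Complex.norm_natCast, norm_sub_rev]
            _ ≤ _ := by gcongr
        have a7 : ‖((m : ℂ) * (1 - w) - w) / w‖ ≤ (m * κ + 2) / (9 / 10) := by
          rw [norm_div]
          gcongr
        rw [a3]
        calc _ ≤ ‖logDeriv F w + ((m : ℂ) + 1)‖ + ‖((m : ℂ) * (1 - w) - w) / w‖ := norm_add_le _ _
          _ ≤ η * (m + 1) + (m * κ + 2) / (9 / 10) := add_le_add a1 a7
          _ ≤ m + 1 := by nlinarith) (Metric.mem_closedBall_self hκ.le)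
      (y := w0) (by rw [Metric.mem_closedBall, dist_eq_norm]; exact hw0)
    rw [Complex.norm_exp]
    apply Real.exp_le_exp.2
    have h3 : -‖H w0 - H 1‖ ≤ (H w0 - H 1).re := (abs_le.1 (Complex.abs_re_le_norm _)).1
    have h4 : ((m : ℝ) + 1) * ‖w0 - 1‖ ≤ (m + 1) * κ := by gcongr
    linarith
  -- the function on the segment
  set s : ℝ := Real.sqrt m with hs
  have hs2 : s ^ 2 = m := Real.sq_sqrt (by positivity)
  have hs1 : 30000 ≤ s := by
    rw [hs]; apply Real.le_sqrt_of_sq_le; linarith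
  have hs0 : 0 < s := by linarith
  have hsm : s ≤ m := by nlinarith
  have hsδ : 1 / s ≤ δ := by
    rw [div_le_iff₀ hs0]
    have h2 : 1 ≤ (δ * s) ^ 2 := by
      rw [mul_pow, hs2]
      nlinarith
    have h3 : 0 ≤ δ * s := by positivity
    nlinarith
  set v : ℝ → ℂ := fun y => H (w0 + y) - H w0 with hv
  set v' : ℝ → ℂ := fun y => logDeriv F (w0 + y) + m / (w0 + y) with hv'
  have hvd : ∀ y, |y| ≤ δ → HasDerivAt v (v' y) y := by
    intro y hy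
    have h1 : HasDerivAt (fun y : ℝ => w0 + (y : ℂ)) 1 y := by
      have := ((Complex.ofRealCLM.hasDerivAt (x := y))).const_add w0
      simpa using this
    have h2 := (hH _ (hsub' (hball y hy))).comp_of_eq y h1 rfl
    rw [mul_one] at h2
    exact h2.sub_const _
  have hrep : ∀ y : ℝ, |y| ≤ δ → F (w0 + y) * (w0 + y) ^ m = (F w0 * w0 ^ m) * cexp (v y) := by
    intro y hy
    exact hQ _ (hsub' (hball y hy)) w0 (hsub' hw0b)
  have hv0 : v 0 = 0 := by rw [hv]; simp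
  have hv'b : ∀ y : ℝ, |y| ≤ δ → ‖v' y + (m : ℝ) * y‖ ≤ |y| * s ^ 2 * (1 / 1000 + 11 / 10 * |y|) := by
    intro y hy
    have a1 := ld_lip hρ0 h1 (hball y hy) hw0b
    have e0 : w0 + y - w0 = y := by ring
    have e1 : ‖(y : ℂ)‖ = |y| := by rw [Complex.norm_real, Real.norm_eq_abs]
    rw [e0, e1] at a1
    have hu0n : w0 ≠ 0 := ne0 hρ (hsub' hw0b)
    have hu1n : w0 + y ≠ 0 := ne0 hρ (hsub' (hball y hy))
    have hL0 : logDeriv F w0 = -(m : ℂ) / w0 := by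
      rw [eq_div_iff hu0n]; exact hsad
    have key : v' y + (m : ℝ) * y = (logDeriv F (w0 + y) - logDeriv F w0) +
        m * y * (((w0 - 1) * (w0 + 1) + w0 * y) / (w0 * (w0 + y))) := by
      rw [hv']
      simp only
      rw [hL0]
      push_cast
      field_simp
      ring
    have b1 : ‖w0‖ ≤ 10001 / 10000 := by
      calc ‖w0‖ = ‖1 + (w0 - 1)‖ := by congr 1; ring
        _ ≤ ‖(1 : ℂ)‖ + ‖w0 - 1‖ := norm_add_le _ _
        _ ≤ _ := by rw [norm_one]; linarith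
    have b1' : ‖w0 + 1‖ ≤ 21 / 10 := by
      calc ‖w0 + 1‖ ≤ ‖w0‖ + ‖(1 : ℂ)‖ := norm_add_le _ _
        _ ≤ _ := by rw [norm_one]; linarith
    have b3 : 99 / 100 ≤ ‖w0‖ := by
      have a5 : ‖(1 : ℂ)‖ ≤ ‖w0‖ + ‖w0 - 1‖ := by
        calc ‖(1 : ℂ)‖ = ‖w0 - (w0 - 1)‖ := by congr 1; ring
          _ ≤ _ := norm_sub_le _ _
      rw [norm_one] at a5
      linarith
    have b4 : 945 / 1000 ≤ ‖w0 + y‖ := by
      have a5 : ‖(1 : ℂ)‖ ≤ ‖w0 + y‖ + (‖w0 - 1‖ + ‖(y : ℂ)‖) := by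
        calc ‖(1 : ℂ)‖ = ‖(w0 + y) - ((w0 - 1) + y)‖ := by congr 1; ring
          _ ≤ ‖w0 + y‖ + ‖(w0 - 1) + y‖ := norm_sub_le _ _
          _ ≤ _ := by gcongr; exact norm_add_le _ _
      rw [norm_one, e1] at a5
      linarith
    have b5 : ‖(w0 - 1) * (w0 + 1) + w0 * y‖ ≤ 21 / 10 * κ + 10001 / 10000 * |y| := by
      calc ‖(w0 - 1) * (w0 + 1) + w0 * y‖ ≤ ‖(w0 - 1) * (w0 + 1)‖ + ‖w0 * y‖ := norm_add_le _ _
        _ = ‖w0 - 1‖ * ‖w0 + 1‖ + ‖w0‖ * |y| := by rw [norm_mul, norm_mul, e1]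
        _ ≤ κ * (21 / 10) + 10001 / 10000 * |y| := by gcongr
        _ = _ := by ring
    have b6 : ‖((w0 - 1) * (w0 + 1) + w0 * y) / (w0 * (w0 + y))‖ ≤
        (21 / 10 * κ + 10001 / 10000 * |y|) / (93 / 100) := by
      rw [norm_div, norm_mul]
      gcongr
      nlinarith
    have hy0 : 0 ≤ |y| := abs_nonneg y
    have b7 : 4 * (η * ((m : ℝ) + 1)) / ρ ≤ m / 2000 := by
      rw [div_le_iff₀ hρ0]
      have c1 : η ≤ ρ / 100000 := by nlinarith
      nlinarith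
    rw [key, hs2]
    calc _ ≤ ‖logDeriv F (w0 + y) - logDeriv F w0‖ +
          ‖m * y * (((w0 - 1) * (w0 + 1) + w0 * y) / (w0 * (w0 + y)))‖ := norm_add_le _ _
      _ = ‖logDeriv F (w0 + y) - logDeriv F w0‖ +
          m * |y| * ‖((w0 - 1) * (w0 + 1) + w0 * y) / (w0 * (w0 + y))‖ := by
          rw [norm_mul, norm_mul, Complex.norm_natCast, e1]
      _ ≤ m / 2000 * |y| + m * |y| * ((21 / 10 * κ + 10001 / 10000 * |y|) / (93 / 100)) := by
          refine add_le_add (a1.trans ?_) ?_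
          · exact mul_le_mul_of_nonneg_right b7 hy0
          · exact mul_le_mul_of_nonneg_left b6 (by positivity)
      _ = |y| * (m * (1 / 2000 + (21 / 10 * κ + 10001 / 10000 * |y|) / (93 / 100))) := by ring
      _ ≤ |y| * (m * (1 / 1000 + 11 / 10 * |y|)) := by
          apply mul_le_mul_of_nonneg_left _ hy0
          apply mul_le_mul_of_nonneg_left _ hm0
          linarith
      _ = _ := by ring
  obtain ⟨-, hB⟩ := core hδ (by linarith) hsδ hs1 (m := (m : ℝ)) (by rw [hs2]) (by rw [hs2]; linarith)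
    v v' hv0 hvd hv'b
  have e : ∫ x in (-δ)..δ, F (w0 + x) * (w0 + x) ^ m =
      ∫ x in (-δ)..δ, (F w0 * w0 ^ m) * cexp (v x) := by
    apply intervalIntegral.integral_congr
    intro y hy
    rw [uIcc_of_le (by linarith)] at hy
    exact hrep y (abs_le.2 hy)
  rw [e, intervalIntegral.integral_const_mul, norm_mul (F w0 * w0 ^ m), mul_comm]
  refine mul_le_mul_of_nonneg_left (le_trans ?_ hB) (norm_nonneg _)
  exact div_le_div_of_nonneg_left (by norm_num) hs0 hsm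

end LRAux

end Pool.Agent.H986R2.K4
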