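import Pool.Agent.H986R2.K4.Spec
import Pool.Agent.H382R2.Gam

set_option autoImplicit false

namespace Pool.Agent.H986R2.K4

open Complex Filter Topology MeasureTheory Set
open Pool.Agent.H24R2.JP (XX HH Om)
open Pool.Agent.H24R2.DZ (bad hc)

namespace RTAux

/-- growth of `F` between two points of the good region -/
lemma growth {n : ℕ} {κ R η : ℝ} {F : ℂ → ℂ} (hη : 0 < η) (hn : 1 ≤ n) (hN : QQ κ R n η F)
    {w w' : ℂ} (h1 : 1 - κ ≤ w.re) (h2 : ‖w‖ ≤ R) (h3 : 1 - κ ≤ w'.re) (h4 : ‖w'‖ ≤ R) :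
    ‖F w‖ ≤ ‖F w'‖ * Real.exp (n * (w.re - w'.re) + η * n * ‖w - w'‖) := by
  rcases eq_or_ne w w' with rfl | hne
  · simp
  have hn0 : (0 : ℝ) < n := by exact_mod_cast hn
  have hd : 0 < ‖w - w'‖ := norm_pos_iff.2 (sub_ne_zero.2 hne)
  have hreg : ∀ x ∈ Icc (0 : ℝ) 1, 1 - κ ≤ (w' + x * (w - w')).re ∧ ‖w' + x * (w - w')‖ ≤ R := by
    intro x hx
    have e : w' + x * (w - w') = (1 - x : ℝ) • w' + (x : ℝ) • w := by
      simp only [Complex.real_smul]
      push_cast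
      ring
    rw [e]
    constructor
    · simp only [Complex.add_re, Complex.smul_re, smul_eq_mul]
      nlinarith [hx.1, hx.2, mul_le_mul_of_nonneg_left h1 hx.1,
        mul_le_mul_of_nonneg_left h3 (show (0 : ℝ) ≤ 1 - x by linarith [hx.2])]
    · have hc := (convex_closedBall (0 : ℂ) R) (by simpa using h4) (by simpa using h2)
        (show (0 : ℝ) ≤ 1 - x by linarith [hx.2]) hx.1 (by ring)
      simpa using hc
  have key := SG.GamAux.gron
    (fun x : ℝ => F (w' + x * (w - w')) * cexp (-(x * (n * (w - w')))))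
    (fun x : ℝ => F (w' + x * (w - w')) * cexp (-(x * (n * (w - w')))) *
      ((logDeriv F (w' + x * (w - w')) - n) * (w - w'))) (η * n * ‖w - w'‖) (by positivity) ?_ ?_
  · have k1 := key.1
    simp only [Complex.ofReal_one, one_mul, add_sub_cancel, Complex.ofReal_zero, zero_mul, add_zero,
      neg_zero, Complex.exp_zero, mul_one, norm_mul] at k1
    have e1 : ‖cexp (-((n : ℂ) * (w - w')))‖ = Real.exp (-(n * (w.re - w'.re))) := by
      rw [Complex.norm_exp]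
      simp
    rw [e1] at k1
    have e2 : ‖F w‖ = ‖F w‖ * Real.exp (-(n * (w.re - w'.re))) * Real.exp (n * (w.re - w'.re)) := by
      rw [mul_assoc, ← Real.exp_add]
      simp
    rw [e2, Real.exp_add]
    calc ‖F w‖ * Real.exp (-(n * (w.re - w'.re))) * Real.exp (n * (w.re - w'.re))
        ≤ Real.exp (η * n * ‖w - w'‖) * ‖F w'‖ * Real.exp (n * (w.re - w'.re)) := by gcongr
      _ = _ := by ring
  · intro x hx
    obtain ⟨r1, r2⟩ := hreg x hx
    have hF := (hN.far _ r1 r2).1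
    have hlin : HasDerivAt (fun x : ℝ => w' + (x : ℂ) * (w - w')) (w - w') x := by
      have h0 : HasDerivAt (fun x : ℝ => (x : ℂ)) 1 x := Complex.ofRealCLM.hasDerivAt
      simpa using (h0.mul_const (w - w')).const_add w'
    have d1 : HasDerivAt (fun x : ℝ => F (w' + (x : ℂ) * (w - w')))
        (deriv F (w' + x * (w - w')) * (w - w')) x :=
      HasDerivAt.comp x (hN.diff _).hasDerivAt hlin
    have d2 : HasDerivAt (fun x : ℝ => cexp (-((x : ℂ) * (n * (w - w')))))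
        (cexp (-((x : ℂ) * (n * (w - w')))) * (-(n * (w - w')))) x := by
      have h0 : HasDerivAt (fun x : ℝ => (x : ℂ)) 1 x := Complex.ofRealCLM.hasDerivAt
      have h0' : HasDerivAt (fun x : ℝ => -((x : ℂ) * (n * (w - w')))) (-(1 * (n * (w - w')))) x :=
        (h0.mul_const _).fun_neg
      rw [one_mul] at h0'
      exact h0'.cexp
    refine (d1.mul d2).congr_deriv ?_
    rw [logDeriv_apply]
    generalize F (w' + x * (w - w')) = a at *
    generalize deriv F (w' + x * (w - w')) = b at *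
    field_simp
    ring
  · intro x hx
    obtain ⟨r1, r2⟩ := hreg x hx
    have hL' : ‖logDeriv F (w' + x * (w - w')) - (n : ℂ)‖ ≤ η * n := (hN.far _ r1 r2).2
    rw [norm_mul _ ((logDeriv F (w' + x * (w - w')) - n) * (w - w')), norm_mul (_ - _) (w - w'),
      mul_comm]
    gcongr

lemma ex {v : ℂ} {δ : ℝ} (h1 : 2 * (v.re - 1) + 2 * δ < 1)
    (h : 1 ≤ (v.re ^ 2 + v.im ^ 2) * (1 - (2 * (v.re - 1) + 2 * δ))) :
    Real.exp (v.re - 1 + δ) ≤ ‖v‖ := by
  have hN : ‖v‖ ^ 2 = v.re ^ 2 + v.im ^ 2 := by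
    rw [Complex.sq_norm, Complex.normSq_apply]; ring
  have h2 : Real.exp (v.re - 1 + δ) ^ 2 = Real.exp (2 * (v.re - 1) + 2 * δ) := by
    rw [← Real.exp_nat_mul]
    congr 1
    push_cast
    ring
  rw [← sq_le_sq₀ (Real.exp_pos _).le (norm_nonneg v), h2, hN]
  set y := 2 * (v.re - 1) + 2 * δ with hy
  have h3 : Real.exp y * (1 - y) ≤ 1 := by
    have h4 := Real.add_one_le_exp (-y)
    have h5 : Real.exp y * Real.exp (-y) = 1 := by rw [← Real.exp_add]; simp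
    nlinarith [Real.exp_pos y]
  have h6 : 0 ≤ v.re ^ 2 + v.im ^ 2 := by positivity
  calc Real.exp y = Real.exp y * 1 := by ring
    _ ≤ Real.exp y * ((v.re ^ 2 + v.im ^ 2) * (1 - y)) := by gcongr
    _ = (Real.exp y * (1 - y)) * (v.re ^ 2 + v.im ^ 2) := by ring
    _ ≤ 1 * (v.re ^ 2 + v.im ^ 2) := by gcongr
    _ = _ := one_mul _

section

variable {n : ℕ} {κ R η d : ℝ} {F : ℂ → ℂ}

/-- the elementary facts on `d` -/
lemma dd (hd0 : 0 < d) (hd : d ≤ 1 / 20) : d ^ 3 / 10 ≤ d ^ 2 / 200 ∧ d ^ 2 ≤ d / 20 ∧ d ^ 2 ≤ 1 / 400 ∧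
    0 < d ^ 2 ∧ 0 < d ^ 3 := by
  have h1 : d ^ 2 ≤ d / 20 := by nlinarith
  have h2 : 0 < d ^ 2 := by positivity
  refine ⟨?_, h1, by linarith, h2, by positivity⟩
  nlinarith

lemma qb (hκ : κ = 10 * d) (hd0 : 0 < d) (hd : d ≤ 1 / 20) (hR : 3 ≤ R) (hη : 0 < η)
    (hη1 : η ≤ d ^ 2 / 100) (hn : 1 ≤ n) (hN : QQ κ R n η F)
    {z w : ℂ} (hz : ‖z‖ ≤ d ^ 3 / 10) (h1 : 1 - κ ≤ w.re)
    (h2 : ‖w‖ ≤ 3 / 2) (h3 : 1 / 2 ≤ ‖w - z‖)
    (h4 : Real.exp ((w - z).re - 1 + d ^ 2 / 4) ≤ ‖w - z‖) :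
    ‖F w / (w - z) ^ (n + 1)‖ ≤ 2 * (‖F (z + 1)‖ * Real.exp (-(d ^ 2 / 5 * n))) := by
  obtain ⟨d1, d2, d3, d4, d5⟩ := dd hd0 hd
  have hn0 : (0 : ℝ) < n := by exact_mod_cast hn
  have hz1' := abs_le.1 ((Complex.abs_re_le_norm z).trans hz)
  have g := growth hη hn hN (w := w) (w' := z + 1) h1 (by linarith) (by simp; linarith [hz1'.1])
    ((norm_add_le _ _).trans (by rw [norm_one]; linarith))
  have e1 : w.re - (z + 1).re = (w - z).re - 1 := by simp; ring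
  have e2 : ‖w - (z + 1)‖ ≤ 3 := by
    have a1 : w - (z + 1) = w + (-z) + (-1) := by ring
    rw [a1]
    refine (norm_add_le _ _).trans ?_
    have a2 := norm_add_le w (-z)
    rw [norm_neg] at a2
    rw [norm_neg, norm_one]
    linarith
  rw [e1] at g
  have hv : 0 < ‖w - z‖ := by linarith
  rw [norm_div, norm_pow, div_le_iff₀ (by positivity)]
  have p1 : Real.exp (n * ((w - z).re - 1 + d ^ 2 / 4)) ≤ ‖w - z‖ ^ n := by
    rw [Real.exp_nat_mul]
    gcongr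
  have p2 : Real.exp (n * ((w - z).re - 1 + d ^ 2 / 4)) * (1 / 2) ≤ ‖w - z‖ ^ (n + 1) := by
    rw [pow_succ ‖w - z‖ n]
    gcongr
  calc ‖F w‖ ≤ ‖F (z + 1)‖ * Real.exp (n * ((w - z).re - 1) + η * n * ‖w - (z + 1)‖) := g
    _ ≤ ‖F (z + 1)‖ * Real.exp (-(d ^ 2 / 5 * n) + n * ((w - z).re - 1 + d ^ 2 / 4)) := by
        refine mul_le_mul_of_nonneg_left (Real.exp_le_exp.2 ?_) (norm_nonneg _)
        have : η * n * ‖w - (z + 1)‖ ≤ d ^ 2 / 100 * n * 3 := by gcongr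
        nlinarith [mul_pos d4 hn0]
    _ = 2 * (‖F (z + 1)‖ * Real.exp (-(d ^ 2 / 5 * n))) *
        (Real.exp (n * ((w - z).re - 1 + d ^ 2 / 4)) * (1 / 2)) := by
        rw [Real.exp_add]; ring
    _ ≤ _ := by gcongr

lemma arcb (hκ : κ = 10 * d) (hd0 : 0 < d) (hd : d ≤ 1 / 20) (hR : 3 ≤ R) (hη : 0 < η)
    (hη1 : η ≤ d ^ 2 / 100) (hn : 1 ≤ n) (hN : QQ κ R n η F)
    {z : ℂ} (hz : ‖z‖ ≤ d ^ 3 / 10) {φ : ℝ} (h1 : d ≤ |φ|)
    (h2 : |φ| ≤ Real.pi / 2) :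
    ‖F (cexp (I * φ)) / (cexp (I * φ) - z) ^ (n + 1)‖ ≤
      2 * (‖F (z + 1)‖ * Real.exp (-(d ^ 2 / 5 * n))) := by
  obtain ⟨d1, d2, d3, d4, d5⟩ := dd hd0 hd
  have hn0 : (0 : ℝ) < n := by exact_mod_cast hn
  have hz1' := abs_le.1 ((Complex.abs_re_le_norm z).trans hz)
  have hre : (cexp (I * φ)).re = Real.cos φ := by
    rw [mul_comm, Complex.exp_ofReal_mul_I_re]
  have hnm : ‖cexp (I * φ)‖ = 1 := by
    rw [mul_comm]; exact Complex.norm_exp_ofReal_mul_I φ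
  have hlow : 1 - d ^ 3 / 10 ≤ ‖cexp (I * φ) - z‖ := by
    have := norm_sub_norm_le (cexp (I * φ)) z
    rw [hnm] at this
    linarith
  have hc0 : 0 ≤ Real.cos φ := by
    rw [← Real.cos_abs]
    exact Real.cos_nonneg_of_neg_pi_div_two_le_of_le (by linarith [abs_nonneg φ, Real.pi_pos]) h2
  rcases le_or_gt (Real.cos φ) (1 - κ) with hc | hc
  · have a1 := hN.near (cexp (I * φ)) (by rw [hre, abs_of_nonneg hc0]; exact hc)
      (by rw [hnm]; linarith)
    have a2 := growth hη hn hN (w := 1) (w' := z + 1) (by simp; linarith) (by rw [norm_one]; linarith)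
      (by simp; linarith)
      ((norm_add_le _ _).trans (by rw [norm_one]; linarith))
    have e2 : ‖(1 : ℂ) - (z + 1)‖ = ‖z‖ := by
      rw [show (1 : ℂ) - (z + 1) = -z by ring, norm_neg]
    rw [e2] at a2
    have a3 : Real.exp (n * ((1 : ℂ).re - (z + 1).re) + η * n * ‖z‖) ≤ Real.exp (d / 10 * n) := by
      apply Real.exp_le_exp.2
      have b0 : η * ‖z‖ ≤ 1 * (d ^ 3 / 10) := by
        gcongr
        linarith
      have b1 : η * n * ‖z‖ ≤ (d ^ 3 / 10) * n := by nlinarith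
      have b : n * ((1 : ℂ).re - (z + 1).re) ≤ n * (d ^ 3 / 10) := by
        gcongr
        simp
        linarith [hz1'.1]
      nlinarith
    have a4 : Real.exp (-(d / 10)) ≤ 1 - d ^ 3 / 10 := by
      rw [Real.exp_neg, inv_le_comm₀ (Real.exp_pos _) (by linarith)]
      have h5 := Real.add_one_le_exp (d / 10 : ℝ)
      refine le_trans ?_ h5
      rw [inv_le_iff_one_le_mul₀ (by linarith)]
      nlinarith
    have p1 : Real.exp (n * (-(d / 10))) ≤ ‖cexp (I * φ) - z‖ ^ n := by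
      rw [Real.exp_nat_mul]
      gcongr
      linarith
    have p2 : Real.exp (n * (-(d / 10))) * (1 / 2) ≤ ‖cexp (I * φ) - z‖ ^ (n + 1) := by
      rw [pow_succ]
      gcongr
      linarith
    have hv : 0 < ‖cexp (I * φ) - z‖ := by linarith
    rw [norm_div, norm_pow, div_le_iff₀ (by positivity)]
    calc ‖F (cexp (I * φ))‖ ≤ ‖F 1‖ * Real.exp (-(κ / 2 * n)) := a1
      _ ≤ (‖F (z + 1)‖ * Real.exp (d / 10 * n)) * Real.exp (-(κ / 2 * n)) := by
          gcongr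
          exact a2.trans (by gcongr)
      _ = ‖F (z + 1)‖ * Real.exp (d / 10 * n + -(κ / 2 * n)) := by
          rw [Real.exp_add]; ring
      _ ≤ ‖F (z + 1)‖ * Real.exp (-(d ^ 2 / 5 * n) + n * (-(d / 10))) := by
          refine mul_le_mul_of_nonneg_left (Real.exp_le_exp.2 ?_) (norm_nonneg _)
          rw [hκ]
          nlinarith
      _ = 2 * (‖F (z + 1)‖ * Real.exp (-(d ^ 2 / 5 * n))) *
          (Real.exp (n * (-(d / 10))) * (1 / 2)) := by
          rw [Real.exp_add]; ring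
      _ ≤ _ := by gcongr
  · refine qb hκ hd0 hd hR hη hη1 hn hN hz (by rw [hre]; exact hc.le) (by rw [hnm]; norm_num)
      (by linarith) (le_trans ?_ hlow)
    rw [Complex.sub_re, hre]
    have hcos : Real.cos φ ≤ 1 - 49 / 100 * d ^ 2 := by
      have b1 : Real.cos φ ≤ Real.cos d := by
        rw [← Real.cos_abs φ]
        exact Real.cos_le_cos_of_nonneg_of_le_pi hd0.le
          (by linarith [Real.pi_pos]) h1
      have b2 := Real.cos_bound (x := d) (by rw [abs_of_pos hd0]; linarith)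
      have b3 := (abs_le.1 b2).2
      rw [abs_of_pos hd0] at b3
      have b4 : d ^ 4 ≤ d ^ 2 / 400 := by nlinarith
      linarith
    have e1 : Real.cos φ - z.re - 1 + d ^ 2 / 4 ≤ -(d ^ 2 / 5) := by
      linarith [hz1'.1]
    refine (Real.exp_le_exp.2 e1).trans ?_
    rw [Real.exp_neg, inv_le_comm₀ (Real.exp_pos _) (by linarith)]
    have h5 := Real.add_one_le_exp (d ^ 2 / 5 : ℝ)
    refine le_trans ?_ h5
    rw [inv_le_iff_one_le_mul₀ (by linarith)]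
    nlinarith

lemma conv {p A B M : ℝ} (hp : 0 ≤ p) (hp1 : p ≤ 1) (hA : |A| ≤ M) (hB : |B| ≤ M) :
    |p * A + (1 - p) * B| ≤ M := by
  calc |p * A + (1 - p) * B| ≤ |p * A| + |(1 - p) * B| := abs_add_le _ _
    _ = p * |A| + (1 - p) * |B| := by
        rw [abs_mul, abs_mul, abs_of_nonneg hp, abs_of_nonneg (by linarith : (0 : ℝ) ≤ 1 - p)]
    _ ≤ p * M + (1 - p) * M := by
        have : 0 ≤ 1 - p := by linarith
        gcongr
    _ = M := by ring

lemma sc (hd0 : 0 < d) (hd : d ≤ 1 / 20) : 1 - 51 / 100 * d ^ 2 ≤ Real.cos d ∧ Real.cos d ≤ 1 ∧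
    99 / 100 * d ≤ Real.sin d ∧ Real.sin d ≤ d := by
  obtain ⟨d1, d2, d3, d4, d5⟩ := dd hd0 hd
  have b2 := Real.cos_bound (x := d) (by rw [abs_of_pos hd0]; linarith)
  have b3 := Real.sin_bound (x := d) (by rw [abs_of_pos hd0]; linarith)
  rw [abs_of_pos hd0, abs_le] at b2 b3
  have b4 : d ^ 4 ≤ d ^ 2 / 400 := by nlinarith
  have b6 : d ^ 3 ≤ d / 400 := by nlinarith
  have b8 : d ^ 5 ≤ d ^ 3 / 400 := by nlinarith
  exact ⟨by linarith [b2.1], Real.cos_le_one d, by linarith [b3.1], Real.sin_le hd0.le⟩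

lemma exq (hd0 : 0 < d) (hd : d ≤ 1 / 20) {v : ℂ} (v1 : |v.re - 1| ≤ 6 / 10 * d ^ 2)
    (vim : (97 / 100 * d) ^ 2 ≤ v.im ^ 2) : Real.exp (v.re - 1 + d ^ 2 / 4) ≤ ‖v‖ := by
  obtain ⟨d1, d2, d3, d4, d5⟩ := dd hd0 hd
  have v1' := abs_le.1 v1
  have b4 : d ^ 4 ≤ d ^ 2 / 400 := by nlinarith
  have b7 : 0 ≤ d ^ 4 := by positivity
  refine ex (by linarith [v1'.2]) ?_
  obtain ⟨a, ha⟩ : ∃ a, a = v.re - 1 := ⟨_, rfl⟩
  obtain ⟨b, hb⟩ : ∃ b, b = v.im ^ 2 := ⟨_, rfl⟩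
  have e1 : v.re = 1 + a := by linarith
  rw [← ha] at v1' ⊢
  rw [← hb] at vim ⊢
  rw [e1]
  have hY : 0 ≤ 1 - (2 * a + 2 * (d ^ 2 / 4)) := by linarith [v1'.2]
  have ha2 : a ^ 2 ≤ 36 / 100 * d ^ 4 := by
    have : a ^ 2 ≤ (6 / 10 * d ^ 2) ^ 2 := by
      rw [← sq_abs a]
      exact pow_le_pow_left₀ (abs_nonneg a) (abs_le.2 v1') 2
    calc a ^ 2 ≤ (6 / 10 * d ^ 2) ^ 2 := this
      _ = _ := by ring
  have ha3 : a * d ^ 2 ≤ 6 / 10 * d ^ 4 := by
    calc a * d ^ 2 ≤ (6 / 10 * d ^ 2) * d ^ 2 := by gcongr; exact v1'.2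
      _ = _ := by ring
  have hp : (1 + 2 * a + 9 / 10 * d ^ 2) * (1 - (2 * a + 2 * (d ^ 2 / 4))) =
    1 + 4 / 10 * d ^ 2 - 4 * a ^ 2 - 28 / 10 * (a * d ^ 2) - 45 / 100 * d ^ 4 := by ring
  have hb1 : 9 / 10 * d ^ 2 ≤ b := by
    refine le_trans ?_ vim
    nlinarith
  calc (1 : ℝ) ≤ (1 + 2 * a + 9 / 10 * d ^ 2) * (1 - (2 * a + 2 * (d ^ 2 / 4))) := by
        rw [hp]
        linarith
    _ ≤ _ := by
        gcongr
        nlinarith [sq_nonneg a]

lemma segb (hκ : κ = 10 * d) (hd0 : 0 < d) (hd : d ≤ 1 / 20) (hR : 3 ≤ R) (hη : 0 < η)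
    (hη1 : η ≤ d ^ 2 / 100) (hn : 1 ≤ n) (hN : QQ κ R n η F)
    {z w0 : ℂ} (hz : ‖z‖ ≤ d ^ 3 / 10) (hw0 : ‖w0 - (z + 1)‖ ≤ d ^ 3 / 10)
    {σ : ℝ} (hσ : σ = 1 ∨ σ = -1) {w : ℂ}
    (hw : w ∈ segment ℝ (w0 + I * ((σ * d : ℝ) : ℂ)) (cexp (I * ((σ * d : ℝ) : ℂ)))) :
    ‖F w / (w - z) ^ (n + 1)‖ ≤ 2 * (‖F (z + 1)‖ * Real.exp (-(d ^ 2 / 5 * n))) := by
  obtain ⟨d1, d2, d3, d4, d5⟩ := dd hd0 hd
  have hz1' := abs_le.1 ((Complex.abs_re_le_norm z).trans hz)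
  have hz2' := abs_le.1 ((Complex.abs_im_le_norm z).trans hz)
  obtain ⟨p, q, hp, hq, hpq, rfl⟩ := hw
  have hd1 := abs_le.1 ((Complex.abs_re_le_norm _).trans hw0)
  have hd2 := abs_le.1 ((Complex.abs_im_le_norm _).trans hw0)
  have hre : (cexp (I * ((σ * d : ℝ) : ℂ))).re = Real.cos d := by
    rw [mul_comm, Complex.exp_ofReal_mul_I_re]
    rcases hσ with rfl | rfl
    · rw [one_mul]
    · rw [← Real.cos_neg]; congr 1; ring
  have him : (cexp (I * ((σ * d : ℝ) : ℂ))).im = σ * Real.sin d := by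
    rw [mul_comm, Complex.exp_ofReal_mul_I_im]
    rcases hσ with rfl | rfl
    · rw [one_mul, one_mul]
    · rw [show (-1 * d : ℝ) = -d by ring, Real.sin_neg]; ring
  obtain ⟨hc1, hc2, hs1, hs2⟩ := sc hd0 hd
  obtain ⟨c, hc⟩ : ∃ c, c = Real.cos d := ⟨_, rfl⟩
  obtain ⟨s, hs⟩ : ∃ s, s = Real.sin d := ⟨_, rfl⟩
  rw [← hc] at hre hc1 hc2
  rw [← hs] at him hs1 hs2
  set w := p • (w0 + I * ((σ * d : ℝ) : ℂ)) + q • cexp (I * ((σ * d : ℝ) : ℂ)) with hw
  have wre : w.re = p * w0.re + q * c := by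
    rw [hw, Complex.add_re, Complex.smul_re, Complex.smul_re, hre]
    simp
  have wim : w.im = p * (w0.im + σ * d) + q * (σ * s) := by
    rw [hw, Complex.add_im, Complex.smul_im, Complex.smul_im, him]
    simp
  simp only [Complex.sub_re, Complex.sub_im, Complex.add_re, Complex.add_im, Complex.one_re,
    Complex.one_im] at hd1 hd2
  have hq' : q = 1 - p := by linarith
  have hp1 : p ≤ 1 := by linarith
  -- the point `v = w - z`
  have v1 : |(w - z).re - 1| ≤ 6 / 10 * d ^ 2 := by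
    have e : (w - z).re - 1 = p * (w0.re - z.re - 1) + (1 - p) * (c - 1 - z.re) := by
      rw [Complex.sub_re, wre, hq']
      ring
    rw [e]
    refine conv hp hp1 ?_ ?_
    · rw [abs_le]; constructor <;> linarith [hd1.1, hd1.2]
    · rw [abs_le]; constructor <;> linarith [hz1'.1, hz1'.2]
  have v2 : |(w - z).im - σ * d| ≤ 3 / 100 * d := by
    have e : (w - z).im - σ * d = p * (w0.im - z.im) + (1 - p) * (σ * (s - d) - z.im) := by
      rw [Complex.sub_im, wim, hq']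
      ring
    rw [e]
    refine conv hp hp1 ?_ ?_
    · rw [abs_le]; constructor <;> linarith [hd2.1, hd2.2]
    · rw [abs_le]
      rcases hσ with rfl | rfl <;> constructor <;> linarith [hz2'.1, hz2'.2]
  have v1' := abs_le.1 v1
  have v2' := abs_le.1 v2
  have vim : (97 / 100 * d) ^ 2 ≤ (w - z).im ^ 2 := by
    rcases hσ with rfl | rfl
    · exact pow_le_pow_left₀ (by linarith) (by linarith [v2'.1]) 2
    · rw [← neg_sq (w - z).im]
      exact pow_le_pow_left₀ (by linarith) (by linarith [v2'.2]) 2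
  have vim2 : |(w - z).im| ≤ 2 * d := by
    rw [abs_le]
    rcases hσ with rfl | rfl <;> constructor <;> linarith [v2'.1, v2'.2]
  have wre1 : 1 - κ ≤ w.re := by
    rw [Complex.sub_re] at v1'
    linarith [v1'.1]
  have wn : ‖w‖ ≤ 3 / 2 := by
    have h := Complex.norm_le_abs_re_add_abs_im (w - z)
    have h2 : |(w - z).re| ≤ 1.1 := by rw [abs_le]; constructor <;> linarith [v1'.1, v1'.2]
    have h3 : ‖w‖ ≤ ‖w - z‖ + ‖z‖ := by
      have := norm_add_le (w - z) z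
      rwa [sub_add_cancel] at this
    linarith
  have hlow : 1 / 2 ≤ ‖w - z‖ := by
    have h := Complex.abs_re_le_norm (w - z)
    have h2 := le_abs_self ((w - z).re)
    linarith [v1'.1]
  exact qb hκ hd0 hd hR hη hη1 hn hN hz wre1 wn hlow (exq hd0 hd v1 vim)

end

end RTAux

end Pool.Agent.H986R2.K4
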