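import Pool.Agent.H24R2.DZ.Spec

set_option autoImplicit false

/-!
# The zeros of the derivatives of the Riemann xi function up to height `exp (κ n)`

For every `κ < 4` all zeros of `ξ^(n)` with `|Im s| ≤ exp (κ n)` are simple and on the critical line
(`n` large), and the constant `4` can be improved if and only if zeta has a zero-free half-plane
`Re s > θ`, `θ < 1` (equivalently: power saving for the Mertens function).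

Every task is one `Prop` below (`S_...`); a task proves it, possibly from others given as hypotheses.
`XX z = 8 ξ(1/2 + z)`, `XX z = HH z * ζ(1/2 + z)`, `Om t = (log t)/2`.
-/

namespace Pool.Agent.H986R2.K4

open Complex Filter Topology MeasureTheory Set
open Pool.Agent.H24R2.JP (XX HH Om)
open Pool.Agent.H24R2.DZ (bad hc)

/-! ## A. Inputs from zeta -/

/-- Control of zeta to the right of `Re s = 1/2 + y`. -/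
def ZB (y : ℝ) : Prop := ∀ ε : ℝ, 0 < ε → ∃ t1 : ℝ, 2 ≤ t1 ∧ ∀ s : ℂ, 1 / 2 + y + ε ≤ s.re → t1 ≤ s.im →
  riemannZeta s ≠ 0 ∧ ‖logDeriv riemannZeta s‖ ≤ ε * Real.log s.im ∧
  s.im ^ (-ε) ≤ ‖riemannZeta s‖ ∧ ‖riemannZeta s‖ ≤ s.im ^ ε

def S_A1 : Prop := ZB (1 / 2)

/-- Pure complex analysis: Borel-Caratheodory and three circles. -/
def S_SAB : Prop := ∀ η0 η K0 : ℝ, 0 < η0 → η0 ≤ 1 / 4 → 0 < η → 0 < K0 → ∃ ε : ℝ, 0 < ε ∧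
  ∀ (L : ℝ) (g : ℂ → ℂ), 1 ≤ L →
  (∀ u : ℂ, 0 < u.re → u.re ≤ 10 → |u.im| ≤ 10 →
    DifferentiableAt ℂ g u ∧ g u ≠ 0 ∧ ‖g u‖ ≤ Real.exp (K0 * L)) →
  (∀ u : ℂ, 3 / 2 ≤ u.re → u.re ≤ 10 → |u.im| ≤ 10 →
    Real.exp (-(ε * L)) ≤ ‖g u‖ ∧ ‖g u‖ ≤ Real.exp (ε * L)) →
  ∀ u : ℂ, η0 ≤ u.re → u.re ≤ 3 → |u.im| ≤ 3 →
    ‖logDeriv g u‖ ≤ η * L ∧ Real.exp (-(η * L)) ≤ ‖g u‖ ∧ ‖g u‖ ≤ Real.exp (η * L)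

def S_A2 : Prop := ∀ y : ℝ, 0 ≤ y → y < 1 / 2 → (∀ s : ℂ, 1 / 2 + y < s.re → riemannZeta s ≠ 0) → ZB y

/-- Size of `HH`. -/
def S_HH : Prop := ∃ K : ℝ, 1 ≤ K ∧ ∀ R : ℝ, 1 ≤ R → ∃ T0 : ℝ, 2 ≤ T0 ∧ ∀ (t : ℝ) (u : ℂ), T0 ≤ t →
  ‖u‖ ≤ R → DifferentiableAt ℂ HH (I * t + u) ∧ HH (I * t + u) ≠ 0 ∧
    ‖logDeriv HH (I * t + u) - (Om t : ℂ)‖ ≤ K ∧
    Real.exp (Om t * u.re - K * R) * ‖HH (I * t)‖ ≤ ‖HH (I * t + u)‖ ∧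
    ‖HH (I * t + u)‖ ≤ Real.exp (Om t * u.re + K * R) * ‖HH (I * t)‖

/-- Convexity bound (Phragmen-Lindelof). -/
def S_PL : Prop := ∀ x0 ν C t1 R : ℝ, 0 < x0 → x0 ≤ 1 → 0 ≤ ν → ν ≤ 1 → 0 < C → 1 ≤ t1 → 1 ≤ R →
  (∀ t : ℝ, t1 ≤ t → ‖riemannZeta (1 / 2 + x0 + t * I)‖ ≤ C * t ^ ν) →
  ∃ C' T0 : ℝ, 0 < C' ∧ 2 ≤ T0 ∧ ∀ (t : ℝ) (u : ℂ), T0 ≤ t → |u.re| ≤ x0 → |u.im| ≤ R →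
    ‖XX (I * t + u)‖ ≤ C' * t ^ ν * (Real.exp (x0 * Om t) * ‖HH (I * t)‖)

/-! ## B. The local theorem -/

/-- The normalised local situation: `F z = XX (i t + r z)`, `r = n / Om t`. -/
structure QQ (κ R : ℝ) (n : ℕ) (η : ℝ) (F : ℂ → ℂ) : Prop where
  diff : Differentiable ℂ F
  symm : ∀ z : ℂ, F (-((starRingEnd ℂ) z)) = (starRingEnd ℂ) (F z)
  far : ∀ z : ℂ, 1 - κ ≤ z.re → ‖z‖ ≤ R → F z ≠ 0 ∧ ‖logDeriv F z - n‖ ≤ η * n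
  near : ∀ z : ℂ, |z.re| ≤ 1 - κ → ‖z‖ ≤ R → ‖F z‖ ≤ ‖F 1‖ * Real.exp (-(κ / 2 * n))

def S_NORM : Prop := ∀ y r0 : ℝ, 0 ≤ y → y ≤ 1 / 2 → ZB y → y < r0 → r0 ≤ 1 →
  ∃ κ : ℝ, 0 < κ ∧ κ ≤ 1 / 2 ∧ ∀ R η : ℝ, 3 ≤ R → 0 < η → ∃ T0 : ℝ, 2 ≤ T0 ∧ ∀ (t : ℝ) (n : ℕ), T0 ≤ t →
    r0 * Om t ≤ n → (n : ℝ) ≤ 2 * r0 * Om t →
    QQ κ R n η (fun z => XX (I * t + ((n / Om t : ℝ) : ℂ) * z))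

/-- Laplace's method on a ball of arbitrary radius (generalises `DZ.SLap`, which is `ρ = 1/2`). -/
def S_LAP : Prop := ∀ ρ κ' : ℝ, 0 < ρ → ρ ≤ 1 / 2 → 0 < κ' → κ' ≤ ρ / 1000 →
  ∃ η c C : ℝ, ∃ n0 : ℕ, 0 < η ∧ 0 < c ∧ 0 < C ∧ 1 ≤ n0 ∧
  ∀ n : ℕ, n0 ≤ n → ∀ (p : ℂ) (F : ℂ → ℂ),
  (∀ w ∈ Metric.ball (p + 1) ρ, DifferentiableAt ℂ F w ∧ F w ≠ 0 ∧ ‖logDeriv F w - n‖ ≤ η * n) →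
  ∃ w0 : ℂ, ‖w0 - (p + 1)‖ ≤ κ' ∧ logDeriv F w0 * (w0 - p) = n + 1 ∧
    Real.exp (-(κ' * n)) * ‖F (p + 1)‖ ≤ ‖F w0 / (w0 - p) ^ (n + 1)‖ ∧
    (∀ y : ℝ, |y| ≤ ρ / 5 → ‖F (w0 + I * y) / (w0 + I * y - p) ^ (n + 1)‖ ≤
      Real.exp (-(n * y ^ 2 / 4)) * ‖F w0 / (w0 - p) ^ (n + 1)‖) ∧
    c / Real.sqrt n * ‖F w0 / (w0 - p) ^ (n + 1)‖ ≤
      ‖∫ y in (-(ρ / 5) : ℝ)..(ρ / 5), F (w0 + I * y) / (w0 + I * y - p) ^ (n + 1)‖ ∧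
    ∫ y in (-(ρ / 5) : ℝ)..(ρ / 5), ‖F (w0 + I * y) / (w0 + I * y - p) ^ (n + 1)‖ * |y| ≤
      C / n * ‖F w0 / (w0 - p) ^ (n + 1)‖

/-- Away from the line. -/
def S_AW : Prop := ∀ κ R κ1 : ℝ, 0 < κ → κ ≤ 1 / 2 → 3 ≤ R → 0 < κ1 → κ1 ≤ κ / 2 →
  ∃ η : ℝ, ∃ n0 : ℕ, 0 < η ∧ ∀ (n : ℕ) (F : ℂ → ℂ), n0 ≤ n → QQ κ R n η F →
    ∀ x : ℝ, κ1 ≤ |x| → |x| ≤ R - 2 → iteratedDeriv n F x ≠ 0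

/-- The right half of Cauchy's integral near the line. -/
def S_RT : Prop := ∀ κ R : ℝ, 0 < κ → κ ≤ 1 / 2 → 3 ≤ R →
  ∃ κ1 η : ℝ, ∃ n0 : ℕ, 0 < κ1 ∧ κ1 ≤ κ / 2 ∧ 0 < η ∧ ∀ (n : ℕ) (F : ℂ → ℂ), n0 ≤ n → QQ κ R n η F →
    ∀ x : ℝ, |x| ≤ κ1 → hc F (n + 1) x ≠ 0 ∧ 0 < (hc F (n + 2) x / hc F (n + 1) x).re

/-- Near the line. -/
def S_NL : Prop := ∀ κ R : ℝ, 0 < κ → κ ≤ 1 / 2 → 3 ≤ R →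
  ∃ κ1 η : ℝ, ∃ n0 : ℕ, 0 < κ1 ∧ κ1 ≤ κ / 2 ∧ 0 < η ∧ ∀ (n : ℕ) (F : ℂ → ℂ), n0 ≤ n → QQ κ R n η F →
    ∀ x : ℝ, |x| ≤ κ1 → iteratedDeriv n F x = 0 → x = 0 ∧ iteratedDeriv (n + 1) F x ≠ 0

/-- No bad zeros at height `t` for `n ∈ [r0 Om t, 2 r0 Om t]`. -/
def NoBad (r0 : ℝ) : Prop := ∃ T0 : ℝ, 2 ≤ T0 ∧ ∀ (t : ℝ) (n : ℕ), T0 ≤ t →
  r0 * Om t ≤ n → (n : ℝ) ≤ 2 * r0 * Om t → ∀ s : ℂ, s.im = t → ¬ bad n s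

def S_WIN : Prop := ∀ y r0 : ℝ, 0 ≤ y → y ≤ 1 / 2 → ZB y → y < r0 → r0 ≤ 1 → NoBad r0

/-- All zeros up to height `exp (κ n)` are good. -/
def UpTo (κ : ℝ) : Prop := ∃ N : ℕ, ∀ n : ℕ, N ≤ n → ∀ s : ℂ, |s.im| ≤ Real.exp (κ * n) → ¬ bad n s

def S_CH : Prop := ∀ r0 κ : ℝ, 0 < r0 → r0 ≤ 1 → NoBad r0 → κ * r0 < 2 → UpTo κ

/-- The forward theorem. -/
def S_FWD : Prop := ∀ y κ : ℝ, 0 ≤ y → y ≤ 1 / 2 → ZB y → κ * y < 2 → UpTo κ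

/-! ## C. The converse -/

/-- Van der Corput: `μ(σ) = o(1 - σ)` as `σ → 1`. -/
def S_VDC : Prop := ∀ δ : ℝ, 0 < δ → ∃ e0 : ℝ, 0 < e0 ∧ e0 ≤ 1 / 4 ∧ ∀ e : ℝ, 0 < e → e ≤ e0 →
  ∃ C : ℝ, 0 < C ∧ ∀ t : ℝ, 2 ≤ t → ‖riemannZeta (1 - e + t * I)‖ ≤ C * t ^ (δ * e)

/-- Zeros near the edge have large height. -/
def S_V0 : Prop := (∀ y : ℝ, y < 1 / 2 → ∃ s : ℂ, 1 / 2 + y < s.re ∧ riemannZeta s = 0) →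
  ∀ ε T1 : ℝ, 0 < ε → ∃ s : ℂ, riemannZeta s = 0 ∧ 1 - ε < s.re ∧ s.re < 1 ∧ T1 ≤ s.im

/-- Derivatives at a point whose whole neighbourhood is controlled. -/
def S_LL : Prop := ∀ ε : ℝ, 0 < ε → ∃ η : ℝ, ∃ n0 : ℕ, 0 < η ∧ 1 ≤ n0 ∧
  ∀ (n : ℕ) (p : ℂ) (F : ℂ → ℂ), n0 ≤ n →
  (∀ w ∈ Metric.ball p (3 / 2), DifferentiableAt ℂ F w ∧ F w ≠ 0 ∧ ‖logDeriv F w - n‖ ≤ η * n) →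
  Real.exp ((1 - ε) * n) * ((n.factorial : ℝ) * ‖F p‖) ≤ ‖iteratedDeriv n F p‖ ∧
  ‖iteratedDeriv n F p‖ ≤ Real.exp ((1 + ε) * n) * ((n.factorial : ℝ) * ‖F p‖)

/-- The derivative far to the right. -/
def S_RG : Prop := ∀ r0 r1 ε : ℝ, 0 < r0 → r0 ≤ r1 → r1 ≤ 1 / 2 → 0 < ε → ∃ T0 : ℝ, 2 ≤ T0 ∧
  ∀ (t : ℝ) (n : ℕ), T0 ≤ t → r0 * Om t ≤ n → (n : ℝ) ≤ r1 * Om t →
  ∀ u : ℂ, 3 / 2 ≤ u.re → u.re ≤ 10 → |u.im| ≤ 10 →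
    t ^ (-ε) * (Om t ^ n * ‖HH (I * t + u)‖) ≤ ‖iteratedDeriv n XX (I * t + u)‖ ∧
    ‖iteratedDeriv n XX (I * t + u)‖ ≤ t ^ ε * (Om t ^ n * ‖HH (I * t + u)‖)

/-- Upper bound for the derivative. -/
def S_UB : Prop := ∀ r0 r1 : ℝ, 0 < r0 → r0 ≤ r1 → r1 ≤ 1 → ∃ K T0 : ℝ, 1 ≤ K ∧ 2 ≤ T0 ∧
  ∀ (t : ℝ) (n : ℕ), T0 ≤ t → r0 * Om t ≤ n → (n : ℝ) ≤ r1 * Om t →
  ∀ u : ℂ, |u.re| ≤ 10 → |u.im| ≤ 10 →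
    ‖iteratedDeriv n XX (I * t + u)‖ ≤ t ^ K * (Om t ^ n * ‖HH (I * t)‖)

/-- If all zeros near height `t` are on the line, the logarithmic derivative is `Om t (1 + o(1))`. -/
def S_GR : Prop := ∀ r0 r1 η0 η : ℝ, 0 < r0 → r0 ≤ r1 → r1 ≤ 1 / 2 → 0 < η0 → η0 ≤ 1 / 4 → 0 < η →
  ∃ T0 : ℝ, 2 ≤ T0 ∧ ∀ (t : ℝ) (n : ℕ), T0 ≤ t → r0 * Om t ≤ n → (n : ℝ) ≤ r1 * Om t →
  (∀ s : ℂ, iteratedDeriv n XX s = 0 → |s.im - t| ≤ 20 → s.re = 0) →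
  ∀ u : ℂ, η0 ≤ u.re → u.re ≤ 1 → |u.im| ≤ 1 →
    iteratedDeriv n XX (I * t + u) ≠ 0 ∧
    ‖logDeriv (iteratedDeriv n XX) (I * t + u) - (Om t : ℂ)‖ ≤ η * Om t ∧
    t ^ (-η) * (Om t ^ n * ‖HH (I * t + u)‖) ≤ ‖iteratedDeriv n XX (I * t + u)‖

/-- Laplace's method along the real direction. -/
def S_LR : Prop := ∀ κ' ρ c0 : ℝ, 0 < κ' → 0 < ρ → ρ ≤ 1 / 2 → 0 < c0 → ∃ η : ℝ, ∃ n0 : ℕ,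
  0 < η ∧ 1 ≤ n0 ∧ ∀ (n : ℕ) (Y : ℝ) (F : ℂ → ℂ), n0 ≤ n → 1 + c0 ≤ Y → Y ≤ 100 →
  (∀ y : ℝ, 0 ≤ y → y ≤ Y → ∀ w ∈ Metric.ball (y : ℂ) ρ,
    DifferentiableAt ℂ F w ∧ F w ≠ 0 ∧ ‖logDeriv F w + n‖ ≤ η * n) →
  Real.exp (-(κ' * n)) * ‖F 1‖ ≤ ‖∫ y in (0 : ℝ)..Y, F y * (y : ℂ) ^ (n - 1)‖

/-- Taylor's formula and Cauchy's inequality. -/
def S_TAY : Prop := ∀ (g : ℂ → ℂ) (p : ℂ) (x ρ M : ℝ) (n : ℕ), Differentiable ℂ g → 1 ≤ n → 0 < ρ →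
  ρ ≤ x → (∀ w ∈ Metric.closedBall (p - x) ρ, ‖g w‖ ≤ M) →
  ‖g p - ∫ v in (0 : ℝ)..x, iteratedDeriv n g (p - v) * ((v : ℂ) ^ (n - 1) / ((n - 1).factorial : ℂ))‖ ≤
    n * (x / ρ) ^ n * M

/-- The converse theorem. -/
def S_CONV : Prop := ∀ κ : ℝ, 4 < κ →
  (∃ N : ℕ, ∀ n : ℕ, N ≤ n → ∀ s : ℂ, iteratedDeriv n XX s = 0 → |s.im| ≤ Real.exp (κ * n) → s.re = 0) →
  ∃ y : ℝ, y < 1 / 2 ∧ ∀ s : ℂ, 1 / 2 + y < s.re → riemannZeta s ≠ 0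

/-! ## D. The Mertens function -/

/-- The Mertens function. -/
noncomputable def Mer (x : ℝ) : ℝ := ∑ n ∈ Finset.Icc 1 ⌊x⌋₊, ((ArithmeticFunction.moebius n : ℤ) : ℝ)

def S_MER : Prop :=
  (∀ θ : ℝ, 1 / 2 ≤ θ → θ < 1 → (∀ s : ℂ, θ < s.re → riemannZeta s ≠ 0) →
    ∀ θ' : ℝ, θ < θ' → ∃ C : ℝ, ∀ x : ℝ, 1 ≤ x → |Mer x| ≤ C * x ^ θ') ∧
  (∀ θ C : ℝ, 0 < θ → (∀ x : ℝ, 1 ≤ x → |Mer x| ≤ C * x ^ θ) →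
    ∀ s : ℂ, θ < s.re → riemannZeta s ≠ 0)

/-! ## E. The final statement -/

/-- The Riemann xi function `s (s - 1) π^(-s/2) Γ(s/2) ζ(s) / 2`. -/
noncomputable def xi (s : ℂ) : ℂ := s * (s - 1) / 2 * completedRiemannZeta₀ s + 1 / 2

/-- For all large `n` every zero of `ξ^(n)` up to height `exp (κ n)` is simple and on the line. -/
def OnLine (κ : ℝ) : Prop := ∃ N : ℕ, ∀ n : ℕ, N ≤ n → ∀ s : ℂ, iteratedDeriv n xi s = 0 →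
  |s.im| ≤ Real.exp (κ * n) → s.re = 1 / 2 ∧ iteratedDeriv (n + 1) xi s ≠ 0

def S_XI : Prop := (∀ κ : ℝ, OnLine κ ↔ UpTo κ) ∧
  ∀ (n : ℕ) (s : ℂ), iteratedDeriv n xi s = 0 ↔ iteratedDeriv n XX (s - 1 / 2) = 0

def S_FINAL : Prop :=
  (∀ κ : ℝ, κ < 4 → OnLine κ) ∧
  (∀ θ : ℝ, 1 / 2 ≤ θ → θ < 1 → (∀ θ' : ℝ, θ < θ' → ∃ C : ℝ, ∀ x : ℝ, 1 ≤ x → |Mer x| ≤ C * x ^ θ') →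
    ∀ κ : ℝ, κ * (θ - 1 / 2) < 2 → OnLine κ) ∧
  ((∃ κ : ℝ, 4 < κ ∧ OnLine κ) ↔ ∃ θ C : ℝ, θ < 1 ∧ ∀ x : ℝ, 1 ≤ x → |Mer x| ≤ C * x ^ θ)

end Pool.Agent.H986R2.K4
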