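import Pool.Agent.H986R2.K4.Spec

set_option autoImplicit false

/-!
# The gaps between the zeros of the derivatives of the Riemann xi function

For `n ≥ (1/4 + ε) log T` (under RH for `n ≥ ε log T`) all gaps between consecutive zeros of `ξ^(n)` at
height `T` are `(1 + o(1)) 2 π / log T`.
-/

namespace Pool.Agent.H986R2.K4

open Complex Filter Topology MeasureTheory Set
open Pool.Agent.H24R2.JP (XX HH Om)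
open Pool.Agent.H24R2.DZ (bad hc)

/-- The right half of Cauchy's integral near the centre (complex `z`, precise ratio). -/
def G_RT : Prop := ∀ κ R ε : ℝ, 0 < κ → κ ≤ 1 / 2 → 3 ≤ R → 0 < ε →
  ∃ κ1 η : ℝ, ∃ n0 : ℕ, 0 < κ1 ∧ κ1 ≤ κ / 2 ∧ 0 < η ∧ ∀ (n : ℕ) (F : ℂ → ℂ), n0 ≤ n → QQ κ R n η F →
    ∀ z : ℂ, ‖z‖ ≤ κ1 → hc F (n + 1) z ≠ 0 ∧ ‖hc F (n + 2) z / hc F (n + 1) z - 1‖ ≤ ε

/-- `a < b` are consecutive zeros of `g` on the real line. -/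
def Consec (g : ℝ → ℂ) (a b : ℝ) : Prop := a < b ∧ g a = 0 ∧ g b = 0 ∧ ∀ y : ℝ, a < y → y < b → g y ≠ 0

/-- Zeros of `G ± conj G` for a function `G` with nearly constant angular speed. -/
def G_PH : Prop := ∀ (G q : ℝ → ℂ) (Ω ε A s : ℝ), 0 < Ω → 0 < ε → ε ≤ 1 / 4 → 0 < A → (s = 1 ∨ s = -1) →
  (∀ y : ℝ, |y| ≤ A → G y ≠ 0 ∧ HasDerivAt G (I * (Ω : ℂ) * q y * G y) y ∧ ‖q y - 1‖ ≤ ε) →
  (∀ a b : ℝ, -A ≤ a → b ≤ A → Consec (fun y => G y + (s : ℂ) * (starRingEnd ℂ) (G y)) a b →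
    |Ω * (b - a) / Real.pi - 1| ≤ 2 * ε) ∧
  (∀ a : ℝ, -A ≤ a → a + 2 * Real.pi / Ω ≤ A → ∃ b : ℝ, a < b ∧ b ≤ a + 2 * Real.pi / Ω ∧
    G b + (s : ℂ) * (starRingEnd ℂ) (G b) = 0)

/-- The local gap theorem. -/
def G_LOC : Prop := ∀ κ R ε : ℝ, 0 < κ → κ ≤ 1 / 2 → 3 ≤ R → 0 < ε →
  ∃ η : ℝ, ∃ n0 : ℕ, 0 < η ∧ ∀ (n : ℕ) (F : ℂ → ℂ), n0 ≤ n → QQ κ R n η F →
    ∀ b : ℝ, Consec (fun y : ℝ => iteratedDeriv n F (I * y)) 0 b → |n * b / Real.pi - 1| ≤ ε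

/-- Gaps for `XX`. -/
def G_WIN : Prop := ∀ y r0 ε : ℝ, 0 ≤ y → y ≤ 1 / 2 → ZB y → y < r0 → r0 ≤ 1 → 0 < ε →
  ∃ T0 : ℝ, 2 ≤ T0 ∧ ∀ (a b : ℝ) (n : ℕ), T0 ≤ a → r0 * Om a ≤ n → (n : ℝ) ≤ 2 * r0 * Om a →
    Consec (fun y : ℝ => iteratedDeriv n XX (I * y)) a b → |(b - a) * Om a / Real.pi - 1| ≤ ε

/-- The final statement: ordinates of the zeros of `ξ^(n)` on the line. -/
def G_FINAL : Prop := ∀ θ ε : ℝ, 1 / 2 ≤ θ → θ ≤ 1 → (∀ s : ℂ, θ < s.re → riemannZeta s ≠ 0) → 0 < ε →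
  ∃ T0 : ℝ, 2 ≤ T0 ∧ ∀ (a b : ℝ) (n : ℕ), T0 ≤ a → ((θ - 1 / 2) / 2 + ε) * Real.log a ≤ n →
    (n : ℝ) ≤ Real.log a →
    (∀ s : ℂ, iteratedDeriv n xi s = 0 → s.im = a → s.re = 1 / 2 ∧ iteratedDeriv (n + 1) xi s ≠ 0) ∧
    (Consec (fun y : ℝ => iteratedDeriv n xi (1 / 2 + I * y)) a b →
      |(b * Real.log b - a * Real.log a) / (2 * Real.pi) - 1| ≤ ε)

end Pool.Agent.H986R2.K4
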